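import Pool.Statements.S00170

/-!
# A polynomial with contractible zero set whose fibres are pairwise non-isomorphic

Let `P = y ((y^2 - 1) z + (1 + y) x^2 + (1 - y) x^3)` in `ℂ[x, y, z]`.

* The zero set of `P` is contractible: the explicit polynomial homotopy `eval_P_homotopy`
  retracts it onto the line `x = z = 0`.
* On a fibre `F_c = {P = c}` with `c ≠ 0` the function `y` is a unit and `F_c → ℂ^*` has fibres
  an affine line over `y ≠ 1, -1`, two lines over `y = 1` and three lines over `y = -1`.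
  An isomorphism `F_c ≅ F_d` respects these fibrations and special fibres and is affine in `x`
  along the fibres, with linear coefficient a unit `k y ^ n` of `ℂ[y, 1/y]`. Comparing the roots of
  `2 x ^ 2 = c` and `- 2 x ^ 3 = c` with those for `d` gives `k ^ 2 = d / c` and
  `k ^ 6 = (d / c) ^ 2`, hence `c = d`.
-/

set_option autoImplicit false
open Pool Pool.MP_4658d5_ag

namespace Pool.Agent.S00170

open MvPolynomial

/-- the polynomial `y((y^2-1)z + (1+y)x^2 + (1-y)x^3)` -/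
noncomputable def P : MvPolynomial (Fin 3) ℂ :=
  X 1 * ((X 1 ^ 2 - 1) * X 2 + (1 + X 1) * X 0 ^ 2 + (1 - X 1) * X 0 ^ 3)

lemma eval_P (v : Fin 3 → ℂ) :
    eval v P = v 1 * ((v 1 ^ 2 - 1) * v 2 + (1 + v 1) * v 0 ^ 2 + (1 - v 1) * v 0 ^ 3) := by
  simp [P]

/-- contraction formula -/
lemma eval_P_homotopy (v : Fin 3 → ℂ) (s : ℂ) :
    eval ![s * v 0, v 1, s ^ 3 * ((v 0 ^ 3 - v 0 ^ 2 - (v 1 - 1) * v 2) / 2)
      - s ^ 2 * ((v 0 ^ 3 - v 0 ^ 2 - (v 1 + 1) * v 2) / 2)] P
      = eval v P * ((s ^ 2 * (v 1 + 1) - s ^ 3 * (v 1 - 1)) / 2) := by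
  rw [eval_P, eval_P]
  simp
  ring

lemma cont_vec3 {Y : Type*} [TopologicalSpace Y] {a b c : Y → ℂ}
    (ha : Continuous a) (hb : Continuous b) (hc : Continuous c) :
    Continuous (fun y => (![a y, b y, c y] : Fin 3 → ℂ)) := by
  refine continuous_pi fun i => ?_
  fin_cases i
  · simpa using ha
  · simpa using hb
  · simpa using hc

lemma contr : ContractibleSpace {x : Fin 3 → ℂ // eval x P = 0} := by
  rw [contractible_iff_id_nullhomotopic]
  refine ⟨⟨fun _ => 0, by rw [eval_P]; simp⟩, ?_⟩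
  -- intermediate retraction
  let r : C({x : Fin 3 → ℂ // eval x P = 0}, {x : Fin 3 → ℂ // eval x P = 0}) :=
    ⟨fun v => ⟨![0, v.1 1, 0], by rw [eval_P]; simp⟩, by
      have c1 : Continuous (fun v : {x : Fin 3 → ℂ // eval x P = 0} => v.1 1) :=
        (continuous_apply 1).comp continuous_subtype_val
      exact Continuous.subtype_mk (cont_vec3 continuous_const c1 continuous_const) _⟩
  have ct : Continuous (fun tv : unitInterval × {x : Fin 3 → ℂ // eval x P = 0} =>
      (1 - (((tv.1 : unitInterval) : ℝ) : ℂ))) :=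
    continuous_const.sub (Complex.continuous_ofReal.comp (continuous_subtype_val.comp continuous_fst))
  have cc : ∀ i : Fin 3, Continuous (fun tv : unitInterval × {x : Fin 3 → ℂ // eval x P = 0} =>
      tv.2.1 i) := fun i =>
    (continuous_apply i).comp (continuous_subtype_val.comp continuous_snd)
  have c0 := cc 0
  have c1 := cc 1
  have c2 := cc 2
  have h1 : (ContinuousMap.id {x : Fin 3 → ℂ // eval x P = 0}).Homotopic r := by
    refine ⟨⟨⟨fun tv => ⟨![(1 - (((tv.1 : unitInterval) : ℝ) : ℂ)) * tv.2.1 0, tv.2.1 1,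
        (1 - (((tv.1 : unitInterval) : ℝ) : ℂ)) ^ 3 *
          ((tv.2.1 0 ^ 3 - tv.2.1 0 ^ 2 - (tv.2.1 1 - 1) * tv.2.1 2) / 2)
        - (1 - (((tv.1 : unitInterval) : ℝ) : ℂ)) ^ 2 *
          ((tv.2.1 0 ^ 3 - tv.2.1 0 ^ 2 - (tv.2.1 1 + 1) * tv.2.1 2) / 2)],
        ?_⟩, ?_⟩, ?_, ?_⟩⟩
    · rw [eval_P_homotopy, tv.2.2, zero_mul]
    · refine Continuous.subtype_mk (cont_vec3 (ct.mul c0) c1 ?_) _
      exact ((ct.pow 3).mul ((((c0.pow 3).sub (c0.pow 2)).sub
        ((c1.sub continuous_const).mul c2)).div_const 2)).sub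
        ((ct.pow 2).mul ((((c0.pow 3).sub (c0.pow 2)).sub
        ((c1.add continuous_const).mul c2)).div_const 2))
    · intro v
      apply Subtype.ext
      funext i
      fin_cases i
      · simp
      · simp
      · simp
        ring
    · intro v
      apply Subtype.ext
      funext i
      fin_cases i
      · simp [r]
      · simp [r]
      · simp [r]
  have h2 : r.Homotopic (ContinuousMap.const _ ⟨fun _ => 0, by rw [eval_P]; simp⟩) := by
    refine ⟨⟨⟨fun tv => ⟨![0, (1 - (((tv.1 : unitInterval) : ℝ) : ℂ)) * tv.2.1 1, 0],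
        by rw [eval_P]; simp⟩, ?_⟩, ?_, ?_⟩⟩
    · exact Continuous.subtype_mk (cont_vec3 continuous_const (ct.mul c1) continuous_const) _
    · intro v
      apply Subtype.ext
      funext i
      fin_cases i
      · simp [r]
      · simp [r]
      · simp [r]
    · intro v
      apply Subtype.ext
      funext i
      fin_cases i
      · simp
      · simp
      · simp
  exact h1.trans h2

/-! ### One-variable polynomials -/

lemma const_of_no_root (Q : Polynomial ℂ) (h : ∀ t, Q.eval t ≠ 0) : ∃ k, ∀ t, Q.eval t = k := by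
  by_cases hd : Q.degree = 0
  · rw [Polynomial.eq_C_of_degree_eq_zero hd]
    exact ⟨Q.coeff 0, fun t => by simp⟩
  · obtain ⟨t, ht⟩ := IsAlgClosed.exists_root Q hd
    exact absurd ht (h t)

lemma const_of_pow (Q : Polynomial ℂ) (n : ℕ) (hn : n ≠ 0) (K : ℂ)
    (h : ∀ t, (Q.eval t) ^ n = K) : ∃ k, ∀ t, Q.eval t = k := by
  have h1 : Q ^ n = Polynomial.C K := by
    apply Polynomial.funext
    intro t
    simp [h t]
  have h2 : Q.natDegree = 0 := by
    have := congrArg Polynomial.natDegree h1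
    rw [Polynomial.natDegree_pow, Polynomial.natDegree_C] at this
    rcases Nat.mul_eq_zero.mp this with h | h
    · exact absurd h hn
    · exact h
  rw [Polynomial.eq_C_of_natDegree_eq_zero h2]
  exact ⟨Q.coeff 0, fun t => by simp⟩

lemma eq_of_agree (A B : Polynomial ℂ)
    (h : ∀ y : ℂ, y ≠ 0 → y ^ 2 ≠ 1 → A.eval y = B.eval y) : A = B := by
  apply Polynomial.eq_of_infinite_eval_eq
  have hfin : ({0, 1, -1} : Set ℂ).Finite := by
    exact Set.toFinite _
  refine (hfin.infinite_compl).mono ?_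
  intro y hy
  simp only [Set.mem_compl_iff, Set.mem_insert_iff, Set.mem_singleton_iff, not_or] at hy
  refine h y hy.1 ?_
  intro h2
  rcases mul_eq_zero.mp (show (y - 1) * (y + 1) = 0 by linear_combination h2) with h3 | h3
  · exact hy.2.1 (by linear_combination h3)
  · exact hy.2.2 (by linear_combination h3)

/-- a polynomial without nonzero roots is a monomial -/
lemma monomial_of_no_root (Q : Polynomial ℂ) (h : ∀ t, t ≠ 0 → Q.eval t ≠ 0) :
    ∃ (k : ℂ) (n : ℕ), ∀ t, Q.eval t = k * t ^ n := by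
  have hQ : Q ≠ 0 := by
    rintro rfl
    exact h 1 one_ne_zero (by simp)
  obtain ⟨R, hR1, hR2⟩ := Polynomial.exists_eq_pow_rootMultiplicity_mul_and_not_dvd Q hQ 0
  have hR : ∀ t, R.eval t ≠ 0 := by
    intro t ht
    by_cases h0 : t = 0
    · subst h0
      exact hR2 (Polynomial.dvd_iff_isRoot.mpr ht)
    · apply h t h0
      rw [hR1]
      simp [ht]
  obtain ⟨k, hk⟩ := const_of_no_root R hR
  refine ⟨k, Q.rootMultiplicity 0, fun t => ?_⟩
  conv_lhs => rw [hR1]
  simp [hk]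
  ring

/-! ### Evaluating multivariate polynomials along curves -/

lemma eval_curve (a : Fin 3 → Polynomial ℂ) (h : MvPolynomial (Fin 3) ℂ) (t : ℂ) :
    (MvPolynomial.aeval a h).eval t = MvPolynomial.eval (fun i => (a i).eval t) h := by
  induction h using MvPolynomial.induction_on with
  | C k => simp
  | add p q hp hq => simp [hp, hq]
  | mul_X p i hp => simp [hp]

lemma rat_curve (a b m e : Polynomial ℂ) (h : MvPolynomial (Fin 3) ℂ) :
    ∃ (N : ℕ) (R : Polynomial ℂ), ∀ y, e.eval y ≠ 0 →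
      eval ![a.eval y, b.eval y, m.eval y / e.eval y] h * (e.eval y) ^ N = R.eval y := by
  induction h using MvPolynomial.induction_on with
  | C k => exact ⟨0, Polynomial.C k, fun y _ => by simp⟩
  | add p q hp hq =>
    obtain ⟨N1, R1, h1⟩ := hp
    obtain ⟨N2, R2, h2⟩ := hq
    refine ⟨N1 + N2, R1 * e ^ N2 + R2 * e ^ N1, fun y hy => ?_⟩
    have e1 := h1 y hy
    have e2 := h2 y hy
    simp only [map_add, Polynomial.eval_add, Polynomial.eval_mul, Polynomial.eval_pow]
    rw [← e1, ← e2]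
    ring
  | mul_X p i hp =>
    obtain ⟨N, R, h1⟩ := hp
    fin_cases i
    · refine ⟨N, R * a, fun y hy => ?_⟩
      have e1 := h1 y hy
      simp only [map_mul, eval_X, Polynomial.eval_mul, ← e1]
      simp
      ring
    · refine ⟨N, R * b, fun y hy => ?_⟩
      have e1 := h1 y hy
      simp only [map_mul, eval_X, Polynomial.eval_mul, ← e1]
      simp
      ring
    · refine ⟨N + 1, R * m, fun y hy => ?_⟩
      have e1 := h1 y hy
      simp only [map_mul, eval_X, Polynomial.eval_mul, ← e1]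
      simp
      field_simp
      ring

/-- apply a polynomial map -/
noncomputable def ap (f : Fin 3 → MvPolynomial (Fin 3) ℂ) (x : Fin 3 → ℂ) : Fin 3 → ℂ :=
  fun i => eval x (f i)

/-- the line over `y` in the fibre `P = c` -/
noncomputable def L (c y t : ℂ) : Fin 3 → ℂ :=
  ![t, y, (c / y - (1 + y) * t ^ 2 - (1 - y) * t ^ 3) / (y ^ 2 - 1)]

lemma L_mem (c y t : ℂ) (hy : y ≠ 0) (hy1 : y ^ 2 ≠ 1) : eval (L c y t) P = c := by
  have h1 : y ^ 2 - 1 ≠ 0 := sub_ne_zero.mpr hy1
  rw [eval_P]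
  simp only [L, Matrix.cons_val_zero, Matrix.cons_val_one, Matrix.cons_val]
  field_simp
  ring

lemma L_eq (c : ℂ) (v : Fin 3 → ℂ) (hv : eval v P = c) (hy : v 1 ≠ 0) (hy1 : v 1 ^ 2 ≠ 1) :
    v = L c (v 1) (v 0) := by
  have h1 : v 1 ^ 2 - 1 ≠ 0 := sub_ne_zero.mpr hy1
  rw [eval_P] at hv
  funext i
  fin_cases i
  · simp [L]
  · simp [L]
  · simp only [L, Fin.reduceFinMk, Matrix.cons_val]
    rw [← hv]
    field_simp
    ring

lemma poly_L (c y : ℂ) (h : MvPolynomial (Fin 3) ℂ) :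
    ∃ Q : Polynomial ℂ, ∀ t, Q.eval t = eval (L c y t) h := by
  refine ⟨MvPolynomial.aeval ![Polynomial.X, Polynomial.C y,
    (Polynomial.C (c / y) - Polynomial.C (1 + y) * Polynomial.X ^ 2
      - Polynomial.C (1 - y) * Polynomial.X ^ 3) * Polynomial.C (1 / (y ^ 2 - 1))] h, fun t => ?_⟩
  rw [eval_curve]
  congr 1
  congr 1
  funext i
  fin_cases i
  · simp [L]
  · simp [L]
  · simp [L]
    ring

lemma poly_V (u y : ℂ) (h : MvPolynomial (Fin 3) ℂ) :
    ∃ Q : Polynomial ℂ, ∀ t, Q.eval t = eval ![u, y, t] h := by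
  refine ⟨MvPolynomial.aeval ![Polynomial.C u, Polynomial.C y, Polynomial.X] h, fun t => ?_⟩
  rw [eval_curve]
  congr 1
  congr 1
  funext i
  fin_cases i <;> simp

/-- an isomorphism between fibres, as in the frozen statement -/
def Iso (c d : ℂ) (f g : Fin 3 → MvPolynomial (Fin 3) ℂ) : Prop :=
  (∀ x : Fin 3 → ℂ, eval x P = c → eval (ap f x) P = d ∧ ap g (ap f x) = x) ∧
  (∀ y : Fin 3 → ℂ, eval y P = d → eval (ap g y) P = c ∧ ap f (ap g y) = y)

lemma Iso.symm {c d : ℂ} {f g : Fin 3 → MvPolynomial (Fin 3) ℂ} (h : Iso c d f g) :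
    Iso d c g f := ⟨h.2, h.1⟩

lemma ne_zero_of_mem {c : ℂ} (hc : c ≠ 0) {v : Fin 3 → ℂ} (hv : eval v P = c) : v 1 ≠ 0 := by
  intro h
  apply hc
  rw [← hv, eval_P, h, zero_mul]

/-- the second coordinate is constant on images of the affine line -/
lemma const_second {c d : ℂ} (hd : d ≠ 0) (f : Fin 3 → MvPolynomial (Fin 3) ℂ)
    (hf : ∀ x : Fin 3 → ℂ, eval x P = c → eval (ap f x) P = d)
    (a : ℂ → Fin 3 → ℂ) (ha : ∀ t, eval (a t) P = c)
    (hp : ∀ h : MvPolynomial (Fin 3) ℂ, ∃ Q : Polynomial ℂ, ∀ t, Q.eval t = eval (a t) h) :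
    ∀ t t', ap f (a t) 1 = ap f (a t') 1 := by
  obtain ⟨Q, hQ⟩ := hp (f 1)
  have h1 : ∀ t, Q.eval t ≠ 0 := by
    intro t
    rw [hQ]
    exact ne_zero_of_mem hd (hf _ (ha t))
  obtain ⟨k, hk⟩ := const_of_no_root Q h1
  intro t t'
  show eval (a t) (f 1) = eval (a t') (f 1)
  rw [← hQ, ← hQ, hk, hk]

/-- a section of the fibration `F_c → ℂ^*` -/
structure Sec (c : ℂ) where
  s : Polynomial ℂ
  M : Polynomial ℂ
  eq : ∀ y, c - y * (1 + y) * (s.eval y) ^ 2 - y * (1 - y) * (s.eval y) ^ 3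
    = (y ^ 2 - 1) * M.eval y

/-- the point of the section over `y` -/
noncomputable def Sec.pt {c : ℂ} (σ : Sec c) (y : ℂ) : Fin 3 → ℂ :=
  ![σ.s.eval y, y, σ.M.eval y / y]

lemma Sec.pt_mem {c : ℂ} (σ : Sec c) (y : ℂ) (hy : y ≠ 0) : eval (σ.pt y) P = c := by
  rw [eval_P]
  simp only [Sec.pt, Matrix.cons_val_zero, Matrix.cons_val_one, Matrix.cons_val]
  have := σ.eq y
  field_simp
  linear_combination (-1 : ℂ) * this

lemma exists_sec (c a b : ℂ) (ha : 2 * a ^ 2 = c) (hb : -2 * b ^ 3 = c) :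
    ∃ σ : Sec c, ∀ y, σ.s.eval y = (a + b) / 2 + (a - b) / 2 * y := by
  let s : Polynomial ℂ := Polynomial.C ((a + b) / 2) + Polynomial.C ((a - b) / 2) * Polynomial.X
  have hs : ∀ y, s.eval y = (a + b) / 2 + (a - b) / 2 * y := by
    intro y
    simp [s]
  let N : Polynomial ℂ := Polynomial.C c - Polynomial.X * (1 + Polynomial.X) * s ^ 2
    - Polynomial.X * (1 - Polynomial.X) * s ^ 3
  have hN : ∀ y, N.eval y = c - y * (1 + y) * (s.eval y) ^ 2 - y * (1 - y) * (s.eval y) ^ 3 := by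
    intro y
    simp [N]
  have h1 : (Polynomial.X - Polynomial.C (1 : ℂ)) ∣ N := by
    rw [Polynomial.dvd_iff_isRoot, Polynomial.IsRoot.def, hN, hs]
    linear_combination (-1 : ℂ) * ha
  obtain ⟨N1, hN1⟩ := h1
  have h2 : (Polynomial.X - Polynomial.C (-1 : ℂ)) ∣ N1 := by
    rw [Polynomial.dvd_iff_isRoot, Polynomial.IsRoot.def]
    have h3 : N.eval (-1) = (-2) * N1.eval (-1) := by
      rw [hN1]
      simp
      ring
    rw [hN, hs] at h3
    have h4 : (-2 : ℂ) * N1.eval (-1) = 0 := by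
      rw [← h3]
      linear_combination (-1 : ℂ) * hb
    rcases mul_eq_zero.mp h4 with h5 | h5
    · norm_num at h5
    · exact h5
  obtain ⟨M, hM⟩ := h2
  refine ⟨⟨s, M, fun y => ?_⟩, hs⟩
  rw [← hN, hN1, hM]
  simp
  ring

/-- two sections give the same second coordinate -/
lemma sec_second {c d : ℂ} (hd : d ≠ 0) (f : Fin 3 → MvPolynomial (Fin 3) ℂ)
    (hf : ∀ x : Fin 3 → ℂ, eval x P = c → eval (ap f x) P = d) (σ τ : Sec c) (y : ℂ)
    (hy : y ≠ 0) : ap f (σ.pt y) 1 = ap f (τ.pt y) 1 := by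
  -- generic case
  have hgen : ∀ y : ℂ, y ≠ 0 → y ^ 2 ≠ 1 → ap f (σ.pt y) 1 = ap f (τ.pt y) 1 := by
    intro y hy hy1
    have h1 := L_eq c (σ.pt y) (σ.pt_mem y hy) (by simpa [Sec.pt] using hy)
      (by simpa [Sec.pt] using hy1)
    have h2 := L_eq c (τ.pt y) (τ.pt_mem y hy) (by simpa [Sec.pt] using hy)
      (by simpa [Sec.pt] using hy1)
    rw [h1, h2]
    have e1 : σ.pt y 1 = y := by simp [Sec.pt]
    have e2 : τ.pt y 1 = y := by simp [Sec.pt]
    rw [e1, e2]
    exact const_second hd f hf (L c y) (fun t => L_mem c y t hy hy1) (poly_L c y) _ _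
  obtain ⟨N1, R1, h1⟩ := rat_curve σ.s Polynomial.X σ.M Polynomial.X (f 1)
  obtain ⟨N2, R2, h2⟩ := rat_curve τ.s Polynomial.X τ.M Polynomial.X (f 1)
  have key : R1 * Polynomial.X ^ N2 = R2 * Polynomial.X ^ N1 := by
    apply eq_of_agree
    intro y hy hy1
    have a1 := h1 y (by simpa using hy)
    have a2 := h2 y (by simpa using hy)
    have a3 := hgen y hy hy1
    simp only [ap, Sec.pt] at a3
    simp only [Polynomial.eval_X] at a1 a2
    simp only [Polynomial.eval_mul, Polynomial.eval_pow, Polynomial.eval_X]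
    rw [← a1, ← a2, a3]
    ring
  have a1 := h1 y (by simpa using hy)
  have a2 := h2 y (by simpa using hy)
  have a3 := congrArg (Polynomial.eval y) key
  simp only [Polynomial.eval_X] at a1 a2
  simp only [Polynomial.eval_mul, Polynomial.eval_pow, Polynomial.eval_X] at a3
  rw [← a1, ← a2] at a3
  simp only [ap, Sec.pt]
  have hyN : y ^ N1 * y ^ N2 ≠ 0 := mul_ne_zero (pow_ne_zero _ hy) (pow_ne_zero _ hy)
  apply mul_right_cancel₀ hyN
  linear_combination a3

lemma exists_sqrt (c : ℂ) : ∃ a : ℂ, 2 * a ^ 2 = c := by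
  obtain ⟨a, ha⟩ := IsAlgClosed.exists_pow_nat_eq (c / 2) (n := 2) (by norm_num)
  exact ⟨a, by rw [ha]; ring⟩

lemma exists_cbrt (c : ℂ) : ∃ a : ℂ, -2 * a ^ 3 = c := by
  obtain ⟨a, ha⟩ := IsAlgClosed.exists_pow_nat_eq (-c / 2) (n := 3) (by norm_num)
  exact ⟨a, by rw [ha]; ring⟩

lemma mem_one {c : ℂ} {v : Fin 3 → ℂ} (hv : eval v P = c) (h : v 1 = 1) : 2 * (v 0) ^ 2 = c := by
  rw [eval_P, h] at hv
  linear_combination hv

lemma mem_neg_one {c : ℂ} {v : Fin 3 → ℂ} (hv : eval v P = c) (h : v 1 = -1) :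
    -2 * (v 0) ^ 3 = c := by
  rw [eval_P, h] at hv
  linear_combination hv

lemma V_one_mem {c u : ℂ} (hu : 2 * u ^ 2 = c) (t : ℂ) : eval ![u, 1, t] P = c := by
  rw [eval_P]
  simp only [Matrix.cons_val_zero, Matrix.cons_val_one, Matrix.cons_val]
  linear_combination hu

lemma V_neg_one_mem {c u : ℂ} (hu : -2 * u ^ 3 = c) (t : ℂ) : eval ![u, -1, t] P = c := by
  rw [eval_P]
  simp only [Matrix.cons_val_zero, Matrix.cons_val_one, Matrix.cons_val]
  linear_combination hu

lemma eq_vec (v : Fin 3 → ℂ) : v = ![v 0, v 1, v 2] := by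
  funext i
  fin_cases i <;> rfl

lemma same_second {c d : ℂ} (hc : c ≠ 0) (hd : d ≠ 0) (f : Fin 3 → MvPolynomial (Fin 3) ℂ)
    (hf : ∀ x : Fin 3 → ℂ, eval x P = c → eval (ap f x) P = d) (u v : Fin 3 → ℂ)
    (hu : eval u P = c) (hv : eval v P = c) (huv : u 1 = v 1) : ap f u 1 = ap f v 1 := by
  have hu1 := ne_zero_of_mem hc hu
  have hv1 := ne_zero_of_mem hc hv
  by_cases h1 : u 1 ^ 2 = 1
  · rcases mul_eq_zero.mp (show (u 1 - 1) * (u 1 + 1) = 0 by linear_combination h1) with h2 | h2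
    · have e1 : u 1 = 1 := by linear_combination h2
      have e2 : v 1 = 1 := by rw [← huv, e1]
      obtain ⟨b, hb⟩ := exists_cbrt c
      obtain ⟨σ, hσ⟩ := exists_sec c (u 0) b (mem_one hu e1) hb
      obtain ⟨τ, hτ⟩ := exists_sec c (v 0) b (mem_one hv e2) hb
      have hst := sec_second hd f hf σ τ 1 one_ne_zero
      have hσ1 : σ.pt 1 = ![u 0, 1, σ.M.eval 1 / 1] := by
        simp only [Sec.pt]
        rw [hσ]
        congr 1
        ring
      have hτ1 : τ.pt 1 = ![v 0, 1, τ.M.eval 1 / 1] := by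
        simp only [Sec.pt]
        rw [hτ]
        congr 1
        ring
      rw [hσ1, hτ1] at hst
      have k1 := const_second hd f hf (fun t => ![u 0, 1, t]) (V_one_mem (mem_one hu e1))
        (poly_V (u 0) 1) (u 2) (σ.M.eval 1 / 1)
      have k2 := const_second hd f hf (fun t => ![v 0, 1, t]) (V_one_mem (mem_one hv e2))
        (poly_V (v 0) 1) (v 2) (τ.M.eval 1 / 1)
      rw [eq_vec u, eq_vec v, e1, e2, k1, k2, hst]
    · have e1 : u 1 = -1 := by linear_combination h2
      have e2 : v 1 = -1 := by rw [← huv, e1]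
      obtain ⟨a, ha⟩ := exists_sqrt c
      obtain ⟨σ, hσ⟩ := exists_sec c a (u 0) ha (mem_neg_one hu e1)
      obtain ⟨τ, hτ⟩ := exists_sec c a (v 0) ha (mem_neg_one hv e2)
      have hst := sec_second hd f hf σ τ (-1) (by norm_num)
      have hσ1 : σ.pt (-1) = ![u 0, -1, σ.M.eval (-1) / (-1)] := by
        simp only [Sec.pt]
        rw [hσ]
        congr 1
        ring
      have hτ1 : τ.pt (-1) = ![v 0, -1, τ.M.eval (-1) / (-1)] := by
        simp only [Sec.pt]
        rw [hτ]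
        congr 1
        ring
      rw [hσ1, hτ1] at hst
      have k1 := const_second hd f hf (fun t => ![u 0, -1, t]) (V_neg_one_mem (mem_neg_one hu e1))
        (poly_V (u 0) (-1)) (u 2) (σ.M.eval (-1) / (-1))
      have k2 := const_second hd f hf (fun t => ![v 0, -1, t]) (V_neg_one_mem (mem_neg_one hv e2))
        (poly_V (v 0) (-1)) (v 2) (τ.M.eval (-1) / (-1))
      rw [eq_vec u, eq_vec v, e1, e2, k1, k2, hst]
  · have h2 : v 1 ^ 2 ≠ 1 := by rw [← huv]; exact h1
    rw [L_eq c u hu hu1 h1, L_eq c v hv hv1 h2, ← huv]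
    exact const_second hd f hf (L c (u 1)) (fun t => L_mem c (u 1) t hu1 h1) (poly_L c (u 1)) _ _

/-- the fibre over `1` goes to the fibre over `1` -/
lemma one_to_one {c d : ℂ} (hc : c ≠ 0) (hd : d ≠ 0) {f g : Fin 3 → MvPolynomial (Fin 3) ℂ}
    (h : Iso c d f g) (u : Fin 3 → ℂ) (hu : eval u P = c) (hu1 : u 1 = 1) : ap f u 1 = 1 := by
  have hf := fun x hx => (h.1 x hx).1
  have hg := fun x hx => (h.2 x hx).1
  have hgf := fun x hx => (h.1 x hx).2
  have hfg := fun x hx => (h.2 x hx).2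
  obtain ⟨a, ha⟩ := exists_sqrt c
  have ha0 : a ≠ 0 := by
    rintro rfl
    apply hc
    rw [← ha]; ring
  have ha' : 2 * (-a) ^ 2 = c := by rw [← ha]; ring
  have hFu := hf u hu
  have hη0 := ne_zero_of_mem hd hFu
  by_contra hη
  by_cases hη1 : ap f u 1 ^ 2 = 1
  · -- image over -1
    have e1 : ap f u 1 = -1 := by
      rcases mul_eq_zero.mp (show (ap f u 1 - 1) * (ap f u 1 + 1) = 0 by
        linear_combination hη1) with h2 | h2
      · exact absurd (by linear_combination h2) hη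
      · linear_combination h2
    -- three points of the fibre over -1
    obtain ⟨b, hb⟩ := exists_cbrt d
    have hb0 : b ≠ 0 := by
      rintro rfl
      apply hd
      rw [← hb]; ring
    -- primitive cube root of unity
    obtain ⟨w, hw⟩ : ∃ w : ℂ, w ^ 2 + w + 1 = 0 := by
      obtain ⟨r, hr⟩ := IsAlgClosed.exists_pow_nat_eq (-3 : ℂ) (n := 2) (by norm_num)
      exact ⟨(-1 + r) / 2, by linear_combination hr / 4⟩
    have hw3 : w ^ 3 = 1 := by linear_combination (w - 1) * hw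
    have hw1 : w ≠ 1 := by
      rintro rfl
      norm_num at hw
    have hw0 : w ≠ 0 := by
      rintro rfl
      norm_num at hw
    -- values of x on the preimages
    have key : ∀ β : ℂ, -2 * β ^ 3 = d → ap g ![β, -1, 0] 1 = 1 := by
      intro β hβ
      have m1 : eval ![β, -1, 0] P = d := V_neg_one_mem hβ 0
      have := same_second hd hc g hg (ap f u) ![β, -1, 0] hFu m1 (by rw [e1]; simp)
      rw [← this, hgf u hu, hu1]
    have key2 : ∀ β : ℂ, -2 * β ^ 3 = d → ap g ![β, -1, 0] 0 = a ∨ ap g ![β, -1, 0] 0 = -a := by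
      intro β hβ
      have m1 : eval ![β, -1, 0] P = d := V_neg_one_mem hβ 0
      have m2 := mem_one (hg _ m1) (key β hβ)
      have m3 : (ap g ![β, -1, 0] 0 - a) * (ap g ![β, -1, 0] 0 + a) = 0 := by
        linear_combination m2 / 2 - ha / 2
      rcases mul_eq_zero.mp m3 with h3 | h3
      · left; linear_combination h3
      · right; linear_combination h3
    have key3 : ∀ β γ : ℂ, -2 * β ^ 3 = d → -2 * γ ^ 3 = d →
        ap g ![β, -1, 0] 0 = ap g ![γ, -1, 0] 0 → β = γ := by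
      intro β γ hβ hγ hx
      have m1 : eval ![β, -1, 0] P = d := V_neg_one_mem hβ 0
      have m2 : eval ![γ, -1, 0] P = d := V_neg_one_mem hγ 0
      have q1 := mem_one (hg _ m1) (key β hβ)
      obtain ⟨Q, hQ⟩ := poly_V (ap g ![β, -1, 0] 0) 1 (f 0)
      have hpow : ∀ t, (Q.eval t) ^ 3 = -d / 2 := by
        intro t
        have n1 : eval ![ap g ![β, -1, 0] 0, 1, t] P = c := V_one_mem q1 t
        have n2 := same_second hc hd f hf ![ap g ![β, -1, 0] 0, 1, t] u n1 hu (by rw [hu1]; simp)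
        have n3 := mem_neg_one (hf _ n1) (by rw [n2, e1])
        rw [hQ]
        have : eval ![ap g ![β, -1, 0] 0, 1, t] (f 0) = ap f ![ap g ![β, -1, 0] 0, 1, t] 0 := rfl
        rw [this]
        linear_combination (-1 / 2 : ℂ) * n3
      obtain ⟨k, hk⟩ := const_of_pow Q 3 (by norm_num) _ hpow
      have b1 : ap g ![β, -1, 0] = ![ap g ![β, -1, 0] 0, 1, ap g ![β, -1, 0] 2] := by
        conv_lhs => rw [eq_vec (ap g ![β, -1, 0]), key β hβ]
      have b2 : ap g ![γ, -1, 0] = ![ap g ![β, -1, 0] 0, 1, ap g ![γ, -1, 0] 2] := by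
        conv_lhs => rw [eq_vec (ap g ![γ, -1, 0]), key γ hγ, ← hx]
      have c1 : β = k := by
        have := congrFun (hfg _ m1) 0
        rw [b1] at this
        have h4 : ap f ![ap g ![β, -1, 0] 0, 1, ap g ![β, -1, 0] 2] 0
            = eval ![ap g ![β, -1, 0] 0, 1, ap g ![β, -1, 0] 2] (f 0) := rfl
        rw [h4, ← hQ, hk] at this
        simpa using this.symm
      have c2 : γ = k := by
        have := congrFun (hfg _ m2) 0
        rw [b2] at this
        have h4 : ap f ![ap g ![β, -1, 0] 0, 1, ap g ![γ, -1, 0] 2] 0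
            = eval ![ap g ![β, -1, 0] 0, 1, ap g ![γ, -1, 0] 2] (f 0) := rfl
        rw [h4, ← hQ, hk] at this
        simpa using this.symm
      rw [c1, c2]
    have hb1 : -2 * (w * b) ^ 3 = d := by rw [mul_pow, hw3, one_mul, hb]
    have hb2 : -2 * (w ^ 2 * b) ^ 3 = d := by
      rw [mul_pow, ← pow_mul, mul_comm 2 3, pow_mul, hw3, one_pow, one_mul, hb]
    have ne1 : b ≠ w * b := by
      intro h5
      apply hw1
      have : (w - 1) * b = 0 := by linear_combination -h5
      rcases mul_eq_zero.mp this with h6 | h6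
      · linear_combination h6
      · exact absurd h6 hb0
    have ne2 : b ≠ w ^ 2 * b := by
      intro h5
      have : (w ^ 2 - 1) * b = 0 := by linear_combination -h5
      rcases mul_eq_zero.mp this with h6 | h6
      · apply hw1
        have h7 : w = -2 := by linear_combination hw - h6
        rw [h7] at hw
        norm_num at hw
      · exact absurd h6 hb0
    have ne3 : w * b ≠ w ^ 2 * b := by
      intro h5
      have : w * ((w - 1) * b) = 0 := by linear_combination -h5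
      rcases mul_eq_zero.mp this with h6 | h6
      · exact hw0 h6
      · rcases mul_eq_zero.mp h6 with h7 | h7
        · exact hw1 (by linear_combination h7)
        · exact absurd h7 hb0
    rcases key2 b hb with p1 | p1 <;> rcases key2 (w * b) hb1 with p2 | p2 <;>
      rcases key2 (w ^ 2 * b) hb2 with p3 | p3
    · exact ne1 (key3 _ _ hb hb1 (by rw [p1, p2]))
    · exact ne1 (key3 _ _ hb hb1 (by rw [p1, p2]))
    · exact ne2 (key3 _ _ hb hb2 (by rw [p1, p3]))
    · exact ne3 (key3 _ _ hb1 hb2 (by rw [p2, p3]))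
    · exact ne3 (key3 _ _ hb1 hb2 (by rw [p2, p3]))
    · exact ne2 (key3 _ _ hb hb2 (by rw [p1, p3]))
    · exact ne1 (key3 _ _ hb hb1 (by rw [p1, p2]))
    · exact ne1 (key3 _ _ hb hb1 (by rw [p1, p2]))
  · -- image over a generic point
    obtain ⟨Q, hQ⟩ := poly_L d (ap f u 1) (g 0)
    have hpow : ∀ t, (Q.eval t) ^ 2 = c / 2 := by
      intro t
      have n1 := L_mem d (ap f u 1) t hη0 hη1
      have n2 := same_second hd hc g hg (L d (ap f u 1) t) (ap f u) n1 hFu (by simp [L])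
      rw [hgf u hu, hu1] at n2
      have n3 := mem_one (hg _ n1) n2
      rw [hQ]
      have : eval (L d (ap f u 1) t) (g 0) = ap g (L d (ap f u 1) t) 0 := rfl
      rw [this]
      linear_combination n3 / 2
    obtain ⟨k, hk⟩ := const_of_pow Q 2 (by norm_num) _ hpow
    have main : ∀ α : ℂ, 2 * α ^ 2 = c → α = k := by
      intro α hα
      have m1 : eval ![α, 1, 0] P = c := V_one_mem hα 0
      have m2 := same_second hc hd f hf ![α, 1, 0] u m1 hu (by rw [hu1]; simp)
      have m3 := hf _ m1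
      have m4 := L_eq d (ap f ![α, 1, 0]) m3 (by rw [m2]; exact hη0) (by rw [m2]; exact hη1)
      rw [m2] at m4
      have m5 := congrFun (hgf _ m1) 0
      rw [m4] at m5
      have h4 : ap g (L d (ap f u 1) (ap f ![α, 1, 0] 0)) 0
          = eval (L d (ap f u 1) (ap f ![α, 1, 0] 0)) (g 0) := rfl
      rw [h4, ← hQ, hk] at m5
      simpa using m5.symm
    have e1 := main a ha
    have e2 := main (-a) ha'
    apply ha0
    have : a = -a := by rw [e1]; exact e1 ▸ e2.symm
    linear_combination this / 2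

/-- the fibre over `-1` goes to the fibre over `-1` -/
lemma neg_to_neg {c d : ℂ} (hc : c ≠ 0) (hd : d ≠ 0) {f g : Fin 3 → MvPolynomial (Fin 3) ℂ}
    (h : Iso c d f g) (u : Fin 3 → ℂ) (hu : eval u P = c) (hu1 : u 1 = -1) : ap f u 1 = -1 := by
  have hf := fun x hx => (h.1 x hx).1
  have hg := fun x hx => (h.2 x hx).1
  have hgf := fun x hx => (h.1 x hx).2
  have hFu := hf u hu
  have hη0 := ne_zero_of_mem hd hFu
  by_contra hη
  by_cases hη1 : ap f u 1 ^ 2 = 1
  · have e1 : ap f u 1 = 1 := by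
      rcases mul_eq_zero.mp (show (ap f u 1 - 1) * (ap f u 1 + 1) = 0 by
        linear_combination hη1) with h2 | h2
      · linear_combination h2
      · exact absurd (by linear_combination h2) hη
    have := one_to_one hd hc h.symm (ap f u) hFu e1
    rw [hgf u hu, hu1] at this
    norm_num at this
  · obtain ⟨Q, hQ⟩ := poly_L d (ap f u 1) (g 0)
    have hpow : ∀ t, (Q.eval t) ^ 3 = -c / 2 := by
      intro t
      have n1 := L_mem d (ap f u 1) t hη0 hη1
      have n2 := same_second hd hc g hg (L d (ap f u 1) t) (ap f u) n1 hFu (by simp [L])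
      rw [hgf u hu, hu1] at n2
      have n3 := mem_neg_one (hg _ n1) n2
      rw [hQ]
      have : eval (L d (ap f u 1) t) (g 0) = ap g (L d (ap f u 1) t) 0 := rfl
      rw [this]
      linear_combination (-1 / 2 : ℂ) * n3
    obtain ⟨k, hk⟩ := const_of_pow Q 3 (by norm_num) _ hpow
    have main : ∀ α : ℂ, -2 * α ^ 3 = c → α = k := by
      intro α hα
      have m1 : eval ![α, -1, 0] P = c := V_neg_one_mem hα 0
      have m2 := same_second hc hd f hf ![α, -1, 0] u m1 hu (by rw [hu1]; simp)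
      have m3 := hf _ m1
      have m4 := L_eq d (ap f ![α, -1, 0]) m3 (by rw [m2]; exact hη0) (by rw [m2]; exact hη1)
      rw [m2] at m4
      have m5 := congrFun (hgf _ m1) 0
      rw [m4] at m5
      have h4 : ap g (L d (ap f u 1) (ap f ![α, -1, 0] 0)) 0
          = eval (L d (ap f u 1) (ap f ![α, -1, 0] 0)) (g 0) := rfl
      rw [h4, ← hQ, hk] at m5
      simpa using m5.symm
    obtain ⟨b, hb⟩ := exists_cbrt c
    have hb0 : b ≠ 0 := by
      rintro rfl
      apply hc
      rw [← hb]; ring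
    obtain ⟨w, hw⟩ : ∃ w : ℂ, w ^ 2 + w + 1 = 0 := by
      obtain ⟨r, hr⟩ := IsAlgClosed.exists_pow_nat_eq (-3 : ℂ) (n := 2) (by norm_num)
      exact ⟨(-1 + r) / 2, by linear_combination hr / 4⟩
    have hw3 : w ^ 3 = 1 := by linear_combination (w - 1) * hw
    have e1 := main b hb
    have e2 := main (w * b) (by rw [mul_pow, hw3, one_mul, hb])
    have e3 : (w - 1) * b = 0 := by linear_combination e2 - e1
    rcases mul_eq_zero.mp e3 with h6 | h6
    · have h7 : w = 1 := by linear_combination h6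
      rw [h7] at hw
      norm_num at hw
    · exact hb0 h6

/-- generic fibres go to generic fibres -/
lemma gen_to_gen {c d : ℂ} (hc : c ≠ 0) (hd : d ≠ 0) {f g : Fin 3 → MvPolynomial (Fin 3) ℂ}
    (h : Iso c d f g) (u : Fin 3 → ℂ) (hu : eval u P = c) (hu1 : u 1 ^ 2 ≠ 1) :
    ap f u 1 ^ 2 ≠ 1 := by
  have hf := fun x hx => (h.1 x hx).1
  have hgf := fun x hx => (h.1 x hx).2
  intro h1
  rcases mul_eq_zero.mp (show (ap f u 1 - 1) * (ap f u 1 + 1) = 0 by
        linear_combination h1) with h2 | h2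
  · have := one_to_one hd hc h.symm (ap f u) (hf u hu) (by linear_combination h2)
    rw [hgf u hu] at this
    apply hu1
    rw [this]; norm_num
  · have := neg_to_neg hd hc h.symm (ap f u) (hf u hu) (by linear_combination h2)
    rw [hgf u hu] at this
    apply hu1
    rw [this]; norm_num

/-- on a generic fibre, the first coordinate of an isomorphism is affine -/
lemma affine_on_fibre {c d : ℂ} (hc : c ≠ 0) (hd : d ≠ 0)
    {f g : Fin 3 → MvPolynomial (Fin 3) ℂ} (h : Iso c d f g) (y : ℂ) (hy : y ≠ 0)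
    (hy1 : y ^ 2 ≠ 1) :
    ∃ m b : ℂ, m ≠ 0 ∧ ∀ t, ap f (L c y t) 0 = m * t + b := by
  have hf := fun x hx => (h.1 x hx).1
  have hg := fun x hx => (h.2 x hx).1
  have hgf := fun x hx => (h.1 x hx).2
  set η := ap f (L c y 0) 1 with hηdef
  have m0 := L_mem c y 0 hy hy1
  have hη0 : η ≠ 0 := ne_zero_of_mem hd (hf _ m0)
  have hη1 : η ^ 2 ≠ 1 := gen_to_gen hc hd h _ m0 (by simpa [L] using hy1)
  obtain ⟨Q, hQ⟩ := poly_L c y (f 0)
  obtain ⟨Q', hQ'⟩ := poly_L d η (g 0)
  have hcomp : Q'.comp Q = Polynomial.X := by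
    apply Polynomial.funext
    intro t
    rw [Polynomial.eval_comp, Polynomial.eval_X, hQ', hQ]
    have n1 := L_mem c y t hy hy1
    have n2 : ap f (L c y t) 1 = η :=
      same_second hc hd f hf (L c y t) (L c y 0) n1 m0 (by simp [L])
    have n3 := L_eq d (ap f (L c y t)) (hf _ n1) (by rw [n2]; exact hη0) (by rw [n2]; exact hη1)
    rw [n2] at n3
    have n4 := congrFun (hgf _ n1) 0
    rw [n3] at n4
    have : eval (L c y t) (f 0) = ap f (L c y t) 0 := rfl
    rw [this]
    have h5 : ap g (L d η (ap f (L c y t) 0)) 0 = eval (L d η (ap f (L c y t) 0)) (g 0) := rfl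
    rw [← h5, n4]
    simp [L]
  have hdeg : Q.natDegree = 1 := by
    have := congrArg Polynomial.natDegree hcomp
    rw [Polynomial.natDegree_comp, Polynomial.natDegree_X] at this
    exact Nat.eq_one_of_mul_eq_one_left this
  obtain ⟨m, hm, b, hb⟩ := Polynomial.natDegree_eq_one.mp hdeg
  refine ⟨m, b, hm, fun t => ?_⟩
  have : ap f (L c y t) 0 = eval (L c y t) (f 0) := rfl
  rw [this, ← hQ, ← hb]
  simp

lemma inj_one {c d : ℂ} (hc : c ≠ 0) (hd : d ≠ 0)
    {f g : Fin 3 → MvPolynomial (Fin 3) ℂ} (h : Iso c d f g) (u v : Fin 3 → ℂ)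
    (hu : eval u P = c) (hv : eval v P = c) (hu1 : u 1 = 1) (hv1 : v 1 = 1)
    (huv : ap f u 0 = ap f v 0) : u 0 = v 0 := by
  have hf := fun x hx => (h.1 x hx).1
  have hg := fun x hx => (h.2 x hx).1
  have hgf := fun x hx => (h.1 x hx).2
  have a1 := one_to_one hc hd h u hu hu1
  have a2 := one_to_one hc hd h v hv hv1
  have q1 := mem_one (hf u hu) a1
  obtain ⟨Q, hQ⟩ := poly_V (ap f u 0) 1 (g 0)
  have hpow : ∀ t, (Q.eval t) ^ 2 = c / 2 := by
    intro t
    have n1 : eval ![ap f u 0, 1, t] P = d := V_one_mem q1 t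
    have n2 := one_to_one hd hc h.symm ![ap f u 0, 1, t] n1 (by simp)
    have n3 := mem_one (hg _ n1) n2
    rw [hQ]
    have : eval ![ap f u 0, 1, t] (g 0) = ap g ![ap f u 0, 1, t] 0 := rfl
    rw [this]
    linear_combination n3 / 2
  obtain ⟨k, hk⟩ := const_of_pow Q 2 (by norm_num) _ hpow
  have b1 : ap f u = ![ap f u 0, 1, ap f u 2] := by
    conv_lhs => rw [eq_vec (ap f u), a1]
  have b2 : ap f v = ![ap f u 0, 1, ap f v 2] := by
    conv_lhs => rw [eq_vec (ap f v), a2, ← huv]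
  have c1 : u 0 = k := by
    have := congrFun (hgf u hu) 0
    rw [b1] at this
    have h4 : ap g ![ap f u 0, 1, ap f u 2] 0 = eval ![ap f u 0, 1, ap f u 2] (g 0) := rfl
    rw [h4, ← hQ, hk] at this
    exact this.symm
  have c2 : v 0 = k := by
    have := congrFun (hgf v hv) 0
    rw [b2] at this
    have h4 : ap g ![ap f u 0, 1, ap f v 2] 0 = eval ![ap f u 0, 1, ap f v 2] (g 0) := rfl
    rw [h4, ← hQ, hk] at this
    exact this.symm
  rw [c1, c2]

lemma inj_neg {c d : ℂ} (hc : c ≠ 0) (hd : d ≠ 0)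
    {f g : Fin 3 → MvPolynomial (Fin 3) ℂ} (h : Iso c d f g) (u v : Fin 3 → ℂ)
    (hu : eval u P = c) (hv : eval v P = c) (hu1 : u 1 = -1) (hv1 : v 1 = -1)
    (huv : ap f u 0 = ap f v 0) : u 0 = v 0 := by
  have hf := fun x hx => (h.1 x hx).1
  have hg := fun x hx => (h.2 x hx).1
  have hgf := fun x hx => (h.1 x hx).2
  have a1 := neg_to_neg hc hd h u hu hu1
  have a2 := neg_to_neg hc hd h v hv hv1
  have q1 := mem_neg_one (hf u hu) a1
  obtain ⟨Q, hQ⟩ := poly_V (ap f u 0) (-1) (g 0)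
  have hpow : ∀ t, (Q.eval t) ^ 3 = -c / 2 := by
    intro t
    have n1 : eval ![ap f u 0, -1, t] P = d := V_neg_one_mem q1 t
    have n2 := neg_to_neg hd hc h.symm ![ap f u 0, -1, t] n1 (by simp)
    have n3 := mem_neg_one (hg _ n1) n2
    rw [hQ]
    have : eval ![ap f u 0, -1, t] (g 0) = ap g ![ap f u 0, -1, t] 0 := rfl
    rw [this]
    linear_combination (-1 / 2 : ℂ) * n3
  obtain ⟨k, hk⟩ := const_of_pow Q 3 (by norm_num) _ hpow
  have b1 : ap f u = ![ap f u 0, -1, ap f u 2] := by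
    conv_lhs => rw [eq_vec (ap f u), a1]
  have b2 : ap f v = ![ap f u 0, -1, ap f v 2] := by
    conv_lhs => rw [eq_vec (ap f v), a2, ← huv]
  have c1 : u 0 = k := by
    have := congrFun (hgf u hu) 0
    rw [b1] at this
    have h4 : ap g ![ap f u 0, -1, ap f u 2] 0 = eval ![ap f u 0, -1, ap f u 2] (g 0) := rfl
    rw [h4, ← hQ, hk] at this
    exact this.symm
  have c2 : v 0 = k := by
    have := congrFun (hgf v hv) 0
    rw [b2] at this
    have h4 : ap g ![ap f u 0, -1, ap f v 2] 0 = eval ![ap f u 0, -1, ap f v 2] (g 0) := rfl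
    rw [h4, ← hQ, hk] at this
    exact this.symm
  rw [c1, c2]

/-- the first coordinate on the line `t = const`, as a rational function of `y` -/
lemma rat_L (c t : ℂ) (h : MvPolynomial (Fin 3) ℂ) :
    ∃ (N : ℕ) (R : Polynomial ℂ), ∀ y, y ≠ 0 → y ^ 2 ≠ 1 →
      eval (L c y t) h * (y * (y ^ 2 - 1)) ^ N = R.eval y := by
  obtain ⟨N, R, hR⟩ := rat_curve (Polynomial.C t) Polynomial.X
    (Polynomial.C c - Polynomial.X * (1 + Polynomial.X) * Polynomial.C (t ^ 2)
      - Polynomial.X * (1 - Polynomial.X) * Polynomial.C (t ^ 3))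
    (Polynomial.X * (Polynomial.X ^ 2 - 1)) h
  refine ⟨N, R, fun y hy hy1 => ?_⟩
  have h1 : y ^ 2 - 1 ≠ 0 := sub_ne_zero.mpr hy1
  have h2 := hR y (by simpa using ⟨hy, h1⟩)
  simp only [Polynomial.eval_C, Polynomial.eval_X, Polynomial.eval_sub, Polynomial.eval_mul,
    Polynomial.eval_add, Polynomial.eval_one, Polynomial.eval_pow] at h2
  rw [← h2]
  congr 2
  congr 1
  funext i
  fin_cases i
  · simp [L]
  · simp [L]
  · simp only [L, Fin.reduceFinMk, Matrix.cons_val]
    field_simp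

theorem no_iso {c d : ℂ} (hc : c ≠ 0) (hd : d ≠ 0) (hcd : c ≠ d) (hc32 : 32 * c ≠ -27)
    {f g : Fin 3 → MvPolynomial (Fin 3) ℂ} (h : Iso c d f g) : False := by
  have hf := fun x hx => (h.1 x hx).1
  obtain ⟨a, ha⟩ := exists_sqrt c
  obtain ⟨b, hb⟩ := exists_cbrt c
  have ha0 : a ≠ 0 := by
    rintro rfl
    apply hc
    rw [← ha]; ring
  have hb0 : b ≠ 0 := by
    rintro rfl
    apply hc
    rw [← hb]; ring
  obtain ⟨w, hw⟩ : ∃ w : ℂ, w ^ 2 + w + 1 = 0 := by
    obtain ⟨r, hr⟩ := IsAlgClosed.exists_pow_nat_eq (-3 : ℂ) (n := 2) (by norm_num)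
    exact ⟨(-1 + r) / 2, by linear_combination hr / 4⟩
  have hw3 : w ^ 3 = 1 := by linear_combination (w - 1) * hw
  have hw1 : w ≠ 1 := by
    rintro rfl
    norm_num at hw
  have ha' : 2 * (-a) ^ 2 = c := by rw [← ha]; ring
  have hb' : -2 * (w * b) ^ 3 = c := by rw [mul_pow, hw3, one_mul, hb]
  obtain ⟨σ, hσ⟩ := exists_sec c a b ha hb
  obtain ⟨τ, hτ⟩ := exists_sec c (-a) (w * b) ha' hb'
  -- the difference of the two sections
  set α := (2 * a + (1 - w) * b) / 2 with hα
  set β := (2 * a - (1 - w) * b) / 2 with hβ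
  have hD : ∀ y, σ.s.eval y - τ.s.eval y = α + β * y := by
    intro y
    rw [hσ, hτ, hα, hβ]
    ring
  have hw2 : (1 - w) ^ 2 = -3 * w := by linear_combination hw
  have hαβ : α * β ≠ 0 := by
    intro h0
    apply hc32
    have e1 : 2 * c = -3 * w * b ^ 2 := by
      have : α * β = (4 * a ^ 2 - (1 - w) ^ 2 * b ^ 2) / 4 := by rw [hα, hβ]; ring
      rw [this, hw2] at h0
      linear_combination 4 * h0 - 2 * ha
    have e2 : (2 * c) ^ 3 = -27 * (b ^ 3) ^ 2 := by
      rw [e1]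
      have : (-3 * w * b ^ 2) ^ 3 = -27 * w ^ 3 * (b ^ 3) ^ 2 := by ring
      rw [this, hw3]
      ring
    have e3 : b ^ 3 = -c / 2 := by linear_combination (-1 / 2 : ℂ) * hb
    rw [e3] at e2
    have e4 : c ^ 2 * (32 * c + 27) = 0 := by linear_combination 4 * e2
    rcases mul_eq_zero.mp e4 with h5 | h5
    · exact absurd (pow_eq_zero_iff (two_ne_zero)|>.mp h5) hc
    · linear_combination h5
  have hα0 : α ≠ 0 := left_ne_zero_of_mul hαβ
  have hβ0 : β ≠ 0 := right_ne_zero_of_mul hαβ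
  -- the rational functions
  obtain ⟨N1, R1, h1⟩ := rat_curve σ.s Polynomial.X σ.M Polynomial.X (f 0)
  obtain ⟨N2, R2, h2⟩ := rat_curve τ.s Polynomial.X τ.M Polynomial.X (f 0)
  obtain ⟨N3, R3, h3⟩ := rat_L c 1 (f 0)
  obtain ⟨N4, R4, h4⟩ := rat_L c 0 (f 0)
  set R : Polynomial ℂ := R1 * Polynomial.X ^ N2 - R2 * Polynomial.X ^ N1 with hR
  have hRe : ∀ y, y ≠ 0 →
      R.eval y = (ap f (σ.pt y) 0 - ap f (τ.pt y) 0) * (y ^ N1 * y ^ N2) := by
    intro y hy
    have a1 := h1 y (by simpa using hy)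
    have a2 := h2 y (by simpa using hy)
    simp only [Polynomial.eval_X] at a1 a2
    rw [hR]
    simp only [Polynomial.eval_sub, Polynomial.eval_mul, Polynomial.eval_pow, Polynomial.eval_X]
    rw [← a1, ← a2]
    simp only [ap, Sec.pt]
    ring
  set E : Polynomial ℂ := Polynomial.X * (Polynomial.X ^ 2 - 1) with hE
  have hEe : ∀ y, E.eval y = y * (y ^ 2 - 1) := by intro y; simp [hE]
  set S : Polynomial ℂ := R3 * E ^ N4 - R4 * E ^ N3 with hS
  have hSe : ∀ y, y ≠ 0 → y ^ 2 ≠ 1 →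
      S.eval y = (ap f (L c y 1) 0 - ap f (L c y 0) 0) *
        ((y * (y ^ 2 - 1)) ^ N3 * (y * (y ^ 2 - 1)) ^ N4) := by
    intro y hy hy1
    have a1 := h3 y hy hy1
    have a2 := h4 y hy hy1
    rw [hS]
    simp only [Polynomial.eval_sub, Polynomial.eval_mul, Polynomial.eval_pow]
    rw [← a1, ← a2, hEe]
    simp only [ap]
    ring
  set D : Polynomial ℂ := Polynomial.C α + Polynomial.C β * Polynomial.X with hDdef
  have hDe : ∀ y, D.eval y = α + β * y := by intro y; simp [hDdef]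
  have key : R * (E ^ N3 * E ^ N4) = D * (S * (Polynomial.X ^ N1 * Polynomial.X ^ N2)) := by
    apply eq_of_agree
    intro y hy hy1
    obtain ⟨m, b', hm, hmt⟩ := affine_on_fibre hc hd h y hy hy1
    have g1 := L_eq c (σ.pt y) (σ.pt_mem y hy) (by simpa [Sec.pt] using hy)
      (by simpa [Sec.pt] using hy1)
    have g2 := L_eq c (τ.pt y) (τ.pt_mem y hy) (by simpa [Sec.pt] using hy)
      (by simpa [Sec.pt] using hy1)
    have e1 : σ.pt y 1 = y := by simp [Sec.pt]
    have e2 : τ.pt y 1 = y := by simp [Sec.pt]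
    have e3 : σ.pt y 0 = σ.s.eval y := by simp [Sec.pt]
    have e4 : τ.pt y 0 = τ.s.eval y := by simp [Sec.pt]
    rw [e1, e3] at g1
    rw [e2, e4] at g2
    simp only [Polynomial.eval_mul, Polynomial.eval_pow, Polynomial.eval_X]
    rw [hRe y hy, hSe y hy hy1, hEe, hDe, g1, g2, hmt, hmt, hmt, hmt, ← hD y]
    ring
  have hXE : ∀ y, y ≠ 0 → y ^ 2 ≠ 1 → E.eval y ≠ 0 := by
    intro y hy hy1
    rw [hEe]
    exact mul_ne_zero hy (sub_ne_zero.mpr hy1)
  -- the root of D
  have hroot0 : -α / β ≠ 0 := div_ne_zero (neg_ne_zero.mpr hα0) hβ0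
  have hD1 : α + β * 1 = 2 * a := by rw [hα, hβ]; ring
  have hDm1 : α + β * (-1) = (1 - w) * b := by rw [hα, hβ]; ring
  have hD1' : α + β * 1 ≠ 0 := by rw [hD1]; exact mul_ne_zero two_ne_zero ha0
  have hDm1' : α + β * (-1) ≠ 0 := by
    rw [hDm1]; exact mul_ne_zero (sub_ne_zero.mpr (Ne.symm hw1)) hb0
  have hDroot : α + β * (-α / β) = 0 := by field_simp; ring
  have hroot1 : (-α / β) ^ 2 ≠ 1 := by
    intro h5
    rcases mul_eq_zero.mp (show (-α / β - 1) * (-α / β + 1) = 0 by linear_combination h5)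
      with h6 | h6
    · apply hD1'
      have : -α / β = 1 := by linear_combination h6
      rw [this] at hDroot
      exact hDroot
    · apply hDm1'
      have : -α / β = -1 := by linear_combination h6
      rw [this] at hDroot
      exact hDroot
  have hRroot : R.eval (-α / β) = 0 := by
    have := congrArg (Polynomial.eval (-α / β)) key
    simp only [Polynomial.eval_mul, Polynomial.eval_pow] at this
    rw [hDe, hDroot, zero_mul] at this
    rcases mul_eq_zero.mp this with h6 | h6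
    · exact h6
    · exfalso
      exact mul_ne_zero (pow_ne_zero _ (hXE _ hroot0 hroot1)) (pow_ne_zero _ (hXE _ hroot0 hroot1)) h6
  obtain ⟨Q0, hQ0⟩ := Polynomial.dvd_iff_isRoot.mpr (show R.IsRoot (-α / β) from hRroot)
  set Q : Polynomial ℂ := Polynomial.C (1 / β) * Q0 with hQdef
  have hRQ : R = D * Q := by
    apply Polynomial.funext
    intro y
    rw [hQ0, hQdef]
    simp only [Polynomial.eval_mul, Polynomial.eval_sub, Polynomial.eval_X, Polynomial.eval_C]
    rw [hDe]
    field_simp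
    ring
  have hD0 : D ≠ 0 := by
    intro h0
    have := hDe 1
    rw [h0, Polynomial.eval_zero] at this
    exact hD1' this.symm
  have key2 : Q * (E ^ N3 * E ^ N4) = S * (Polynomial.X ^ N1 * Polynomial.X ^ N2) := by
    rw [hRQ, mul_assoc] at key
    exact mul_left_cancel₀ hD0 key
  -- points over ±1
  have pσ1 : σ.pt 1 1 = 1 := by simp [Sec.pt]
  have pτ1 : τ.pt 1 1 = 1 := by simp [Sec.pt]
  have pσm : σ.pt (-1) 1 = -1 := by simp [Sec.pt]
  have pτm : τ.pt (-1) 1 = -1 := by simp [Sec.pt]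
  have mσ1 := σ.pt_mem 1 one_ne_zero
  have mτ1 := τ.pt_mem 1 one_ne_zero
  have hm1 : (-1 : ℂ) ≠ 0 := by norm_num
  have mσm := σ.pt_mem (-1) hm1
  have mτm := τ.pt_mem (-1) hm1
  have x1 : σ.pt 1 0 - τ.pt 1 0 = 2 * a := by
    have e3 : σ.pt 1 0 = σ.s.eval 1 := by simp [Sec.pt]
    have e4 : τ.pt 1 0 = τ.s.eval 1 := by simp [Sec.pt]
    rw [e3, e4, hD, hD1]
  have xm : σ.pt (-1) 0 - τ.pt (-1) 0 = (1 - w) * b := by
    have e3 : σ.pt (-1) 0 = σ.s.eval (-1) := by simp [Sec.pt]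
    have e4 : τ.pt (-1) 0 = τ.s.eval (-1) := by simp [Sec.pt]
    rw [e3, e4, hD, hDm1]
  have ne1 : ap f (σ.pt 1) 0 ≠ ap f (τ.pt 1) 0 := by
    intro h5
    have := inj_one hc hd h _ _ mσ1 mτ1 pσ1 pτ1 h5
    rw [this, sub_self] at x1
    exact mul_ne_zero two_ne_zero ha0 x1.symm
  have nem : ap f (σ.pt (-1)) 0 ≠ ap f (τ.pt (-1)) 0 := by
    intro h5
    have := inj_neg hc hd h _ _ mσm mτm pσm pτm h5
    rw [this, sub_self] at xm
    exact mul_ne_zero (sub_ne_zero.mpr (Ne.symm hw1)) hb0 xm.symm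
  have hQne : ∀ y, y ≠ 0 → Q.eval y ≠ 0 := by
    intro y hy hQy
    by_cases hy1 : y ^ 2 = 1
    · have hRy : R.eval y = 0 := by rw [hRQ, Polynomial.eval_mul, hQy, mul_zero]
      rw [hRe y hy] at hRy
      have hyN : y ^ N1 * y ^ N2 ≠ 0 := mul_ne_zero (pow_ne_zero _ hy) (pow_ne_zero _ hy)
      have h6 := (mul_eq_zero.mp hRy).resolve_right hyN
      rcases mul_eq_zero.mp (show (y - 1) * (y + 1) = 0 by linear_combination hy1) with h7 | h7
      · have : y = 1 := by linear_combination h7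
        rw [this] at h6
        exact ne1 (sub_eq_zero.mp h6)
      · have : y = -1 := by linear_combination h7
        rw [this] at h6
        exact nem (sub_eq_zero.mp h6)
    · have := congrArg (Polynomial.eval y) key2
      simp only [Polynomial.eval_mul, Polynomial.eval_pow, Polynomial.eval_X] at this
      rw [hQy, zero_mul, hSe y hy hy1] at this
      obtain ⟨m, b', hm, hmt⟩ := affine_on_fibre hc hd h y hy hy1
      rw [hmt, hmt] at this
      have e5 : m * 1 + b' - (m * 0 + b') = m := by ring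
      rw [e5] at this
      have hy2 : y * (y ^ 2 - 1) ≠ 0 := mul_ne_zero hy (sub_ne_zero.mpr hy1)
      exact mul_ne_zero (mul_ne_zero hm (mul_ne_zero (pow_ne_zero _ hy2) (pow_ne_zero _ hy2)))
        (mul_ne_zero (pow_ne_zero _ hy) (pow_ne_zero _ hy)) this.symm
  obtain ⟨k, n, hkn⟩ := monomial_of_no_root Q hQne
  have hk0 : k ≠ 0 := by
    intro h0
    apply hQne 1 one_ne_zero
    rw [hkn, h0, zero_mul]
  -- relation at 1
  have r1 : ap f (σ.pt 1) 0 - ap f (τ.pt 1) 0 = 2 * a * k := by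
    have e1 := hRe 1 one_ne_zero
    rw [hRQ, Polynomial.eval_mul, hDe, hD1, hkn] at e1
    simp only [one_pow, mul_one] at e1
    exact e1.symm
  have rm : (ap f (σ.pt (-1)) 0 - ap f (τ.pt (-1)) 0) ^ 2 = (-3 * w) * b ^ 2 * k ^ 2 := by
    have e1 := hRe (-1) hm1
    rw [hRQ, Polynomial.eval_mul, hDe, hDm1, hkn] at e1
    have s1 : (((-1 : ℂ)) ^ n) ^ 2 = 1 := by
      rw [← pow_mul, mul_comm, pow_mul]; norm_num
    have s2 : (((-1 : ℂ)) ^ N1) ^ 2 = 1 := by
      rw [← pow_mul, mul_comm, pow_mul]; norm_num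
    have s3 : (((-1 : ℂ)) ^ N2) ^ 2 = 1 := by
      rw [← pow_mul, mul_comm, pow_mul]; norm_num
    have e2 := congrArg (fun z => z ^ 2) e1
    have e3 : ((1 - w) * b * (k * (-1) ^ n)) ^ 2 = (1 - w) ^ 2 * b ^ 2 * k ^ 2 * ((-1) ^ n) ^ 2 := by
      ring
    have e4 : ((ap f (σ.pt (-1)) 0 - ap f (τ.pt (-1)) 0) * ((-1) ^ N1 * (-1) ^ N2)) ^ 2
        = (ap f (σ.pt (-1)) 0 - ap f (τ.pt (-1)) 0) ^ 2 * (((-1) ^ N1) ^ 2 * ((-1) ^ N2) ^ 2) := by
      ring
    rw [e3, e4, s1, s2, s3, hw2] at e2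
    linear_combination -e2
  -- values on the target
  have u1 := mem_one (hf _ mσ1) (one_to_one hc hd h _ mσ1 pσ1)
  have v1 := mem_one (hf _ mτ1) (one_to_one hc hd h _ mτ1 pτ1)
  have u2 := mem_neg_one (hf _ mσm) (neg_to_neg hc hd h _ mσm pσm)
  have v2 := mem_neg_one (hf _ mτm) (neg_to_neg hc hd h _ mτm pτm)
  set U1 := ap f (σ.pt 1) 0
  set V1 := ap f (τ.pt 1) 0
  set U2 := ap f (σ.pt (-1)) 0
  set V2 := ap f (τ.pt (-1)) 0
  have t1 : U1 + V1 = 0 := by
    have : (U1 - V1) * (U1 + V1) = 0 := by linear_combination u1 / 2 - v1 / 2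
    exact (mul_eq_zero.mp this).resolve_left (sub_ne_zero.mpr ne1)
  have t2 : d = c * k ^ 2 := by
    have e1 : 2 * U1 = 2 * a * k := by linear_combination r1 + t1
    have e2 : U1 = a * k := by linear_combination e1 / 2
    rw [e2] at u1
    linear_combination -u1 + k ^ 2 * ha
  have t3 : U2 ^ 2 + U2 * V2 + V2 ^ 2 = 0 := by
    have : (U2 - V2) * (U2 ^ 2 + U2 * V2 + V2 ^ 2) = 0 := by
      linear_combination (-1 / 2 : ℂ) * u2 + (1 / 2 : ℂ) * v2
    exact (mul_eq_zero.mp this).resolve_left (sub_ne_zero.mpr nem)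
  have t4 : (U2 - V2) ^ 2 = -3 * (U2 * V2) := by linear_combination t3
  have t5 : ((U2 - V2) ^ 2) ^ 3 = -27 * (d ^ 2 / 4) := by
    rw [t4]
    have e1 : U2 ^ 3 = -d / 2 := by linear_combination (-1 / 2 : ℂ) * u2
    have e2 : V2 ^ 3 = -d / 2 := by linear_combination (-1 / 2 : ℂ) * v2
    have e3 : (-3 * (U2 * V2)) ^ 3 = -27 * (U2 ^ 3 * V2 ^ 3) := by ring
    rw [e3, e1, e2]
    ring
  have t6 : ((U2 - V2) ^ 2) ^ 3 = -27 * (c ^ 2 / 4) * k ^ 6 := by
    rw [rm]
    have e3 : b ^ 3 = -c / 2 := by linear_combination (-1 / 2 : ℂ) * hb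
    have e4 : (-3 * w * b ^ 2 * k ^ 2) ^ 3 = -27 * w ^ 3 * (b ^ 3) ^ 2 * k ^ 6 := by ring
    rw [e4, hw3, e3]
    ring
  rw [t5, t2] at t6
  have t7 : c ^ 2 * k ^ 4 * (k ^ 2 - 1) = 0 := by linear_combination (4 / 27 : ℂ) * t6
  have t8 : c ^ 2 * k ^ 4 ≠ 0 := mul_ne_zero (pow_ne_zero _ hc) (pow_ne_zero _ hk0)
  have t9 := (mul_eq_zero.mp t7).resolve_left t8
  apply hcd
  rw [t2]
  linear_combination -c * t9


/-- The negation of the preceding statement: For every complex polynomial p in n variables whose zero set is contractible (Euclidean topology), there is a finite set S such that any two fibres p=c and p=d with c, d outside S are isomorphic affine varieties via polynomial maps. -/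
theorem result :
    ¬ (∀ (n : ℕ) (p : MvPolynomial (Fin n) ℂ),
      ContractibleSpace {x : Fin n → ℂ // MvPolynomial.eval x p = 0} →
      ∃ S : Finset ℂ, ∀ c d : ℂ, c ∉ S → d ∉ S →
        ∃ f g : Fin n → MvPolynomial (Fin n) ℂ,
          (∀ x : Fin n → ℂ, MvPolynomial.eval x p = c →
              MvPolynomial.eval (fun i => MvPolynomial.eval x (f i)) p = d ∧
              (fun j => MvPolynomial.eval (fun i => MvPolynomial.eval x (f i)) (g j)) = x) ∧
          (∀ y : Fin n → ℂ, MvPolynomial.eval y p = d →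
              MvPolynomial.eval (fun i => MvPolynomial.eval y (g i)) p = c ∧
              (fun j => MvPolynomial.eval (fun i => MvPolynomial.eval y (g i)) (f j)) = y)) := by
  intro H
  obtain ⟨S, hS⟩ := H 3 P contr
  obtain ⟨c, hc⟩ := Infinite.exists_notMem_finset (S ∪ {0, -27 / 32})
  obtain ⟨d, hd⟩ := Infinite.exists_notMem_finset (S ∪ {0, c})
  simp only [Finset.mem_union, Finset.mem_insert, Finset.mem_singleton, not_or] at hc hd
  obtain ⟨f, g, h1, h2⟩ := hS c d hc.1 hd.1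
  refine no_iso hc.2.1 hd.2.1 (Ne.symm hd.2.2) ?_ (f := f) (g := g) ⟨h1, h2⟩
  intro h
  exact hc.2.2 (by linear_combination h / 32)

end Pool.Agent.S00170
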