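import Pool.Statements.S00618
import Pool.Agent.H7.Han.Fin

set_option autoImplicit false
open Classical
open Pool Pool.MP_047434_al

namespace Pool.Agent.S00618

theorem result :
    ¬ (∀ k : ℕ, 4 ≤ k → ∀ ε : ℝ, 0 < ε →
      ∃ F : Finset ((ℕ → Fin k) → (ℕ → Fin k)),
        F.Nonempty ∧
        (∀ f ∈ F, ∀ S : Set ((ℕ → Fin k) → (ℕ → Fin k)), id ∈ S →
          (∀ i j : Fin k, ∀ g ∈ S,
            (fun (x : ℕ → Fin k) (t : ℕ) =>
              if ∀ s < t, x s ≠ i ∧ x s ≠ j then Equiv.swap i j (x t) else x t) ∘ g ∈ S) →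
          f ∈ S) ∧
        ∀ i j : Fin k, i ≠ j →
          ((F.filter (fun f =>
              (fun (x : ℕ → Fin k) (t : ℕ) =>
                if ∀ s < t, x s ≠ i ∧ x s ≠ j then Equiv.swap i j (x t) else x t) ∘ f ∉ F)).card : ℝ)
            < ε * F.card) := by
  intro h
  exact Pool.Han.no_folner (Pool.Han.folner_G (h 5 (by norm_num)))

end Pool.Agent.S00618
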