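import Pool.Statements.S01061

set_option autoImplicit false
open Pool Pool.MP_2d5453_al
open scoped commutatorElement

namespace Pool.Agent.S01061

/-- The generalised dihedral group of the additive group `ℕ → ZMod 4`. -/
@[ext] structure D where
  s : ℤˣ
  b : ℕ → ZMod 4

namespace D

instance : Mul D := ⟨fun x y => ⟨x.s * y.s, x.b + x.s • y.b⟩⟩
instance : One D := ⟨⟨1, 0⟩⟩
instance : Inv D := ⟨fun x => ⟨x.s, -(x.s • x.b)⟩⟩

theorem mul_s (x y : D) : (x * y).s = x.s * y.s := rfl
theorem mul_b (x y : D) : (x * y).b = x.b + x.s • y.b := rfl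
theorem one_s : (1 : D).s = 1 := rfl
theorem one_b : (1 : D).b = 0 := rfl
theorem inv_s (x : D) : (x⁻¹).s = x.s := rfl
theorem inv_b (x : D) : (x⁻¹).b = -(x.s • x.b) := rfl

instance : Group D := Group.ofLeftAxioms
  (by
    intro x y z
    ext1
    · simp only [mul_s, mul_assoc]
    · simp only [mul_s, mul_b, mul_smul, smul_add, add_assoc])
  (by
    intro x
    ext1
    · simp only [mul_s, one_s, one_mul]
    · simp only [mul_b, one_b, one_s, one_smul, zero_add])
  (by
    intro x
    ext1
    · simp only [mul_s, inv_s, one_s, Int.units_mul_self]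
    · simp only [mul_b, inv_b, inv_s, one_b, neg_add_cancel])

theorem two_smul_two (b : ℕ → ZMod 4) : b + b + b + b = 0 := by
  funext i
  have : ∀ z : ZMod 4, z + z + z + z = 0 := by decide
  exact this (b i)

theorem cases_s (x : D) : x.s = 1 ∨ x.s = -1 := Int.units_eq_one_or x.s

/-- Elements outside the abelian part are involutions. -/
theorem sq_of_neg (g : D) (hg : g.s = -1) : g * g = 1 := by
  ext1
  · rw [mul_s, hg, one_s]; decide
  · rw [mul_b, hg, one_b]; simp

theorem pow4 (g : D) : g * g * (g * g) = 1 := by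
  rcases cases_s g with hg | hg
  · ext1
    · simp only [mul_s, hg, one_s, mul_one]
    · simp only [mul_b, mul_s, hg, one_smul, mul_one, one_b]
      have := two_smul_two g.b
      rw [← this]; abel
  · rw [sq_of_neg g hg, one_mul]

/-- The commutator of `x` and `g` is either trivial or the square of `g`,
unless `g` is an involution. -/
theorem comm_cases (x g : D) :
    g * g = 1 ∨ x⁻¹ * g⁻¹ * x * g = 1 ∨ x⁻¹ * g⁻¹ * x * g = g * g := by
  rcases cases_s g with hg | hg
  · right
    rcases cases_s x with hx | hx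
    · left
      ext1
      · simp only [mul_s, inv_s, hg, hx, one_s, mul_one]
      · simp only [mul_b, mul_s, inv_b, inv_s, hg, hx, one_smul, mul_one, one_b]
        abel
    · right
      ext1
      · simp only [mul_s, inv_s, hg, hx, mul_one]; decide
      · simp only [mul_b, mul_s, inv_b, inv_s, hg, hx, one_smul, mul_one, Units.neg_smul,
          neg_neg, smul_neg]
        simp
  · left
    exact sq_of_neg g hg

/-- Commutators are central. -/
theorem comm_central (x g y : D) : (x⁻¹ * g⁻¹ * x * g) * y = y * (x⁻¹ * g⁻¹ * x * g) := by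
  ext1
  · simp only [mul_s, inv_s]
    exact mul_comm _ _
  · rcases cases_s g with hg | hg <;> rcases cases_s x with hx | hx <;>
    rcases cases_s y with hy | hy <;>
    (simp only [mul_b, mul_s, inv_b, inv_s, hg, hx, hy, one_smul, mul_one, Units.neg_smul,
          neg_neg, smul_neg, mul_neg, smul_add]
     funext i
     simp only [Pi.add_apply, Pi.neg_apply]
     generalize x.b i = a
     generalize g.b i = b
     generalize y.b i = c
     have h4 : (4 : ZMod 4) = 0 := by decide
     first
       | ring1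
       | linear_combination b * h4
       | linear_combination (-a) * h4
       | linear_combination (a - b) * h4)

/-- The reflection. -/
def t : D := ⟨-1, 0⟩

/-- The square of the `i`-th generator of the abelian part. -/
def β (i : ℕ) : D := ⟨1, Pi.single i 2⟩

end D

/-- The wreath-type group: functions `D → ZMod 2` extended by `D`. -/
@[ext] structure W where
  a : D → ZMod 2
  g : D

namespace W

instance : Mul W := ⟨fun x y => ⟨fun p => x.a p + y.a (p * x.g), x.g * y.g⟩⟩
instance : One W := ⟨⟨fun _ => 0, 1⟩⟩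
instance : Inv W := ⟨fun x => ⟨fun p => x.a (p * x.g⁻¹), x.g⁻¹⟩⟩

theorem mul_a (x y : W) (p : D) : (x * y).a p = x.a p + y.a (p * x.g) := rfl
theorem mul_g (x y : W) : (x * y).g = x.g * y.g := rfl
theorem one_a (p : D) : (1 : W).a p = 0 := rfl
theorem one_g : (1 : W).g = 1 := rfl
theorem inv_a (x : W) (p : D) : (x⁻¹).a p = x.a (p * x.g⁻¹) := rfl
theorem inv_g (x : W) : (x⁻¹).g = x.g⁻¹ := rfl

theorem ext' {x y : W} (h₁ : ∀ p, x.a p = y.a p) (h₂ : x.g = y.g) : x = y :=
  W.ext (funext h₁) h₂

theorem add_self2 (z : ZMod 2) : z + z = 0 := by revert z; decide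

instance : Group W := Group.ofLeftAxioms
  (by
    intro x y z
    refine ext' (fun p => ?_) ?_
    · simp only [mul_a, mul_g, mul_assoc, add_assoc]
    · simp only [mul_g, mul_assoc])
  (by
    intro x
    refine ext' (fun p => ?_) ?_
    · simp only [mul_a, one_a, one_g, mul_one, zero_add]
    · simp only [mul_g, one_g, one_mul])
  (by
    intro x
    refine ext' (fun p => ?_) ?_
    · simp only [mul_a, inv_a, inv_g, one_a, add_self2]
    · simp only [mul_g, inv_g, one_g, inv_mul_cancel])

/-- The projection to `D`. -/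
def proj : W →* D where
  toFun := W.g
  map_one' := rfl
  map_mul' _ _ := rfl

/-- The sign of an element of `D`. -/
def sgn : D →* ℤˣ where
  toFun := D.s
  map_one' := rfl
  map_mul' _ _ := rfl

instance solvD : Group.IsSolvable D := by
  have h1 : Group.IsSolvable sgn.ker := by
    apply Group.isSolvable_of_comm
    rintro ⟨x, hx⟩ ⟨y, hy⟩
    have hx' : x.s = 1 := hx
    have hy' : y.s = 1 := hy
    apply Subtype.ext
    change x * y = y * x
    ext1
    · simp only [D.mul_s, hx', hy']
    · simp only [D.mul_b, hx', hy', one_smul, add_comm]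
  exact Group.isSolvable_of_ker_le_range sgn.ker.subtype sgn (by simp)

instance solvW : Group.IsSolvable W := by
  have h1 : Group.IsSolvable proj.ker := by
    apply Group.isSolvable_of_comm
    rintro ⟨x, hx⟩ ⟨y, hy⟩
    have hx' : x.g = 1 := hx
    have hy' : y.g = 1 := hy
    apply Subtype.ext
    change x * y = y * x
    refine ext' (fun p => ?_) ?_
    · simp only [mul_a, hx', hy', mul_one, add_comm]
    · simp only [mul_g, hx', hy']
  exact Group.isSolvable_of_ker_le_range proj.ker.subtype proj (by simp)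

theorem sq_of_g (z : W) (hz : z.g = 1) : z * z = 1 := by
  refine ext' (fun p => ?_) ?_
  · simp only [mul_a, hz, mul_one, add_self2, one_a]
  · simp only [mul_g, hz, mul_one, one_g]

theorem pgroup : IsPGroup 2 W := by
  intro x
  refine ⟨3, ?_⟩
  have h : (x * x * (x * x)).g = 1 := D.pow4 x.g
  have h2 := sq_of_g _ h
  have h3 : x ^ 2 ^ 3 = x * x * (x * x) * (x * x * (x * x)) := by
    norm_num [pow_succ, mul_assoc]
  rw [h3, h2]

/-- The commutator with `y`. -/
def C (y : W) : W → W := fun z => z⁻¹ * y⁻¹ * z * y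

theorem C_g (y z : W) : (C y z).g = z.g⁻¹ * y.g⁻¹ * z.g * y.g := rfl

theorem C_a (y z : W) (p : D) :
    (C y z).a p = z.a (p * z.g⁻¹) + y.a (p * z.g⁻¹ * y.g⁻¹) + z.a (p * (z.g⁻¹ * y.g⁻¹))
      + y.a (p * (z.g⁻¹ * y.g⁻¹ * z.g)) := rfl

theorem C_g_one (y z : W) (hz : z.g = 1) : (C y z).g = 1 := by
  rw [C_g, hz]; group

theorem C_a_one (y z : W) (hz : z.g = 1) (p : D) :
    (C y z).a p = z.a p + z.a (p * y.g⁻¹) := by
  rw [C_a, hz]
  simp only [inv_one, mul_one, one_mul]
  have := add_self2 (y.a (p * y.g⁻¹))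
  linear_combination this

theorem engel (x y : W) : (C y)^[5] x = 1 := by
  set c1 := C y x with hc1
  set c2 := C y c1 with hc2
  set c3 := C y c2 with hc3
  set c4 := C y c3 with hc4
  set c5 := C y c4 with hc5
  change c5 = 1
  set g := y.g with hg
  set h := c1.g with hh
  have hcomm : ∀ d : D, h * d = d * h := fun d => D.comm_central x.g y.g d
  have g2 : c2.g = 1 := by
    rw [hc2, C_g, ← hh, ← hg, mul_assoc, mul_assoc]
    rw [hcomm g]; group
  have g3 : c3.g = 1 := C_g_one y c2 g2
  have g4 : c4.g = 1 := C_g_one y c3 g3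
  have g5 : c5.g = 1 := C_g_one y c4 g4
  refine ext' (fun p => ?_) g5
  rw [one_a]
  have a2 : ∀ q, c2.a q = c1.a (q * h⁻¹) + c1.a (q * h⁻¹ * g⁻¹) + y.a (q * h⁻¹ * g⁻¹)
      + y.a (q * g⁻¹) := by
    intro q
    rw [hc2, C_a, ← hh, ← hg]
    have e : q * (h⁻¹ * g⁻¹ * h) = q * g⁻¹ := by
      have := hcomm (g⁻¹)
      rw [mul_assoc h⁻¹, ← this]; group
    rw [e, ← mul_assoc]
    ring
  have a3 : ∀ q, c3.a q = c2.a q + c2.a (q * g⁻¹) := fun q => C_a_one y c2 g2 q
  have a4 : ∀ q, c4.a q = c3.a q + c3.a (q * g⁻¹) := fun q => C_a_one y c3 g3 q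
  have a5 : ∀ q, c5.a q = c4.a q + c4.a (q * g⁻¹) := fun q => C_a_one y c4 g4 q
  have two : ∀ z : ZMod 2, 2 * z = 0 := by decide
  have b5 : c5.a p = c2.a p + c2.a (p * g⁻¹) + c2.a (p * g⁻¹ * g⁻¹)
      + c2.a (p * g⁻¹ * g⁻¹ * g⁻¹) := by
    rw [a5, a4, a4, a3, a3, a3]
    linear_combination two (c2.a (p * g⁻¹)) + two (c2.a (p * g⁻¹ * g⁻¹))
  have c4 : ∀ q : D, q * g⁻¹ * g⁻¹ * g⁻¹ * g⁻¹ = q := by
    intro q
    have h1 := D.pow4 g⁻¹
    simp only [mul_assoc] at h1 ⊢
    rw [h1, mul_one]
  have hc : ∀ q : D, q * g⁻¹ * h⁻¹ = q * h⁻¹ * g⁻¹ := by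
    intro q
    have h1 := hcomm g
    rw [mul_assoc, mul_assoc, ← mul_inv_rev, ← mul_inv_rev, h1]
  rw [b5, a2, a2, a2, a2]
  simp only [hc]
  simp only [c4]
  -- the remaining sum
  rcases D.comm_cases x.g g with h1 | h1 | h1
  · -- `g` is an involution
    have hinv : ∀ q : D, q * g⁻¹ * g⁻¹ = q := by
      intro q
      rw [mul_assoc, ← mul_inv_rev, h1]; group
    simp only [hinv]
    linear_combination two (c1.a (p * h⁻¹)) * 2 + two (c1.a (p * h⁻¹ * g⁻¹)) * 2
      + two (y.a (p * h⁻¹ * g⁻¹)) + two (y.a (p * g⁻¹)) + two (y.a p) + two (y.a (p * h⁻¹))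
  · have h2 : h = 1 := h1
    simp only [h2, inv_one, mul_one]
    ring_nf
    reduce_mod_char
  · have h2 : h⁻¹ = g⁻¹ * g⁻¹ := by
      have : h = g * g := h1
      rw [this, mul_inv_rev]
    simp only [h2, ← mul_assoc]
    simp only [c4]
    ring_nf
    reduce_mod_char

/-- The delta function at the identity, as an element of the base group. -/
noncomputable def dl : W := ⟨fun p => by classical exact if p = 1 then 1 else 0, 1⟩

/-- The reflection inside `W`. -/
def tt : W := ⟨fun _ => 0, D.t⟩

/-- The generators of the abelian part inside `W`. -/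
def bb (i : ℕ) : W := ⟨fun _ => 0, ⟨1, Pi.single i 1⟩⟩

/-- The base-group elements used to witness non-nilpotency. -/
noncomputable def u : ℕ → W
  | 0 => ⁅dl, tt⁆
  | n + 1 => ⁅u n, ⁅tt, bb n⁆⁆

theorem comm_tb (i : ℕ) : ⁅tt, bb i⁆ = ⟨fun _ => 0, D.β i⟩ := by
  rw [commutatorElement_def]
  refine ext' (fun p => ?_) ?_
  · simp only [mul_a, inv_a]
    simp only [tt, bb, add_zero]
  · simp only [mul_g, inv_g]
    simp only [tt, bb, D.t, D.β]
    ext1
    · simp only [D.mul_s, D.inv_s]; decide
    · simp only [D.mul_b, D.mul_s, D.inv_b, D.inv_s]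
      funext j
      have h2 : (-1 : ZMod 4) + -1 = 2 := by decide
      rcases eq_or_ne j i with rfl | hj
      · simp [h2]
      · simp [hj]

theorem u_g (n : ℕ) : (u n).g = 1 := by
  induction n with
  | zero =>
    change (⁅dl, tt⁆ : W).g = 1
    rw [commutatorElement_def]
    simp only [mul_g, inv_g]
    have : dl.g = 1 := rfl
    rw [this]; group
  | succ n ih =>
    change (⁅u n, ⁅tt, bb n⁆⁆ : W).g = 1
    rw [commutatorElement_def]
    simp only [mul_g, inv_g, ih]
    group

theorem u_zero (p : D) : (u 0).a p = dl.a p + dl.a (p * D.t) := by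
  change (⁅dl, tt⁆ : W).a p = _
  rw [commutatorElement_def]
  have h1 : dl.g = 1 := rfl
  have h2 : tt.g = D.t := rfl
  have h3 : ∀ q, tt.a q = 0 := fun _ => rfl
  simp only [mul_a, inv_a, mul_g, inv_g, h1, h2, h3, mul_one, one_mul, inv_one, add_zero]

theorem u_succ (n : ℕ) (p : D) : (u (n + 1)).a p = (u n).a p + (u n).a (p * D.β n) := by
  change (⁅u n, ⁅tt, bb n⁆⁆ : W).a p = _
  rw [comm_tb, commutatorElement_def]
  simp only [mul_a, inv_a, mul_g, inv_g, u_g, mul_one, one_mul, inv_one, add_zero]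

theorem t_s (p : D) : (p * D.t).s = -p.s := by
  rw [D.mul_s]; simp [D.t]

theorem t_b (p : D) : (p * D.t).b = p.b := by
  rw [D.mul_b]; simp [D.t]

theorem beta_b (p : D) (n i : ℕ) : (p * D.β n).b i = if i = n then p.b i + 2 else p.b i := by
  rw [D.mul_b]
  have h2 : -(2 : ZMod 4) = 2 := by decide
  rcases D.cases_s p with hp | hp <;> rw [hp] <;> split_ifs with h <;>
    simp [D.β, h, h2]

theorem u_supp (n : ℕ) : ∀ (p : D) (i : ℕ), n ≤ i → p.b i ≠ 0 → (u n).a p = 0 := by
  induction n with
  | zero =>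
    intro p i _ hp
    rw [u_zero]
    have h1 : p ≠ 1 := by
      rintro rfl; exact hp rfl
    have h2 : p * D.t ≠ 1 := by
      intro h
      apply hp
      have := t_b p
      rw [← this, h]; rfl
    simp [dl, h1, h2]
  | succ n ih =>
    intro p i hi hp
    rw [u_succ, ih p i (by omega) hp, ih (p * D.β n) i (by omega) ?_, add_zero]
    rw [beta_b, if_neg (by omega)]
    exact hp

theorem u_one (n : ℕ) : (u n).a 1 = 1 := by
  induction n with
  | zero =>
    rw [u_zero]
    have h2 : (1 : D) * D.t ≠ 1 := by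
      intro h
      have := congrArg D.s h
      rw [t_s] at this
      revert this
      rw [D.one_s]; decide
    simp only [dl]
    rw [if_pos trivial, if_neg h2, add_zero]
  | succ n ih =>
    rw [u_succ, ih, u_supp n (1 * D.β n) n le_rfl ?_, add_zero]
    rw [beta_b, if_pos rfl, D.one_b]
    change (0 : ZMod 4) + 2 ≠ 0
    decide

theorem not_fitting : ¬ (∀ g : W, ∃ N : Subgroup W, N.Normal ∧ Group.IsNilpotent N ∧ g ∈ N) := by
  intro H
  obtain ⟨N, hN, hnil, hmem⟩ := H tt
  have hb : ∀ i, ⁅tt, bb i⁆ ∈ N := by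
    intro i
    rw [commutatorElement_def]
    have : tt * bb i * tt⁻¹ * (bb i)⁻¹ = tt * (bb i * tt⁻¹ * (bb i)⁻¹) := by group
    rw [this]
    exact N.mul_mem hmem (hN.conj_mem _ (N.inv_mem hmem) _)
  have h0 : ⁅dl, tt⁆ ∈ N := by
    rw [commutatorElement_def]
    exact N.mul_mem (hN.conj_mem _ hmem _) (N.inv_mem hmem)
  have hu : ∀ n, u n ∈ N.lowerCentralSeries n := by
    intro n
    induction n with
    | zero => exact h0
    | succ n ih => exact Subgroup.commutator_mem_commutator ih (hb n)
  obtain ⟨n, hn⟩ := (Subgroup.isNilpotent_iff_lowerCentralSeries N).mp hnil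
  have h1 := hu n
  rw [hn, Subgroup.mem_bot] at h1
  have h2 := u_one n
  rw [h1, one_a] at h2
  exact absurd h2 (by decide)

end W

/-- There is a soluble group in which every element has 2-power order and every commutator [x,y,y,y,y,y] is trivial, but some element lies in no normal nilpotent subgroup, so the group is not a Fitting group. -/
theorem result :
    ∃ (G : Type) (_ : Group G),
      IsSolvable G ∧
      IsPGroup 2 G ∧
      (∀ x y : G, (fun z : G => z⁻¹ * y⁻¹ * z * y)^[5] x = 1) ∧
      ¬ (∀ g : G, ∃ N : Subgroup G, N.Normal ∧ Group.IsNilpotent N ∧ g ∈ N) := by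
  exact ⟨W, inferInstance, W.solvW, W.pgroup, fun x y => W.engel x y, W.not_fitting⟩

end Pool.Agent.S01061
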