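import Pool.Statements.S01357
import Pool.Agent.H10.CM.Main

set_option autoImplicit false
open Pool Pool.MP_47888e_al

namespace Pool.Agent.S01357

/-- For every n and complex polynomials f, g in n variables: if f^m has zero integral over the unit cube [0,1]^n for all large m, then f^m·g also has zero integral over the cube for all large m. -/
theorem result :
    ∀ n : ℕ, ∀ f g : MvPolynomial (Fin n) ℂ,
      (∃ N : ℕ, ∀ m : ℕ, N ≤ m →
        ∫ x in Set.Icc (0 : Fin n → ℝ) 1,
          MvPolynomial.eval (fun i => ((x i : ℝ) : ℂ)) (f ^ m) = 0) →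
      ∃ N : ℕ, ∀ m : ℕ, N ≤ m →
        ∫ x in Set.Icc (0 : Fin n → ℝ) 1,
          MvPolynomial.eval (fun i => ((x i : ℝ) : ℂ)) (f ^ m * g) = 0 :=
  Pool.CM.s01357_of_core Pool.CM.core_all

end Pool.Agent.S01357
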