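import Pool.Statements.S01901
import Pool.Agent.H8.Asm

set_option autoImplicit false
open Pool Pool.MP_72c4d0_al

namespace Pool.Agent.S01901

/-- Let F be a free pro-p group of finite rank and Z_p act faithfully and continuously on F by automorphisms. Then the subgroup of elements fixed by the action is topologically generated by finitely many elements. -/
theorem result :
    ∀ (p : ℕ) [Fact (Nat.Prime p)] (n : ℕ) (F : Type) [Group F] [TopologicalSpace F]
      [IsTopologicalGroup F] [CompactSpace F] [T2Space F] [TotallyDisconnectedSpace F]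
      (ι : Fin n → F),
      (∀ N : Subgroup F, N.Normal → IsOpen (N : Set F) → ∃ k : ℕ, N.index = p ^ k) →
      (∀ (P : Type) [Group P] [Fintype P], (∃ k : ℕ, Fintype.card P = p ^ k) →
        ∀ f : Fin n → P, ∃! g : F →* P,
          (∀ y : P, IsOpen ((g : F → P) ⁻¹' {y})) ∧ ∀ i, g (ι i) = f i) →
      ∀ φ : Multiplicative ℤ_[p] →* MulAut F,
        Continuous (fun q : ℤ_[p] × F => φ (Multiplicative.ofAdd q.1) q.2) →
        Function.Injective φ →
        ∃ S : Finset F,
          closure ((Subgroup.closure (S : Set F) : Subgroup F) : Set F) =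
            {x : F | ∀ a : Multiplicative ℤ_[p], φ a x = x} := by
  intro p _ n F _ _ _ _ _ _ ι h1 h2 φ hφ _
  exact Pool.H8.fg_fixed (p := p) (x := ι) ⟨h1, h2⟩ φ hφ

end Pool.Agent.S01901
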