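import Pool.Statements.S03023
import Pool.Agent.H13.HS.Final

set_option autoImplicit false
open Pool Pool.MP_c8f462_al

namespace Pool.Agent.S03023

/-- For every field k and every numerical semigroup with minimal generators g0<…<ge, the minimal number of generators of the tangent-cone ideal (initial forms of the toric ideal) is at most binomial(ge−g0+1, 2). -/
theorem result :
    ∀ (k : Type) [Field k] (e : ℕ) (g : Fin (e + 1) → ℕ),
      StrictMono g →
      Finset.univ.gcd g = 1 →
      (∀ i, g i ∉ AddSubmonoid.closure (g '' {j | j ≠ i})) →
      ∀ Istar : Ideal (MvPolynomial (Fin (e + 1)) k),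
        Istar = Ideal.span {h : MvPolynomial (Fin (e + 1)) k |
          ∃ f ∈ RingHom.ker (MvPolynomial.aeval
              (fun i : Fin (e + 1) => (Polynomial.X : Polynomial k) ^ g i)),
            ∃ n : ℕ, MvPolynomial.homogeneousComponent n f = h ∧
              ∀ m < n, MvPolynomial.homogeneousComponent m f = 0} →
        Module.finrank k
            (↥Istar ⧸ ((Ideal.span (Set.range
                (MvPolynomial.X : Fin (e + 1) → MvPolynomial (Fin (e + 1)) k))) •
              (⊤ : Submodule (MvPolynomial (Fin (e + 1)) k) ↥Istar)))
          ≤ Nat.choose (g (Fin.last e) - g 0 + 1) 2 := by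
  intro k _ e g hg hgcd hmin Istar hI
  exact Pool.Agent.H13.HS.herzog_stamate k e g hg hgcd hmin Istar hI

end Pool.Agent.S03023
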