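import Pool.Statements.S03142
import Pool.Agent.H14.Dio.Red
import Pool.Agent.H48.MRDP.Bas
import Pool.Agent.H48.MRDP.Prim

set_option autoImplicit false
open Pool Pool.MP_d1ce81_al

namespace Pool.Agent.S03142

/-- Translation between the two types of basic equations. -/
def conv : Pool.Agent.H48.MRDP.Bas → Pool.Agent.H14.Dio.Bas
  | .one i => .one i
  | .add i j k => .add i j k
  | .mul i j k => .mul i j k

/-- A list of basic equations over the natural numbers with a non-computable projection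
(unsolvability of Hilbert's tenth problem). -/
theorem exists_list : ∃ L : List Pool.Agent.H14.Dio.Bas,
    ¬ ComputablePred fun n : ℕ => ∃ x : ℕ → ℕ, x 0 = n ∧ ∀ e ∈ L, e.holds x := by
  obtain ⟨S, hS, hD⟩ := Pool.Agent.H48.MRDP.exists_dioph_not_computable
  obtain ⟨L, hL⟩ := Pool.Agent.H48.MRDP.exists_bas S hD
  refine ⟨L.map conv, fun h => hS (h.of_eq fun n => ?_)⟩
  rw [hL n]
  refine exists_congr fun x => and_congr_right fun _ => ?_
  simp only [List.mem_map, forall_exists_index, and_imp, forall_apply_eq_imp_iff₂]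
  refine forall₂_congr fun e _ => ?_
  cases e <;> rfl

theorem primrec_sys (L : List Pool.Agent.H14.Dio.Bas) :
    Primrec (Pool.Agent.H14.Dio.sys L) := by
  unfold Pool.Agent.H14.Dio.sys
  refine Primrec.list_cons.comp ?_ (Primrec.const _)
  refine Primrec.pair (Primrec.const _) ?_
  have h : (fun n : ℕ => List.replicate n (Sum.inl 2 : Fin 3 ⊕ ℕ)) =
      fun n => (List.range n).map (fun _ => (Sum.inl 2 : Fin 3 ⊕ ℕ)) := by
    funext n
    simp [List.map_const]
  rw [h]
  exact Primrec.list_map Primrec.list_range (Primrec.const _).to₂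

/-- The negation of the preceding statement: For every finite alphabet and word w, if the group of units of the monoid ⟨A ∣ w=1⟩ has a finite generating set for which solvability of finite equation systems is computable, then solvability of finite equation systems over the monoid is computable. -/
theorem result :
    ¬ (∀ (n : ℕ) (w : List (Fin n)),
    (∃ (k : ℕ) (g : Fin k → ((conGen (fun x y : FreeMonoid (Fin n) => x = FreeMonoid.ofList w ∧ y = 1)).Quotient)ˣ),
      Subgroup.closure (Set.range g) = ⊤ ∧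
      ComputablePred (fun S : List (List ((Fin k ⊕ ℕ) × Bool) × List ((Fin k ⊕ ℕ) × Bool)) =>
        ∃ σ : ℕ → ((conGen (fun x y : FreeMonoid (Fin n) => x = FreeMonoid.ofList w ∧ y = 1)).Quotient)ˣ,
          ∀ e ∈ S,
            (e.1.map (fun p => if p.2 = true then Sum.elim g σ p.1 else (Sum.elim g σ p.1)⁻¹)).prod =
            (e.2.map (fun p => if p.2 = true then Sum.elim g σ p.1 else (Sum.elim g σ p.1)⁻¹)).prod)) →
    ComputablePred (fun S : List (List (Fin n ⊕ ℕ) × List (Fin n ⊕ ℕ)) =>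
      ∃ σ : ℕ → (conGen (fun x y : FreeMonoid (Fin n) => x = FreeMonoid.ofList w ∧ y = 1)).Quotient,
        ∀ e ∈ S,
          (e.1.map (Sum.elim (fun a => (conGen (fun x y : FreeMonoid (Fin n) => x = FreeMonoid.ofList w ∧ y = 1)).mk' (FreeMonoid.of a)) σ)).prod =
          (e.2.map (Sum.elim (fun a => (conGen (fun x y : FreeMonoid (Fin n) => x = FreeMonoid.ofList w ∧ y = 1)).mk' (FreeMonoid.of a)) σ)).prod)) := by
  intro H
  have hsub : Subsingleton
      ((conGen (fun x y : FreeMonoid (Fin 3) =>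
        x = FreeMonoid.ofList Pool.Agent.H14.Dio.w6 ∧ y = 1)).Quotient)ˣ :=
    ⟨fun x y => (Pool.Agent.H14.Dio.units_eq_one x).trans (Pool.Agent.H14.Dio.units_eq_one y).symm⟩
  have h := H 3 Pool.Agent.H14.Dio.w6 ⟨0, Fin.elim0, Subsingleton.elim _ _, by
    refine ⟨fun _ => isTrue ⟨fun _ => 1, fun e _ => Subsingleton.elim _ _⟩, ?_⟩
    have : (fun _ : List (List ((Fin 0 ⊕ ℕ) × Bool) × List ((Fin 0 ⊕ ℕ) × Bool)) => true) = _ := rfl
    exact Computable.const true⟩
  obtain ⟨L, hL⟩ := exists_list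
  apply hL
  obtain ⟨hd, hc⟩ := h
  have hiff : ∀ n : ℕ, (∃ x : ℕ → ℕ, x 0 = n ∧ ∀ e ∈ L, e.holds x) ↔
      (∃ σ : ℕ → (conGen (fun x y : FreeMonoid (Fin 3) =>
        x = FreeMonoid.ofList Pool.Agent.H14.Dio.w6 ∧ y = 1)).Quotient,
        ∀ e ∈ Pool.Agent.H14.Dio.sys L n,
          (e.1.map (Sum.elim (fun a => (conGen (fun x y : FreeMonoid (Fin 3) =>
            x = FreeMonoid.ofList Pool.Agent.H14.Dio.w6 ∧ y = 1)).mk' (FreeMonoid.of a)) σ)).prod =
          (e.2.map (Sum.elim (fun a => (conGen (fun x y : FreeMonoid (Fin 3) =>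
            x = FreeMonoid.ofList Pool.Agent.H14.Dio.w6 ∧ y = 1)).mk' (FreeMonoid.of a)) σ)).prod) :=
    fun n => (Pool.Agent.H14.Dio.solvable_iff L n).symm
  have h2 : ComputablePred fun n : ℕ => (∃ σ : ℕ → (conGen (fun x y : FreeMonoid (Fin 3) =>
        x = FreeMonoid.ofList Pool.Agent.H14.Dio.w6 ∧ y = 1)).Quotient,
        ∀ e ∈ Pool.Agent.H14.Dio.sys L n,
          (e.1.map (Sum.elim (fun a => (conGen (fun x y : FreeMonoid (Fin 3) =>
            x = FreeMonoid.ofList Pool.Agent.H14.Dio.w6 ∧ y = 1)).mk' (FreeMonoid.of a)) σ)).prod =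
          (e.2.map (Sum.elim (fun a => (conGen (fun x y : FreeMonoid (Fin 3) =>
            x = FreeMonoid.ofList Pool.Agent.H14.Dio.w6 ∧ y = 1)).mk' (FreeMonoid.of a)) σ)).prod) :=
    ⟨fun n => hd _, hc.comp (primrec_sys L).to_comp⟩
  exact h2.of_eq (fun n => (hiff n).symm)

end Pool.Agent.S03142
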