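import Pool.Statements.S03590

set_option autoImplicit false
open Pool Pool.MP_f85ae1_al

namespace Pool.Agent.S03590

/-- Chain rule for substituting univariate polynomials into a multivariate polynomial. -/
theorem chain {σ : Type} [Fintype σ] {k : Type} [Field k] (g : σ → Polynomial k)
    (f : MvPolynomial σ k) :
    Polynomial.derivative (MvPolynomial.aeval g f) =
      ∑ i : σ, MvPolynomial.aeval g (MvPolynomial.pderiv i f) * Polynomial.derivative (g i) := by
  classical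
  induction f using MvPolynomial.induction_on with
  | C a => simp
  | add p q hp hq =>
    simp only [map_add, hp, hq, add_mul, Finset.sum_add_distrib]
  | mul_X p i hp =>
    simp only [map_mul, MvPolynomial.aeval_X, Polynomial.derivative_mul, hp,
      MvPolynomial.pderiv_mul, map_add, add_mul, Finset.sum_add_distrib,
      MvPolynomial.pderiv_X, Pi.single_apply]
    congr 1
    · rw [Finset.sum_mul]
      refine Finset.sum_congr rfl fun j _ => ?_
      ring
    · rw [Finset.sum_eq_single i]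
      · simp
      · intro j _ hj
        simp [Ne.symm hj]
      · simp

/-- The matrices of the group `G_m ⋉ W_2` inside `3 × 3` matrices, in characteristic two. -/
def IsG {k : Type} [Field k] (A : Matrix (Fin 3) (Fin 3) k) : Prop :=
  A 1 0 = 0 ∧ A 2 0 = 0 ∧ A 2 1 = 0 ∧ A 2 2 = 1 ∧ A 0 0 = A 1 1 ^ 2 ∧ A 0 1 = A 1 1 * A 1 2

theorem isG_mul {k : Type} [Field k] (A B : Matrix (Fin 3) (Fin 3) k) (hA : IsG A) (hB : IsG B) :
    IsG (A * B) := by
  obtain ⟨a1, a2, a3, a4, a5, a6⟩ := hA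
  obtain ⟨b1, b2, b3, b4, b5, b6⟩ := hB
  refine ⟨?_, ?_, ?_, ?_, ?_, ?_⟩ <;>
    simp only [Matrix.mul_apply, Fin.sum_univ_three, a1, a2, a3, a4, a5, a6, b1, b2, b3, b4, b5,
      b6] <;> ring

theorem isG_inv {k : Type} [Field k] (A B : Matrix (Fin 3) (Fin 3) k) (hA : IsG A)
    (hBA : B * A = 1) : IsG B := by
  obtain ⟨a1, a2, a3, a4, a5, a6⟩ := hA
  have e : ∀ i j, (B * A) i j = (1 : Matrix (Fin 3) (Fin 3) k) i j := by
    intro i j; rw [hBA]
  have e00 := e 0 0
  have e10 := e 1 0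
  have e20 := e 2 0
  have e01 := e 0 1
  have e11 := e 1 1
  have e21 := e 2 1
  have e12 := e 1 2
  have e22 := e 2 2
  simp [Matrix.mul_apply, Fin.sum_univ_three, a1, a2, a3, a4, a5, a6] at e00 e10 e20 e01 e11 e21 e12 e22
  have ht : A 1 1 ≠ 0 := by
    intro h
    rw [h] at e00
    simp at e00
  have h10 : B 1 0 = 0 := by
    rcases e10 with h | h
    · exact h
    · exact absurd h ht
  have h20 : B 2 0 = 0 := by
    rcases e20 with h | h
    · exact h
    · exact absurd h ht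
  rw [h20] at e21 e22
  rw [h10] at e11 e12
  simp at e21 e11 e12
  have h21 : B 2 1 = 0 := by
    rcases e21 with h | h
    · exact h
    · exact absurd h ht
  rw [h21] at e22
  simp at e22
  have h11 : B 1 1 = (A 1 1)⁻¹ := eq_inv_of_mul_eq_one_left e11
  have h00 : B 0 0 = (A 1 1)⁻¹ ^ 2 := by
    rw [inv_pow]
    exact eq_inv_of_mul_eq_one_left e00
  have h12 : B 1 2 = - ((A 1 1)⁻¹ * A 1 2) := by
    rw [h11] at e12
    linear_combination e12
  have h01 : B 0 1 = - ((A 1 1)⁻¹ ^ 2 * A 1 2) := by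
    have : B 0 1 * A 1 1 = - ((A 1 1)⁻¹ ^ 2 * A 1 2) * A 1 1 := by
      rw [h00] at e01
      linear_combination e01
    exact mul_right_cancel₀ ht this
  refine ⟨h10, h20, h21, e22, ?_, ?_⟩
  · rw [h00, h11]
  · rw [h01, h11, h12]; ring

/-- The group `G_m ⋉ W_2` as a subgroup of `GL_3`. -/
def S (k : Type) [Field k] : Subgroup (Matrix.GeneralLinearGroup (Fin 3) k) where
  carrier := {g | IsG (g : Matrix (Fin 3) (Fin 3) k)}
  mul_mem' := by
    intro a b ha hb
    exact isG_mul (a : Matrix (Fin 3) (Fin 3) k) (b : Matrix (Fin 3) (Fin 3) k) ha hb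
  one_mem' := by
    simp [IsG]
  inv_mem' := by
    intro a ha
    exact isG_inv (a : Matrix (Fin 3) (Fin 3) k) _ ha (by
      rw [← Units.val_mul]; simp)


theorem eval_aeval {σ : Type} {k : Type} [Field k] (g : σ → Polynomial k)
    (f : MvPolynomial σ k) (s : k) :
    Polynomial.eval s (MvPolynomial.aeval g f) =
      MvPolynomial.eval (fun i => Polynomial.eval s (g i)) f := by
  induction f using MvPolynomial.induction_on with
  | C a => simp
  | add p q hp hq => simp only [map_add, Polynomial.eval_add, hp, hq]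
  | mul_X p i hp => simp only [map_mul, Polynomial.eval_mul, hp, MvPolynomial.aeval_X,
      MvPolynomial.eval_X]

/-- The Lie algebra (tangent space at the identity of the Zariski closure) of `S`. -/
theorem lie_S (k : Type) [Field k] [Infinite k] [CharP k 2] :
    {X : Matrix (Fin 3) (Fin 3) k |
        ∀ f : MvPolynomial (Fin 3 × Fin 3) k,
          (∀ g ∈ S k, MvPolynomial.eval
              (fun ij : Fin 3 × Fin 3 => (g : Matrix (Fin 3) (Fin 3) k) ij.1 ij.2) f = 0) →
          ∑ ij : Fin 3 × Fin 3,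
            MvPolynomial.eval
              (fun ij' : Fin 3 × Fin 3 => (1 : Matrix (Fin 3) (Fin 3) k) ij'.1 ij'.2)
              (MvPolynomial.pderiv ij f) * X ij.1 ij.2 = 0}
      = {X : Matrix (Fin 3) (Fin 3) k | X 1 0 = 0 ∧ X 2 0 = 0 ∧ X 2 1 = 0 ∧ X 2 2 = 0 ∧
          X 0 0 = 0 ∧ X 0 1 = X 1 2} := by
  have h2 : (2 : k) = 0 := by
    have := CharP.cast_eq_zero k 2
    simpa using this
  ext X
  constructor
  · intro h
    refine ⟨?_, ?_, ?_, ?_, ?_, ?_⟩
    · have := h (MvPolynomial.X (1, 0)) (by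
        rintro g ⟨h1, -⟩
        simpa using h1)
      simpa [Fintype.sum_prod_type, Fin.sum_univ_three, MvPolynomial.pderiv_X,
        Pi.single_apply] using this
    · have := h (MvPolynomial.X (2, 0)) (by
        rintro g ⟨-, h1, -⟩
        simpa using h1)
      simpa [Fintype.sum_prod_type, Fin.sum_univ_three, MvPolynomial.pderiv_X,
        Pi.single_apply] using this
    · have := h (MvPolynomial.X (2, 1)) (by
        rintro g ⟨-, -, h1, -⟩
        simpa using h1)
      simpa [Fintype.sum_prod_type, Fin.sum_univ_three, MvPolynomial.pderiv_X,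
        Pi.single_apply] using this
    · have := h (MvPolynomial.X (2, 2) - 1) (by
        rintro g ⟨-, -, -, h1, -⟩
        simp [h1])
      simpa [Fintype.sum_prod_type, Fin.sum_univ_three, MvPolynomial.pderiv_X,
        Pi.single_apply] using this
    · have := h (MvPolynomial.X (0, 0) - MvPolynomial.X (1, 1) ^ 2) (by
        rintro g ⟨-, -, -, -, h1, -⟩
        simp [h1])
      simpa [Fintype.sum_prod_type, Fin.sum_univ_three, MvPolynomial.pderiv_X,
        Pi.single_apply, h2] using this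
    · have := h (MvPolynomial.X (0, 1) - MvPolynomial.X (1, 1) * MvPolynomial.X (1, 2)) (by
        rintro g ⟨-, -, -, -, -, h1⟩
        simp [h1])
      have h3 : X 0 1 - X 1 2 = 0 := by
        simpa [Fintype.sum_prod_type, Fin.sum_univ_three, MvPolynomial.pderiv_X,
          Pi.single_apply, sub_eq_add_neg] using this
      exact sub_eq_zero.mp h3
  · rintro ⟨h10, h20, h21, h22, h00, h01⟩ f hf
    set a : k := X 1 2 with ha
    set b : k := X 0 2 with hb
    set c : k := X 1 1 with hc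
    let G : Matrix (Fin 3) (Fin 3) (Polynomial k) :=
      !![(1 + Polynomial.C c * Polynomial.X) ^ 2,
          (1 + Polynomial.C c * Polynomial.X) * (Polynomial.C a * Polynomial.X),
          Polynomial.C b * Polynomial.X;
        0, 1 + Polynomial.C c * Polynomial.X, Polynomial.C a * Polynomial.X;
        0, 0, 1]
    have hG : MvPolynomial.aeval (fun ij : Fin 3 × Fin 3 => G ij.1 ij.2) f = 0 := by
      have hprod : MvPolynomial.aeval (fun ij : Fin 3 × Fin 3 => G ij.1 ij.2) f *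
          (1 + Polynomial.C c * Polynomial.X) = 0 := by
        apply Polynomial.funext
        intro s
        rw [Polynomial.eval_mul, eval_aeval]
        by_cases hs : 1 + c * s = 0
        · simp [hs]
        · let M : Matrix (Fin 3) (Fin 3) k :=
            !![(1 + c * s) ^ 2, (1 + c * s) * (a * s), b * s; 0, 1 + c * s, a * s; 0, 0, 1]
          have hM : M.det ≠ 0 := by
            simp [M, Matrix.det_fin_three, hs]
          have hMS : Matrix.GeneralLinearGroup.mkOfDetNeZero M hM ∈ S k := by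
            change IsG M
            simp [IsG, M]
          have h0 := hf _ hMS
          have h1 : (fun ij : Fin 3 × Fin 3 => Polynomial.eval s (G ij.1 ij.2)) =
              fun ij : Fin 3 × Fin 3 => M ij.1 ij.2 := by
            funext ij
            obtain ⟨i, j⟩ := ij
            fin_cases i <;> fin_cases j <;> simp [G, M]
          rw [h1]
          have h2 : MvPolynomial.eval (fun ij : Fin 3 × Fin 3 => M ij.1 ij.2) f = 0 := h0
          rw [h2, zero_mul, Polynomial.eval_zero]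
      rcases mul_eq_zero.mp hprod with h | h
      · exact h
      · exfalso
        have := congrArg (Polynomial.eval 0) h
        simp at this
    have hd := chain (fun ij : Fin 3 × Fin 3 => G ij.1 ij.2) f
    rw [hG] at hd
    have hd0 := congrArg (Polynomial.eval 0) hd
    rw [Polynomial.eval_finsetSum] at hd0
    simp only [Polynomial.derivative_zero, Polynomial.eval_zero, Polynomial.eval_mul,
      eval_aeval] at hd0
    rw [hd0]
    refine Finset.sum_congr rfl fun ij _ => ?_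
    have h1 : (fun ij : Fin 3 × Fin 3 => Polynomial.eval 0 (G ij.1 ij.2)) =
        fun ij : Fin 3 × Fin 3 => (1 : Matrix (Fin 3) (Fin 3) k) ij.1 ij.2 := by
      funext ij
      obtain ⟨i, j⟩ := ij
      fin_cases i <;> fin_cases j <;> simp [G]
    rw [h1]
    congr 1
    obtain ⟨i, j⟩ := ij
    fin_cases i <;> fin_cases j <;>
      simp [G, h10, h20, h21, h22, h00, h01, h2, ha, hb, hc, Polynomial.derivative_mul,
        Polynomial.derivative_pow]

theorem comm01 {k : Type} [Field k] (X Y : Matrix (Fin 3) (Fin 3) k)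
    (hX : X ∈ {X : Matrix (Fin 3) (Fin 3) k | X 1 0 = 0 ∧ X 2 0 = 0 ∧ X 2 1 = 0 ∧ X 2 2 = 0 ∧
          X 0 0 = 0 ∧ X 0 1 = X 1 2})
    (hY : Y ∈ {X : Matrix (Fin 3) (Fin 3) k | X 1 0 = 0 ∧ X 2 0 = 0 ∧ X 2 1 = 0 ∧ X 2 2 = 0 ∧
          X 0 0 = 0 ∧ X 0 1 = X 1 2}) :
    (X * Y - Y * X) 0 1 = X 0 1 * Y 1 1 - Y 0 1 * X 1 1 := by
  obtain ⟨x1, x2, x3, x4, x5, x6⟩ := hX
  obtain ⟨y1, y2, y3, y4, y5, y6⟩ := hY
  simp only [Matrix.sub_apply, Matrix.mul_apply, Fin.sum_univ_three, x3, x5, y3, y5]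
  ring

theorem comm02 {k : Type} [Field k] (X Y : Matrix (Fin 3) (Fin 3) k)
    (hX : X ∈ {X : Matrix (Fin 3) (Fin 3) k | X 1 0 = 0 ∧ X 2 0 = 0 ∧ X 2 1 = 0 ∧ X 2 2 = 0 ∧
          X 0 0 = 0 ∧ X 0 1 = X 1 2})
    (hY : Y ∈ {X : Matrix (Fin 3) (Fin 3) k | X 1 0 = 0 ∧ X 2 0 = 0 ∧ X 2 1 = 0 ∧ X 2 2 = 0 ∧
          X 0 0 = 0 ∧ X 0 1 = X 1 2}) :
    (X * Y - Y * X) 0 2 = 0 := by
  obtain ⟨x1, x2, x3, x4, x5, x6⟩ := hX
  obtain ⟨y1, y2, y3, y4, y5, y6⟩ := hY
  simp only [Matrix.sub_apply, Matrix.mul_apply, Fin.sum_univ_three, x4, x5, x6, y4, y5, y6]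
  ring

theorem finrank_g (k : Type) [Field k] :
    Module.finrank k (Submodule.span k {X : Matrix (Fin 3) (Fin 3) k | X 1 0 = 0 ∧ X 2 0 = 0 ∧
      X 2 1 = 0 ∧ X 2 2 = 0 ∧ X 0 0 = 0 ∧ X 0 1 = X 1 2}) = 3 := by
  let φ : (Fin 3 → k) →ₗ[k] Matrix (Fin 3) (Fin 3) k :=
    { toFun := fun v => !![0, v 0, v 1; 0, v 2, v 0; 0, 0, 0]
      map_add' := by
        intro v w
        ext i j
        fin_cases i <;> fin_cases j <;> simp
      map_smul' := by
        intro c v
        ext i j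
        fin_cases i <;> fin_cases j <;> simp }
  have hinj : Function.Injective φ := by
    intro v w hvw
    have h := fun i j => congrFun (congrFun hvw i) j
    have h0 : v 0 = w 0 := h 0 1
    have h1 : v 1 = w 1 := h 0 2
    have h2 : v 2 = w 2 := h 1 1
    funext i
    fin_cases i
    · exact h0
    · exact h1
    · exact h2
  have hr : Submodule.span k {X : Matrix (Fin 3) (Fin 3) k | X 1 0 = 0 ∧ X 2 0 = 0 ∧
      X 2 1 = 0 ∧ X 2 2 = 0 ∧ X 0 0 = 0 ∧ X 0 1 = X 1 2} = LinearMap.range φ := by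
    apply le_antisymm
    · rw [Submodule.span_le]
      rintro X ⟨x1, x2, x3, x4, x5, x6⟩
      refine ⟨![X 0 1, X 0 2, X 1 1], ?_⟩
      ext i j
      fin_cases i <;> fin_cases j <;> simp [φ, x1, x2, x3, x4, x5, x6]
    · rintro X ⟨v, rfl⟩
      apply Submodule.subset_span
      simp [φ]
  rw [hr, LinearMap.finrank_range_of_inj hinj]
  simp

theorem finrank_gχ (k : Type) [Field k] :
    Module.finrank k (Submodule.span k {X : Matrix (Fin 3) (Fin 3) k | X 1 0 = 0 ∧ X 2 0 = 0 ∧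
      X 2 1 = 0 ∧ X 2 2 = 0 ∧ X 0 0 = 0 ∧ X 0 1 = 0 ∧ X 1 2 = 0 ∧ X 1 1 = 0}) = 1 := by
  let v : Matrix (Fin 3) (Fin 3) k := !![0, 0, 1; 0, 0, 0; 0, 0, 0]
  have hv : v ≠ 0 := by
    intro h
    have := congrFun (congrFun h 0) 2
    simp [v] at this
  have hr : Submodule.span k {X : Matrix (Fin 3) (Fin 3) k | X 1 0 = 0 ∧ X 2 0 = 0 ∧
      X 2 1 = 0 ∧ X 2 2 = 0 ∧ X 0 0 = 0 ∧ X 0 1 = 0 ∧ X 1 2 = 0 ∧ X 1 1 = 0} =
      Submodule.span k {v} := by
    apply le_antisymm
    · rw [Submodule.span_le]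
      rintro X ⟨x1, x2, x3, x4, x5, x6, x7, x8⟩
      apply Submodule.mem_span_singleton.mpr
      refine ⟨X 0 2, ?_⟩
      ext i j
      fin_cases i <;> fin_cases j <;> simp [v, x1, x2, x3, x4, x5, x6, x7, x8]
    · rw [Submodule.span_le]
      rintro X hX
      rw [Set.mem_singleton_iff] at hX
      subst hX
      apply Submodule.subset_span
      simp [v]
  rw [hr, finrank_span_singleton hv]

/-- The negation of the preceding statement: For the Lie algebra g of any linear algebraic group in GL_n over an algebraically closed field of characteristic p, any linear form χ, and any simple U_χ(g)-module M, p^((dim g − dim g^χ)/2) divides dim M. -/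
theorem result :
    ¬ (∀ (p : ℕ) (k : Type) [Field k] [IsAlgClosed k] [CharP k p], p.Prime →
    ∀ (n : ℕ) (S : Subgroup (Matrix.GeneralLinearGroup (Fin n) k))
      (𝔤 : Set (Matrix (Fin n) (Fin n) k)),
      𝔤 = {X : Matrix (Fin n) (Fin n) k |
        ∀ f : MvPolynomial (Fin n × Fin n) k,
          (∀ g ∈ S, MvPolynomial.eval
              (fun ij : Fin n × Fin n => (g : Matrix (Fin n) (Fin n) k) ij.1 ij.2) f = 0) →
          ∑ ij : Fin n × Fin n,
            MvPolynomial.eval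
              (fun ij' : Fin n × Fin n => (1 : Matrix (Fin n) (Fin n) k) ij'.1 ij'.2)
              (MvPolynomial.pderiv ij f) * X ij.1 ij.2 = 0} →
    ∀ (χ : Matrix (Fin n) (Fin n) k →ₗ[k] k) (𝔤χ : Set (Matrix (Fin n) (Fin n) k)),
      𝔤χ = {X : Matrix (Fin n) (Fin n) k | X ∈ 𝔤 ∧ ∀ Y ∈ 𝔤, χ (X * Y - Y * X) = 0} →
    ∀ (M : Type) [AddCommGroup M] [Module k M]
      (ρ : Matrix (Fin n) (Fin n) k →ₗ[k] Module.End k M),
      (∀ X ∈ 𝔤, ∀ Y ∈ 𝔤, ρ (X * Y - Y * X) = ρ X * ρ Y - ρ Y * ρ X) →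
      (∀ X ∈ 𝔤, ρ X ^ p - ρ (X ^ p) = (χ X) ^ p • (1 : Module.End k M)) →
      Nontrivial M →
      (∀ N : Submodule k M, (∀ X ∈ 𝔤, ∀ v ∈ N, ρ X v ∈ N) → N = ⊥ ∨ N = ⊤) →
      p ^ ((Module.finrank k (Submodule.span k 𝔤) - Module.finrank k (Submodule.span k 𝔤χ)) / 2)
        ∣ Module.finrank k M) := by
  intro H
  let k := AlgebraicClosure (ZMod 2)
  have : CharP k 2 := inferInstance
  have h2 : (2 : k) = 0 := by
    have := CharP.cast_eq_zero k 2
    simpa using this
  -- linear forms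
  let e02 : Matrix (Fin 3) (Fin 3) k →ₗ[k] k := Matrix.entryLinearMap k k 0 2
  let e01 : Matrix (Fin 3) (Fin 3) k →ₗ[k] k := Matrix.entryLinearMap k k 0 1
  let χ : Matrix (Fin 3) (Fin 3) k →ₗ[k] k := e02 - e01
  let ρ : Matrix (Fin 3) (Fin 3) k →ₗ[k] Module.End k k :=
    (LinearMap.toSpanSingleton k (Module.End k k) 1).comp e02
  have hρ : ∀ X, ρ X = X 0 2 • (1 : Module.End k k) := by
    intro X
    rfl
  have hχ : ∀ X, χ X = X 0 2 - X 0 1 := by
    intro X
    rfl
  set 𝔤 : Set (Matrix (Fin 3) (Fin 3) k) := {X : Matrix (Fin 3) (Fin 3) k |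
        ∀ f : MvPolynomial (Fin 3 × Fin 3) k,
          (∀ g ∈ S k, MvPolynomial.eval
              (fun ij : Fin 3 × Fin 3 => (g : Matrix (Fin 3) (Fin 3) k) ij.1 ij.2) f = 0) →
          ∑ ij : Fin 3 × Fin 3,
            MvPolynomial.eval
              (fun ij' : Fin 3 × Fin 3 => (1 : Matrix (Fin 3) (Fin 3) k) ij'.1 ij'.2)
              (MvPolynomial.pderiv ij f) * X ij.1 ij.2 = 0} with h𝔤
  have h𝔤' : 𝔤 = {X : Matrix (Fin 3) (Fin 3) k | X 1 0 = 0 ∧ X 2 0 = 0 ∧ X 2 1 = 0 ∧ X 2 2 = 0 ∧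
          X 0 0 = 0 ∧ X 0 1 = X 1 2} := lie_S k
  set 𝔤χ : Set (Matrix (Fin 3) (Fin 3) k) :=
    {X : Matrix (Fin 3) (Fin 3) k | X ∈ 𝔤 ∧ ∀ Y ∈ 𝔤, χ (X * Y - Y * X) = 0} with h𝔤χ
  have key := H 2 k Nat.prime_two 3 (S k) 𝔤 h𝔤 χ 𝔤χ h𝔤χ k ρ ?_ ?_ inferInstance ?_
  · -- dimensions
    have hdim : Module.finrank k (Submodule.span k 𝔤) = 3 := by
      rw [h𝔤']
      exact finrank_g k
    have hdimχ : Module.finrank k (Submodule.span k 𝔤χ) = 1 := by
      have hgx : 𝔤χ = {X : Matrix (Fin 3) (Fin 3) k | X 1 0 = 0 ∧ X 2 0 = 0 ∧ X 2 1 = 0 ∧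
          X 2 2 = 0 ∧ X 0 0 = 0 ∧ X 0 1 = 0 ∧ X 1 2 = 0 ∧ X 1 1 = 0} := by
        rw [h𝔤χ, h𝔤']
        ext X
        constructor
        · rintro ⟨⟨x1, x2, x3, x4, x5, x6⟩, hX⟩
          have hA := hX (!![0, 0, 0; 0, 1, 0; 0, 0, 0] : Matrix (Fin 3) (Fin 3) k) (by
            simp)
          have hB := hX (!![0, 1, 0; 0, 0, 1; 0, 0, 0] : Matrix (Fin 3) (Fin 3) k) (by
            simp)
          rw [hχ, comm02 _ _ ⟨x1, x2, x3, x4, x5, x6⟩ (by simp),
            comm01 _ _ ⟨x1, x2, x3, x4, x5, x6⟩ (by simp)] at hA hB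
          have hA' : X 0 1 = 0 := by simpa using hA
          have hB' : X 1 1 = 0 := by simpa using hB
          exact ⟨x1, x2, x3, x4, x5, hA', by rw [← x6, hA'], hB'⟩
        · rintro ⟨x1, x2, x3, x4, x5, x6, x7, x8⟩
          refine ⟨⟨x1, x2, x3, x4, x5, by rw [x6, x7]⟩, ?_⟩
          intro Y hY
          rw [hχ, comm02 _ _ ⟨x1, x2, x3, x4, x5, by rw [x6, x7]⟩ hY,
            comm01 _ _ ⟨x1, x2, x3, x4, x5, by rw [x6, x7]⟩ hY, x6, x8]
          simp
      rw [hgx]
      exact finrank_gχ k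
    rw [hdim, hdimχ] at key
    simp at key
  · -- representation
    rw [h𝔤']
    intro X hX Y hY
    rw [hρ, hρ, hρ, comm02 _ _ hX hY, zero_smul, smul_mul_smul_comm, smul_mul_smul_comm,
      mul_comm (X 0 2), sub_self]
  · -- p-character
    rw [h𝔤']
    rintro X ⟨x1, x2, x3, x4, x5, x6⟩
    rw [hρ, hρ, hχ]
    have h1 : (X ^ 2) 0 2 = X 1 2 ^ 2 := by
      rw [pow_two, Matrix.mul_apply, Fin.sum_univ_three, x4, x5, x6]
      ring
    rw [h1, smul_pow, one_pow, ← sub_smul]
    congr 1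
    rw [x6]
    linear_combination (X 0 2 * X 1 2 - X 1 2 ^ 2) * h2
  · intro N _
    exact eq_bot_or_eq_top N

end Pool.Agent.S03590
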