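import Pool.Statements.S05056
-- import your own Pool.Agent.* helpers here
import Pool.Agent.H22.HD.All

set_option autoImplicit false
open Pool Pool.MP_744226_an

namespace Pool.Agent.S05056

/-- The negation of the preceding statement: For each 1<p<∞ there is c>0 such that for all d≥1, all n, and every finite combination f of Hermite products of degree ≥d, the L^p(Gaussian) norm of the Ornstein–Uhlenbeck operator x·∇f−Δf is at least c·d·‖f‖_p. -/
theorem result :
    ¬ (∀ p : ℝ, 1 < p → ∃ c : ℝ, 0 < c ∧ ∀ d : ℕ, 1 ≤ d → ∀ n : ℕ, ∀ f : (Fin n → ℝ) → ℝ,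
      f ∈ Submodule.span ℝ {g : (Fin n → ℝ) → ℝ | ∃ α : Fin n → ℕ, d ≤ ∑ i, α i ∧
          g = fun x => ∏ i, Polynomial.aeval (x i) (Polynomial.hermite (α i))} →
      ENNReal.ofReal (c * (d : ℝ)) *
          MeasureTheory.eLpNorm f (ENNReal.ofReal p)
            (MeasureTheory.Measure.pi (fun _ : Fin n => ProbabilityTheory.gaussianReal 0 1))
        ≤ MeasureTheory.eLpNorm
            (fun x => ∑ i, (x i * fderiv ℝ f x (Pi.single i 1)
              - fderiv ℝ (fun y => fderiv ℝ f y (Pi.single i 1)) x (Pi.single i 1)))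
            (ENNReal.ofReal p)
            (MeasureTheory.Measure.pi (fun _ : Fin n => ProbabilityTheory.gaussianReal 0 1))) := by
  intro h
  obtain ⟨c, hc, hQ⟩ := h (1 + 1 / 2 ^ 15) (by norm_num)
  exact Pool.Agent.H22.HD.all_false (p := 1 + 1 / 2 ^ 15) (by norm_num) le_rfl c hc hQ

end Pool.Agent.S05056
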