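import Pool.Statements.S05615
import Pool.Agent.H7.OPP.All

set_option autoImplicit false
open Pool Pool.MP_a0dfcb_an

namespace Pool.Agent.S05615

/-- There is a nonzero C*-algebra with no nontrivial closed two-sided ideals that is separable and nuclear (cp contractive approximate factorizations through matrix algebras), admitting no linear star-preserving product-reversing bijection onto itself. -/
theorem result :
    ∃ (A : Type) (_ : NonUnitalCStarAlgebra A),
      Nontrivial A ∧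
      (∀ I : TwoSidedIdeal A, IsClosed (I : Set A) → I = ⊥ ∨ I = ⊤) ∧
      TopologicalSpace.SeparableSpace A ∧
      (∀ F : Finset A, ∀ ε : ℝ, 0 < ε →
        ∃ (m : ℕ) (φ : A →ₗ[ℂ] Matrix (Fin m) (Fin m) ℂ)
          (ψ : Matrix (Fin m) (Fin m) ℂ →ₗ[ℂ] A),
          (∀ k : ℕ, ∀ B : Fin k → Fin k → A,
            ∃ C : Fin k → Fin k → Matrix (Fin m) (Fin m) ℂ,
              ∀ i j, φ (∑ l, star (B l i) * B l j) = ∑ l, star (C l i) * C l j) ∧
          (∀ k : ℕ, ∀ B : Fin k → Fin k → Matrix (Fin m) (Fin m) ℂ,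
            ∃ C : Fin k → Fin k → A,
              ∀ i j, ψ (∑ l, star (B l i) * B l j) = ∑ l, star (C l i) * C l j) ∧
          (∀ x : A, ‖Matrix.toEuclideanCLM (𝕜 := ℂ) (φ x)‖ ≤ ‖x‖) ∧
          (∀ M : Matrix (Fin m) (Fin m) ℂ, ‖ψ M‖ ≤ ‖Matrix.toEuclideanCLM (𝕜 := ℂ) M‖) ∧
          ∀ x ∈ F, ‖ψ (φ x) - x‖ < ε) ∧
      ¬ ∃ f : A ≃ₗ[ℂ] A, (∀ x y : A, f (x * y) = f y * f x) ∧ ∀ x : A, f (star x) = star (f x) :=
  Pool.OPP.opp_all

end Pool.Agent.S05615
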