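import Pool.Statements.S05825
import Pool.Agent.H20.QL.FINAL

set_option autoImplicit false
open Classical
open Pool Pool.MP_af7656_an

namespace Pool.Agent.S05825

/-- For a bounded-geometry metric space X: if every uniformly quasi-local operator on ℓ²(X) lies in the C*-algebra generated by quasi-local normalizers of the diagonal algebra ℓ∞(X) (Cartan regularity), then X has Yu's Property A. -/
theorem result :
    ∀ (X : Type) [MetricSpace X],
      (∀ r : ℝ, ∃ N : ℕ, ∀ x : X,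
        (Metric.closedBall x r).Finite ∧ (Metric.closedBall x r).ncard ≤ N) →
      (∀ T : lp (fun _ : X => ℂ) 2 →L[ℂ] lp (fun _ : X => ℂ) 2,
        (∀ ε : ℝ, 0 < ε → ∃ R : ℝ, 0 < R ∧ ∀ C D : Set X,
          (∀ c ∈ C, ∀ d ∈ D, R < dist c d) →
          ∀ v w : lp (fun _ : X => ℂ) 2,
            (∀ x, x ∉ D → v x = 0) → (∀ x, x ∉ C → w x = 0) →
              ‖inner ℂ w (T v)‖ ≤ ε * ‖w‖ * ‖v‖) →
        T ∈ closure ((StarAlgebra.adjoin ℂ
          {n : lp (fun _ : X => ℂ) 2 →L[ℂ] lp (fun _ : X => ℂ) 2 |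
            (∀ ε : ℝ, 0 < ε → ∃ R : ℝ, 0 < R ∧ ∀ C D : Set X,
              (∀ c ∈ C, ∀ d ∈ D, R < dist c d) →
              ∀ v w : lp (fun _ : X => ℂ) 2,
                (∀ x, x ∉ D → v x = 0) → (∀ x, x ∉ C → w x = 0) →
                  ‖inner ℂ w (n v)‖ ≤ ε * ‖w‖ * ‖v‖) ∧
            ∀ a : lp (fun _ : X => ℂ) 2 →L[ℂ] lp (fun _ : X => ℂ) 2,
              (∀ x y : X, x ≠ y →
                (a (lp.single 2 x (1 : ℂ) : lp (fun _ : X => ℂ) 2)) y = 0) →
              (∀ x y : X, x ≠ y →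
                ((n * a * star n) (lp.single 2 x (1 : ℂ) : lp (fun _ : X => ℂ) 2)) y = 0) ∧
              (∀ x y : X, x ≠ y →
                ((star n * a * n) (lp.single 2 x (1 : ℂ) : lp (fun _ : X => ℂ) 2)) y = 0)})
          : Set (lp (fun _ : X => ℂ) 2 →L[ℂ] lp (fun _ : X => ℂ) 2))) →
      ∀ R : ℝ, 0 < R → ∀ ε : ℝ, 0 < ε →
        ∃ S : ℝ, ∃ A : X → Finset (X × ℕ),
          (∀ x, (x, 1) ∈ A x) ∧ (∀ x, ∀ p ∈ A x, dist p.1 x ≤ S) ∧
          ∀ x y, dist x y < R →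
            (((A x \ A y) ∪ (A y \ A x)).card : ℝ) < ε * ((A x ∩ A y).card : ℝ) := by
  intro X _ hbg h R hR ε hε
  exact Pool.Agent.H20.QL.cartan_final X hbg h R hR ε hε

end Pool.Agent.S05825
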