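import Pool.Statements.S06692
import Pool.Agent.H35.WT.Weak

set_option autoImplicit false
open Na99134c6
open MeasureTheory Set ENNReal NNReal
open Pool Pool.MP_f397a6_an

namespace Pool.Agent.S06692

/-- The negation of the preceding statement: For all n≥3 and Ω a union of n ordered, strictly separated nondegenerate open intervals, if some locally finite measure ν satisfies ∫1_Ω(x−t)dν(t)=1_{Ωᶜ}(x) a.e., then some T⊆ℝ makes Σ_{t∈T}δ_t a locally finite measure satisfying the same a.e. identity. -/
theorem result :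
    ¬ (∀ (n : ℕ) (_ : 3 ≤ n) (Ω : Set ℝ) (_ : IsUnionOfNIntervals n Ω) (ν : Measure ℝ) (_ : IsWeakTilingMeasure Ω ν), ∃ T : Set ℝ, IsProperTiling Ω T) := by
  intro h
  obtain ⟨T, hT⟩ := h 117 (by norm_num) Pool.Agent.H35.WT.Om Pool.Agent.H35.WT.isUnion_Om
    Pool.Agent.H35.WT.nu Pool.Agent.H35.WT.isWeak_nu
  exact Pool.Agent.H35.WT.not_proper T hT

end Pool.Agent.S06692
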