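import Pool.Statements.S06735
import Pool.Agent.H64.KExpFinal

set_option autoImplicit false
open Pool Pool.MP_f65db9_an

namespace Pool.Agent.S06735

/-- For all real a, b > 1/e, the set of z whose orbits under a·e^z (resp. b·e^z) stay in the strip 0 ≤ Im ≤ π, each with a point at infinity added, are homeomorphic. -/
theorem result :
    ∀ a b : ℝ, 1 / Real.exp 1 < a → 1 / Real.exp 1 < b →
      Nonempty
        (OnePoint
            ↥{z : ℂ | ∀ n : ℕ,
                0 ≤ ((fun w : ℂ => (a : ℂ) * Complex.exp w)^[n] z).im ∧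
                ((fun w : ℂ => (a : ℂ) * Complex.exp w)^[n] z).im ≤ Real.pi} ≃ₜ
          OnePoint
            ↥{z : ℂ | ∀ n : ℕ,
                0 ≤ ((fun w : ℂ => (b : ℂ) * Complex.exp w)^[n] z).im ∧
                ((fun w : ℂ => (b : ℂ) * Complex.exp w)^[n] z).im ≤ Real.pi}) := by
  intro a b ha hb
  obtain ⟨e⟩ := Pool.Agent.H64.KExp.homeo ha hb
  exact ⟨e.onePointCongr⟩

end Pool.Agent.S06735
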