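import Pool.Statements.S07469
import Pool.Agent.H6.RCQ.Chain

set_option autoImplicit false
open Pool Pool.MP_1c6977_co

namespace Pool.Agent.S07469

/-- For all (n,m) other than (0,1), with p=2n+m: every finite planar (n,m)-colored mixed graph has all relative cliques of size at most 3p²+p+1, and some finite planar one has a relative clique of exactly that size. -/
theorem result :
    ∀ n m : ℕ, (n, m) ≠ (0, 1) →
      ((∀ (V : Type) (_ : Finite V) (c : V → V → Option (Fin n × Bool ⊕ Fin m)),
          (∀ u, c u u = none) →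
          (∀ u v, c v u = Option.map
              (Sum.elim (fun a : Fin n × Bool => (Sum.inl (a.1, !a.2) : Fin n × Bool ⊕ Fin m))
                (fun j : Fin m => (Sum.inr j : Fin n × Bool ⊕ Fin m))) (c u v)) →
          (∃ p : V → ℝ × ℝ, Function.Injective p ∧
            ∃ γ : ∀ u v : V, Path (p u) (p v),
              (∀ u v, c u v ≠ none → Function.Injective (γ u v)) ∧
              (∀ u v w, c u v ≠ none → ∀ t : unitInterval,
                  0 < (t : ℝ) → (t : ℝ) < 1 → γ u v t ≠ p w) ∧
              (∀ u v x y, c u v ≠ none → c x y ≠ none → ¬(x = u ∧ y = v) →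
                  ¬(x = v ∧ y = u) → ∀ s t : unitInterval,
                  0 < (s : ℝ) → (s : ℝ) < 1 → γ u v s ≠ γ x y t)) →
          ∀ R : Finset V,
            (∀ (W : Type) (d : W → W → Option (Fin n × Bool ⊕ Fin m)),
              (∀ w, d w w = none) →
              (∀ w x, d x w = Option.map
                  (Sum.elim (fun a : Fin n × Bool => (Sum.inl (a.1, !a.2) : Fin n × Bool ⊕ Fin m))
                    (fun j : Fin m => (Sum.inr j : Fin n × Bool ⊕ Fin m))) (d w x)) →
              ∀ f : V → W, (∀ u v t, c u v = some t → d (f u) (f v) = some t) →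
                Set.InjOn f (R : Set V)) →
            R.card ≤ 3 * (2 * n + m) ^ 2 + (2 * n + m) + 1) ∧
       (∃ (V : Type) (_ : Finite V) (c : V → V → Option (Fin n × Bool ⊕ Fin m)),
          (∀ u, c u u = none) ∧
          (∀ u v, c v u = Option.map
              (Sum.elim (fun a : Fin n × Bool => (Sum.inl (a.1, !a.2) : Fin n × Bool ⊕ Fin m))
                (fun j : Fin m => (Sum.inr j : Fin n × Bool ⊕ Fin m))) (c u v)) ∧
          (∃ p : V → ℝ × ℝ, Function.Injective p ∧
            ∃ γ : ∀ u v : V, Path (p u) (p v),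
              (∀ u v, c u v ≠ none → Function.Injective (γ u v)) ∧
              (∀ u v w, c u v ≠ none → ∀ t : unitInterval,
                  0 < (t : ℝ) → (t : ℝ) < 1 → γ u v t ≠ p w) ∧
              (∀ u v x y, c u v ≠ none → c x y ≠ none → ¬(x = u ∧ y = v) →
                  ¬(x = v ∧ y = u) → ∀ s t : unitInterval,
                  0 < (s : ℝ) → (s : ℝ) < 1 → γ u v s ≠ γ x y t)) ∧
          ∃ R : Finset V,
            (∀ (W : Type) (d : W → W → Option (Fin n × Bool ⊕ Fin m)),
              (∀ w, d w w = none) →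
              (∀ w x, d x w = Option.map
                  (Sum.elim (fun a : Fin n × Bool => (Sum.inl (a.1, !a.2) : Fin n × Bool ⊕ Fin m))
                    (fun j : Fin m => (Sum.inr j : Fin n × Bool ⊕ Fin m))) (d w x)) →
              ∀ f : V → W, (∀ u v t, c u v = some t → d (f u) (f v) = some t) →
                Set.InjOn f (R : Set V)) ∧
            R.card = 3 * (2 * n + m) ^ 2 + (2 * n + m) + 1)) := by
  intro n m hnm
  refine ⟨fun V hV c h1 h2 h3 R hR => ?_, ?_⟩
  · exact Pool.Agent.H6.RCQ.Final.upper Pool.Agent.H6.RCQ.Chain.cUB Pool.Agent.H6.RCQ.Chain.cTPG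
      Pool.Agent.H6.RCQ.Chain.cCH n m hnm V hV c h1 h2 h3 R hR
  · exact Pool.Agent.H6.RCQ.Final.lower Pool.Agent.H6.RCQ.Chain.cLB n m hnm

end Pool.Agent.S07469
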