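import Pool.Statements.S08068
import Pool.Agent.H60.HED.REC4
import Pool.Agent.H60.HED.COV4
import Pool.Agent.H87.HED.LSO
import Pool.Agent.H26.HED.CLO
import Pool.Agent.H99.HED.EXP
import Pool.Agent.H99.HED.FIN
import Pool.Agent.H65.HED.GEN
import Pool.Agent.H11.HED.HYP
-- import your own Pool.Agent.* helpers here

set_option autoImplicit false
open Pool Pool.MP_3579fe_co

namespace Pool.Agent.S08068

open Pool.Agent.H60.HED in
theorem aux (n : ℕ) : ∃ (V W : Type) (_ : Fintype V) (_ : Fintype W)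
    (G : SimpleGraph V) (H : SimpleGraph W), ¬ G.Colorable n ∧ ¬ H.Colorable n ∧
      (SimpleGraph.fromRel
        (fun p q : V × W => G.Adj p.1 q.1 ∧ H.Adj p.2 q.2)).Colorable 4 := by
  obtain ⟨V, fV, G, up, hG, hs⟩ := rec4 hyp gen clo n (max n 4)
  obtain ⟨s, hF, _⟩ := hs 0 1 one_pos
  obtain ⟨U, hU1, hU2, hU3⟩ := cov4 n V G up s hF
  have hG4 : ¬ G.Colorable 4 := fun h => hG (h.mono (le_max_right _ _))
  have hGn : ¬ G.Colorable n := fun h => hG (h.mono (le_max_left _ _))
  obtain ⟨W, fW, H, hH, hGH⟩ := exp_thm lso 4 n V G U hU1 hU2 hU3 hG4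
  exact ⟨V, W, fV, fW, G, H, hGn, fun h => hH (h.mono (Nat.le_succ n)), hGH⟩

/-- The negation of the preceding statement: There is a natural number n such that for all finite graphs G and H both of chromatic number n, their tensor (categorical) product has chromatic number at least 5. -/
theorem result :
    ¬ (∃ n : ℕ, ∀ (V W : Type) [Fintype V] [Fintype W] (G : SimpleGraph V) (H : SimpleGraph W),
      G.chromaticNumber = (n : ℕ∞) → H.chromaticNumber = (n : ℕ∞) →
        (5 : ℕ∞) ≤ (SimpleGraph.fromRel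
          (fun p q : V × W => G.Adj p.1 q.1 ∧ H.Adj p.2 q.2)).chromaticNumber) := by
  rintro ⟨n, hn⟩
  obtain ⟨V, W, fV, fW, G, H, hG, hH, hGH⟩ :=
    Pool.Agent.H60.HED.fin 4 (by norm_num) aux n
  have h1 := hn V W G H hG hH
  have h2 := h1.trans hGH
  exact absurd h2 (by decide)

end Pool.Agent.S08068
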