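import Pool.Statements.S08688
-- import your own Pool.Agent.* helpers here
import Pool.Agent.H6.AK.Asm
import Pool.Agent.H37.AK.Adapt
import Pool.Agent.H46.AK.RAT
import Pool.Agent.H49.AK.NOC
import Pool.Agent.H67.AK.ASY
import Pool.Agent.H2.AK.LST
import Pool.Agent.H2.AK.PAR
import Pool.Agent.H33.AK.BAL
import Pool.Agent.H33.AK.DEG
import Pool.Agent.H65.AK.GRD
import Pool.Agent.H57.AK.LIP

set_option autoImplicit false
open Pool Pool.MP_4e8966_co

namespace Pool.Agent.S08688

/-- The negation of the preceding statement: There is a constant c such that every finite bipartite graph with maximum degree Δ ≥ 2 can be properly coloured from any lists assigning each vertex at least c·log Δ colours. -/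
theorem result :
    ¬ (∃ c : ℝ, ∀ (V : Type) [Fintype V] (G : SimpleGraph V) [DecidableRel G.Adj],
      G.Colorable 2 → 2 ≤ G.maxDegree →
      ∀ L : V → Finset ℕ,
        (∀ v, c * Real.log (G.maxDegree : ℝ) ≤ ((L v).card : ℝ)) →
        ∃ f : V → ℕ, (∀ v, f v ∈ L v) ∧ ∀ u v, G.Adj u v → f u ≠ f v) := by
  exact Pool.Agent.H6.AK.main Pool.Agent.H67.AK.ASY_thm
    (Pool.Agent.H2.AK.PAR_thm
      (Pool.Agent.H2.AK.LST_thm Pool.Agent.H6.AK.grd_thm Pool.Agent.H46.AK.rat_thm))
    (Pool.Agent.H33.AK.DEG_thm Pool.Agent.H33.AK.BAL_thm)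
    (Pool.Agent.H49.AK.NOC_thm (Pool.Agent.H37.AK.LOC_thm Pool.Agent.H57.AK.LIP_thm))

end Pool.Agent.S08688
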