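import Pool.Statements.S08938

/-!
The question is answered in the negative.  The polytope is the metric polytope in its plus-minus-one
form: in the space of vectors indexed by the pairs `i < j` of `n = 4 p` points it is cut out by the
`4 * (n choose 3)` triangle inequalities.  A short induction shows that its diameter is `n`, which is
attained by cut vectors of orthogonal sign vectors, so that the Frankl and Wilson bound (as used by Kahn
and Kalai) gives exponentially many parts, many more than the number of inequalities.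
-/

set_option autoImplicit false
open Pool Pool.MP_5ac6d8_co

namespace Pool.Agent.S08938

lemma two_sq_le_one {s t M : ℝ} (hs0 : 0 ≤ s) (ht0 : 0 ≤ t) (hsM : s ≤ M) (htM : t ≤ M)
    (hM1 : M ≤ 1) (hst : s + t + M ≤ 2) : s ^ 2 + t ^ 2 ≤ 1 := by
  by_cases hM : M ≤ 7/10
  · nlinarith
  · push Not at hM
    rcases le_total t s with h | h
    · nlinarith [mul_nonneg (sub_nonneg.2 hsM) (sub_nonneg.2 h), mul_nonneg hs0 ht0,
        mul_nonneg (sub_nonneg.2 hsM) ht0, mul_nonneg (sub_nonneg.2 hM1) (sub_nonneg.2 hM.le)]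
    · nlinarith [mul_nonneg (sub_nonneg.2 htM) (sub_nonneg.2 h), mul_nonneg hs0 ht0,
        mul_nonneg (sub_nonneg.2 htM) hs0, mul_nonneg (sub_nonneg.2 hM1) (sub_nonneg.2 hM.le)]

/-- For a symmetric weight bounded by one, all of whose triangles have perimeter at most two, the
sum of the squares over ordered pairs of a set of size `2 k` is at most `2 k ^ 2`. -/
lemma sum_sq_le {V : Type} [DecidableEq V] (w : V → V → ℝ) (h0 : ∀ i j, 0 ≤ w i j)
    (hself : ∀ i, w i i = 0)
    (hsymm : ∀ i j, w i j = w j i) (h1 : ∀ i j, w i j ≤ 1)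
    (h3 : ∀ i j k, i ≠ j → j ≠ k → i ≠ k → w i j + w j k + w i k ≤ 2) :
    ∀ (k : ℕ) (s : Finset V), s.card = 2 * k →
      ∑ i ∈ s, ∑ j ∈ s, w i j ^ 2 ≤ 2 * (k : ℝ) ^ 2 := by
  intro k
  induction k with
  | zero =>
    intro s hs
    have : s = ∅ := by simpa using hs
    subst this
    simp
  | succ k ih =>
    intro s hs
    have hne : s.offDiag.Nonempty := by
      obtain ⟨a, ha, b, hb, hab⟩ := Finset.one_lt_card.1 (by omega : 1 < s.card)
      exact ⟨(a, b), Finset.mem_offDiag.2 ⟨ha, hb, hab⟩⟩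
    obtain ⟨⟨x, y⟩, hxy, hmax⟩ := Finset.exists_max_image s.offDiag (fun e => w e.1 e.2) hne
    rw [Finset.mem_offDiag] at hxy
    obtain ⟨hx, hy, hxyne⟩ := hxy
    simp only at hx hy hxyne
    set r := (s.erase x).erase y with hr
    have hyx : y ∈ s.erase x := Finset.mem_erase.2 ⟨hxyne.symm, hy⟩
    have hrcard : r.card = 2 * k := by
      rw [hr, Finset.card_erase_of_mem hyx, Finset.card_erase_of_mem hx]
      omega
    have hsplit : ∀ f : V → ℝ, ∑ i ∈ s, f i = f x + (f y + ∑ i ∈ r, f i) := by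
      intro f
      rw [← Finset.add_sum_erase s f hx, ← Finset.add_sum_erase (s.erase x) f hyx]
    have hz : ∀ z ∈ r, w x z ^ 2 + w y z ^ 2 ≤ 1 := by
      intro z hz
      rw [hr, Finset.mem_erase, Finset.mem_erase] at hz
      obtain ⟨hzy, hzx, hzs⟩ := hz
      have hxz := hmax (x, z) (Finset.mem_offDiag.2 ⟨hx, hzs, hzx.symm⟩)
      have hyz := hmax (y, z) (Finset.mem_offDiag.2 ⟨hy, hzs, hzy.symm⟩)
      have hp := h3 x y z hxyne hzy.symm hzx.symm
      exact two_sq_le_one (h0 _ _) (h0 _ _) hxz hyz (h1 _ _) (by simp only at *; linarith)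
    have hsum : ∑ z ∈ r, (w x z ^ 2 + w y z ^ 2) ≤ 2 * (k : ℝ) := by
      calc ∑ z ∈ r, (w x z ^ 2 + w y z ^ 2) ≤ ∑ z ∈ r, (1 : ℝ) := Finset.sum_le_sum hz
        _ = 2 * (k : ℝ) := by
          rw [Finset.sum_const, hrcard]
          simp
    have hxy1 : w x y ^ 2 ≤ 1 := by
      have := h1 x y
      have := h0 x y
      nlinarith
    have ihr := ih r hrcard
    have hexp : ∑ i ∈ s, ∑ j ∈ s, w i j ^ 2
        = 2 * w x y ^ 2 + 2 * ∑ z ∈ r, (w x z ^ 2 + w y z ^ 2) + ∑ i ∈ r, ∑ j ∈ r, w i j ^ 2 := by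
      rw [hsplit]
      rw [hsplit (fun j => w x j ^ 2), hsplit (fun j => w y j ^ 2)]
      have : ∑ i ∈ r, ∑ j ∈ s, w i j ^ 2
          = ∑ i ∈ r, (w x i ^ 2 + w y i ^ 2) + ∑ i ∈ r, ∑ j ∈ r, w i j ^ 2 := by
        rw [← Finset.sum_add_distrib]
        apply Finset.sum_congr rfl
        intro i _
        rw [hsplit (fun j => w i j ^ 2), hsymm i x, hsymm i y]
        ring
      rw [this, hself, hself, hsymm y x]
      simp only [Finset.sum_add_distrib]
      ring
    rw [hexp]
    push_cast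
    nlinarith

/-- Number of subsets of size less than `p`. -/
lemma card_small_le (n p : ℕ) :
    Fintype.card {S : Finset (Fin n) // S.card < p} ≤ ∑ i ∈ Finset.range p, n.choose i := by
  classical
  rw [Fintype.card_subtype]
  have hsub : (Finset.univ.filter fun S : Finset (Fin n) => S.card < p)
      ⊆ (Finset.range p).biUnion (fun i => Finset.powersetCard i Finset.univ) := by
    intro S hS
    rw [Finset.mem_filter] at hS
    rw [Finset.mem_biUnion]
    exact ⟨S.card, Finset.mem_range.2 hS.2, Finset.mem_powersetCard.2 ⟨Finset.subset_univ _, rfl⟩⟩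
  refine (Finset.card_le_card hsub).trans (Finset.card_biUnion_le.trans ?_)
  apply Finset.sum_le_sum
  intro i _
  rw [Finset.card_powersetCard]
  simp

/-- The monomial function attached to a set `S`. -/
lemma pow_mem_span {n : ℕ} {K : Type} [Field K] (F : Finset (Finset (Fin n)))
    (A : Finset (Fin n)) (k p : ℕ) (hk : k < p) :
    (fun B : F => (((A ∩ B.1).card : ℕ) : K) ^ k) ∈
      Submodule.span K (Set.range (fun (S : {S : Finset (Fin n) // S.card < p}) =>
        (fun B : F => if S.1 ⊆ B.1 then (1 : K) else 0))) := by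
  have key : ∀ k : ℕ, (fun B : F => (((A ∩ B.1).card : ℕ) : K) ^ k) ∈
      Submodule.span K (Set.range (fun (S : {S : Finset (Fin n) // S.card ≤ k}) =>
        (fun B : F => if S.1 ⊆ B.1 then (1 : K) else 0))) := by
    intro k
    induction k with
    | zero =>
      apply Submodule.subset_span
      refine ⟨⟨∅, by simp⟩, ?_⟩
      funext B
      simp
    | succ k ih =>
      have hcard : ∀ B : F, (((A ∩ B.1).card : ℕ) : K) = ∑ i ∈ A, if i ∈ B.1 then (1 : K) else 0 := by
        intro B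
        rw [Finset.sum_ite_mem, Finset.sum_const, nsmul_eq_mul, mul_one]
      have hprod : (fun B : F => (((A ∩ B.1).card : ℕ) : K) ^ (k + 1))
          = ∑ i ∈ A, (fun B : F => (((A ∩ B.1).card : ℕ) : K) ^ k * if i ∈ B.1 then (1 : K) else 0) := by
        funext B
        rw [Finset.sum_apply, ← Finset.mul_sum, ← hcard B, pow_succ]
      rw [hprod]
      apply Submodule.sum_mem
      intro i _
      have hgen : ∀ f ∈ Submodule.span K (Set.range (fun (S : {S : Finset (Fin n) // S.card ≤ k}) =>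
          (fun B : F => if S.1 ⊆ B.1 then (1 : K) else 0))),
          (fun B : F => f B * if i ∈ B.1 then (1 : K) else 0) ∈
          Submodule.span K (Set.range (fun (S : {S : Finset (Fin n) // S.card ≤ k + 1}) =>
            (fun B : F => if S.1 ⊆ B.1 then (1 : K) else 0))) := by
        intro f hf
        induction hf using Submodule.span_induction with
        | mem x hx =>
          obtain ⟨S, rfl⟩ := hx
          apply Submodule.subset_span
          refine ⟨⟨insert i S.1, (Finset.card_insert_le _ _).trans (Nat.succ_le_succ S.2)⟩, ?_⟩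
          funext B
          by_cases h1 : i ∈ B.1 <;> by_cases h2 : S.1 ⊆ B.1 <;>
            simp [Finset.insert_subset_iff, h1, h2]
        | zero =>
          convert Submodule.zero_mem _ using 1
          funext B
          simp
        | add x y _ _ hx hy =>
          convert Submodule.add_mem _ hx hy using 1
          funext B
          simp only [Pi.add_apply, add_mul]
        | smul a x _ hx =>
          convert Submodule.smul_mem _ a hx using 1
          funext B
          simp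
      exact hgen _ ih
  refine Submodule.span_mono ?_ (key k)
  rintro _ ⟨S, rfl⟩
  exact ⟨⟨S.1, lt_of_le_of_lt S.2 hk⟩, rfl⟩

/-- Frankl and Wilson type bound. -/
lemma frankl_wilson {n p : ℕ} [Fact p.Prime] (F : Finset (Finset (Fin n)))
    (hself : ∀ A ∈ F, ((A.card : ℕ) : ZMod p) = 0)
    (hne : ∀ A ∈ F, ∀ B ∈ F, A ≠ B → (((A ∩ B).card : ℕ) : ZMod p) ≠ 0) :
    F.card ≤ ∑ i ∈ Finset.range p, n.choose i := by
  classical
  have hp : p.Prime := Fact.out
  set W := Submodule.span (ZMod p) (Set.range (fun (S : {S : Finset (Fin n) // S.card < p}) =>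
        (fun B : F => if S.1 ⊆ B.1 then (1 : ZMod p) else 0))) with hW
  have hone : (fun _ : F => (1 : ZMod p)) ∈ W := by
    have := pow_mem_span (K := ZMod p) F ∅ 0 p hp.pos
    simpa using this
  have hsingle : ∀ A : F, (Pi.single A (1 : ZMod p) : F → ZMod p) ∈ W := by
    intro A
    have h1 := pow_mem_span (K := ZMod p) F A.1 (p - 1) p (Nat.sub_lt hp.pos one_pos)
    have h2 := Submodule.sub_mem _ hone h1
    convert h2 using 1
    funext B
    by_cases hAB : B = A
    · subst hAB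
      have : p - 1 ≠ 0 := Nat.sub_ne_zero_of_lt hp.one_lt
      simp [hself B.1 B.2, this]
    · have hne' : A.1 ≠ B.1 := fun h => hAB (Subtype.ext h.symm)
      have := ZMod.pow_card_sub_one_eq_one (hne A.1 A.2 B.1 B.2 hne')
      simp [hAB, this]
  have htop : W = ⊤ := by
    rw [eq_top_iff]
    intro f _
    have : f = ∑ A : F, f A • (Pi.single A (1 : ZMod p) : F → ZMod p) := by
      funext B
      simp [Finset.sum_apply, Pi.single_apply]
    rw [this]
    exact Submodule.sum_mem _ fun A _ => Submodule.smul_mem _ _ (hsingle A)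
  have hfin : Module.finrank (ZMod p) W ≤ Fintype.card {S : Finset (Fin n) // S.card < p} := by
    have := finrank_range_le_card (R := ZMod p)
      (b := fun (S : {S : Finset (Fin n) // S.card < p}) =>
        (fun B : F => if S.1 ⊆ B.1 then (1 : ZMod p) else 0))
    exact this
  rw [htop, finrank_top, Module.finrank_fintype_fun_eq_card, Fintype.card_coe] at hfin
  exact hfin.trans (card_small_le n p)

/-- The pairs `i < j`. -/
abbrev PairT (n : ℕ) := {e : Fin n × Fin n // e.1 < e.2}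

/-- The triples `i < j < k` together with one of four sign patterns. -/
abbrev TripT (n : ℕ) := {t : Fin n × Fin n × Fin n // t.1 < t.2.1 ∧ t.2.1 < t.2.2} × Fin 4

/-- The ambient dimension. -/
abbrev dim (n : ℕ) : ℕ := Fintype.card (PairT n)

/-- The number of inequalities. -/
abbrev num (n : ℕ) : ℕ := Fintype.card (TripT n)

/-- Numbering of the coordinates. -/
noncomputable def ef (n : ℕ) : PairT n ≃ Fin (dim n) := Fintype.equivFin _

/-- Numbering of the inequalities. -/
noncomputable def tf (n : ℕ) : TripT n ≃ Fin (num n) := Fintype.equivFin _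

/-- The ambient space. -/
abbrev Sp (n : ℕ) := EuclideanSpace ℝ (Fin (dim n))

/-- The sign patterns. -/
def sg : Fin 4 → Fin 3 → ℝ := ![![-1, -1, -1], ![-1, 1, 1], ![1, -1, 1], ![1, 1, -1]]

/-- The entry of a vector, as a symmetric matrix. -/
noncomputable def ent {n : ℕ} (X : Sp n) (i j : Fin n) : ℝ :=
  if h : i < j then X (ef n ⟨(i, j), h⟩) else if h : j < i then X (ef n ⟨(j, i), h⟩) else 0

lemma ent_lt {n : ℕ} (X : Sp n) {i j : Fin n} (h : i < j) : ent X i j = X (ef n ⟨(i, j), h⟩) := by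
  simp [ent, h]

lemma ent_self {n : ℕ} (X : Sp n) (i : Fin n) : ent X i i = 0 := by
  simp [ent]

lemma ent_symm {n : ℕ} (X : Sp n) (i j : Fin n) : ent X i j = ent X j i := by
  rcases lt_trichotomy i j with h | h | h
  · simp [ent, h, h.not_gt]
  · subst h; rfl
  · simp [ent, h, h.not_gt]

/-- The normal vector of an inequality. -/
noncomputable def nv {n : ℕ} (t : TripT n) : Sp n :=
  sg t.2 0 • EuclideanSpace.single (ef n ⟨(t.1.1.1, t.1.1.2.1), t.1.2.1⟩) (1 : ℝ)
  + sg t.2 1 • EuclideanSpace.single (ef n ⟨(t.1.1.2.1, t.1.1.2.2), t.1.2.2⟩) (1 : ℝ)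
  + sg t.2 2 • EuclideanSpace.single (ef n ⟨(t.1.1.1, t.1.1.2.2), t.1.2.1.trans t.1.2.2⟩) (1 : ℝ)

lemma inner_nv {n : ℕ} (t : TripT n) (X : Sp n) :
    @inner ℝ _ _ (nv t) X = sg t.2 0 * ent X t.1.1.1 t.1.1.2.1
      + sg t.2 1 * ent X t.1.1.2.1 t.1.1.2.2 + sg t.2 2 * ent X t.1.1.1 t.1.1.2.2 := by
  rw [ent_lt X t.1.2.1, ent_lt X t.1.2.2, ent_lt X (t.1.2.1.trans t.1.2.2)]
  simp only [nv, inner_add_left, inner_smul_left, EuclideanSpace.inner_single_left]
  simp

/-- The metric polytope. -/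
noncomputable def Pt (n : ℕ) : Set (Sp n) :=
  ⋂ q : Fin (num n), {X : Sp n | @inner ℝ _ _ (nv ((tf n).symm q)) X ≤ 1}

lemma mem_Pt {n : ℕ} (X : Sp n) : X ∈ Pt n ↔ ∀ t : TripT n, @inner ℝ _ _ (nv t) X ≤ 1 := by
  simp only [Pt, Set.mem_iInter, Set.mem_ofPred_eq]
  constructor
  · intro h t
    have := h (tf n t)
    simpa using this
  · intro h q
    exact h _

lemma mem_Pt_iff {n : ℕ} (X : Sp n) : X ∈ Pt n ↔ ∀ i j k : Fin n, i < j → j < k →
    (- ent X i j - ent X j k - ent X i k ≤ 1 ∧ - ent X i j + ent X j k + ent X i k ≤ 1 ∧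
      ent X i j - ent X j k + ent X i k ≤ 1 ∧ ent X i j + ent X j k - ent X i k ≤ 1) := by
  rw [mem_Pt]
  constructor
  · intro h i j k hij hjk
    have h0 := h (⟨(i, j, k), hij, hjk⟩, 0)
    have h1 := h (⟨(i, j, k), hij, hjk⟩, 1)
    have h2 := h (⟨(i, j, k), hij, hjk⟩, 2)
    have h3 := h (⟨(i, j, k), hij, hjk⟩, 3)
    rw [inner_nv] at h0 h1 h2 h3
    simp [sg] at h0 h1 h2 h3
    refine ⟨by linarith, by linarith, by linarith, by linarith⟩
  · rintro h ⟨⟨⟨i, j, k⟩, hij, hjk⟩, s⟩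
    obtain ⟨h0, h1, h2, h3⟩ := h i j k hij hjk
    rw [inner_nv]
    fin_cases s <;> simp [sg] <;> linarith

/-- half the absolute difference -/
noncomputable def wt {n : ℕ} (X Y : Sp n) (i j : Fin n) : ℝ := |ent X i j - ent Y i j| / 2

lemma wt_symm {n : ℕ} (X Y : Sp n) (i j : Fin n) : wt X Y i j = wt X Y j i := by
  unfold wt; rw [ent_symm X, ent_symm Y]

lemma tri_aux {a b c a' b' c' : ℝ}
    (h0 : - a - b - c ≤ 1) (h1 : - a + b + c ≤ 1) (h2 : a - b + c ≤ 1) (h3 : a + b - c ≤ 1)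
    (h0' : - a' - b' - c' ≤ 1) (h1' : - a' + b' + c' ≤ 1) (h2' : a' - b' + c' ≤ 1)
    (h3' : a' + b' - c' ≤ 1) :
    |a - a'| / 2 ≤ 1 ∧ |b - b'| / 2 ≤ 1 ∧ |c - c'| / 2 ≤ 1 ∧
      |a - a'| / 2 + |b - b'| / 2 + |c - c'| / 2 ≤ 2 := by
  rcases abs_cases (a - a') with ⟨e1, _⟩ | ⟨e1, _⟩ <;>
  rcases abs_cases (b - b') with ⟨e2, _⟩ | ⟨e2, _⟩ <;>
  rcases abs_cases (c - c') with ⟨e3, _⟩ | ⟨e3, _⟩ <;>
  rw [e1, e2, e3] <;> refine ⟨by linarith, by linarith, by linarith, by linarith⟩

lemma wt_lt {n : ℕ} {X Y : Sp n} (hX : X ∈ Pt n) (hY : Y ∈ Pt n) {i j k : Fin n} (hij : i < j)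
    (hjk : j < k) : wt X Y i j ≤ 1 ∧ wt X Y j k ≤ 1 ∧ wt X Y i k ≤ 1 ∧
      wt X Y i j + wt X Y j k + wt X Y i k ≤ 2 := by
  rw [mem_Pt_iff] at hX hY
  obtain ⟨h0, h1, h2, h3⟩ := hX i j k hij hjk
  obtain ⟨h0', h1', h2', h3'⟩ := hY i j k hij hjk
  exact tri_aux h0 h1 h2 h3 h0' h1' h2' h3'

lemma wt_three {n : ℕ} {X Y : Sp n} (hX : X ∈ Pt n) (hY : Y ∈ Pt n) (i j k : Fin n) (hij : i ≠ j)
    (hjk : j ≠ k) (hik : i ≠ k) : wt X Y i j ≤ 1 ∧ wt X Y i j + wt X Y j k + wt X Y i k ≤ 2 := by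
  rcases lt_or_gt_of_ne hij with h1 | h1 <;> rcases lt_or_gt_of_ne hjk with h2 | h2 <;>
    rcases lt_or_gt_of_ne hik with h3 | h3
  · obtain ⟨a1, a2, a3, a4⟩ := wt_lt hX hY h1 h2
    exact ⟨a1, a4⟩
  · exact absurd (h1.trans h2) h3.not_gt
  · obtain ⟨a1, a2, a3, a4⟩ := wt_lt hX hY h3 h2
    rw [wt_symm X Y k j] at a2 a4
    exact ⟨a3, by linarith⟩
  · obtain ⟨a1, a2, a3, a4⟩ := wt_lt hX hY h3 h1
    rw [wt_symm X Y k j, wt_symm X Y k i] at *
    exact ⟨by linarith, by linarith⟩
  · obtain ⟨a1, a2, a3, a4⟩ := wt_lt hX hY h1 h3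
    rw [wt_symm X Y j i] at *
    exact ⟨by linarith, by linarith⟩
  · obtain ⟨a1, a2, a3, a4⟩ := wt_lt hX hY h2 h3
    rw [wt_symm X Y j i, wt_symm X Y k i] at *
    exact ⟨by linarith, by linarith⟩
  · exact absurd (h3.trans h2) h1.not_gt
  · obtain ⟨a1, a2, a3, a4⟩ := wt_lt hX hY h2 h1
    rw [wt_symm X Y j i, wt_symm X Y k i, wt_symm X Y k j] at *
    exact ⟨by linarith, by linarith⟩

lemma sum_pairs {n : ℕ} (g : Fin n → Fin n → ℝ) (hs : ∀ i j, g i j = g j i) (hd : ∀ i, g i i = 0) :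
    ∑ e : PairT n, g e.1.1 e.1.2 = (∑ i, ∑ j, g i j) / 2 := by
  have h1 : ∑ e : PairT n, g e.1.1 e.1.2 = ∑ i, ∑ j, if i < j then g i j else 0 := by
    rw [← Finset.sum_subtype (Finset.univ.filter fun x : Fin n × Fin n => x.1 < x.2) (by simp)
      (fun x => g x.1 x.2), Finset.sum_filter, Fintype.sum_prod_type]
  have h2 : ∑ i, ∑ j, g i j = (∑ i : Fin n, ∑ j : Fin n, if i < j then g i j else 0)
      + ∑ i : Fin n, ∑ j : Fin n, if j < i then g i j else 0 := by
    rw [← Finset.sum_add_distrib]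
    refine Finset.sum_congr rfl fun i _ => ?_
    rw [← Finset.sum_add_distrib]
    refine Finset.sum_congr rfl fun j _ => ?_
    rcases lt_trichotomy i j with h | h | h
    · simp [h, h.not_gt]
    · subst h; simp [hd]
    · simp [h, h.not_gt]
  have h3 : (∑ i : Fin n, ∑ j : Fin n, if j < i then g i j else 0)
      = ∑ i : Fin n, ∑ j : Fin n, if i < j then g i j else 0 := by
    rw [Finset.sum_comm]
    refine Finset.sum_congr rfl fun i _ => ?_
    refine Finset.sum_congr rfl fun j _ => ?_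
    rw [hs]
  rw [h1, h2, h3]
  ring

lemma dist_sq {n : ℕ} (X Y : Sp n) :
    dist X Y ^ 2 = (∑ i, ∑ j, (ent X i j - ent Y i j) ^ 2) / 2 := by
  rw [EuclideanSpace.dist_eq, Real.sq_sqrt (Finset.sum_nonneg fun _ _ => by positivity)]
  rw [← sum_pairs (fun i j => (ent X i j - ent Y i j) ^ 2)
    (fun i j => by rw [ent_symm X, ent_symm Y]) (fun i => by simp [ent_self])]
  rw [← Equiv.sum_comp (ef n)]
  refine Finset.sum_congr rfl fun e _ => ?_
  rw [ent_lt X e.2, ent_lt Y e.2, Real.dist_eq, sq_abs]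

lemma dist_le {k : ℕ} (hk : 2 ≤ k) {X Y : Sp (2 * k)} (hX : X ∈ Pt (2 * k)) (hY : Y ∈ Pt (2 * k)) :
    dist X Y ≤ 2 * (k : ℝ) := by
  have hw1 : ∀ i j, wt X Y i j ≤ 1 := by
    intro i j
    by_cases hij : i = j
    · subst hij; simp [wt, ent_self]
    · obtain ⟨l, hl⟩ : ∃ l : Fin (2 * k), l ∉ ({i, j} : Finset (Fin (2 * k))) := by
        by_contra hcon
        push Not at hcon
        have h1 : (Finset.univ : Finset (Fin (2 * k))) ⊆ {i, j} := fun l _ => hcon l
        have h2 := Finset.card_le_card h1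
        have h3 := Finset.card_le_two (a := i) (b := j)
        simp only [Finset.card_univ, Fintype.card_fin] at h2
        omega
      rw [Finset.mem_insert, Finset.mem_singleton, not_or] at hl
      exact (wt_three hX hY i j l hij (Ne.symm hl.2) (Ne.symm hl.1)).1
  have hmain := sum_sq_le (wt X Y) (fun i j => by unfold wt; positivity)
    (fun i => by simp [wt, ent_self]) (wt_symm X Y) hw1
    (fun i j l h1 h2 h3 => (wt_three hX hY i j l h1 h2 h3).2) k Finset.univ (by simp)
  have hd := dist_sq X Y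
  have he : ∑ i, ∑ j, (ent X i j - ent Y i j) ^ 2 = 4 * ∑ i, ∑ j, wt X Y i j ^ 2 := by
    rw [Finset.mul_sum]
    refine Finset.sum_congr rfl fun i _ => ?_
    rw [Finset.mul_sum]
    refine Finset.sum_congr rfl fun j _ => ?_
    unfold wt
    rw [div_pow, sq_abs]
    ring
  rw [he] at hd
  have hsq : dist X Y ^ 2 ≤ (2 * (k : ℝ)) ^ 2 := by
    rw [hd]; nlinarith
  exact le_of_sq_le_sq hsq (by positivity)

/-- The sign vector of a set. -/
def sv {n : ℕ} (A : Finset (Fin n)) (i : Fin n) : ℝ := if i ∈ A then 1 else -1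

lemma sv_cases {n : ℕ} (A : Finset (Fin n)) (i : Fin n) : sv A i = 1 ∨ sv A i = -1 := by
  unfold sv; split_ifs <;> simp

/-- The cut vector of a set. -/
noncomputable def cv {n : ℕ} (A : Finset (Fin n)) : Sp n :=
  WithLp.toLp 2 (fun q => sv A ((ef n).symm q).1.1 * sv A ((ef n).symm q).1.2)

lemma ent_cv {n : ℕ} (A : Finset (Fin n)) {i j : Fin n} (h : i ≠ j) :
    ent (cv A) i j = sv A i * sv A j := by
  rcases lt_or_gt_of_ne h with h | h
  · rw [ent_lt _ h]; simp [cv]
  · rw [ent_symm, ent_lt _ h]; simp [cv, mul_comm]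

lemma cv_mem {n : ℕ} (A : Finset (Fin n)) : cv A ∈ Pt n := by
  rw [mem_Pt_iff]
  intro i j k hij hjk
  rw [ent_cv A hij.ne, ent_cv A hjk.ne, ent_cv A (hij.trans hjk).ne]
  rcases sv_cases A i with h1 | h1 <;> rcases sv_cases A j with h2 | h2 <;>
    rcases sv_cases A k with h3 | h3 <;> rw [h1, h2, h3] <;> norm_num

lemma sum_sv {p : ℕ} {A B : Finset (Fin (4 * p))} (hA : A.card = 2 * p) (hB : B.card = 2 * p)
    (hAB : (A ∩ B).card = p) : ∑ i, sv A i * sv B i = 0 := by
  have h : ∀ i : Fin (4 * p), sv A i * sv B i = 4 * (if i ∈ A ∩ B then (1 : ℝ) else 0)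
      - 2 * (if i ∈ A then (1 : ℝ) else 0) - 2 * (if i ∈ B then (1 : ℝ) else 0) + 1 := by
    intro i
    by_cases h1 : i ∈ A <;> by_cases h2 : i ∈ B <;> simp [sv, h1, h2] <;> norm_num
  rw [Finset.sum_congr rfl fun i _ => h i]
  rw [Finset.sum_add_distrib, Finset.sum_sub_distrib, Finset.sum_sub_distrib, ← Finset.mul_sum,
    ← Finset.mul_sum, ← Finset.mul_sum]
  simp only [Finset.sum_ite_mem, Finset.univ_inter, Finset.sum_const, nsmul_eq_mul, mul_one,
    Finset.card_univ, Fintype.card_fin]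
  rw [hA, hB, hAB]
  push_cast
  ring

lemma dist_cv {p : ℕ} {A B : Finset (Fin (4 * p))} (hA : A.card = 2 * p) (hB : B.card = 2 * p)
    (hAB : (A ∩ B).card = p) : dist (cv A) (cv B) = 4 * (p : ℝ) := by
  have hd := dist_sq (cv A) (cv B)
  have h1 : ∀ i j : Fin (4 * p), (ent (cv A) i j - ent (cv B) i j) ^ 2
      = 2 - 2 * ((sv A i * sv B i) * (sv A j * sv B j)) := by
    intro i j
    by_cases hij : i = j
    · subst hij
      rw [ent_self, ent_self]
      rcases sv_cases A i with h1 | h1 <;> rcases sv_cases B i with h2 | h2 <;> rw [h1, h2] <;>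
        norm_num
    · rw [ent_cv A hij, ent_cv B hij]
      rcases sv_cases A i with h1 | h1 <;> rcases sv_cases B i with h2 | h2 <;>
      rcases sv_cases A j with h3 | h3 <;> rcases sv_cases B j with h4 | h4 <;>
      rw [h1, h2, h3, h4] <;> norm_num
  have h2 : ∑ i, ∑ j, (ent (cv A) i j - ent (cv B) i j) ^ 2 = 2 * (4 * (p : ℝ)) ^ 2 := by
    rw [Finset.sum_congr rfl fun i _ => Finset.sum_congr rfl fun j _ => h1 i j]
    simp only [Finset.sum_sub_distrib, Finset.sum_const, Finset.card_univ, Fintype.card_fin,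
      nsmul_eq_mul, ← Finset.mul_sum, sum_sv hA hB hAB, mul_zero]
    push_cast
    ring
  rw [h2] at hd
  have h3 : dist (cv A) (cv B) ^ 2 = (4 * (p : ℝ)) ^ 2 := by rw [hd]; ring
  exact (pow_left_inj₀ dist_nonneg (by positivity) two_ne_zero).1 h3

lemma num_le (n : ℕ) : num n ≤ 4 * n ^ 3 := by
  unfold num TripT
  rw [Fintype.card_prod, Fintype.card_fin]
  have h := Fintype.card_subtype_le
    (fun t : Fin n × Fin n × Fin n => t.1 < t.2.1 ∧ t.2.1 < t.2.2)
  rw [Fintype.card_prod, Fintype.card_prod, Fintype.card_fin] at h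
  calc _ ≤ (n * (n * n)) * 4 := Nat.mul_le_mul_right 4 h
    _ = 4 * n ^ 3 := by ring

lemma Pt_bounded {k : ℕ} (hk : 2 ≤ k) : Bornology.IsBounded (Pt (2 * k)) :=
  Metric.isBounded_iff.2 ⟨2 * k, fun _ hX _ hY => dist_le hk hX hY⟩

lemma Pt_interior (n : ℕ) : (interior (Pt n)).Nonempty := by
  refine ⟨0, mem_interior.2 ⟨Metric.ball 0 (1 / 3), ?_, Metric.isOpen_ball, by simp⟩⟩
  intro X hX
  rw [mem_ball_zero_iff] at hX
  have hb : ∀ q, |X q| < 1 / 3 := fun q => by
    have := PiLp.norm_apply_le X q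
    rw [Real.norm_eq_abs] at this
    linarith
  rw [mem_Pt_iff]
  intro i j k hij hjk
  rw [ent_lt X hij, ent_lt X hjk, ent_lt X (hij.trans hjk)]
  have h1 := abs_lt.1 (hb (ef n ⟨(i, j), hij⟩))
  have h2 := abs_lt.1 (hb (ef n ⟨(j, k), hjk⟩))
  have h3 := abs_lt.1 (hb (ef n ⟨(i, k), hij.trans hjk⟩))
  refine ⟨by linarith, by linarith, by linarith, by linarith⟩

/-- The family of sets of size `2 p` that contain a fixed point. -/
lemma exists_family (p : ℕ) (hp : 0 < p) : ∃ (z : Fin (4 * p)) (F : Finset (Finset (Fin (4 * p)))),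
    F.card = (4 * p - 1).choose (2 * p - 1) ∧ ∀ A ∈ F, A.card = 2 * p ∧ z ∈ A := by
  let z : Fin (4 * p) := ⟨0, by omega⟩
  refine ⟨z, (Finset.powersetCard (2 * p - 1) (Finset.univ.erase z)).image (insert z), ?_, ?_⟩
  · rw [Finset.card_image_of_injOn, Finset.card_powersetCard, Finset.card_erase_of_mem
      (Finset.mem_univ _), Finset.card_univ, Fintype.card_fin]
    intro A hA B hB hAB
    rw [Finset.mem_coe, Finset.mem_powersetCard] at hA hB
    have hzA : z ∉ A := fun h => (Finset.notMem_erase z _) (hA.1 h)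
    have hzB : z ∉ B := fun h => (Finset.notMem_erase z _) (hB.1 h)
    rw [← Finset.erase_insert hzA, ← Finset.erase_insert hzB, hAB]
  · intro A hA
    rw [Finset.mem_image] at hA
    obtain ⟨B, hB, rfl⟩ := hA
    rw [Finset.mem_powersetCard] at hB
    have hzB : z ∉ B := fun h => (Finset.notMem_erase z _) (hB.1 h)
    refine ⟨?_, Finset.mem_insert_self _ _⟩
    rw [Finset.card_insert_of_notMem hzB, hB.2]
    omega

/-- The general lower bound. -/
lemma no_cover (p : ℕ) [Fact p.Prime]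
    (hnum : num (4 * p) * (∑ i ∈ Finset.range p, (4 * p).choose i)
      < (4 * p - 1).choose (2 * p - 1))
    (S : Fin (num (4 * p)) → Set (Sp (4 * p)))
    (hS : ∀ i, S i ⊆ Pt (4 * p) ∧ Metric.diam (S i) < Metric.diam (Pt (4 * p)))
    (hcov : Pt (4 * p) ⊆ ⋃ i, S i) : False := by
  classical
  have hp : p.Prime := Fact.out
  have h4 : 4 * p = 2 * (2 * p) := by ring
  have hdle : ∀ X ∈ Pt (4 * p), ∀ Y ∈ Pt (4 * p), dist X Y ≤ 4 * (p : ℝ) := by
    have hgen : ∀ m : ℕ, m = 2 * (2 * p) → ∀ X ∈ Pt m, ∀ Y ∈ Pt m, dist X Y ≤ 4 * (p : ℝ) := by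
      rintro m rfl X hX Y hY
      have := dist_le (k := 2 * p) (by have := hp.two_le; omega) hX hY
      push_cast at this
      linarith
    exact hgen _ h4
  have hdiam : Metric.diam (Pt (4 * p)) ≤ 4 * (p : ℝ) :=
    Metric.diam_le_of_forall_dist_le (by positivity) hdle
  have hbdd : Bornology.IsBounded (Pt (4 * p)) :=
    Metric.isBounded_iff.2 ⟨4 * p, fun _ hX _ hY => hdle _ hX _ hY⟩
  obtain ⟨z, F, hFcard, hF⟩ := exists_family p hp.pos
  have hex : ∀ A : Finset (Fin (4 * p)), ∃ q, cv A ∈ S q := fun A =>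
    Set.mem_iUnion.1 (hcov (cv_mem A))
  choose c hc using hex
  obtain ⟨q, _, hq⟩ := Finset.exists_lt_card_fiber_of_mul_lt_card_of_maps_to
    (s := F) (t := (Finset.univ : Finset (Fin (num (4 * p))))) (f := c)
    (n := ∑ i ∈ Finset.range p, (4 * p).choose i) (fun _ _ => Finset.mem_univ _)
    (by rw [hFcard, Finset.card_univ, Fintype.card_fin]; exact hnum)
  refine absurd (frankl_wilson (p := p) (F.filter fun A => c A = q) ?_ ?_) (not_le.2 hq)
  · intro A hA
    rw [(hF A (Finset.mem_filter.1 hA).1).1]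
    push_cast
    simp
  · intro A hA B hB hAB h0
    rw [Finset.mem_filter] at hA hB
    obtain ⟨hA1, hA2⟩ := hF A hA.1
    obtain ⟨hB1, hB2⟩ := hF B hB.1
    rw [ZMod.natCast_eq_zero_iff] at h0
    obtain ⟨t, ht⟩ := h0
    have hpos : 0 < (A ∩ B).card := Finset.card_pos.2 ⟨z, Finset.mem_inter.2 ⟨hA2, hB2⟩⟩
    have hlt : (A ∩ B).card < 2 * p := by
      rw [← hA1]
      refine Finset.card_lt_card ⟨Finset.inter_subset_left, fun hsub => hAB ?_⟩
      have h1 : A ⊆ B := fun x hx => (Finset.mem_inter.1 (hsub hx)).2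
      exact Finset.eq_of_subset_of_card_le h1 (by rw [hA1, hB1])
    have ht1 : t = 1 := by
      have h1 : 0 < t := Nat.pos_of_ne_zero (by
        intro h0
        rw [h0, mul_zero] at ht
        omega)
      have h2 : t < 2 := by
        rw [ht, mul_comm 2 p] at hlt
        exact Nat.lt_of_mul_lt_mul_left hlt
      omega
    rw [ht1, mul_one] at ht
    have hdist := dist_cv hA1 hB1 ht
    have hcA : cv A ∈ S q := by have := hc A; rwa [hA.2] at this
    have hcB : cv B ∈ S q := by have := hc B; rwa [hB.2] at this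
    have hle := Metric.dist_le_diam_of_mem (hbdd.subset (hS q).1) hcA hcB
    have hlt' := (hS q).2
    linarith

set_option maxRecDepth 100000 in
lemma numeric : 4 * (4 * 37) ^ 3 * (∑ i ∈ Finset.range 37, (4 * 37).choose i)
      < (4 * 37 - 1).choose (2 * 37 - 1) := by
  norm_num [Finset.sum_range_succ, Nat.choose]

/-- The negation of the preceding statement: Every bounded full-dimensional polytope in d-dimensional Euclidean space (d ≥ 1) given by m linear inequalities can be covered by m of its subsets, each of strictly smaller diameter than the polytope. -/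
theorem result :
    ¬ (∀ (d m : ℕ) (a : Fin m → EuclideanSpace ℝ (Fin d)) (b : Fin m → ℝ)
      (P : Set (EuclideanSpace ℝ (Fin d))),
      1 ≤ d →
      P = ⋂ i, {x : EuclideanSpace ℝ (Fin d) | @inner ℝ _ _ (a i) x ≤ b i} →
      Bornology.IsBounded P →
      (interior P).Nonempty →
      ∃ S : Fin m → Set (EuclideanSpace ℝ (Fin d)),
        (∀ i, S i ⊆ P ∧ Metric.diam (S i) < Metric.diam P) ∧ P ⊆ ⋃ i, S i) := by
  intro h
  have : Fact (Nat.Prime 37) := ⟨by norm_num⟩
  have hnum : num (4 * 37) * (∑ i ∈ Finset.range 37, (4 * 37).choose i)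
      < (4 * 37 - 1).choose (2 * 37 - 1) :=
    lt_of_le_of_lt (Nat.mul_le_mul_right _ (num_le _)) numeric
  have hdim : 1 ≤ dim (4 * 37) := Fintype.card_pos_iff.2 ⟨⟨(0, 1), by decide⟩⟩
  obtain ⟨S, hS, hcov⟩ := h (dim (4 * 37)) (num (4 * 37)) (fun q => nv ((tf _).symm q))
    (fun _ => 1) (Pt (4 * 37)) hdim rfl (Pt_bounded (k := 2 * 37) (by norm_num))
    (Pt_interior _)
  exact no_cover 37 hnum S hS hcov

end Pool.Agent.S08938
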