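import Pool.Statements.S09206
import Pool.Agent.H45.DiskExist

/-!
Disproof of the statement that every packing of n unit disks minimising the area of the union of the
concentric disks of radius r, r > 2/√3, is part of the hexagonal packing.

Counterexample: n = 54, r = 10^6. For large r the leading term of the area of the union is
π r^2 + r * (perimeter of the convex hull of the centres). The hexagon of side 4 of the triangular
lattice (61 points) minus its 6 corners, with 3 more points near one corner replaced by a pair of
points at distance slightly more than 2 parallel to the cut, has 54 points and perimeter < 44.56,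
while every set of 54 points of the triangular lattice of minimal distance 2 has perimeter > 44.6.
-/

set_option autoImplicit false
open MeasureTheory
open Pool Pool.MP_642e38_co

namespace Pool.Agent.S09206

/-- The negation of the preceding statement: For every n and r > 2/√3, if n points with pairwise distances ≥ 2 minimise the area of the union of radius-r disks about them among all such configurations, then they lie in a congruent copy of the hexagonal lattice with spacing 2. -/
theorem result :
    ¬ (∀ n : ℕ, ∀ r : ℝ, 2 / Real.sqrt 3 < r →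
      ∀ c : Fin n → EuclideanSpace ℝ (Fin 2),
        (Pairwise fun j k => (2 : ℝ) ≤ dist (c j) (c k)) →
        (∀ x : Fin n → EuclideanSpace ℝ (Fin 2),
            (Pairwise fun j k => (2 : ℝ) ≤ dist (x j) (x k)) →
            volume (⋃ i, Metric.closedBall (c i) r) ≤
              volume (⋃ i, Metric.closedBall (x i) r)) →
        ∃ p u v : EuclideanSpace ℝ (Fin 2),
          ‖u‖ = 1 ∧ ‖v‖ = 1 ∧ ‖u - v‖ = 1 ∧
          ∀ i, ∃ a b : ℤ, c i = p + ((2 : ℝ) * (a : ℝ)) • u + ((2 : ℝ) * (b : ℝ)) • v) := by
  intro H
  have hκ : (60 : ℝ) ≤ 1000000 - 1 / 1000 := by norm_num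
  have hr : ((1000000 : ℝ) - 1 / 1000) ^ 2 + 30 ^ 2 ≤ (1000000 : ℝ) ^ 2 := by norm_num
  have hr0 : (8 : ℝ) ≤ 1000000 := by norm_num
  have hπ : Real.pi < 3.15 := Real.pi_lt_d2
  have hπ0 : 0 < Real.pi := Real.pi_pos
  have hlt : Real.pi * ((1000000 : ℝ) ^ 2 + 64) + 1000000 * 44.5532
      < Real.pi * (1000000 - 1 / 1000) ^ 2 + (1000000 - 1 / 1000) * 44.6 := by nlinarith
  have hY := Pool.Agent.H45.Disk.Y0_area hr0
  have hbig : Pool.Agent.H45.Disk.area 1000000 Pool.Agent.H45.Disk.Y0
      < ENNReal.ofReal (Real.pi * (1000000 - 1 / 1000) ^ 2 + (1000000 - 1 / 1000) * 60) := by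
    refine lt_of_le_of_lt hY ?_
    rw [ENNReal.ofReal_lt_ofReal_iff (by positivity)]
    linarith
  obtain ⟨c, hc, hmin⟩ := Pool.Agent.H45.Disk.exists_minimizer hκ hr hr0 hbig
  obtain ⟨p, u, v, hu, hv, huv, hlat⟩ := H 54 1000000 (by
    rw [div_lt_iff₀ (by positivity)]
    have := Pool.Agent.H45.Disk.sqrt3_gt
    linarith) c hc hmin
  have h1 := Pool.Agent.H45.Disk.lattice_area hκ hr hr0 c hc p u v hu hv huv hlat
  have h2 := hmin _ Pool.Agent.H45.Disk.Y0_packs
  have h3 := (h1.trans h2).trans hY
  rw [ENNReal.ofReal_le_ofReal_iff (by positivity)] at h3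
  linarith

end Pool.Agent.S09206
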