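import Pool.Statements.S09467
import Pool.Agent.H63.Quad.All

set_option autoImplicit false
open Filter Topology
open Pool Pool.MP_72bf75_co

namespace Pool.Agent.S09467

/-- With Q(n,g) the number of rooted bipartite genus-g quadrangulations with n faces, for each θ in (0,1/2) there is r such that for every sequence g_n with g_n/n → θ, Q(n,g_n)/(n² Q(n,g_n−1)) tends to r. -/
theorem result :
    ∀ Q : ℕ → ℕ → ℝ,
      (∀ n g : ℕ, Q n g =
        (Set.ncard {p : Equiv.Perm (Fin (4 * n)) × Equiv.Perm (Fin (4 * n)) |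
            (∀ d, p.2 (p.2 d) = d ∧ p.2 d ≠ d) ∧
            (∀ d e, ∃ w ∈ Subgroup.closure ({p.1, p.2} : Set (Equiv.Perm (Fin (4 * n)))),
              w d = e) ∧
            (∀ d, Function.minimalPeriod (p.1 * p.2) d = 4) ∧
            (∃ c : Fin (4 * n) → Bool, ∀ d, c (p.1 d) = c d ∧ c (p.2 d) ≠ c d) ∧
            (∑ d, (1 : ℚ) / (Function.minimalPeriod p.1 d : ℚ)) =
              (n : ℚ) + 2 - 2 * (g : ℚ)} : ℝ)
          / ((4 * n - 1).factorial : ℝ)) →
      ∀ θ : ℝ, 0 < θ → θ < 1 / 2 → ∃ r : ℝ, ∀ gs : ℕ → ℕ,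
        Tendsto (fun n => (gs n : ℝ) / n) atTop (𝓝 θ) →
        Tendsto (fun n => Q n (gs n) / ((n : ℝ) ^ 2 * Q n (gs n - 1))) atTop (𝓝 r) := by
  exact Pool.Agent.H63.Quad.reduce Pool.Agent.H63.Quad.partB

end Pool.Agent.S09467
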