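import Pool.Statements.S09856

set_option autoImplicit false
open Pool Pool.MP_850f75_co

namespace Pool.Agent.S09856

/-- Adjacency rows of the 13-vertex counterexample, as bit masks. -/
def rowG : List ℕ :=
  [1874, 4805, 5514, 3380, 6313, 2456, 1667, 1398, 4781, 4419, 6349, 5176, 3862]

/-- Adjacency rows of its complement. -/
def rowH : List ℕ :=
  [6316, 3384, 2673, 4803, 1862, 5703, 6460, 6665, 3154, 3260, 818, 967, 233]

def adjG (i j : Fin 13) : Bool := (rowG.getD i.val 0).testBit j.val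
def adjH (i j : Fin 13) : Bool := (rowH.getD i.val 0).testBit j.val

/-- The counterexample graph. -/
def Gr : SimpleGraph (Fin 13) where
  Adj i j := adjG i j = true
  symm := ⟨by decide +kernel⟩
  loopless := ⟨by decide +kernel⟩

theorem gr_adj (i j : Fin 13) : Gr.Adj i j ↔ adjG i j = true := Iff.rfl

theorem compl_adj (i j : Fin 13) : Grᶜ.Adj i j ↔ adjH i j = true := by
  rw [SimpleGraph.compl_adj]
  show (i ≠ j ∧ ¬ (adjG i j = true)) ↔ adjH i j = true
  revert i j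
  decide +kernel

/-! ### No star cutset -/

/-- If for each `x` every other vertex has a rank-decreasing path through non-neighbours of `x`
to a fixed non-neighbour of `x`, there is no star cutset. -/
theorem no_star (H : SimpleGraph (Fin 13)) (root : Fin 13 → Fin 13)
    (par : Fin 13 → Fin 13 → Fin 13) (rk : Fin 13 → Fin 13 → ℕ)
    (hroot : ∀ x, root x ≠ x ∧ ¬ H.Adj x (root x))
    (hpar : ∀ x u, u ≠ x → u ≠ root x →
      H.Adj u (par x u) ∧ par x u ≠ x ∧ ¬ H.Adj x (par x u) ∧ rk x (par x u) < rk x u) :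
    ¬ ∃ C : Set (Fin 13), ∃ x ∈ C, (∀ y ∈ C, y ≠ x → H.Adj x y) ∧
          ¬ (H.induce Cᶜ).Preconnected := by
  rintro ⟨C, x, hx, hC, hn⟩
  apply hn
  have out : ∀ w : Fin 13, w ≠ x → ¬ H.Adj x w → w ∈ Cᶜ := by
    intro w h1 h2 h3
    exact h2 (hC w h3 h1)
  have hr : root x ∈ Cᶜ := out _ (hroot x).1 (hroot x).2
  have key : ∀ k : ℕ, ∀ u : Fin 13, ∀ hu : u ∈ Cᶜ, rk x u ≤ k →
      (H.induce Cᶜ).Reachable ⟨u, hu⟩ ⟨root x, hr⟩ := by
    intro k
    induction k with
    | zero =>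
      intro u hu hk
      by_cases h : u = root x
      · subst h; exact SimpleGraph.Reachable.refl _
      · have hux : u ≠ x := by rintro rfl; exact hu hx
        have := hpar x u hux h
        omega
    | succ k ih =>
      intro u hu hk
      by_cases h : u = root x
      · subst h; exact SimpleGraph.Reachable.refl _
      · have hux : u ≠ x := by rintro rfl; exact hu hx
        obtain ⟨h1, h2, h3, h4⟩ := hpar x u hux h
        have hp : par x u ∈ Cᶜ := out _ h2 h3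
        have h5 := ih (par x u) hp (by omega)
        have h6 : (H.induce Cᶜ).Adj ⟨u, hu⟩ ⟨par x u, hp⟩ := by
          simpa using h1
        exact h6.reachable.trans h5
  intro u v
  exact (key _ u.1 u.2 le_rfl).trans (key _ v.1 v.2 le_rfl).symm

def tblRoot (t : List ℕ) (x : Fin 13) : Fin 13 := Fin.ofNat 13 (t.getD x.val 0)
def tblPar (t : List (List ℕ)) (x u : Fin 13) : Fin 13 :=
  Fin.ofNat 13 ((t.getD x.val []).getD u.val 0)
def tblRk (t : List (List ℕ)) (x u : Fin 13) : ℕ := (t.getD x.val []).getD u.val 0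

def rootG : List ℕ := [2, 3, 0, 1, 2, 0, 2, 12, 10, 2, 8, 0, 7]
def parG : List (List ℕ) :=
  [[0, 2, 2, 2, 3, 3, 7, 2, 2, 12, 2, 3, 2], [4, 0, 3, 3, 3, 3, 10, 4, 3, 8, 3, 3, 4],
   [0, 0, 0, 4, 0, 4, 0, 4, 0, 0, 0, 4, 4], [1, 1, 1, 0, 0, 7, 1, 1, 0, 1, 0, 12, 1],
   [1, 2, 2, 2, 0, 8, 1, 2, 2, 1, 2, 10, 2], [0, 0, 1, 10, 0, 0, 0, 1, 0, 0, 0, 10, 1],
   [8, 2, 2, 2, 3, 3, 0, 2, 2, 8, 2, 3, 2], [9, 12, 12, 11, 12, 11, 9, 0, 12, 12, 12, 12, 12],
   [10, 6, 10, 10, 11, 11, 10, 10, 0, 6, 10, 10, 10], [10, 2, 2, 2, 3, 3, 7, 2, 2, 0, 2, 3, 2],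
   [8, 9, 8, 8, 5, 8, 9, 8, 8, 8, 0, 5, 8], [0, 0, 1, 8, 0, 8, 0, 1, 0, 0, 0, 0, 1],
   [6, 7, 7, 5, 7, 7, 7, 7, 7, 6, 7, 5, 0]]
def rkG : List (List ℕ) :=
  [[0, 1, 0, 1, 2, 2, 2, 1, 1, 2, 1, 2, 1], [2, 0, 1, 0, 1, 1, 2, 2, 1, 2, 1, 1, 2],
   [0, 1, 0, 2, 1, 2, 1, 2, 1, 1, 1, 2, 2], [1, 0, 1, 0, 2, 2, 1, 1, 2, 1, 2, 2, 1],
   [2, 1, 0, 1, 0, 2, 2, 1, 1, 2, 1, 2, 1], [0, 1, 2, 2, 1, 0, 1, 2, 1, 1, 1, 2, 2],
   [2, 1, 0, 1, 2, 2, 0, 1, 1, 2, 1, 2, 1], [2, 1, 1, 2, 1, 2, 2, 0, 1, 1, 1, 1, 0],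
   [1, 2, 1, 1, 2, 2, 1, 1, 0, 2, 0, 1, 1], [2, 1, 0, 1, 2, 2, 2, 1, 1, 0, 1, 2, 1],
   [1, 2, 1, 1, 2, 1, 2, 1, 0, 1, 0, 2, 1], [0, 1, 2, 2, 1, 2, 1, 2, 1, 1, 1, 0, 2],
   [2, 1, 1, 2, 1, 1, 1, 0, 1, 2, 1, 2, 0]]

def rootH : List ℕ := [4, 2, 1, 2, 0, 11, 9, 1, 0, 6, 0, 5, 1]
def parH : List (List ℕ) :=
  [[0, 4, 4, 1, 4, 1, 4, 9, 4, 4, 4, 1, 6], [2, 0, 2, 0, 2, 2, 2, 0, 6, 2, 9, 2, 0],
   [3, 1, 0, 1, 1, 1, 3, 3, 1, 3, 1, 1, 3], [2, 4, 2, 0, 2, 2, 2, 11, 4, 2, 4, 2, 5],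
   [0, 3, 0, 0, 0, 0, 3, 0, 11, 3, 5, 0, 0], [11, 11, 11, 7, 8, 0, 11, 11, 11, 11, 8, 11, 7],
   [7, 10, 9, 9, 9, 9, 0, 9, 10, 9, 9, 9, 7], [5, 1, 4, 1, 1, 1, 4, 0, 1, 4, 1, 1, 5],
   [0, 3, 0, 0, 2, 0, 2, 0, 0, 2, 5, 0, 0], [12, 8, 6, 6, 6, 6, 6, 12, 6, 0, 8, 6, 6],
   [0, 3, 0, 0, 2, 0, 2, 0, 11, 2, 0, 0, 0], [5, 5, 5, 12, 10, 5, 5, 12, 10, 5, 5, 0, 5],
   [11, 1, 4, 1, 1, 1, 4, 11, 1, 4, 1, 1, 0]]
def rkH : List (List ℕ) :=
  [[0, 1, 1, 2, 0, 2, 1, 2, 1, 1, 1, 2, 2], [1, 0, 0, 2, 1, 1, 1, 2, 2, 1, 2, 1, 2],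
   [2, 0, 0, 1, 1, 1, 2, 2, 1, 2, 1, 1, 2], [1, 2, 0, 0, 1, 1, 1, 2, 2, 1, 2, 1, 2],
   [0, 2, 1, 1, 0, 1, 2, 1, 2, 2, 2, 1, 1], [1, 1, 1, 2, 2, 0, 1, 1, 1, 1, 2, 0, 2],
   [2, 2, 1, 1, 1, 1, 0, 1, 2, 0, 1, 1, 2], [2, 0, 2, 1, 1, 1, 2, 0, 1, 2, 1, 1, 2],
   [0, 2, 1, 1, 2, 1, 2, 1, 0, 2, 2, 1, 1], [2, 2, 1, 1, 1, 1, 0, 2, 1, 0, 2, 1, 1],
   [0, 2, 1, 1, 2, 1, 2, 1, 2, 2, 0, 1, 1], [1, 1, 1, 2, 2, 0, 1, 2, 2, 1, 1, 0, 1],
   [2, 0, 2, 1, 1, 1, 2, 2, 1, 2, 1, 1, 0]]

theorem noStarG : ¬ ∃ C : Set (Fin 13), ∃ x ∈ C, (∀ y ∈ C, y ≠ x → Gr.Adj x y) ∧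
          ¬ (Gr.induce Cᶜ).Preconnected := by
  apply no_star Gr (tblRoot rootG) (tblPar parG) (tblRk rkG)
  · show ∀ x, tblRoot rootG x ≠ x ∧ ¬ (adjG x (tblRoot rootG x) = true)
    decide +kernel
  · show ∀ x u, u ≠ x → u ≠ tblRoot rootG x →
      (adjG u (tblPar parG x u) = true) ∧ tblPar parG x u ≠ x ∧
        ¬ (adjG x (tblPar parG x u) = true) ∧ tblRk rkG x (tblPar parG x u) < tblRk rkG x u
    decide +kernel

theorem noStarH : ¬ ∃ C : Set (Fin 13), ∃ x ∈ C, (∀ y ∈ C, y ≠ x → Grᶜ.Adj x y) ∧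
          ¬ (Grᶜ.induce Cᶜ).Preconnected := by
  apply no_star Grᶜ (tblRoot rootH) (tblPar parH) (tblRk rkH)
  · simp only [compl_adj]
    decide +kernel
  · simp only [compl_adj]
    decide +kernel

/-! ### Disks meeting `{0,1,2,3,4}` in two vertices -/

/-- number of set bits below `k` -/
def pop : ℕ → ℕ → ℕ
  | 0, _ => 0
  | k + 1, m => pop k m + (m.testBit k).toNat

theorem pop_eq (k m : ℕ) :
    pop k m = (Finset.univ.filter (fun i : Fin k => m.testBit i.val = true)).card := by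
  rw [Finset.card_filter]
  induction k with
  | zero => rfl
  | succ k ih =>
    rw [Fin.sum_univ_castSucc, pop, ih]
    congr 1
    simp only [Fin.val_last]
    by_cases h : m.testBit k = true
    · rw [if_pos h, h]; rfl
    · rw [if_neg h, Bool.not_eq_true _ |>.mp h]; rfl

def allBelow : ℕ → (ℕ → Bool) → Bool
  | 0, _ => true
  | k + 1, f => f k && allBelow k f

theorem allBelow_spec (k : ℕ) (f : ℕ → Bool) (h : allBelow k f = true) :
    ∀ i < k, f i = true := by
  induction k with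
  | zero => intro i hi; omega
  | succ k ih =>
    simp only [allBelow, Bool.and_eq_true] at h
    intro i hi
    rcases Nat.lt_succ_iff_lt_or_eq.mp hi with h1 | h1
    · exact ih h.2 i h1
    · subst h1; exact h.1

/-- `m` is 2-regular in the graph with adjacency rows `row`. -/
def reg (row : List ℕ) (m : ℕ) : Bool :=
  allBelow 13 (fun v => !(m.testBit v) || (pop 13 ((row.getD v 0) &&& m) == 2))

/-- `m` has no triangle in the graph with adjacency rows `row`. -/
def triFree (row : List ℕ) (m : ℕ) : Bool :=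
  allBelow 13 (fun u => allBelow 13 (fun v =>
    !(m.testBit u && m.testBit v && (row.getD u 0).testBit v) ||
      (((row.getD u 0) &&& (row.getD v 0)) &&& m == 0)))

def chk (row : List ℕ) (m : ℕ) : Bool :=
  !(reg row m) || !(decide (5 ≤ pop 13 m)) || !(decide (2 ≤ pop 13 (m &&& 31))) ||
    !(triFree row m) || m == 31

theorem chk_of (row : List ℕ)
    (h : allBelow 64 (fun a => allBelow 128 (fun b => chk row (128 * a + b))) = true)
    (m : ℕ) (hm : m < 2 ^ 13) : chk row m = true := by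
  have h1 := allBelow_spec _ _ h (m / 128) (by omega)
  have h2 := allBelow_spec _ _ h1 (m % 128) (by omega)
  rwa [Nat.div_add_mod] at h2

theorem allBelow_of (k : ℕ) (f : ℕ → Bool) (h : ∀ i < k, f i = true) : allBelow k f = true := by
  induction k with
  | zero => rfl
  | succ k ih =>
    simp only [allBelow, Bool.and_eq_true]
    exact ⟨h k (by omega), ih (fun i hi => h i (by omega))⟩

theorem bits31 (i : Fin 13) :
    ((31 : ℕ).testBit i.val = true) ↔ i ∈ ({0, 1, 2, 3, 4} : Set (Fin 13)) := by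
  revert i
  simp only [Set.mem_insert_iff, Set.mem_singleton_iff]
  decide +kernel

theorem fin_sub_val_eq_one {n : ℕ} (hn : 5 ≤ n) (u v : Fin n) :
    (u - v).val = 1 ↔ (u.val = v.val + 1 ∨ (u.val = 0 ∧ v.val = n - 1)) := by
  have hu := u.isLt
  have hv := v.isLt
  rcases lt_or_ge u v with h | h
  · rw [Fin.coe_sub_iff_lt.mpr h]
    have h' : u.val < v.val := h
    omega
  · rw [Fin.sub_val_of_le h]
    have h' : v.val ≤ u.val := h
    omega

theorem cycle_triFree {n : ℕ} (hn : 5 ≤ n) (a b c : Fin n)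
    (h1 : (SimpleGraph.cycleGraph n).Adj a b) (h2 : (SimpleGraph.cycleGraph n).Adj b c)
    (h3 : (SimpleGraph.cycleGraph n).Adj a c) : False := by
  rw [SimpleGraph.cycleGraph_adj', fin_sub_val_eq_one hn, fin_sub_val_eq_one hn] at h1 h2 h3
  have := a.isLt
  have := b.isLt
  have := c.isLt
  omega

/-- If `T` induces a cycle of length at least five and meets `{0,1,2,3,4}` in two vertices,
then `T = {0,1,2,3,4}`. -/
theorem disk_unique (H : SimpleGraph (Fin 13)) (row : List ℕ)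
    (hrow : ∀ i j : Fin 13, H.Adj i j ↔ (row.getD i.val 0).testBit j.val = true)
    (hc : allBelow 64 (fun a => allBelow 128 (fun b => chk row (128 * a + b))) = true)
    (T : Set (Fin 13)) (n : ℕ) (hn : 5 ≤ n)
    (e : H.induce T ≃g SimpleGraph.cycleGraph n)
    (hT : 2 ≤ (({0, 1, 2, 3, 4} : Set (Fin 13)) ∩ T).ncard) :
    T = {0, 1, 2, 3, 4} := by
  classical
  obtain ⟨k, rfl⟩ : ∃ k, n = k + 3 := ⟨n - 3, by omega⟩
  -- the mask of `T`
  set m : ℕ := Nat.ofBits (fun i : Fin 13 => decide (i ∈ T)) with hm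
  have hmlt : m < 2 ^ 13 := Nat.ofBits_lt_two_pow _
  have hbit : ∀ i : Fin 13, m.testBit i.val = decide (i ∈ T) := by
    intro i
    rw [hm, Nat.testBit_ofBits_lt _ _ i.isLt]
  have hchk := chk_of row hc m hmlt
  -- it is enough to show `m = 31`
  suffices hm31 : m = 31 by
    ext i
    have h1 := hbit i
    rw [hm31] at h1
    rw [← bits31 i, h1]
    simp
  have hreg : reg row m = true := by
    apply allBelow_of
    intro v hv
    by_cases hvT : (⟨v, hv⟩ : Fin 13) ∈ T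
    · have h1 : pop 13 ((row.getD v 0) &&& m) = 2 := by
        rw [pop_eq]
        have h2 : (Finset.univ.filter
            (fun i : Fin 13 => ((row.getD v 0) &&& m).testBit i.val = true)) =
            ((H.induce T).neighborFinset ⟨⟨v, hv⟩, hvT⟩).map (Function.Embedding.subtype _) := by
          ext i
          simp only [Finset.mem_filter, Finset.mem_univ, true_and, Nat.testBit_land,
            Bool.and_eq_true, Finset.mem_map, SimpleGraph.mem_neighborFinset]
          rw [← hrow ⟨v, hv⟩ i, hbit i]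
          constructor
          · rintro ⟨h3, h4⟩
            refine ⟨⟨i, by simpa using h4⟩, ?_, rfl⟩
            simpa using h3
          · rintro ⟨⟨j, hj⟩, h3, rfl⟩
            refine ⟨?_, decide_eq_true hj⟩
            simpa using h3
        rw [h2, Finset.card_map, SimpleGraph.card_neighborFinset_eq_degree,
          ← e.degree_eq, SimpleGraph.cycleGraph_degree_three_le]
      rw [h1]
      simp
    · have h1 : m.testBit v = false := by
        rw [hbit ⟨v, hv⟩]; simpa using hvT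
      simp [h1]
  have hfive : 5 ≤ pop 13 m := by
    rw [pop_eq]
    have h1 : (Finset.univ.filter (fun i : Fin 13 => m.testBit i.val = true)).card =
        Fintype.card T := by
      rw [Fintype.card_subtype]
      congr 1
      ext i
      simp [hbit i]
    rw [h1, Fintype.card_congr e.toEquiv, Fintype.card_fin]
    exact hn
  have htwo : 2 ≤ pop 13 (m &&& 31) := by
    rw [pop_eq]
    have h1 : (({0, 1, 2, 3, 4} : Set (Fin 13)) ∩ T) =
        ((Finset.univ.filter (fun i : Fin 13 => (m &&& 31).testBit i.val = true) :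
          Finset (Fin 13)) : Set (Fin 13)) := by
      ext i
      simp only [Finset.coe_filter, Finset.mem_univ, true_and, Set.mem_ofPred_eq,
        Nat.testBit_land, Bool.and_eq_true, Set.mem_inter_iff]
      rw [bits31 i, hbit i]
      simp [and_comm]
    rw [h1, Set.ncard_coe_finset] at hT
    exact hT
  have htri : triFree row m = true := by
    apply allBelow_of
    intro u hu
    apply allBelow_of
    intro v hv
    by_cases hc1 : m.testBit u = true ∧ m.testBit v = true ∧ (row.getD u 0).testBit v = true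
    · obtain ⟨h1, h2, h3⟩ := hc1
      have hz : (((row.getD u 0) &&& (row.getD v 0)) &&& m) = 0 := by
        apply Nat.eq_of_testBit_eq
        intro i
        rw [Nat.zero_testBit]
        by_contra hne
        have hne' : (((row.getD u 0) &&& (row.getD v 0)) &&& m).testBit i = true := by
          rwa [Bool.not_eq_false] at hne
        simp only [Nat.testBit_land, Bool.and_eq_true] at hne'
        obtain ⟨⟨h4, h5⟩, h6⟩ := hne'
        have hi : i < 13 := by
          by_contra hge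
          have : m.testBit i = false := by
            rw [hm]
            exact Nat.testBit_ofBits_ge _ _ (by omega)
          rw [this] at h6
          exact Bool.noConfusion h6
        have hu' : (⟨u, hu⟩ : Fin 13) ∈ T := by
          have := hbit ⟨u, hu⟩
          rw [h1] at this
          simpa using this.symm
        have hv' : (⟨v, hv⟩ : Fin 13) ∈ T := by
          have := hbit ⟨v, hv⟩
          rw [h2] at this
          simpa using this.symm
        have hi' : (⟨i, hi⟩ : Fin 13) ∈ T := by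
          have := hbit ⟨i, hi⟩
          rw [h6] at this
          simpa using this.symm
        have a1 : H.Adj ⟨u, hu⟩ ⟨v, hv⟩ := (hrow _ _).mpr h3
        have a2 : H.Adj ⟨u, hu⟩ ⟨i, hi⟩ := (hrow _ _).mpr h4
        have a3 : H.Adj ⟨v, hv⟩ ⟨i, hi⟩ := (hrow _ _).mpr h5
        have b1 : (H.induce T).Adj ⟨_, hu'⟩ ⟨_, hv'⟩ := by simpa using a1
        have b2 : (H.induce T).Adj ⟨_, hu'⟩ ⟨_, hi'⟩ := by simpa using a2
        have b3 : (H.induce T).Adj ⟨_, hv'⟩ ⟨_, hi'⟩ := by simpa using a3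
        exact cycle_triFree hn _ _ _ (e.map_adj_iff.mpr b1) (e.map_adj_iff.mpr b3)
          (e.map_adj_iff.mpr b2)
      simp only [hz]
      simp
    · have : (m.testBit u && m.testBit v && (row.getD u 0).testBit v) = false := by
        rw [Bool.eq_false_iff]
        intro hh
        simp only [Bool.and_eq_true] at hh
        exact hc1 ⟨hh.1.1, hh.1.2, hh.2⟩
      rw [this]
      simp
  simp only [chk, hreg, htri, hfive, htwo] at hchk
  simpa using hchk

theorem chkG : allBelow 64 (fun a => allBelow 128 (fun b => chk rowG (128 * a + b))) = true := by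
  decide +kernel

theorem chkH : allBelow 64 (fun a => allBelow 128 (fun b => chk rowH (128 * a + b))) = true := by
  decide +kernel

theorem disk_uniqueG (T : Set (Fin 13)) (n : ℕ) (hn : 5 ≤ n)
    (e : Gr.induce T ≃g SimpleGraph.cycleGraph n)
    (hT : 2 ≤ (({0, 1, 2, 3, 4} : Set (Fin 13)) ∩ T).ncard) :
    T = {0, 1, 2, 3, 4} :=
  disk_unique Gr rowG (fun _ _ => Iff.rfl) chkG T n hn e hT

theorem disk_uniqueH (T : Set (Fin 13)) (n : ℕ) (hn : 5 ≤ n)
    (e : Grᶜ.induce T ≃g SimpleGraph.cycleGraph n)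
    (hT : 2 ≤ (({0, 1, 2, 3, 4} : Set (Fin 13)) ∩ T).ncard) :
    T = {0, 1, 2, 3, 4} :=
  disk_unique Grᶜ rowH compl_adj chkH T n hn e hT

/-! ### Two explicit disks -/

/-- An injective map from the 5-cycle with the right adjacencies gives a disk. -/
theorem isDisk (f : Fin 5 → Fin 13) (T : Set (Fin 13)) (hf : Function.Injective f)
    (hT : Set.range f = T)
    (hadj : ∀ i j, Gr.Adj (f i) (f j) ↔ (SimpleGraph.cycleGraph 5).Adj i j) :
    ∃ n : ℕ, 5 ≤ n ∧ (Nonempty (Gr.induce T ≃g SimpleGraph.cycleGraph n) ∨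
            Nonempty (Grᶜ.induce T ≃g SimpleGraph.cycleGraph n)) := by
  subst hT
  refine ⟨5, le_rfl, Or.inl ⟨?_⟩⟩
  refine RelIso.symm ⟨Equiv.ofInjective f hf, ?_⟩
  intro a b
  simp [hadj]

def f1 : Fin 5 → Fin 13 := ![0, 1, 2, 3, 4]
def f2 : Fin 5 → Fin 13 := ![0, 8, 5, 11, 10]

theorem disk1 : ∃ n : ℕ, 5 ≤ n ∧
    (Nonempty (Gr.induce ({0, 1, 2, 3, 4} : Set (Fin 13)) ≃g SimpleGraph.cycleGraph n) ∨
      Nonempty (Grᶜ.induce ({0, 1, 2, 3, 4} : Set (Fin 13)) ≃g SimpleGraph.cycleGraph n)) := by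
  apply isDisk f1
  · decide +kernel
  · ext i
    simp only [Set.mem_range, Set.mem_insert_iff, Set.mem_singleton_iff]
    revert i
    decide +kernel
  · simp only [gr_adj, SimpleGraph.cycleGraph_adj']
    decide +kernel

theorem disk2 : ∃ n : ℕ, 5 ≤ n ∧
    (Nonempty (Gr.induce ({0, 5, 8, 10, 11} : Set (Fin 13)) ≃g SimpleGraph.cycleGraph n) ∨
      Nonempty (Grᶜ.induce ({0, 5, 8, 10, 11} : Set (Fin 13)) ≃g
        SimpleGraph.cycleGraph n)) := by
  apply isDisk f2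
  · decide +kernel
  · ext i
    simp only [Set.mem_range, Set.mem_insert_iff, Set.mem_singleton_iff]
    revert i
    decide +kernel
  · simp only [gr_adj, SimpleGraph.cycleGraph_adj']
    decide +kernel

/-- The negation of the preceding statement: For every finite graph G with no star cutset in G or its complement, any two holes or antiholes (induced cycles of length at least 5 in G or its complement) are linked by a chain of such sets, consecutive ones sharing at least 2 vertices. -/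
theorem result :
    ¬ (∀ (V : Type) [Fintype V] [DecidableEq V] (G : SimpleGraph V),
      (¬ ∃ C : Set V, ∃ x ∈ C, (∀ y ∈ C, y ≠ x → G.Adj x y) ∧
          ¬ (G.induce Cᶜ).Preconnected) →
      (¬ ∃ C : Set V, ∃ x ∈ C, (∀ y ∈ C, y ≠ x → Gᶜ.Adj x y) ∧
          ¬ (Gᶜ.induce Cᶜ).Preconnected) →
      ∀ D₁ D₂ : Set V,
        (∃ n : ℕ, 5 ≤ n ∧ (Nonempty (G.induce D₁ ≃g SimpleGraph.cycleGraph n) ∨
            Nonempty (Gᶜ.induce D₁ ≃g SimpleGraph.cycleGraph n))) →
        (∃ n : ℕ, 5 ≤ n ∧ (Nonempty (G.induce D₂ ≃g SimpleGraph.cycleGraph n) ∨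
            Nonempty (Gᶜ.induce D₂ ≃g SimpleGraph.cycleGraph n))) →
        Relation.ReflTransGen
          (fun S T : Set V =>
            (∃ n : ℕ, 5 ≤ n ∧ (Nonempty (G.induce S ≃g SimpleGraph.cycleGraph n) ∨
                Nonempty (Gᶜ.induce S ≃g SimpleGraph.cycleGraph n))) ∧
            (∃ n : ℕ, 5 ≤ n ∧ (Nonempty (G.induce T ≃g SimpleGraph.cycleGraph n) ∨
                Nonempty (Gᶜ.induce T ≃g SimpleGraph.cycleGraph n))) ∧
            2 ≤ (S ∩ T).ncard)
          D₁ D₂) := by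
  intro h
  have h1 := h (Fin 13) Gr noStarG noStarH {0, 1, 2, 3, 4} {0, 5, 8, 10, 11} disk1 disk2
  have key : ∀ T : Set (Fin 13), Relation.ReflTransGen
          (fun S T : Set (Fin 13) =>
            (∃ n : ℕ, 5 ≤ n ∧ (Nonempty (Gr.induce S ≃g SimpleGraph.cycleGraph n) ∨
                Nonempty (Grᶜ.induce S ≃g SimpleGraph.cycleGraph n))) ∧
            (∃ n : ℕ, 5 ≤ n ∧ (Nonempty (Gr.induce T ≃g SimpleGraph.cycleGraph n) ∨
                Nonempty (Grᶜ.induce T ≃g SimpleGraph.cycleGraph n))) ∧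
            2 ≤ (S ∩ T).ncard)
          {0, 1, 2, 3, 4} T → T = {0, 1, 2, 3, 4} := by
    intro T hT
    induction hT with
    | refl => rfl
    | tail _ hbc ih =>
      obtain ⟨_, ⟨n, hn, hd⟩, h2⟩ := hbc
      rw [ih] at h2
      rcases hd with ⟨⟨e⟩⟩ | ⟨⟨e⟩⟩
      · exact disk_uniqueG _ n hn e h2
      · exact disk_uniqueH _ n hn e h2
  have h2 := key _ h1
  have h3 : (5 : Fin 13) ∈ ({0, 1, 2, 3, 4} : Set (Fin 13)) := by
    rw [← h2]
    simp
  simp only [Set.mem_insert_iff, Set.mem_singleton_iff] at h3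
  revert h3
  decide

end Pool.Agent.S09856
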