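import Pool.Statements.S10681
import Pool.Agent.H41.CFMain

set_option autoImplicit false
open Pool Pool.MP_aa2cc0_co

namespace Pool.Agent.S10681

open Pool.Agent.H41.CF

/-- the shear making second coordinates distinct -/
def shear (ε : ℝ) (z : ℝ × ℝ) : ℝ × ℝ := (z.1, z.2 + ε * z.1)

lemma shear_inv (ε : ℝ) (z : ℝ × ℝ) : shear (-ε) (shear ε z) = z := by
  unfold shear; ext <;> simp

lemma shear_inj (ε : ℝ) : Function.Injective (shear ε) :=
  Function.LeftInverse.injective (shear_inv ε)

lemma det3_shear (ε : ℝ) (p q r : ℝ × ℝ) : det3 (shear ε p) (shear ε q) (shear ε r) = det3 p q r := by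
  unfold det3 shear; ring

lemma shear_segment (ε : ℝ) {p q z : ℝ × ℝ} (h : z ∈ segment ℝ p q) :
    shear ε z ∈ segment ℝ (shear ε p) (shear ε q) := by
  rw [segment_eq_image'] at h ⊢
  obtain ⟨θ, hθ, rfl⟩ := h
  refine ⟨θ, hθ, ?_⟩
  unfold shear
  ext
  · simp
  · simp only [Prod.snd_add, Prod.smul_snd, Prod.snd_sub, Prod.fst_add, Prod.smul_fst, Prod.fst_sub,
      smul_eq_mul]
    ring

lemma det3_ne_zero {x y z : ℝ × ℝ} (hxy : x ≠ y)
    (h : ¬ Collinear ℝ ({x, y, z} : Set (ℝ × ℝ))) : det3 x y z ≠ 0 := by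
  intro hd
  apply h
  rw [collinear_iff_of_mem (p₀ := x) (by simp)]
  refine ⟨y - x, ?_⟩
  intro p hp
  simp only [Set.mem_insert_iff, Set.mem_singleton_iff] at hp
  rcases hp with rfl | rfl | rfl
  · exact ⟨0, by simp⟩
  · exact ⟨1, by simp⟩
  · unfold det3 at hd
    by_cases h1 : y.1 - x.1 = 0
    · have h2 : y.2 - x.2 ≠ 0 := by
        intro h2
        apply hxy
        ext
        · linarith
        · linarith
      refine ⟨(p.2 - x.2) / (y.2 - x.2), ?_⟩
      ext
      · simp only [vadd_eq_add, Prod.fst_add, Prod.smul_fst, Prod.fst_sub, smul_eq_mul]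
        rw [h1] at hd ⊢
        have : (y.2 - x.2) * (p.1 - x.1) = 0 := by linarith
        rcases mul_eq_zero.mp this with h3 | h3
        · exact absurd h3 h2
        · linarith
      · simp only [vadd_eq_add, Prod.snd_add, Prod.smul_snd, Prod.snd_sub, smul_eq_mul]
        field_simp
        ring
    · refine ⟨(p.1 - x.1) / (y.1 - x.1), ?_⟩
      ext
      · simp only [vadd_eq_add, Prod.fst_add, Prod.smul_fst, Prod.fst_sub, smul_eq_mul]
        field_simp
        ring
      · simp only [vadd_eq_add, Prod.snd_add, Prod.smul_snd, Prod.snd_sub, smul_eq_mul]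
        field_simp
        linarith

open Classical in
/-- a good shear -/
lemma exists_shear (P : Finset (ℝ × ℝ)) : ∃ ε : ℝ, ∀ x ∈ P, ∀ y ∈ P,
    x.2 + ε * x.1 = y.2 + ε * y.1 → x = y := by
  obtain ⟨ε, hε⟩ := Infinite.exists_notMem_finset
    ((P ×ˢ P).image (fun q : (ℝ × ℝ) × (ℝ × ℝ) => (q.2.2 - q.1.2) / (q.1.1 - q.2.1)))
  refine ⟨ε, ?_⟩
  intro x hx y hy h
  by_contra hne
  have h1 : x.1 - y.1 ≠ 0 := by
    intro h1
    apply hne
    have h2 : x.1 = y.1 := by linarith
    ext
    · exact h2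
    · rw [h2] at h
      linarith
  apply hε
  rw [Finset.mem_image]
  refine ⟨(x, y), Finset.mem_product.mpr ⟨hx, hy⟩, ?_⟩
  show (y.2 - x.2) / (x.1 - y.1) = ε
  rw [div_eq_iff h1]
  linarith

/-- There is κ>0 such that every planar set of n≥3 points with no three collinear has at least κn pairwise vertex-disjoint 2-paths on its points, each two of which have intersecting edges. -/
theorem result :
    ∃ κ : ℝ, 0 < κ ∧ ∀ P : Finset (ℝ × ℝ), 3 ≤ P.card →
      (∀ x ∈ P, ∀ y ∈ P, ∀ z ∈ P, x ≠ y → x ≠ z → y ≠ z →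
        ¬ Collinear ℝ ({x, y, z} : Set (ℝ × ℝ))) →
      ∃ m : ℕ, κ * (P.card : ℝ) ≤ (m : ℝ) ∧
        ∃ a b c : Fin m → ℝ × ℝ,
          (∀ i, a i ∈ P ∧ b i ∈ P ∧ c i ∈ P ∧ a i ≠ b i ∧ a i ≠ c i ∧ b i ≠ c i) ∧
          (∀ i j, i ≠ j →
            Disjoint ({a i, b i, c i} : Set (ℝ × ℝ)) ({a j, b j, c j} : Set (ℝ × ℝ))) ∧
          (∀ i j, i ≠ j →
            ((segment ℝ (a i) (b i) ∪ segment ℝ (b i) (c i)) ∩
              (segment ℝ (a j) (b j) ∪ segment ℝ (b j) (c j))).Nonempty) := by
  have hKpos : (0 : ℝ) < 1 / (1200 * 16 ^ 15) := by positivity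
  refine ⟨1 / (1200 * 16 ^ 15), hKpos, ?_⟩
  intro P hP hcol
  classical
  by_cases hn : P.card < 100
  · -- a single path
    obtain ⟨x, y, z, hx, hy, hz, hxy, hxz, hyz⟩ := Finset.two_lt_card_iff.mp (by omega : 2 < P.card)
    refine ⟨1, ?_, fun _ => x, fun _ => y, fun _ => z, fun _ => ⟨hx, hy, hz, hxy, hxz, hyz⟩, ?_, ?_⟩
    · have h1 : (P.card : ℝ) ≤ 100 := by exact_mod_cast hn.le
      rw [div_mul_eq_mul_div, one_mul, div_le_iff₀ (by positivity)]
      refine h1.trans ?_
      norm_num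
    · intro i j hij
      exact absurd (Subsingleton.elim i j) hij
    · intro i j hij
      exact absurd (Subsingleton.elim i j) hij
  · push Not at hn
    obtain ⟨ε, hε⟩ := exists_shear P
    have hcard : (P.image (shear ε)).card = P.card :=
      Finset.card_image_of_injective P (shear_inj ε)
    have hgp : GP (P.image (shear ε)) := by
      intro i hi j hj k hk hij hik hjk
      rw [Finset.mem_image] at hi hj hk
      obtain ⟨i, hi, rfl⟩ := hi
      obtain ⟨j, hj, rfl⟩ := hj
      obtain ⟨k, hk, rfl⟩ := hk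
      rw [det3_shear]
      have h1 : i ≠ j := fun h => hij (by rw [h])
      have h2 : i ≠ k := fun h => hik (by rw [h])
      have h3 : j ≠ k := fun h => hjk (by rw [h])
      exact det3_ne_zero h1 (hcol i hi j hj k hk h1 h2 h3)
    have hy : ∀ x ∈ P.image (shear ε), ∀ y ∈ P.image (shear ε), x.2 = y.2 → x = y := by
      intro x hx y hy h
      rw [Finset.mem_image] at hx hy
      obtain ⟨x, hx, rfl⟩ := hx
      obtain ⟨y, hy, rfl⟩ := hy
      rw [hε x hx y hy h]
    obtain ⟨m, hm, A, B, C, hA, hB, hC, hAB, hBC, ⟨F⟩⟩ := select hgp hy (by rw [hcard]; exact hn)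
    rw [hcard] at hm
    have hmem : ∀ z ∈ P.image (shear ε), shear (-ε) z ∈ P := by
      intro z hz
      rw [Finset.mem_image] at hz
      obtain ⟨w, hw, rfl⟩ := hz
      rw [shear_inv]
      exact hw
    have hinj := shear_inj (-ε)
    have nab : ∀ i j, F.a i ≠ F.b j := fun i j h => by
      have := hAB _ (F.ha i) _ (F.hb j)
      rw [h] at this
      exact lt_irrefl _ this
    have nbc : ∀ i j, F.b i ≠ F.c j := fun i j h => by
      have := hBC _ (F.hb i) _ (F.hc j)
      rw [h] at this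
      exact lt_irrefl _ this
    have nac : ∀ i j, F.a i ≠ F.c j := fun i j h => by
      have h1 := hAB _ (F.ha i) _ (F.hb j)
      have h2 := hBC _ (F.hb j) _ (F.hc j)
      rw [h] at h1
      exact lt_irrefl _ (h1.trans h2)
    refine ⟨m, ?_, fun i => shear (-ε) (F.a i), fun i => shear (-ε) (F.b i),
      fun i => shear (-ε) (F.c i), ?_, ?_, ?_⟩
    · have h1 : (P.card : ℝ) ≤ 1200 * 16 ^ 15 * m := by exact_mod_cast hm
      rw [div_mul_eq_mul_div, one_mul, div_le_iff₀ (by positivity)]
      linarith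
    · intro i
      refine ⟨hmem _ (hA (F.ha i)), hmem _ (hB (F.hb i)), hmem _ (hC (F.hc i)), ?_, ?_, ?_⟩
      · exact fun h => nab i i (hinj h)
      · exact fun h => nac i i (hinj h)
      · exact fun h => nbc i i (hinj h)
    · intro i j hij
      rw [Set.disjoint_left]
      intro z hz hz'
      simp only [Set.mem_insert_iff, Set.mem_singleton_iff] at hz hz'
      rcases hz with rfl | rfl | rfl <;> rcases hz' with h | h | h
      · exact hij (F.ia (hinj h))
      · exact nab i j (hinj h)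
      · exact nac i j (hinj h)
      · exact nab j i (hinj h).symm
      · exact hij (F.ib (hinj h))
      · exact nbc i j (hinj h)
      · exact nac j i (hinj h).symm
      · exact nbc j i (hinj h).symm
      · exact hij (F.ic (hinj h))
    · intro i j hij
      rcases F.cr i j hij with ⟨z, h1, h2⟩ | ⟨z, h1, h2⟩
      · exact ⟨shear (-ε) z, Or.inl (shear_segment _ h1), Or.inl (shear_segment _ h2)⟩
      · refine ⟨shear (-ε) z, Or.inr (shear_segment _ ?_), Or.inr (shear_segment _ ?_)⟩
        · rw [segment_symm]; exact h1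
        · rw [segment_symm]; exact h2

end Pool.Agent.S10681
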