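import Pool.Statements.S10760

set_option autoImplicit false
open Pool Pool.MP_ace675_co

/-!
Idea. Let `H` be a triangle-free graph that is not 4-colourable, with as few vertices as possible
(so `H` is connected and every vertex has at least two neighbours), and let `K` be `H` together
with one disjoint edge. We show that a graph which is Ramsey for `H` is Ramsey for `K`
(`ram_addEdge`): if a colouring of `G` has no one-coloured `K`, every edge of colour `b` meets
every copy of `H` of colour `b`; split the vertices of `G` into four classes (two vertices, the rest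
of one copy, the rest of another copy, everything else), give colour true to the edges
inside the classes and colour false to the edges between classes; then there is no one-coloured
copy of `H`. So a minimal Ramsey graph `G` for `K` has no vertex of degree 1: deleting a pendant
edge keeps `G` Ramsey for `H`, hence for `K`. As the minimum degree of `K` is 1, `K` is not
2-Ramsey simple.
-/

namespace Pool.Agent.S10760

/-- A copy of `H` in `G` all of whose edges get colour `b`. -/
def IsCopy {α β : Type} (H : SimpleGraph α) (G : SimpleGraph β) (c : β → β → Bool) (b : Bool)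
    (f : α → β) : Prop :=
  Function.Injective f ∧ ∀ u v : α, H.Adj u v → G.Adj (f u) (f v) ∧ c (f u) (f v) = b

/-- Every symmetric two-colouring has a one-coloured copy. -/
def Ram {α β : Type} (H : SimpleGraph α) (G : SimpleGraph β) : Prop :=
  ∀ c : β → β → Bool, (∀ x y : β, c x y = c y x) → ∃ b : Bool, ∃ f : α → β, IsCopy H G c b f

/-! ### A triangle-free graph which is not 4-colourable -/

/-- The shift graph on pairs from `Fin 17`. -/
def shift : SimpleGraph (Fin 17 × Fin 17) where
  Adj p q := p.1 < p.2 ∧ q.1 < q.2 ∧ (p.2 = q.1 ∨ q.2 = p.1)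
  symm := ⟨by
    rintro p q ⟨h1, h2, h3⟩
    exact ⟨h2, h1, h3.symm⟩⟩
  loopless := ⟨by
    rintro p ⟨h1, h2, h3⟩
    rcases h3 with h3 | h3
    · exact absurd h1 (by rw [h3]; exact lt_irrefl _)
    · exact absurd h1 (by rw [h3]; exact lt_irrefl _)⟩

theorem shift_cliqueFree : shift.CliqueFree 3 := by
  intro s hs
  rw [SimpleGraph.is3Clique_iff] at hs
  obtain ⟨a, b, c, hab, hac, hbc, -⟩ := hs
  obtain ⟨h1, h2, h3⟩ := hab
  obtain ⟨-, h4, h5⟩ := hac
  obtain ⟨-, -, h6⟩ := hbc
  simp only [Fin.lt_def, Fin.ext_iff] at *
  omega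

theorem shift_not_colorable : ¬ shift.Colorable 4 := by
  rintro ⟨C⟩
  let S : Fin 17 → Finset (Fin 4) := fun i =>
    (Finset.univ.filter (fun j : Fin 17 => i < j)).image (fun j => C (i, j))
  have hinj : Function.Injective S := by
    intro i j hij
    by_contra hne
    have key : ∀ i j : Fin 17, i < j → S i ≠ S j := by
      intro i j hlt h
      have hmem : C (i, j) ∈ S i := by
        simp only [S, Finset.mem_image, Finset.mem_filter, Finset.mem_univ, true_and]
        exact ⟨j, hlt, rfl⟩
      rw [h] at hmem
      simp only [S, Finset.mem_image, Finset.mem_filter, Finset.mem_univ, true_and] at hmem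
      obtain ⟨k, hk, hk2⟩ := hmem
      have hadj : shift.Adj (i, j) (j, k) := ⟨hlt, hk, Or.inl rfl⟩
      exact C.valid hadj hk2.symm
    rcases lt_or_gt_of_ne hne with h | h
    · exact key i j h hij
    · exact key j i h hij.symm
  have hcard := Fintype.card_le_of_injective S hinj
  simp at hcard

/-- There is a finite triangle-free graph that is not 4-colourable. -/
theorem exists_graph : ∃ n : ℕ, ∃ G : SimpleGraph (Fin n), G.CliqueFree 3 ∧ ¬ G.Colorable 4 := by
  let e : Fin 17 × Fin 17 ≃ Fin (17 * 17) := finProdFinEquiv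
  refine ⟨17 * 17, shift.map e.toEmbedding, ?_, ?_⟩
  · have i := (SimpleGraph.Iso.map e shift).symm
    exact shift_cliqueFree.comap ⟨i.toCopy⟩
  · intro h
    exact shift_not_colorable (h.of_hom (SimpleGraph.Iso.map e shift).toHom)

/-- A smallest one: every induced subgraph on a proper vertex subset is 4-colourable. -/
theorem exists_min : ∃ n : ℕ, ∃ G : SimpleGraph (Fin n), G.CliqueFree 3 ∧ ¬ G.Colorable 4 ∧
    ∀ s : Set (Fin n), s ≠ Set.univ → (G.induce s).Colorable 4 := by
  classical
  have hex := exists_graph
  let P : ℕ → Prop := fun n => ∃ G : SimpleGraph (Fin n), G.CliqueFree 3 ∧ ¬ G.Colorable 4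
  have hP : ∃ n, P n := hex
  obtain ⟨G, hG, hG4⟩ := Nat.find_spec hP
  refine ⟨Nat.find hP, G, hG, hG4, ?_⟩
  intro s hs
  by_contra hcon
  have hlt : Fintype.card s < Nat.find hP := by
    have h1 : Fintype.card s < Fintype.card (Fin (Nat.find hP)) := by
      obtain ⟨x, hx⟩ := (Set.ne_univ_iff_exists_notMem s).1 hs
      exact Fintype.card_subtype_lt hx
    simpa using h1
  apply Nat.find_min hP hlt
  let e : s ≃ Fin (Fintype.card s) := Fintype.equivFin s
  refine ⟨(G.induce s).map e.toEmbedding, ?_, ?_⟩
  · have i := (SimpleGraph.Iso.map e (G.induce s)).symm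
    exact (hG.comap ⟨(SimpleGraph.Embedding.induce s).toCopy⟩).comap ⟨i.toCopy⟩
  · intro h
    exact hcon (h.of_hom (SimpleGraph.Iso.map e (G.induce s)).toHom)

/-- In a smallest such graph a function constant along edges is constant. -/
theorem const_of_min {n : ℕ} {G : SimpleGraph (Fin n)} (hG4 : ¬ G.Colorable 4)
    (hmin : ∀ s : Set (Fin n), s ≠ Set.univ → (G.induce s).Colorable 4)
    {γ : Type} (p : Fin n → γ) (hp : ∀ u v, G.Adj u v → p u = p v) (a b : Fin n) : p a = p b := by
  classical
  by_contra hne
  let s : Set (Fin n) := {x | p x = p a}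
  have hs : s ≠ Set.univ := by
    intro h
    have : b ∈ s := by rw [h]; trivial
    exact hne this.symm
  have hs' : sᶜ ≠ Set.univ := by
    intro h
    have : a ∈ sᶜ := by rw [h]; trivial
    exact this rfl
  obtain ⟨C1⟩ := hmin s hs
  obtain ⟨C2⟩ := hmin sᶜ hs'
  apply hG4
  refine ⟨SimpleGraph.Coloring.mk (fun x => if hx : x ∈ s then C1 ⟨x, hx⟩ else C2 ⟨x, hx⟩) ?_⟩
  intro u v huv
  have hpuv := hp u v huv
  by_cases hu : u ∈ s
  · have hv : v ∈ s := by
      have : p u = p a := hu
      show p v = p a
      rw [← hpuv, this]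
    simp only [hu, hv, dif_pos]
    exact C1.valid (by simpa using huv)
  · have hv : v ∉ s := by
      intro hv
      have : p v = p a := hv
      exact hu (show p u = p a by rw [hpuv, this])
    simp only [hu, hv, dif_neg, not_false_eq_true]
    exact C2.valid (by simpa using huv)

/-- In a smallest such graph every vertex has two different neighbours. -/
theorem two_nbrs {n : ℕ} {G : SimpleGraph (Fin n)} (hG4 : ¬ G.Colorable 4)
    (hmin : ∀ s : Set (Fin n), s ≠ Set.univ → (G.induce s).Colorable 4) (x : Fin n) :
    ∃ y z, y ≠ z ∧ G.Adj x y ∧ G.Adj x z := by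
  classical
  by_contra hcon
  push Not at hcon
  have hs : ({x}ᶜ : Set (Fin n)) ≠ Set.univ := by
    intro h
    have : x ∈ ({x}ᶜ : Set (Fin n)) := by rw [h]; trivial
    exact this rfl
  obtain ⟨C⟩ := hmin _ hs
  have hcol : ∃ k : Fin 4, ∀ y (hy : y ∈ ({x}ᶜ : Set (Fin n))), G.Adj x y → C ⟨y, hy⟩ ≠ k := by
    by_cases hy : ∃ y, G.Adj x y
    · obtain ⟨y, hy⟩ := hy
      have hyx : y ∈ ({x}ᶜ : Set (Fin n)) := fun h => G.ne_of_adj hy (by simpa using h.symm)
      refine ⟨C ⟨y, hyx⟩ + 1, ?_⟩
      intro z hz hxz
      have : y = z := by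
        by_contra hne
        exact hcon y z hne hy hxz
      subst this
      intro h
      have : ∀ k : Fin 4, k ≠ k + 1 := by decide
      exact this _ h
    · refine ⟨0, fun y _ hxy => absurd ⟨y, hxy⟩ hy⟩
  obtain ⟨k, hk⟩ := hcol
  apply hG4
  refine ⟨SimpleGraph.Coloring.mk
    (fun y => if hy : y ∈ ({x}ᶜ : Set (Fin n)) then C ⟨y, hy⟩ else k) ?_⟩
  intro u v huv
  by_cases hu : u ∈ ({x}ᶜ : Set (Fin n))
  · by_cases hv : v ∈ ({x}ᶜ : Set (Fin n))
    · simp only [hu, hv, dif_pos]
      exact C.valid (by simpa using huv)
    · have hvx : v = x := by simpa using hv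
      subst hvx
      simp only [hu, hv, dif_pos, dif_neg, not_false_eq_true]
      exact hk u hu huv.symm
  · have hux : u = x := by simpa using hu
    subst hux
    have hv : v ∈ ({u}ᶜ : Set (Fin n)) := fun h => G.ne_of_adj huv (by simpa using h.symm)
    simp only [hu, hv, dif_pos, dif_neg, not_false_eq_true]
    exact (hk v hv huv).symm

/-! ### Adding a disjoint edge -/

/-- `H` together with a disjoint edge on the two new vertices. -/
def addEdge {h : ℕ} (H : SimpleGraph (Fin h)) : SimpleGraph (Fin (h + 2)) where
  Adj u v := (∃ (hu : u.val < h) (hv : v.val < h), H.Adj ⟨u.val, hu⟩ ⟨v.val, hv⟩) ∨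
    (u.val = h ∧ v.val = h + 1) ∨ (u.val = h + 1 ∧ v.val = h)
  symm := ⟨by
    rintro u v (⟨hu, hv, h1⟩ | ⟨h1, h2⟩ | ⟨h1, h2⟩)
    · exact Or.inl ⟨hv, hu, h1.symm⟩
    · exact Or.inr (Or.inr ⟨h2, h1⟩)
    · exact Or.inr (Or.inl ⟨h2, h1⟩)⟩
  loopless := ⟨by
    rintro u (⟨hu, hv, h1⟩ | ⟨h1, h2⟩ | ⟨h1, h2⟩)
    · exact H.loopless.irrefl _ h1
    · omega
    · omega⟩

/-- Adding a disjoint edge to a smallest triangle-free non-4-colourable graph does not change
which graphs are Ramsey for it. -/
theorem ram_addEdge {h : ℕ} {H : SimpleGraph (Fin h)} (hH4 : ¬ H.Colorable 4)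
    (hmin : ∀ s : Set (Fin h), s ≠ Set.univ → (H.induce s).Colorable 4)
    {β : Type} [DecidableEq β] (G : SimpleGraph β) (hG : Ram H G) : Ram (addEdge H) G := by
  classical
  have hpos : 4 < h := by
    by_contra hle
    push Not at hle
    apply hH4
    exact (SimpleGraph.colorable_of_fintype H).mono (by simpa using hle)
  have hedge : ∃ u v, H.Adj u v := by
    obtain ⟨y, z, -, hy, -⟩ := two_nbrs hH4 hmin ⟨0, by omega⟩
    exact ⟨_, _, hy⟩
  by_contra hcon
  unfold Ram at hcon
  push Not at hcon
  obtain ⟨c, hc, hno⟩ := hcon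
  obtain ⟨b, f, hf⟩ := hG c hc
  -- edges of colour `b'` meet every copy of colour `b'`
  have hmeet : ∀ (b' : Bool) (g : Fin h → β), IsCopy H G c b' g → ∀ x y, G.Adj x y →
      c x y = b' → x ∈ Finset.univ.image g ∨ y ∈ Finset.univ.image g := by
    intro b' g hg x y hxy hcxy
    by_contra hout
    push Not at hout
    obtain ⟨hx, hy⟩ := hout
    simp only [Finset.mem_image, Finset.mem_univ, true_and, not_exists] at hx hy
    apply hno b' (fun u => if hu : u.val < h then g ⟨u.val, hu⟩ else if u.val = h then x else y)
    have hne : x ≠ y := G.ne_of_adj hxy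
    refine ⟨?_, ?_⟩
    · intro u v huv
      by_cases hu : u.val < h
      · by_cases hv : v.val < h
        · simp only [hu, hv, dif_pos] at huv
          have := hg.1 huv
          simpa [Fin.ext_iff] using this
        · simp only [hu, hv, dif_pos, dif_neg, not_false_eq_true] at huv
          split_ifs at huv
          · exact absurd huv (hx _)
          · exact absurd huv (hy _)
      · by_cases hv : v.val < h
        · simp only [hu, hv, dif_pos, dif_neg, not_false_eq_true] at huv
          split_ifs at huv
          · exact absurd huv.symm (hx _)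
          · exact absurd huv.symm (hy _)
        · simp only [hu, hv, dif_neg, not_false_eq_true] at huv
          have hu2 := u.isLt
          have hv2 := v.isLt
          split_ifs at huv with h1 h2 h3
          · exact Fin.ext (by omega)
          · exact absurd huv hne
          · exact absurd huv.symm hne
          · exact Fin.ext (by omega)
    · rintro u v (⟨hu, hv, h1⟩ | ⟨h1, h2⟩ | ⟨h1, h2⟩)
      · simp only [hu, hv, dif_pos]
        exact hg.2 _ _ h1
      · have hu : ¬ u.val < h := by omega
        have hv : ¬ v.val < h := by omega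
        have hv' : ¬ v.val = h := by omega
        beta_reduce
        rw [dif_neg hu, dif_neg hv, if_pos h1, if_neg hv']
        exact ⟨hxy, hcxy⟩
      · have hu : ¬ u.val < h := by omega
        have hv : ¬ v.val < h := by omega
        have hu' : ¬ u.val = h := by omega
        beta_reduce
        rw [dif_neg hu, dif_neg hv, if_neg hu', if_pos h2]
        exact ⟨hxy.symm, by rw [hc]; exact hcxy⟩
  -- the two blocking sets
  let z0 : Fin h := ⟨0, by omega⟩
  obtain ⟨g, hg⟩ : ∃ g : Fin h → β, Function.Injective g ∧
      ((∃ g' : Fin h → β, IsCopy H G c (!b) g') → IsCopy H G c (!b) g) := by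
    by_cases hex : ∃ g' : Fin h → β, IsCopy H G c (!b) g'
    · obtain ⟨g', hg'⟩ := hex
      exact ⟨g', hg'.1, fun _ => hg'⟩
    · exact ⟨f, hf.1, fun h => absurd h hex⟩
  let S : Finset β := Finset.univ.image f
  let T : Finset β := Finset.univ.image g
  let p : β → Fin 4 := fun x => if x = f z0 ∨ x = g z0 then 0 else if x ∈ S then 1 else
    if x ∈ T then 2 else 3
  -- the new colouring
  obtain ⟨b', f', hf'⟩ := hG (fun x y => decide (p x = p y)) (by
    intro x y
    simp [eq_comm])
  cases b' with
  | false =>
    apply hH4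
    refine ⟨SimpleGraph.Coloring.mk (fun u => p (f' u)) ?_⟩
    intro u v huv
    have := (hf'.2 u v huv).2
    simpa using this
  | true =>
    have hconst : ∀ u v, p (f' u) = p (f' v) := by
      apply const_of_min hH4 hmin (fun u => p (f' u))
      intro u v huv
      have := (hf'.2 u v huv).2
      simpa using this
    have hall : ∀ u, p (f' u) = p (f' z0) := fun u => hconst u z0
    have hcardf' : (Finset.univ.image f').card = h := by
      rw [Finset.card_image_of_injective _ hf'.1]; simp
    have hcardS : (S.erase (f z0)).card = h - 1 := by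
      rw [Finset.card_erase_of_mem (Finset.mem_image_of_mem _ (Finset.mem_univ _))]
      rw [Finset.card_image_of_injective _ hf.1]; simp
    have hcardT : (T.erase (g z0)).card = h - 1 := by
      rw [Finset.card_erase_of_mem (Finset.mem_image_of_mem _ (Finset.mem_univ _))]
      rw [Finset.card_image_of_injective _ hg.1]; simp
    by_cases h0 : f' z0 = f z0 ∨ f' z0 = g z0
    · -- class 0
      have hp0 : p (f' z0) = 0 := by simp only [p, h0, if_true]
      have hsub : Finset.univ.image f' ⊆ {f z0, g z0} := by
        intro x hx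
        simp only [Finset.mem_image, Finset.mem_univ, true_and] at hx
        obtain ⟨u, rfl⟩ := hx
        have hpu : p (f' u) = 0 := by rw [hall, hp0]
        by_contra hout
        simp only [Finset.mem_insert, Finset.mem_singleton] at hout
        simp only [p, hout, if_false] at hpu
        split_ifs at hpu <;> exact absurd hpu (by decide)
      have := Finset.card_le_card hsub
      have h2 : ({f z0, g z0} : Finset β).card ≤ 2 := Finset.card_le_two
      omega
    · by_cases h1 : f' z0 ∈ S
      · have hp0 : p (f' z0) = 1 := by simp only [p, h0, h1, if_true, if_false]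
        have hsub : Finset.univ.image f' ⊆ S.erase (f z0) := by
          intro x hx
          simp only [Finset.mem_image, Finset.mem_univ, true_and] at hx
          obtain ⟨u, rfl⟩ := hx
          have hpu : p (f' u) = 1 := by rw [hall, hp0]
          rw [Finset.mem_erase]
          by_contra hout
          have hout : f' u = f z0 ∨ f' u ∉ S := by
            by_contra h'
            push Not at h'
            exact hout ⟨h'.1, h'.2⟩
          rcases hout with hout | hout
          · simp only [p, hout, true_or, if_true] at hpu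
            exact absurd hpu (by decide)
          · simp only [p, hout, if_false] at hpu
            split_ifs at hpu <;> exact absurd hpu (by decide)
        have := Finset.card_le_card hsub
        omega
      · by_cases h2 : f' z0 ∈ T
        · have hp0 : p (f' z0) = 2 := by simp only [p, h0, h1, h2, if_true, if_false]
          have hsub : Finset.univ.image f' ⊆ T.erase (g z0) := by
            intro x hx
            simp only [Finset.mem_image, Finset.mem_univ, true_and] at hx
            obtain ⟨u, rfl⟩ := hx
            have hpu : p (f' u) = 2 := by rw [hall, hp0]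
            rw [Finset.mem_erase]
            by_contra hout
            have hout : f' u = g z0 ∨ f' u ∉ T := by
              by_contra h'
              push Not at h'
              exact hout ⟨h'.1, h'.2⟩
            rcases hout with hout | hout
            · simp only [p, hout, or_true, if_true] at hpu
              exact absurd hpu (by decide)
            · simp only [p, hout, if_false] at hpu
              split_ifs at hpu <;> exact absurd hpu (by decide)
          have := Finset.card_le_card hsub
          omega
        · have hp0 : p (f' z0) = 3 := by simp only [p, h0, h1, h2, if_false]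
          have hout : ∀ u, f' u ∉ S ∧ f' u ∉ T := by
            intro u
            have hpu : p (f' u) = 3 := by rw [hall, hp0]
            constructor
            · intro hmem
              simp only [p, hmem, if_true] at hpu
              split_ifs at hpu <;> exact absurd hpu (by decide)
            · intro hmem
              simp only [p, hmem, if_true] at hpu
              split_ifs at hpu <;> exact absurd hpu (by decide)
          -- all edges of this copy have colour `!b` in the old colouring
          have hcopy : IsCopy H G c (!b) f' := by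
            refine ⟨hf'.1, fun u v huv => ⟨(hf'.2 u v huv).1, ?_⟩⟩
            by_contra hne
            have hb : c (f' u) (f' v) = b := by
              revert hne
              cases c (f' u) (f' v) <;> cases b <;> simp
            rcases hmeet b f hf _ _ (hf'.2 u v huv).1 hb with h' | h'
            · exact (hout u).1 h'
            · exact (hout v).1 h'
          have hgc := hg.2 ⟨f', hcopy⟩
          obtain ⟨u, v, huv⟩ := hedge
          rcases hmeet (!b) g hgc _ _ (hf'.2 u v huv).1 (hcopy.2 u v huv).2 with h' | h'
          · exact (hout u).2 h'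
          · exact (hout v).2 h'

/-- The negation of the preceding statement: For every finite triangle-free graph H with minimum degree d ≥ 1, the least minimum degree among 2-colour Ramsey-minimal graphs for H is exactly 2d−1: some minimal one attains it and none goes below. -/
theorem result :
    ¬ (∀ (n : ℕ) (H : SimpleGraph (Fin n)) (d : ℕ), H.CliqueFree 3 → 1 ≤ d →
      (∀ v : Fin n, d ≤ (H.neighborSet v).ncard) →
      (∃ v : Fin n, (H.neighborSet v).ncard = d) →
      (∃ (m : ℕ) (G : SimpleGraph (Fin m)),
          ((∀ c : Fin m → Fin m → Bool, (∀ x y : Fin m, c x y = c y x) →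
              ∃ b : Bool, ∃ f : Fin n → Fin m, Function.Injective f ∧
                ∀ u v : Fin n, H.Adj u v → G.Adj (f u) (f v) ∧ c (f u) (f v) = b) ∧
           (∀ v : Fin m, ∃ w : Fin m, G.Adj v w) ∧
           (∀ G' : SimpleGraph (Fin m), G' < G →
              ¬ (∀ c : Fin m → Fin m → Bool, (∀ x y : Fin m, c x y = c y x) →
                  ∃ b : Bool, ∃ f : Fin n → Fin m, Function.Injective f ∧
                    ∀ u v : Fin n, H.Adj u v → G'.Adj (f u) (f v) ∧ c (f u) (f v) = b))) ∧
          (∀ v : Fin m, 2 * d - 1 ≤ (G.neighborSet v).ncard) ∧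
          (∃ v : Fin m, (G.neighborSet v).ncard = 2 * d - 1)) ∧
      (∀ (m : ℕ) (G : SimpleGraph (Fin m)),
          ((∀ c : Fin m → Fin m → Bool, (∀ x y : Fin m, c x y = c y x) →
              ∃ b : Bool, ∃ f : Fin n → Fin m, Function.Injective f ∧
                ∀ u v : Fin n, H.Adj u v → G.Adj (f u) (f v) ∧ c (f u) (f v) = b) ∧
           (∀ v : Fin m, ∃ w : Fin m, G.Adj v w) ∧
           (∀ G' : SimpleGraph (Fin m), G' < G →
              ¬ (∀ c : Fin m → Fin m → Bool, (∀ x y : Fin m, c x y = c y x) →
                  ∃ b : Bool, ∃ f : Fin n → Fin m, Function.Injective f ∧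
                    ∀ u v : Fin n, H.Adj u v → G'.Adj (f u) (f v) ∧ c (f u) (f v) = b))) →
          ∀ v : Fin m, 2 * d - 1 ≤ (G.neighborSet v).ncard)) := by
  classical
  intro hall
  obtain ⟨h, H, hH3, hH4, hmin⟩ := exists_min
  have hpos : 4 < h := by
    by_contra hle
    push Not at hle
    apply hH4
    exact (SimpleGraph.colorable_of_fintype H).mono (by simpa using hle)
  let K : SimpleGraph (Fin (h + 2)) := addEdge H
  have hK3 : K.CliqueFree 3 := by
    intro s hs
    rw [SimpleGraph.is3Clique_iff] at hs
    obtain ⟨x, y, z, hxy, hxz, hyz, -⟩ := hs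
    rcases hxy with ⟨hx, hy, h1⟩ | ⟨h1, h2⟩ | ⟨h1, h2⟩
    · rcases hxz with ⟨_, hz, h2⟩ | ⟨h2, h3⟩ | ⟨h2, h3⟩
      · rcases hyz with ⟨_, _, h3⟩ | ⟨h3, h4⟩ | ⟨h3, h4⟩
        · apply hH3 {⟨x.val, hx⟩, ⟨y.val, hy⟩, ⟨z.val, hz⟩}
          rw [SimpleGraph.is3Clique_iff]
          exact ⟨_, _, _, h1, h2, h3, rfl⟩
        · omega
        · omega
      · omega
      · omega
    · rcases hxz with ⟨hx, -, -⟩ | ⟨h3, h4⟩ | ⟨h3, h4⟩
      · omega
      · exact K.ne_of_adj hyz (Fin.ext (by omega))
      · omega
    · rcases hxz with ⟨hx, -, -⟩ | ⟨h3, h4⟩ | ⟨h3, h4⟩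
      · omega
      · omega
      · exact K.ne_of_adj hyz (Fin.ext (by omega))
  have hdeg1 : ∀ v : Fin (h + 2), 1 ≤ (K.neighborSet v).ncard := by
    intro v
    rw [Nat.one_le_iff_ne_zero, ← Nat.pos_iff_ne_zero, Set.ncard_pos]
    by_cases hv : v.val < h
    · obtain ⟨y, z, -, hy, -⟩ := two_nbrs hH4 hmin ⟨v.val, hv⟩
      exact ⟨⟨y.val, by omega⟩, Or.inl ⟨hv, y.isLt, hy⟩⟩
    · by_cases hv2 : v.val = h
      · exact ⟨⟨h + 1, by omega⟩, Or.inr (Or.inl ⟨hv2, rfl⟩)⟩
      · exact ⟨⟨h, by omega⟩, Or.inr (Or.inr ⟨by have := v.isLt; show v.val = h + 1; omega, rfl⟩)⟩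
  have hdegex : ∃ v : Fin (h + 2), (K.neighborSet v).ncard = 1 := by
    refine ⟨⟨h, by omega⟩, ?_⟩
    rw [Set.ncard_eq_one]
    refine ⟨⟨h + 1, by omega⟩, ?_⟩
    ext y
    simp only [SimpleGraph.mem_neighborSet, Set.mem_singleton_iff]
    constructor
    · rintro (⟨hu, -, -⟩ | ⟨h1, h2⟩ | ⟨h1, h2⟩)
      · exact absurd hu (lt_irrefl _)
      · exact Fin.ext h2
      · simp at h1
    · rintro rfl
      exact Or.inr (Or.inl ⟨rfl, rfl⟩)
  obtain ⟨⟨m, G, ⟨hR, -, hM⟩, -, ⟨v, hv⟩⟩, -⟩ := hall (h + 2) K 1 hK3 le_rfl hdeg1 hdegex
  have hv1 : (G.neighborSet v).ncard = 1 := by simpa using hv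
  obtain ⟨w, hw⟩ := Set.ncard_eq_one.1 hv1
  have hvw : G.Adj v w := by
    have : w ∈ G.neighborSet v := by rw [hw]; rfl
    exact this
  have huniq : ∀ y, G.Adj v y → y = w := by
    intro y hy
    have : y ∈ G.neighborSet v := hy
    rw [hw] at this
    exact this
  let G' : SimpleGraph (Fin m) := G.deleteEdges {s(v, w)}
  have hlt : G' < G := by
    refine lt_of_le_of_ne (SimpleGraph.deleteEdges_le _) ?_
    intro heq
    have : G'.Adj v w := by rw [heq]; exact hvw
    simp [G', SimpleGraph.deleteEdges_adj] at this
  have hnot := hM G' hlt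
  apply hnot
  have hRam' : Ram H G' := by
    intro c hc
    obtain ⟨b, f, hf, hf2⟩ := hR c hc
    refine ⟨b, fun u => f ⟨u.val, by omega⟩, ?_, ?_⟩
    · intro u u' huu
      have := hf huu
      simpa [Fin.ext_iff] using this
    · intro u u' huu
      have h1 := hf2 ⟨u.val, by omega⟩ ⟨u'.val, by omega⟩ (Or.inl ⟨u.isLt, u'.isLt, huu⟩)
      refine ⟨?_, h1.2⟩
      rw [SimpleGraph.deleteEdges_adj]
      refine ⟨h1.1, ?_⟩
      intro hmem
      -- a vertex of `H` mapped to `v` would have two neighbours
      have key : ∀ a : Fin h, f ⟨a.val, by omega⟩ = v → False := by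
        intro a ha
        obtain ⟨y, z, hyz, hy, hz⟩ := two_nbrs hH4 hmin a
        have hy1 := (hf2 ⟨a.val, by omega⟩ ⟨y.val, by omega⟩ (Or.inl ⟨a.isLt, y.isLt, hy⟩)).1
        have hz1 := (hf2 ⟨a.val, by omega⟩ ⟨z.val, by omega⟩ (Or.inl ⟨a.isLt, z.isLt, hz⟩)).1
        rw [ha] at hy1 hz1
        have := (huniq _ hy1).trans (huniq _ hz1).symm
        have := hf this
        apply hyz
        simpa [Fin.ext_iff] using this
      simp only [Set.mem_singleton_iff, Sym2.eq_iff] at hmem
      rcases hmem with ⟨h2, -⟩ | ⟨-, h2⟩
      · exact key u h2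
      · exact key u' h2
  exact ram_addEdge hH4 hmin G' hRam'

end Pool.Agent.S10760
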