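import Pool.Statements.S11343
import Pool.Agent.H51.OVO.Fin

set_option autoImplicit false
open Pool Pool.MP_c637b9_co

namespace Pool.Agent.S11343

/-- Over any finite field of order q, a set of q^2+1 points of PG(3,q) with no 3 collinear (no 4 coplanar if q=2) is either the zero set of a quadratic form or a linear image of the Tits set for q=2^(2e+1), e≥1. -/
theorem result :
    ∀ (F : Type) [Field F] [Fintype F] (S : Set (Projectivization F (Fin 4 → F))),
      S.ncard = Fintype.card F ^ 2 + 1 →
      (Fintype.card F ≠ 2 →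
        ∀ f : Fin 3 → Projectivization F (Fin 4 → F), Function.Injective f →
          (∀ i, f i ∈ S) → LinearIndependent F (fun i => (f i).rep)) →
      (Fintype.card F = 2 →
        ∀ f : Fin 4 → Projectivization F (Fin 4 → F), Function.Injective f →
          (∀ i, f i ∈ S) → LinearIndependent F (fun i => (f i).rep)) →
      (∃ Q : QuadraticForm F (Fin 4 → F), ∀ p, p ∈ S ↔ Q p.rep = 0) ∨
      (∃ e : ℕ, 1 ≤ e ∧ Fintype.card F = 2 ^ (2 * e + 1) ∧
        ∃ A : (Fin 4 → F) ≃ₗ[F] (Fin 4 → F), ∀ p, p ∈ S ↔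
          ((∃ s t c : F,
              A ![1, s, t, s ^ (2 ^ (e + 1)) + s * t + t ^ (2 ^ (e + 1) + 2)] = c • p.rep) ∨
           ∃ c : F, A ![0, 0, 0, 1] = c • p.rep)) := by
  exact Pool.Agent.H51.OVO.frozen

end Pool.Agent.S11343
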