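import Pool.Statements.S11417
import Pool.Agent.H56.BD.AllZ
import Pool.Agent.H87.BD.W2
import Pool.Agent.H96.BD.AC1

set_option autoImplicit false
open Pool Pool.MP_c9fc14_co

namespace Pool.Agent.S11417

/-- There is a d such that every finite poset whose cover graph has no K5 or K3,3 minor (i.e. is planar) admits d linear orders and a Boolean function on d bits deciding x<y for all distinct x,y from the bits x<y in each order. -/
theorem result :
    ∃ d : ℕ, ∀ (α : Type) [Fintype α] [PartialOrder α],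
      (¬ ∃ f : Fin 5 → Set α,
          (∀ w, (f w).Nonempty) ∧
          (∀ w, ((SimpleGraph.fromRel (fun x y : α => x ⋖ y)).induce (f w)).Connected) ∧
          (∀ v w, v ≠ w → Disjoint (f v) (f w)) ∧
          (∀ v w, v ≠ w → ∃ x ∈ f v, ∃ y ∈ f w,
              (SimpleGraph.fromRel (fun x y : α => x ⋖ y)).Adj x y)) →
      (¬ ∃ f : Fin 3 ⊕ Fin 3 → Set α,
          (∀ w, (f w).Nonempty) ∧
          (∀ w, ((SimpleGraph.fromRel (fun x y : α => x ⋖ y)).induce (f w)).Connected) ∧
          (∀ v w, v ≠ w → Disjoint (f v) (f w)) ∧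
          (∀ i j : Fin 3, ∃ x ∈ f (Sum.inl i), ∃ y ∈ f (Sum.inr j),
              (SimpleGraph.fromRel (fun x y : α => x ⋖ y)).Adj x y)) →
      ∃ (L : Fin d → α → ℕ) (φ : (Fin d → Bool) → Bool),
        (∀ i, Function.Injective (L i)) ∧
        ∀ x y : α, x ≠ y →
          (x < y ↔ φ (fun i => decide (L i x < L i y)) = true) := by
  exact Pool.BD.z4All (Pool.BD.w2 Pool.BD.w1) Pool.BD.ac1

end Pool.Agent.S11417
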