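import Pool.Statements.S11709

set_option autoImplicit false
set_option linter.unusedSectionVars false
open Pool Pool.MP_d612eb_co

namespace Pool.Agent.S11709

open Finset

section Cube

variable {ι : Type} [Fintype ι] [DecidableEq ι]

/-- The sign of a Boolean. -/
def sg (b : Bool) : ℝ := if b then 1 else -1

/-- Characters of the cube. -/
def chi (S : Finset ι) (x : ι → Bool) : ℝ := ∏ i ∈ S, sg (x i)

/-- The multilinear polynomial with coefficients `a`. -/
def ev (a : Finset ι → ℝ) (x : ι → Bool) : ℝ := ∑ S, a S * chi S x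

lemma sg_mul_self (b : Bool) : sg b * sg b = 1 := by
  cases b <;> simp [sg]

lemma sg_not (b : Bool) : sg (!b) = - sg b := by
  cases b <;> simp [sg]

lemma sg_ne_zero (b : Bool) : sg b ≠ 0 := by
  cases b <;> simp [sg]

lemma chi_ne_zero (S : Finset ι) (x : ι → Bool) : chi S x ≠ 0 := by
  unfold chi
  exact Finset.prod_ne_zero_iff.mpr (fun i _ => sg_ne_zero _)

lemma chi_mul_self (S : Finset ι) (x : ι → Bool) : chi S x * chi S x = 1 := by
  unfold chi
  rw [← Finset.prod_mul_distrib]
  exact Finset.prod_eq_one (fun i _ => sg_mul_self _)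

lemma sum_split (i : ι) (F : Finset ι → ℝ) :
    ∑ S, F S = ∑ S, (if i ∈ S then 0 else F S + F (insert i S)) := by
  have hu : (Finset.univ : Finset (Finset ι)) = (insert i (Finset.univ.erase i)).powerset := by
    rw [Finset.insert_erase (Finset.mem_univ i), Finset.powerset_univ]
  rw [hu, Finset.sum_powerset_insert (Finset.notMem_erase i _),
    Finset.sum_powerset_insert (Finset.notMem_erase i _), ← Finset.sum_add_distrib,
    ← Finset.sum_add_distrib]
  refine Finset.sum_congr rfl (fun T hT => ?_)
  have hi : i ∉ T := fun h => Finset.notMem_erase i _ (Finset.mem_powerset.mp hT h)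
  simp [hi]

lemma chi_update_notMem {S : Finset ι} {i : ι} (h : i ∉ S) (x : ι → Bool) (c : Bool) :
    chi S (Function.update x i c) = chi S x := by
  unfold chi
  refine Finset.prod_congr rfl (fun j hj => ?_)
  have : j ≠ i := fun e => h (e ▸ hj)
  rw [Function.update_of_ne this]

lemma chi_insert {S : Finset ι} {i : ι} (h : i ∉ S) (x : ι → Bool) :
    chi (insert i S) x = sg (x i) * chi S x := by
  unfold chi
  rw [Finset.prod_insert h]

/-- Coefficients of the restriction `x i := c`. -/
def res (i : ι) (c : Bool) (a : Finset ι → ℝ) : Finset ι → ℝ :=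
  fun T => if i ∈ T then 0 else a T + sg c * a (insert i T)

lemma ev_res (i : ι) (c : Bool) (a : Finset ι → ℝ) (x : ι → Bool) :
    ev (res i c a) x = ev a (Function.update x i c) := by
  unfold ev
  rw [sum_split i (fun S => a S * chi S (Function.update x i c))]
  refine Finset.sum_congr rfl (fun S _ => ?_)
  by_cases h : i ∈ S
  · simp [res, h]
  · simp only [res, h, if_false, chi_update_notMem h, chi_insert h, Function.update_self]
    ring

/-- Average over the cube. -/
noncomputable def avg (h : (ι → Bool) → ℝ) : ℝ := (∑ x, h x) / 2 ^ Fintype.card ι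

lemma avg_add (f g : (ι → Bool) → ℝ) : avg (fun x => f x + g x) = avg f + avg g := by
  unfold avg
  rw [Finset.sum_add_distrib, add_div]

lemma avg_sub (f g : (ι → Bool) → ℝ) : avg (fun x => f x - g x) = avg f - avg g := by
  unfold avg
  rw [Finset.sum_sub_distrib, sub_div]

lemma avg_const_mul (c : ℝ) (f : (ι → Bool) → ℝ) : avg (fun x => c * f x) = c * avg f := by
  unfold avg
  rw [← Finset.mul_sum, mul_div_assoc]

lemma avg_sum {κ : Type} (s : Finset κ) (f : κ → (ι → Bool) → ℝ) :
    avg (fun x => ∑ k ∈ s, f k x) = ∑ k ∈ s, avg (f k) := by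
  unfold avg
  rw [Finset.sum_comm, Finset.sum_div]

lemma avg_const (c : ℝ) : avg (fun _ : ι → Bool => c) = c := by
  unfold avg
  simp [Finset.sum_const, Finset.card_univ]

lemma avg_mono {f g : (ι → Bool) → ℝ} (h : ∀ x, f x ≤ g x) : avg f ≤ avg g := by
  unfold avg
  gcongr with x
  exact h x

lemma avg_nonneg {f : (ι → Bool) → ℝ} (h : ∀ x, 0 ≤ f x) : 0 ≤ avg f := by
  have := avg_mono (f := fun _ => (0:ℝ)) (g := f) h
  rwa [avg_const] at this

lemma abs_avg_le (f : (ι → Bool) → ℝ) : |avg f| ≤ avg (fun x => |f x|) := by
  unfold avg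
  rw [abs_div, abs_of_nonneg (by positivity : (0:ℝ) ≤ 2 ^ Fintype.card ι)]
  gcongr
  exact Finset.abs_sum_le_sum_abs _ _

/-- Flip the coordinates in `T`. -/
def flipOn (T : Finset ι) (x : ι → Bool) : ι → Bool := fun i => if i ∈ T then !(x i) else x i

lemma flip_flip (T : Finset ι) (x : ι → Bool) : flipOn T (flipOn T x) = x := by
  funext i
  by_cases h : i ∈ T <;> simp [flipOn, h]

lemma sum_flip (T : Finset ι) (h : (ι → Bool) → ℝ) : ∑ x, h (flipOn T x) = ∑ x, h x := by
  refine Fintype.sum_bijective (flipOn T) ?_ _ _ (fun x => rfl)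
  exact (Function.Involutive.bijective (flip_flip T))

lemma avg_update (i : ι) (h : (ι → Bool) → ℝ) :
    avg h = (avg (fun x => h (Function.update x i true)) +
      avg (fun x => h (Function.update x i false))) / 2 := by
  have key : ∀ x : ι → Bool, h (Function.update x i true) + h (Function.update x i false)
      = h x + h (flipOn {i} x) := by
    intro x
    have h1 : Function.update x i (x i) = x := Function.update_eq_self i x
    have h2 : flipOn {i} x = Function.update x i (!(x i)) := by
      funext j
      by_cases hj : j = i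
      · subst hj; simp [flipOn]
      · simp [flipOn, hj]
    rw [h2]
    cases hx : x i
    · rw [hx] at h1
      simp only [Bool.not_false]
      rw [add_comm]
      congr 1
      rw [h1]
    · rw [hx] at h1
      simp only [Bool.not_true]
      congr 1
      rw [h1]
  have h3 : ∑ x, h (Function.update x i true) + ∑ x, h (Function.update x i false)
      = 2 * ∑ x, h x := by
    rw [← Finset.sum_add_distrib, Finset.sum_congr rfl (fun x _ => key x),
      Finset.sum_add_distrib, sum_flip]
    ring
  unfold avg
  rw [← add_div, h3]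
  field_simp

/-- Functions computed by decision trees of depth at most `D`. -/
inductive DT : ℕ → ((ι → Bool) → Bool) → Prop
  | const (D : ℕ) (b : Bool) : DT D (fun _ => b)
  | node (D : ℕ) (i : ι) (σ : Bool → (ι → Bool) → Bool) (h : ∀ b, DT D (σ b)) :
      DT (D + 1) (fun x => σ (x i) x)

lemma DT.succ {D : ℕ} {τ : (ι → Bool) → Bool} (h : DT D τ) : DT (D + 1) τ := by
  induction h with
  | const D b => exact DT.const _ b
  | node D i σ _ ih => exact DT.node _ i σ ih

lemma DT.mono {D D' : ℕ} {τ : (ι → Bool) → Bool} (h : DT D τ) (hD : D ≤ D') : DT D' τ := by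
  induction hD with
  | refl => exact h
  | step _ ih => exact ih.succ

lemma DT.restrict {D : ℕ} {τ : (ι → Bool) → Bool} (h : DT D τ) (i : ι) (c : Bool) :
    DT D (fun x => τ (Function.update x i c)) := by
  induction h with
  | const D b => exact DT.const _ b
  | node D j σ _ ih =>
    by_cases hj : j = i
    · subst hj
      have : (fun x : ι → Bool => σ (Function.update x j c j) (Function.update x j c))
          = fun x => σ c (Function.update x j c) := by
        funext x
        rw [Function.update_self]
      rw [this]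
      exact (ih c).succ
    · have : (fun x : ι → Bool => σ (Function.update x i c j) (Function.update x i c))
          = fun x => (fun b x => σ b (Function.update x i c)) (x j) x := by
        funext x
        rw [Function.update_of_ne hj]
      rw [this]
      exact DT.node _ j _ ih

/-- Indicator. -/
def ind (τ : (ι → Bool) → Bool) (x : ι → Bool) : ℝ := if τ x then 1 else 0

lemma abs_ind_le (τ : (ι → Bool) → Bool) (x : ι → Bool) : |ind τ x| ≤ 1 := by
  unfold ind
  split_ifs <;> simp

lemma avg_mul_ind_const (φ : (ι → Bool) → ℝ) (b : Bool) :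
    avg (fun x => φ x * ind (fun _ => b) x) = avg φ * avg (ind (fun _ : ι → Bool => b)) := by
  cases b
  · have h1 : (ind (fun _ : ι → Bool => false)) = fun _ => (0:ℝ) := by
      funext x; simp [ind]
    rw [h1, avg_const]
    simp [avg_const]
  · have h1 : (ind (fun _ : ι → Bool => true)) = fun _ => (1:ℝ) := by
      funext x; simp [ind]
    rw [h1, avg_const]
    simp

/-- The OSSS inequality (in the form with the depth of the tree). -/
theorem osss (D : ℕ) : ∀ (τ : (ι → Bool) → Bool), DT D τ →
    ∀ (φ : (ι → Bool) → ℝ) (η : ℝ), 0 ≤ η →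
    (∀ i, avg (fun x => |φ (Function.update x i true) - φ (Function.update x i false)|)
      ≤ 2 * η) →
    |avg (fun x => φ x * ind τ x) - avg φ * avg (ind τ)| ≤ D * η := by
  induction D with
  | zero =>
    intro τ h φ η hη _
    cases h with
    | const D b =>
      rw [avg_mul_ind_const]
      simp
  | succ D ih =>
    intro τ h φ η hη hinf
    cases h with
    | const D b =>
      rw [avg_mul_ind_const, sub_self, abs_zero]
      positivity
    | node D i σ hσ =>
      -- restricted functions
      set φb : Bool → (ι → Bool) → ℝ := fun b x => φ (Function.update x i b) with hφb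
      set σb : Bool → (ι → Bool) → Bool := fun b x => σ b (Function.update x i b) with hσb
      set ψ : (ι → Bool) → ℝ := fun x => (φb true x + φb false x) / 2 with hψ
      have h1 : avg (fun x => φ x * ind (fun x => σ (x i) x) x)
          = (avg (fun x => φb true x * ind (σb true) x)
            + avg (fun x => φb false x * ind (σb false) x)) / 2 := by
        rw [avg_update i]
        congr 2
        · congr 1
          funext x
          simp [ind, hφb, hσb]
        · congr 1
          funext x
          simp [ind, hφb, hσb]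
      have h2 : avg (ind (fun x => σ (x i) x))
          = (avg (ind (σb true)) + avg (ind (σb false))) / 2 := by
        rw [avg_update i]
        congr 2
        · congr 1
          funext x
          simp [ind, hσb]
        · congr 1
          funext x
          simp [ind, hσb]
      have h3 : avg φ = avg ψ := by
        rw [avg_update i, hψ]
        have : (fun x => (φb true x + φb false x) / 2)
            = fun x => (1/2 : ℝ) * (φb true x + φb false x) := by
          funext x; ring
        rw [this, avg_const_mul, avg_add]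
        ring
      -- influences of ψ
      have h4 : ∀ j, avg (fun x => |ψ (Function.update x j true) - ψ (Function.update x j false)|)
          ≤ 2 * η := by
        intro j
        by_cases hj : j = i
        · subst hj
          have : (fun x => |ψ (Function.update x j true) - ψ (Function.update x j false)|)
              = fun _ => (0:ℝ) := by
            funext x
            simp [hψ, hφb]
          rw [this, avg_const]
          positivity
        · have e : ∀ (x : ι → Bool) (b c : Bool),
              Function.update (Function.update x j b) i c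
                = Function.update (Function.update x i c) j b := by
            intro x b c
            rw [Function.update_comm hj]
          calc avg (fun x => |ψ (Function.update x j true) - ψ (Function.update x j false)|)
              ≤ avg (fun x => (1/2 : ℝ) * (|φ (Function.update (Function.update x i true) j true)
                    - φ (Function.update (Function.update x i true) j false)|
                  + |φ (Function.update (Function.update x i false) j true)
                    - φ (Function.update (Function.update x i false) j false)|)) := by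
                apply avg_mono
                intro x
                have : ψ (Function.update x j true) - ψ (Function.update x j false)
                    = (1/2 : ℝ) * ((φ (Function.update (Function.update x i true) j true)
                    - φ (Function.update (Function.update x i true) j false))
                  + (φ (Function.update (Function.update x i false) j true)
                    - φ (Function.update (Function.update x i false) j false))) := by
                  simp only [hψ, hφb, e]
                  ring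
                rw [this, abs_mul, abs_of_pos (by norm_num : (0:ℝ) < 1/2)]
                gcongr
                exact abs_add_le _ _
            _ = avg (fun x => |φ (Function.update x j true) - φ (Function.update x j false)|) := by
                rw [avg_const_mul, avg_add, avg_update i (fun x =>
                  |φ (Function.update x j true) - φ (Function.update x j false)|)]
                ring
            _ ≤ 2 * η := hinf j
      -- the replacement error
      have h5 : ∀ b, |avg (fun x => φb b x * ind (σb b) x) - avg (fun x => ψ x * ind (σb b) x)|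
          ≤ η := by
        intro b
        rw [← avg_sub]
        calc |avg (fun x => φb b x * ind (σb b) x - ψ x * ind (σb b) x)|
            ≤ avg (fun x => |φb b x * ind (σb b) x - ψ x * ind (σb b) x|) := abs_avg_le _
          _ ≤ avg (fun x => (1/2 : ℝ) * |φ (Function.update x i true)
                - φ (Function.update x i false)|) := by
              apply avg_mono
              intro x
              rw [← sub_mul, abs_mul]
              have hle : |φb b x - ψ x| = (1/2 : ℝ) * |φ (Function.update x i true)
                - φ (Function.update x i false)| := by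
                cases b
                · have : φb false x - ψ x = (1/2 : ℝ) * (-(φ (Function.update x i true)
                    - φ (Function.update x i false))) := by
                    simp only [hψ, hφb]; ring
                  rw [this, abs_mul, abs_neg, abs_of_pos (by norm_num : (0:ℝ) < 1/2)]
                · have : φb true x - ψ x = (1/2 : ℝ) * (φ (Function.update x i true)
                    - φ (Function.update x i false)) := by
                    simp only [hψ, hφb]; ring
                  rw [this, abs_mul, abs_of_pos (by norm_num : (0:ℝ) < 1/2)]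
              calc |φb b x - ψ x| * |ind (σb b) x| ≤ |φb b x - ψ x| * 1 := by
                    gcongr
                    exact abs_ind_le _ _
                _ = _ := by rw [mul_one, hle]
          _ ≤ η := by
              rw [avg_const_mul]
              have := hinf i
              linarith
      have h6 : ∀ b, |avg (fun x => ψ x * ind (σb b) x) - avg ψ * avg (ind (σb b))| ≤ D * η :=
        fun b => ih (σb b) ((hσ b).restrict i b) ψ η hη h4
      rw [h1, h2, h3]
      push_cast
      have a1 := abs_le.mp (h5 true)
      have a2 := abs_le.mp (h5 false)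
      have a3 := abs_le.mp (h6 true)
      have a4 := abs_le.mp (h6 false)
      rw [abs_le]
      constructor <;> nlinarith [a1.1, a1.2, a2.1, a2.2, a3.1, a3.2, a4.1, a4.2]


/-- The sign picked up by the character `S` when the coordinates in `T` are flipped. -/
def esgn (S T : Finset ι) : ℝ := (-1) ^ (S ∩ T).card

lemma esgn_comm (S T : Finset ι) : esgn S T = esgn T S := by
  unfold esgn
  rw [Finset.inter_comm]

lemma esgn_eq_prod (S T : Finset ι) : esgn S T = ∏ i ∈ S, (if i ∈ T then (-1:ℝ) else 1) := by
  unfold esgn
  rw [Finset.prod_ite_mem, Finset.prod_const]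

lemma chi_flip (S T : Finset ι) (x : ι → Bool) : chi S (flipOn T x) = esgn S T * chi S x := by
  rw [esgn_eq_prod]
  unfold chi flipOn
  rw [← Finset.prod_mul_distrib]
  refine Finset.prod_congr rfl (fun i _ => ?_)
  split_ifs
  · rw [sg_not]; ring
  · ring

lemma ev_flip (a : Finset ι → ℝ) (T : Finset ι) (x : ι → Bool) :
    ev a (flipOn T x) = ∑ S, a S * chi S x * esgn S T := by
  unfold ev
  refine Finset.sum_congr rfl (fun S _ => ?_)
  rw [chi_flip]
  ring

/-- A maximal monomial makes the polynomial nonzero somewhere on each of its subcubes. -/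
lemma exists_flip_ne_zero (a : Finset ι → ℝ) (M : Finset ι) (hM : a M ≠ 0)
    (hdeg : ∀ S, a S ≠ 0 → S.card ≤ M.card) (x : ι → Bool) :
    ∃ T ⊆ M, ev a (flipOn T x) ≠ 0 := by
  by_contra hcon
  push Not at hcon
  have h : ∑ T ∈ M.powerset, (-1:ℝ) ^ T.card * ev a (flipOn T x) = 0 :=
    Finset.sum_eq_zero (fun T hT => by rw [hcon T (Finset.mem_powerset.mp hT), mul_zero])
  have key : ∀ S : Finset ι, ∑ T ∈ M.powerset, (-1:ℝ) ^ T.card * esgn S T
      = if M ⊆ S then 2 ^ M.card else 0 := by
    intro S
    have h1 : ∑ T ∈ M.powerset, (-1:ℝ) ^ T.card * esgn S T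
        = ∏ i ∈ M, (1 + (if i ∈ S then (1:ℝ) else -1)) := by
      rw [Finset.prod_one_add]
      refine Finset.sum_congr rfl (fun T _ => ?_)
      rw [esgn_comm, esgn_eq_prod, ← Finset.prod_const, ← Finset.prod_mul_distrib]
      refine Finset.prod_congr rfl (fun i _ => ?_)
      split_ifs <;> ring
    rw [h1]
    split_ifs with hMS
    · rw [← Finset.prod_const]
      refine Finset.prod_congr rfl (fun i hi => ?_)
      rw [if_pos (hMS hi)]
      norm_num
    · obtain ⟨i, hi, hiS⟩ := Finset.not_subset.mp hMS
      refine Finset.prod_eq_zero hi ?_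
      rw [if_neg hiS]
      norm_num
  have h2 : ∑ T ∈ M.powerset, (-1:ℝ) ^ T.card * ev a (flipOn T x)
      = 2 ^ M.card * (a M * chi M x) := by
    calc ∑ T ∈ M.powerset, (-1:ℝ) ^ T.card * ev a (flipOn T x)
        = ∑ T ∈ M.powerset, ∑ S, a S * chi S x * ((-1:ℝ) ^ T.card * esgn S T) := by
          refine Finset.sum_congr rfl (fun T _ => ?_)
          rw [ev_flip, Finset.mul_sum]
          refine Finset.sum_congr rfl (fun S _ => ?_)
          ring
      _ = ∑ S, a S * chi S x * ∑ T ∈ M.powerset, ((-1:ℝ) ^ T.card * esgn S T) := by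
          rw [Finset.sum_comm]
          refine Finset.sum_congr rfl (fun S _ => ?_)
          rw [Finset.mul_sum]
      _ = 2 ^ M.card * (a M * chi M x) := by
          rw [Finset.sum_eq_single M]
          · rw [key, if_pos (Finset.Subset.refl M)]
            ring
          · intro S _ hS
            rw [key]
            split_ifs with hMS
            · have : a S = 0 := by
                by_contra h0
                have h3 := hdeg S h0
                exact hS (Finset.eq_of_subset_of_card_le hMS h3).symm
              rw [this]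
              ring
            · ring
          · intro h; exact absurd (Finset.mem_univ M) h
  rw [h2] at h
  have : (2:ℝ) ^ M.card * (a M * chi M x) ≠ 0 :=
    mul_ne_zero (by positivity) (mul_ne_zero hM (chi_ne_zero M x))
  exact this h

lemma esgn_eq_one_or (S T : Finset ι) : esgn S T = 1 ∨ esgn S T = -1 := by
  unfold esgn
  exact neg_one_pow_eq_or ℝ _

lemma inv_aux (v c : ℝ) (hv : v ≠ 0) : v⁻¹ * (c * v / 2) = c / 2 := by
  field_simp

lemma card_aux (c d : ℕ) (h : (c:ℝ) / 2 ≤ (((d:ℕ):ℤ):ℝ) ^ 2) : c ≤ 2 * d ^ 2 := by
  have h3 : (c : ℝ) ≤ 2 * (d:ℝ) ^ 2 := by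
    rw [Int.cast_natCast] at h
    linarith
  exact_mod_cast h3

open Polynomial in
/-- Block sensitivity at a point of maximum modulus is at most `2 d ^ 2`. -/
theorem sens_bound (d : ℕ) (a : Finset ι → ℝ) (hdeg : ∀ S, a S ≠ 0 → S.card ≤ d)
    (x : ι → Bool) (hx : ev a x ≠ 0) (hmax : ∀ y, |ev a y| ≤ |ev a x|)
    (F : Finset (Finset ι)) (B : Finset ι → Finset ι)
    (hF : ∀ M ∈ F, ∀ M' ∈ F, M ≠ M' → Disjoint (B M) (B M'))
    (hz : ∀ M ∈ F, ev a (flipOn (B M) x) = 0) : F.card ≤ 2 * d ^ 2 := by
  classical
  set o : Finset ι → ℕ := fun S => (F.filter (fun M => esgn S (B M) = -1)).card with ho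
  have hne : (1:ℝ) ≠ -1 := by norm_num
  -- o S is at most the size of S
  have hdisj : ∀ (S : Finset ι) (J : Finset (Finset ι)), J ⊆ F →
      (S ∩ J.biUnion B).card = ∑ M ∈ J, (S ∩ B M).card := by
    intro S J hJ
    rw [Finset.inter_biUnion]
    refine Finset.card_biUnion (fun M hM M' hM' hne' => ?_)
    exact Finset.disjoint_of_subset_left Finset.inter_subset_right
      (Finset.disjoint_of_subset_right Finset.inter_subset_right
        (hF M (hJ hM) M' (hJ hM') hne'))
  have ho_le : ∀ S, o S ≤ S.card := by
    intro S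
    calc o S = ∑ M ∈ F.filter (fun M => esgn S (B M) = -1), 1 := by
          rw [ho]; simp
      _ ≤ ∑ M ∈ F.filter (fun M => esgn S (B M) = -1), (S ∩ B M).card := by
          refine Finset.sum_le_sum (fun M hM => ?_)
          have h1 := (Finset.mem_filter.mp hM).2
          by_contra h2
          have h3 : (S ∩ B M).card = 0 := by omega
          unfold esgn at h1
          rw [h3, pow_zero] at h1
          exact hne h1
      _ ≤ (S ∩ (F.filter (fun M => esgn S (B M) = -1)).biUnion B).card := by
          rw [hdisj S _ (Finset.filter_subset _ _)]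
      _ ≤ S.card := Finset.card_le_card Finset.inter_subset_left
  have hprodsgn : ∀ (S : Finset ι) (J : Finset (Finset ι)), J ⊆ F →
      ∏ M ∈ J, esgn S (B M) = esgn S (J.biUnion B) := by
    intro S J hJ
    unfold esgn
    rw [hdisj S J hJ, Finset.prod_pow_eq_pow_sum]
  -- the polynomial
  set P : ℝ[X] := ∑ S, C (a S * chi S x) * X ^ (o S) with hP
  have hPeval : ∀ s : ℝ, P.eval s = ∑ S, a S * chi S x * s ^ (o S) := by
    intro s
    rw [hP, eval_finsetSum]
    refine Finset.sum_congr rfl (fun S _ => ?_)
    simp
  have hprod : ∀ (S : Finset ι) (s : ℝ),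
      ∏ M ∈ F, ((1 - s) / 2 * esgn S (B M) + (1 + s) / 2) = s ^ (o S) := by
    intro S s
    have h1 : ∀ M ∈ F, ((1 - s) / 2 * esgn S (B M) + (1 + s) / 2)
        = if esgn S (B M) = -1 then s else 1 := by
      intro M _
      rcases esgn_eq_one_or S (B M) with h | h
      · rw [if_neg (by rw [h]; exact hne), h]; ring
      · rw [if_pos h, h]; ring
    rw [Finset.prod_congr rfl h1, Finset.prod_ite, Finset.prod_const, Finset.prod_const_one,
      mul_one]
  have hPavg : ∀ s : ℝ, P.eval s
      = ∑ J ∈ F.powerset, ((1 - s) / 2) ^ J.card * ((1 + s) / 2) ^ (F \ J).card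
          * ev a (flipOn (J.biUnion B) x) := by
    intro s
    rw [hPeval]
    calc ∑ S, a S * chi S x * s ^ (o S)
        = ∑ S, a S * chi S x * ∑ J ∈ F.powerset,
            (∏ M ∈ J, ((1 - s) / 2 * esgn S (B M))) * ∏ M ∈ F \ J, ((1 + s) / 2) := by
          refine Finset.sum_congr rfl (fun S _ => ?_)
          rw [← hprod S s, Finset.prod_add]
      _ = ∑ S, ∑ J ∈ F.powerset, ((1 - s) / 2) ^ J.card * ((1 + s) / 2) ^ (F \ J).card
            * (a S * chi S x * esgn S (J.biUnion B)) := by
          refine Finset.sum_congr rfl (fun S _ => ?_)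
          rw [Finset.mul_sum]
          refine Finset.sum_congr rfl (fun J hJ => ?_)
          rw [Finset.prod_mul_distrib, Finset.prod_const, Finset.prod_const,
            hprodsgn S J (Finset.mem_powerset.mp hJ)]
          ring
      _ = _ := by
          rw [Finset.sum_comm]
          refine Finset.sum_congr rfl (fun J _ => ?_)
          rw [ev_flip, Finset.mul_sum]
  have hPbd : ∀ s ∈ Set.Icc (-1:ℝ) 1, |P.eval s| ≤ |ev a x| := by
    intro s hs
    have hs1 : 0 ≤ (1 - s) / 2 := by linarith [hs.2]
    have hs2 : 0 ≤ (1 + s) / 2 := by linarith [hs.1]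
    rw [hPavg]
    calc |∑ J ∈ F.powerset, ((1 - s) / 2) ^ J.card * ((1 + s) / 2) ^ (F \ J).card
          * ev a (flipOn (J.biUnion B) x)|
        ≤ ∑ J ∈ F.powerset, |((1 - s) / 2) ^ J.card * ((1 + s) / 2) ^ (F \ J).card
          * ev a (flipOn (J.biUnion B) x)| := Finset.abs_sum_le_sum_abs _ _
      _ ≤ ∑ J ∈ F.powerset, ((1 - s) / 2) ^ J.card * ((1 + s) / 2) ^ (F \ J).card
          * |ev a x| := by
          refine Finset.sum_le_sum (fun J _ => ?_)
          rw [abs_mul, abs_of_nonneg (show 0 ≤ ((1 - s) / 2) ^ J.card *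
            ((1 + s) / 2) ^ (F \ J).card by positivity)]
          exact mul_le_mul_of_nonneg_left (hmax _) (by positivity)
      _ = |ev a x| := by
          rw [← Finset.sum_mul]
          have : ∑ J ∈ F.powerset, ((1 - s) / 2) ^ J.card * ((1 + s) / 2) ^ (F \ J).card
              = ∏ M ∈ F, ((1 - s) / 2 + (1 + s) / 2) := by
            rw [Finset.prod_add]
            refine Finset.sum_congr rfl (fun J _ => ?_)
            rw [Finset.prod_const, Finset.prod_const]
          rw [this]
          have h1 : ∏ M ∈ F, ((1 - s) / 2 + (1 + s) / 2) = ∏ _M ∈ F, (1:ℝ) :=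
            Finset.prod_congr rfl (fun _ _ => by ring)
          rw [h1, Finset.prod_const_one, one_mul]
  -- the derivative at 1
  have hderiv : (derivative P).eval 1 = ∑ S, a S * chi S x * (o S) := by
    rw [hP, derivative_sum, eval_finsetSum]
    refine Finset.sum_congr rfl (fun S _ => ?_)
    rw [derivative_C_mul_X_pow]
    simp
  have hsum : (F.card : ℝ) * ev a x = 2 * (derivative P).eval 1 := by
    have h1 : ∑ M ∈ F, (ev a x - ev a (flipOn (B M) x)) = (F.card : ℝ) * ev a x := by
      rw [Finset.sum_congr rfl (fun M hM => by rw [hz M hM, sub_zero])]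
      rw [Finset.sum_const, nsmul_eq_mul]
    rw [← h1, hderiv, Finset.mul_sum]
    calc ∑ M ∈ F, (ev a x - ev a (flipOn (B M) x))
        = ∑ M ∈ F, ∑ S, a S * chi S x * (1 - esgn S (B M)) := by
          refine Finset.sum_congr rfl (fun M _ => ?_)
          rw [ev_flip]
          unfold ev
          rw [← Finset.sum_sub_distrib]
          refine Finset.sum_congr rfl (fun S _ => ?_)
          ring
      _ = ∑ S, ∑ M ∈ F, a S * chi S x * (1 - esgn S (B M)) := Finset.sum_comm
      _ = ∑ S, 2 * (a S * chi S x * (o S)) := by
          refine Finset.sum_congr rfl (fun S _ => ?_)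
          rw [← Finset.mul_sum]
          have : ∑ M ∈ F, (1 - esgn S (B M)) = 2 * (o S : ℝ) := by
            have h2 : ∀ M ∈ F, (1 - esgn S (B M)) = if esgn S (B M) = -1 then 2 else 0 := by
              intro M _
              rcases esgn_eq_one_or S (B M) with h | h
              · rw [if_neg (by rw [h]; exact hne), h]; ring
              · rw [if_pos h, h]; ring
            rw [Finset.sum_congr rfl h2, ← Finset.sum_filter, Finset.sum_const, nsmul_eq_mul]
            rw [ho]
            ring
          rw [this]
          ring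
  -- apply the Chebyshev extremal property
  set Q : ℝ[X] := C (ev a x)⁻¹ * P with hQ
  have hPdeg : P.degree ≤ d := by
    rw [hP]
    refine (degree_sum_le _ _).trans (Finset.sup_le (fun S _ => ?_))
    by_cases h0 : a S = 0
    · rw [h0]; simp
    · refine (degree_C_mul_X_pow_le _ _).trans ?_
      exact_mod_cast (ho_le S).trans (hdeg S h0)
  have hQdeg : Q.degree ≤ d := by
    rw [hQ, degree_C_mul (inv_ne_zero hx)]
    exact hPdeg
  have hQbd : ∀ s ∈ Set.Icc (-1:ℝ) 1, |Q.eval s| ≤ 1 := by
    intro s hs
    rw [hQ, eval_mul, eval_C, abs_mul, abs_inv]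
    have h0 : 0 < |ev a x| := abs_pos.mpr hx
    rw [inv_mul_le_iff₀ h0, mul_one]
    exact hPbd s hs
  have hcheb := Polynomial.Chebyshev.eval_iterate_derivative_le_of_forall_abs_le_one
    (n := d) (P := Q) (k := 1) (x := 1) le_rfl hQdeg hQbd
  simp only [Function.iterate_one] at hcheb
  rw [Polynomial.Chebyshev.derivative_T_eval_one] at hcheb
  have hQ1 : (derivative Q).eval 1 = (F.card : ℝ) / 2 := by
    rw [hQ, derivative_C_mul, eval_mul, eval_C]
    have h2 : (derivative P).eval 1 = (F.card : ℝ) * ev a x / 2 := by linarith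
    rw [h2]
    exact inv_aux _ _ hx
  rw [hQ1] at hcheb
  exact card_aux _ _ hcheb


/-- All monomials have size at most `k`, except some of size `k + 1` that meet `U`. -/
def PD (k : ℕ) (U : Finset ι) (a : Finset ι → ℝ) : Prop :=
  ∀ S, a S ≠ 0 → S.card ≤ k ∨ (S.card = k + 1 ∧ (S ∩ U).Nonempty)

lemma PD.res {k : ℕ} {U : Finset ι} {a : Finset ι → ℝ} (h : PD k U a) (i : ι) (c : Bool) :
    PD k (U.erase i) (res i c a) := by
  intro S hS
  unfold Pool.Agent.S11709.res at hS
  by_cases hi : i ∈ S
  · rw [if_pos hi] at hS
    exact absurd rfl hS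
  · rw [if_neg hi] at hS
    by_cases h0 : a S = 0
    · have h1 : a (insert i S) ≠ 0 := by
        intro h1
        rw [h0, h1] at hS
        apply hS
        ring
      left
      have hc : (insert i S).card = S.card + 1 := Finset.card_insert_of_notMem hi
      rcases h _ h1 with h2 | ⟨h2, _⟩ <;> omega
    · rcases h _ h0 with h2 | ⟨h2, j, hj⟩
      · exact Or.inl h2
      · right
        refine ⟨h2, j, ?_⟩
        rw [Finset.mem_inter] at hj ⊢
        refine ⟨hj.1, Finset.mem_erase.mpr ⟨?_, hj.2⟩⟩
        intro e
        rw [e] at hj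
        exact hi hj.1

lemma deg_res {d : ℕ} {a : Finset ι → ℝ} (h : ∀ S, a S ≠ 0 → S.card ≤ d) (i : ι) (c : Bool) :
    ∀ S, res i c a S ≠ 0 → S.card ≤ d := by
  intro S hS
  unfold Pool.Agent.S11709.res at hS
  by_cases hi : i ∈ S
  · rw [if_pos hi] at hS
    exact absurd rfl hS
  · rw [if_neg hi] at hS
    by_cases h0 : a S = 0
    · have h1 : a (insert i S) ≠ 0 := by
        intro h1
        rw [h0, h1] at hS
        apply hS
        ring
      have hc : (insert i S).card = S.card + 1 := Finset.card_insert_of_notMem hi
      have := h _ h1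
      omega
    · exact h _ h0

/-- The tree `τ` separates the two families of polynomials. -/
def Sep {κ μ : Type} (τ : (ι → Bool) → Bool) (a : κ → Finset ι → ℝ) (b : μ → Finset ι → ℝ) :
    Prop :=
  (∀ x, τ x = true → ∀ j, ev (a j) x = 0) ∧ (∀ x, τ x = false → ∀ l, ev (b l) x = 0)

/-- Query the variables of a hitting set. -/
lemma tree_inner {κ μ : Type} (k d E : ℕ)
    (IH : ∀ (a : κ → Finset ι → ℝ) (b : μ → Finset ι → ℝ),
      (∀ j S, a j S ≠ 0 → S.card ≤ k) → (∀ l S, b l S ≠ 0 → S.card ≤ d) →
      (∀ j l x, ev (a j) x * ev (b l) x = 0) → ∃ τ, DT E τ ∧ Sep τ a b) :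
    ∀ (n : ℕ) (U : Finset ι), U.card = n → ∀ (a : κ → Finset ι → ℝ) (b : μ → Finset ι → ℝ),
      (∀ j, PD k U (a j)) → (∀ l S, b l S ≠ 0 → S.card ≤ d) →
      (∀ j l x, ev (a j) x * ev (b l) x = 0) → ∃ τ, DT (E + n) τ ∧ Sep τ a b := by
  intro n
  induction n with
  | zero =>
    intro U hU a b ha hb hab
    have hU0 : U = ∅ := Finset.card_eq_zero.mp hU
    subst hU0
    refine IH a b (fun j S hS => ?_) hb hab
    rcases ha j S hS with h | ⟨_, h⟩
    · exact h
    · simp at h
  | succ n ihn =>
    intro U hU a b ha hb hab
    have hUne : U.Nonempty := Finset.card_pos.mp (by omega)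
    obtain ⟨i, hi⟩ := hUne
    have hUc : (U.erase i).card = n := by
      rw [Finset.card_erase_of_mem hi]; omega
    have hex : ∀ c : Bool, ∃ τ, DT (E + n) τ ∧
        Sep τ (fun j => res i c (a j)) (fun l => res i c (b l)) := by
      intro c
      refine ihn (U.erase i) hUc _ _ (fun j => (ha j).res i c)
        (fun l => deg_res (hb l) i c) (fun j l x => ?_)
      simp only [ev_res]
      exact hab j l _
    choose σ hσ using hex
    refine ⟨fun x => σ (x i) x, DT.node _ i σ (fun b => (hσ b).1), ?_, ?_⟩
    · intro x hx j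
      have h1 := (hσ (x i)).2.1 x hx j
      simp only [ev_res, Function.update_eq_self] at h1
      exact h1
    · intro x hx l
      have h1 := (hσ (x i)).2.2 x hx l
      simp only [ev_res, Function.update_eq_self] at h1
      exact h1

lemma ev_of_deg_zero {a : Finset ι → ℝ} (h : ∀ S, a S ≠ 0 → S.card ≤ 0) (x : ι → Bool) :
    ev a x = a ∅ := by
  unfold ev
  rw [Finset.sum_eq_single ∅]
  · simp [chi]
  · intro S _ hS
    have : a S = 0 := by
      by_contra h0
      exact hS (Finset.card_eq_zero.mp (Nat.le_zero.mp (h S h0)))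
    rw [this, zero_mul]
  · intro h; exact absurd (Finset.mem_univ _) h

/-- Two families of low degree polynomials whose pairwise products vanish on the cube are
separated by a decision tree of small depth. -/
theorem exists_tree {κ μ : Type} [Fintype μ] (d : ℕ) :
    ∀ (k : ℕ) (a : κ → Finset ι → ℝ) (b : μ → Finset ι → ℝ),
      (∀ j S, a j S ≠ 0 → S.card ≤ k) → (∀ l S, b l S ≠ 0 → S.card ≤ d) →
      (∀ j l x, ev (a j) x * ev (b l) x = 0) →
      ∃ τ, DT (d ^ 2 * (k * (k + 1))) τ ∧ Sep τ a b := by
  classical
  intro k
  induction k with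
  | zero =>
    intro a b ha hb hab
    by_cases h0 : ∀ j, a j ∅ = 0
    · refine ⟨fun _ => true, DT.const _ _, ?_, ?_⟩
      · intro x _ j
        rw [ev_of_deg_zero (ha j), h0 j]
      · intro x hx; simp at hx
    · push Not at h0
      obtain ⟨j, hj⟩ := h0
      refine ⟨fun _ => false, DT.const _ _, ?_, ?_⟩
      · intro x hx; simp at hx
      · intro x _ l
        have := hab j l x
        rw [ev_of_deg_zero (ha j)] at this
        exact (mul_eq_zero.mp this).resolve_left hj
  | succ k ih =>
    intro a b ha hb hab
    by_cases hzero : ∀ (l : μ) (x : ι → Bool), ev (b l) x = 0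
    · exact ⟨fun _ => false, DT.const _ _, fun x hx => by simp at hx, fun x _ l => hzero l x⟩
    push Not at hzero
    obtain ⟨l0, x0, h0⟩ := hzero
    -- a point of maximum modulus
    have : Nonempty (μ × (ι → Bool)) := ⟨(l0, x0)⟩
    obtain ⟨⟨l, x⟩, hlx⟩ := Finite.exists_max (fun p : μ × (ι → Bool) => |ev (b p.1) p.2|)
    have hmax : ∀ y, |ev (b l) y| ≤ |ev (b l) x| := fun y => hlx (l, y)
    have hne : ev (b l) x ≠ 0 := by
      have h1 := hlx (l0, x0)
      have h2 : 0 < |ev (b l0) x0| := abs_pos.mpr h0
      exact abs_pos.mp (lt_of_lt_of_le h2 h1)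
    -- a maximal disjoint family of top monomials
    set good : Finset (Finset (Finset ι)) := Finset.univ.filter (fun F =>
      (∀ M ∈ F, M.card = k + 1 ∧ ∃ j, a j M ≠ 0) ∧
      (∀ M ∈ F, ∀ M' ∈ F, M ≠ M' → Disjoint M M')) with hgood
    have hgne : good.Nonempty := ⟨∅, by simp [hgood]⟩
    obtain ⟨F, hFmem, hFmax⟩ := Finset.exists_max_image good Finset.card hgne
    rw [hgood, Finset.mem_filter] at hFmem
    obtain ⟨_, hF1, hF2⟩ := hFmem
    have hexB : ∀ M : Finset ι, ∃ T : Finset ι, M ∈ F → (T ⊆ M ∧ ev (b l) (flipOn T x) = 0) := by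
      intro M
      by_cases hM : M ∈ F
      · obtain ⟨hMc, j, hj⟩ := hF1 M hM
        obtain ⟨T, hT, hT2⟩ := exists_flip_ne_zero (a j) M hj
          (fun S hS => by rw [hMc]; exact ha j S hS) x
        refine ⟨T, fun _ => ⟨hT, ?_⟩⟩
        exact (mul_eq_zero.mp (hab j l (flipOn T x))).resolve_left hT2
      · exact ⟨∅, fun h => absurd h hM⟩
    choose B hB using hexB
    have hFcard : F.card ≤ 2 * d ^ 2 := by
      refine sens_bound d (b l) (hb l) x hne hmax F B ?_ (fun M hM => (hB M hM).2)
      intro M hM M' hM' hMM'
      exact Finset.disjoint_of_subset_left (hB M hM).1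
        (Finset.disjoint_of_subset_right (hB M' hM').1 (hF2 M hM M' hM' hMM'))
    set U : Finset ι := F.biUnion id with hU
    have hUcard : U.card ≤ 2 * d ^ 2 * (k + 1) := by
      calc U.card ≤ ∑ M ∈ F, (id M).card := Finset.card_biUnion_le
        _ = ∑ M ∈ F, (k + 1) := Finset.sum_congr rfl (fun M hM => (hF1 M hM).1)
        _ = F.card * (k + 1) := by rw [Finset.sum_const, smul_eq_mul]
        _ ≤ 2 * d ^ 2 * (k + 1) := Nat.mul_le_mul_right _ hFcard
    have hPD : ∀ j, PD k U (a j) := by
      intro j S hS
      have hle := ha j S hS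
      rcases Nat.lt_or_ge k S.card with hlt | hge
      · right
        have hSc : S.card = k + 1 := by omega
        refine ⟨hSc, ?_⟩
        by_contra hcon
        rw [Finset.not_nonempty_iff_eq_empty] at hcon
        have hdis : ∀ M ∈ F, Disjoint S M := by
          intro M hM
          rw [Finset.disjoint_iff_inter_eq_empty]
          have hMU : M ⊆ U := by
            intro i hi
            rw [hU, Finset.mem_biUnion]
            exact ⟨M, hM, hi⟩
          exact Finset.subset_empty.mp (hcon ▸ Finset.inter_subset_inter_left hMU)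
        have hSF : S ∉ F := by
          intro hSF
          have h1 := hdis S hSF
          rw [Finset.disjoint_self_iff_empty] at h1
          rw [h1] at hSc
          simp at hSc
        have hins : insert S F ∈ good := by
          rw [hgood, Finset.mem_filter]
          refine ⟨Finset.mem_univ _, ?_, ?_⟩
          · intro M hM
            rcases Finset.mem_insert.mp hM with h1 | h1
            · rw [h1]; exact ⟨hSc, j, hS⟩
            · exact hF1 M h1
          · intro M hM M' hM' hMM'
            rcases Finset.mem_insert.mp hM with h1 | h1 <;>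
              rcases Finset.mem_insert.mp hM' with h2 | h2
            · exact absurd (h1.trans h2.symm) hMM'
            · rw [h1]; exact hdis M' h2
            · rw [h2]; exact (hdis M h1).symm
            · exact hF2 M h1 M' h2 hMM'
        have h3 := hFmax _ hins
        rw [Finset.card_insert_of_notMem hSF] at h3
        omega
      · exact Or.inl hge
    obtain ⟨τ, hτ, hsep⟩ := tree_inner k d (d ^ 2 * (k * (k + 1)))
      (fun a b h1 h2 h3 => ih a b h1 h2 h3) U.card U rfl a b hPD hb hab
    refine ⟨τ, hτ.mono ?_, hsep⟩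
    calc d ^ 2 * (k * (k + 1)) + U.card ≤ d ^ 2 * (k * (k + 1)) + 2 * d ^ 2 * (k + 1) := by
          gcongr
      _ = d ^ 2 * ((k + 1) * (k + 1 + 1)) := by ring


lemma avg_chi_mul (S T : Finset ι) :
    avg (fun x => chi S x * chi T x) = if S = T then 1 else 0 := by
  split_ifs with h
  · subst h
    have : (fun x : ι → Bool => chi S x * chi S x) = fun _ => (1:ℝ) := by
      funext x; exact chi_mul_self S x
    rw [this, avg_const]
  · -- find a coordinate in exactly one of them
    have hex : ∃ i, (i ∈ S ∧ i ∉ T) ∨ (i ∉ S ∧ i ∈ T) := by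
      by_contra hcon
      push Not at hcon
      apply h
      ext i
      constructor
      · intro hi; exact (hcon i).1 hi
      · intro hi
        by_contra hi2
        exact (hcon i).2 hi2 hi
    obtain ⟨i, hi⟩ := hex
    have h1 : ∑ x, chi S x * chi T x = - ∑ x : ι → Bool, chi S x * chi T x := by
      calc ∑ x, chi S x * chi T x
          = ∑ x, chi S (flipOn {i} x) * chi T (flipOn {i} x) :=
            (sum_flip {i} (fun x => chi S x * chi T x)).symm
        _ = ∑ x, -(chi S x * chi T x) := by
            refine Finset.sum_congr rfl (fun x _ => ?_)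
            rw [chi_flip, chi_flip]
            have h2 : esgn S {i} * esgn T {i} = -1 := by
              rcases hi with ⟨hS, hT⟩ | ⟨hS, hT⟩
              · have e1 : esgn S {i} = -1 := by
                  unfold esgn
                  rw [Finset.inter_singleton_of_mem hS]; simp
                have e2 : esgn T {i} = 1 := by
                  unfold esgn
                  rw [Finset.inter_singleton_of_notMem hT]; simp
                rw [e1, e2]; ring
              · have e1 : esgn S {i} = 1 := by
                  unfold esgn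
                  rw [Finset.inter_singleton_of_notMem hS]; simp
                have e2 : esgn T {i} = -1 := by
                  unfold esgn
                  rw [Finset.inter_singleton_of_mem hT]; simp
                rw [e1, e2]; ring
            calc esgn S {i} * chi S x * (esgn T {i} * chi T x)
                = (esgn S {i} * esgn T {i}) * (chi S x * chi T x) := by ring
              _ = -(chi S x * chi T x) := by rw [h2]; ring
        _ = - ∑ x, chi S x * chi T x := by rw [Finset.sum_neg_distrib]
    have h3 : ∑ x : ι → Bool, chi S x * chi T x = 0 := by linarith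
    unfold avg
    rw [h3, zero_div]

lemma parseval (a : Finset ι → ℝ) : avg (fun x => (ev a x) ^ 2) = ∑ S, (a S) ^ 2 := by
  have h1 : (fun x => (ev a x) ^ 2)
      = fun x => ∑ S, ∑ T, (a S * a T) * (chi S x * chi T x) := by
    funext x
    unfold ev
    rw [sq, Finset.sum_mul_sum]
    refine Finset.sum_congr rfl (fun S _ => Finset.sum_congr rfl (fun T _ => ?_))
    ring
  rw [h1, avg_sum]
  refine Finset.sum_congr rfl (fun S _ => ?_)
  rw [avg_sum, Finset.sum_eq_single S]
  · rw [avg_const_mul, avg_chi_mul, if_pos rfl]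
    ring
  · intro T _ hT
    rw [avg_const_mul, avg_chi_mul, if_neg (fun e => hT e.symm)]
    ring
  · intro h; exact absurd (Finset.mem_univ _) h

/-- The influence of coordinate `i`. -/
def infl (i : ι) (a : Finset ι → ℝ) : ℝ :=
  ∑ S ∈ Finset.univ.filter (fun S : Finset ι => i ∈ S), (a S) ^ 2

lemma avg_diff_sq (i : ι) (a : Finset ι → ℝ) :
    avg (fun x => (ev a (Function.update x i true) - ev a (Function.update x i false)) ^ 2)
      = 4 * infl i a := by
  have h1 : (fun x => (ev a (Function.update x i true) - ev a (Function.update x i false)) ^ 2)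
      = fun x => (ev (fun T => if i ∈ T then 0 else 2 * a (insert i T)) x) ^ 2 := by
    funext x
    congr 1
    rw [← ev_res, ← ev_res]
    unfold ev
    rw [← Finset.sum_sub_distrib]
    refine Finset.sum_congr rfl (fun T _ => ?_)
    by_cases h : i ∈ T
    · simp [res, h]
    · simp only [res, h, if_false, sg]
      simp only [if_true, Bool.false_eq_true, if_false]
      ring
  rw [h1, parseval]
  unfold infl
  rw [Finset.sum_filter, sum_split i (fun S => if i ∈ S then (a S) ^ 2 else 0), Finset.mul_sum]
  refine Finset.sum_congr rfl (fun T _ => ?_)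
  by_cases h : i ∈ T
  · simp [h]
  · simp [h]
    ring

lemma avg_add_sq_le (i : ι) (a : Finset ι → ℝ) :
    avg (fun x => (ev a (Function.update x i true) + ev a (Function.update x i false)) ^ 2)
      ≤ 4 * ∑ S, (a S) ^ 2 := by
  have h1 : (fun x => (ev a (Function.update x i true) + ev a (Function.update x i false)) ^ 2)
      = fun x => (ev (fun T => if i ∈ T then 0 else 2 * a T) x) ^ 2 := by
    funext x
    congr 1
    rw [← ev_res, ← ev_res]
    unfold ev
    rw [← Finset.sum_add_distrib]
    refine Finset.sum_congr rfl (fun T _ => ?_)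
    by_cases h : i ∈ T
    · simp [res, h]
    · simp only [res, h, if_false, sg]
      simp only [if_true, Bool.false_eq_true, if_false]
      ring
  rw [h1, parseval, Finset.mul_sum]
  refine Finset.sum_le_sum (fun T _ => ?_)
  by_cases h : i ∈ T
  · simp only [h, if_true]
    nlinarith [sq_nonneg (a T)]
  · simp only [h, if_false]
    nlinarith [sq_nonneg (a T)]

lemma abs_sq_sub_le (u v θ : ℝ) (hθ : 0 < θ) :
    |u ^ 2 - v ^ 2| ≤ (1 / (2 * θ)) * (u - v) ^ 2 + (θ / 2) * (u + v) ^ 2 := by
  have h1 : |u ^ 2 - v ^ 2| = |u - v| * |u + v| := by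
    rw [← abs_mul]
    congr 1
    ring
  have h2 : (u - v) ^ 2 = |u - v| ^ 2 := (sq_abs _).symm
  have h3 : (u + v) ^ 2 = |u + v| ^ 2 := (sq_abs _).symm
  rw [h1, h2, h3]
  set A := |u - v|
  set B := |u + v|
  have h4 : (1 / (2 * θ)) * A ^ 2 + (θ / 2) * B ^ 2 - A * B = (A - θ * B) ^ 2 / (2 * θ) := by
    field_simp
    ring
  have h5 : 0 ≤ (A - θ * B) ^ 2 / (2 * θ) := by positivity
  linarith

/-- The density associated with a weighted family of polynomials. -/
noncomputable def dens {κ : Type} [Fintype κ] (p : κ → ℝ) (a : κ → Finset ι → ℝ)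
    (x : ι → Bool) : ℝ := ∑ k, p k * (ev (a k) x) ^ 2

lemma avg_dens {κ : Type} [Fintype κ] (p : κ → ℝ) (a : κ → Finset ι → ℝ)
    (hp1 : ∑ k, p k = 1) (ha : ∀ k, ∑ S, (a k S) ^ 2 = 1) : avg (dens p a) = 1 := by
  unfold dens
  rw [avg_sum]
  calc ∑ k, avg (fun x => p k * (ev (a k) x) ^ 2) = ∑ k, p k := by
        refine Finset.sum_congr rfl (fun k _ => ?_)
        rw [avg_const_mul, parseval, ha k, mul_one]
    _ = 1 := hp1

lemma dens_inf {κ : Type} [Fintype κ] (p : κ → ℝ) (a : κ → Finset ι → ℝ)
    (hp : ∀ k, 0 < p k) (hp1 : ∑ k, p k = 1) (ha : ∀ k, ∑ S, (a k S) ^ 2 = 1)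
    (θ : ℝ) (hθ : 0 < θ) (i : ι) (hinf : ∑ k, p k * infl i (a k) ≤ θ ^ 2) :
    avg (fun x => |dens p a (Function.update x i true) - dens p a (Function.update x i false)|)
      ≤ 2 * (2 * θ) := by
  calc avg (fun x => |dens p a (Function.update x i true) - dens p a (Function.update x i false)|)
      ≤ avg (fun x => ∑ k, p k * ((1 / (2 * θ)) *
          (ev (a k) (Function.update x i true) - ev (a k) (Function.update x i false)) ^ 2
          + (θ / 2) *
          (ev (a k) (Function.update x i true) + ev (a k) (Function.update x i false)) ^ 2)) := by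
        apply avg_mono
        intro x
        unfold dens
        rw [← Finset.sum_sub_distrib]
        refine (Finset.abs_sum_le_sum_abs _ _).trans (Finset.sum_le_sum (fun k _ => ?_))
        rw [← mul_sub, abs_mul, abs_of_pos (hp k)]
        exact mul_le_mul_of_nonneg_left (abs_sq_sub_le _ _ θ hθ) (hp k).le
    _ = ∑ k, p k * ((1 / (2 * θ)) * (4 * infl i (a k)) + (θ / 2) *
          avg (fun x => (ev (a k) (Function.update x i true)
            + ev (a k) (Function.update x i false)) ^ 2)) := by
        rw [avg_sum]
        refine Finset.sum_congr rfl (fun k _ => ?_)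
        rw [avg_const_mul, avg_add, avg_const_mul, avg_const_mul, avg_diff_sq]
    _ ≤ ∑ k, p k * ((1 / (2 * θ)) * (4 * infl i (a k)) + (θ / 2) * 4) := by
        refine Finset.sum_le_sum (fun k _ => ?_)
        refine mul_le_mul_of_nonneg_left ?_ (hp k).le
        have h1 := avg_add_sq_le i (a k)
        rw [ha k, mul_one] at h1
        have h2 : (θ / 2) * avg (fun x => (ev (a k) (Function.update x i true)
            + ev (a k) (Function.update x i false)) ^ 2) ≤ (θ / 2) * 4 :=
          mul_le_mul_of_nonneg_left h1 (by positivity)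
        linarith
    _ = (2 / θ) * ∑ k, p k * infl i (a k) + 2 * θ * ∑ k, p k := by
        rw [Finset.mul_sum, Finset.mul_sum, ← Finset.sum_add_distrib]
        refine Finset.sum_congr rfl (fun k _ => ?_)
        field_simp
        ring
    _ ≤ (2 / θ) * θ ^ 2 + 2 * θ * 1 := by
        rw [hp1]
        have : (2 / θ) * ∑ k, p k * infl i (a k) ≤ (2 / θ) * θ ^ 2 :=
          mul_le_mul_of_nonneg_left hinf (by positivity)
        linarith
    _ = 2 * (2 * θ) := by
        field_simp
        ring

/-- The main estimate. -/
theorem main_bound {κ μ : Type} [Fintype κ] [Fintype μ] (d : ℕ)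
    (p : κ → ℝ) (a : κ → Finset ι → ℝ) (q : μ → ℝ) (b : μ → Finset ι → ℝ)
    (hp : ∀ k, 0 < p k) (hp1 : ∑ k, p k = 1) (hq : ∀ k, 0 < q k) (hq1 : ∑ k, q k = 1)
    (hda : ∀ j S, a j S ≠ 0 → S.card ≤ d) (hdb : ∀ l S, b l S ≠ 0 → S.card ≤ d)
    (ha : ∀ k, ∑ S, (a k S) ^ 2 = 1) (hb : ∀ k, ∑ S, (b k S) ^ 2 = 1)
    (θ : ℝ) (hθ : 0 < θ)
    (hia : ∀ i, ∑ k, p k * infl i (a k) ≤ θ ^ 2) (hib : ∀ i, ∑ k, q k * infl i (b k) ≤ θ ^ 2)
    (hab : ∀ j l x, ev (a j) x * ev (b l) x = 0) :
    1 ≤ 4 * ((d ^ 2 * (d * (d + 1)) : ℕ) : ℝ) * θ := by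
  obtain ⟨τ, hτ, hs1, hs2⟩ := exists_tree d d a b hda hdb hab
  have e1 := osss _ τ hτ (dens p a) (2 * θ) (by positivity)
    (fun i => dens_inf p a hp hp1 ha θ hθ i (hia i))
  have e2 := osss _ τ hτ (dens q b) (2 * θ) (by positivity)
    (fun i => dens_inf q b hq hq1 hb θ hθ i (hib i))
  rw [avg_dens p a hp1 ha] at e1
  rw [avg_dens q b hq1 hb] at e2
  have z1 : (fun x => dens p a x * ind τ x) = fun _ => (0:ℝ) := by
    funext x
    unfold ind
    split_ifs with hx
    · have : dens p a x = 0 := by
        unfold dens
        refine Finset.sum_eq_zero (fun k _ => ?_)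
        rw [hs1 x hx k]
        ring
      rw [this, zero_mul]
    · ring
  have z2 : (fun x => dens q b x * ind τ x) = dens q b := by
    funext x
    unfold ind
    split_ifs with hx
    · ring
    · have hx' : τ x = false := by simpa using hx
      have : dens q b x = 0 := by
        unfold dens
        refine Finset.sum_eq_zero (fun k _ => ?_)
        rw [hs2 x hx' k]
        ring
      rw [this, zero_mul]
  rw [z1, avg_const] at e1
  rw [z2, avg_dens q b hq1 hb] at e2
  have f1 := (abs_le.mp e1).1
  have f2 := (abs_le.mp e2).2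
  linarith

end Cube

/-- For some c>0 and C, whenever two finite distributions of multilinear polynomials of degree ≤ d with unit L2 norm have every average influence ≤ c/(d+1)^C, some f and g in their supports and some sign vector x satisfy f(x)g(x) ≠ 0. -/
theorem result :
    ∃ c : ℝ, 0 < c ∧ ∃ C : ℕ, ∀ d N m n : ℕ,
      ∀ p : Fin m → ℝ, ∀ f : Fin m → Finset (Fin N) → ℝ,
      ∀ q : Fin n → ℝ, ∀ g : Fin n → Finset (Fin N) → ℝ,
      (∀ k, 0 < p k) → (∑ k, p k = 1) →
      (∀ k, 0 < q k) → (∑ k, q k = 1) →
      (∀ k S, f k S ≠ 0 → S.card ≤ d) →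
      (∀ k S, g k S ≠ 0 → S.card ≤ d) →
      (∀ k, ∑ S, (f k S) ^ 2 = 1) →
      (∀ k, ∑ S, (g k S) ^ 2 = 1) →
      (∀ i : Fin N, ∑ k, p k * ∑ S ∈ Finset.univ.filter (fun S : Finset (Fin N) => i ∈ S), (f k S) ^ 2
          ≤ c / ((d : ℝ) + 1) ^ C) →
      (∀ i : Fin N, ∑ k, q k * ∑ S ∈ Finset.univ.filter (fun S : Finset (Fin N) => i ∈ S), (g k S) ^ 2
          ≤ c / ((d : ℝ) + 1) ^ C) →
      ∃ k : Fin m, ∃ l : Fin n, ∃ x : Fin N → ℝ, (∀ i, x i = 1 ∨ x i = -1) ∧
        (∑ S, f k S * ∏ i ∈ S, x i) * (∑ S, g l S * ∏ i ∈ S, x i) ≠ 0 := by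
  refine ⟨1 / 64, by norm_num, 8, ?_⟩
  intro d N m n p f q g hp hp1 hq hq1 hdf hdg hf hg hif hig
  by_contra hcon
  push Not at hcon
  have hab : ∀ k l x, ev (f k) x * ev (g l) x = 0 := by
    intro k l x
    exact hcon k l (fun i => sg (x i)) (fun i => by cases x i <;> simp [sg])
  have hd1 : (0:ℝ) < (d:ℝ) + 1 := by positivity
  have hθ : (0:ℝ) < 1 / (8 * ((d:ℝ) + 1) ^ 4) := by positivity
  have hθ2 : (1:ℝ) / 64 / ((d:ℝ) + 1) ^ 8 = (1 / (8 * ((d:ℝ) + 1) ^ 4)) ^ 2 := by
    field_simp
    norm_num
  have hmain := main_bound d p f q g hp hp1 hq hq1 hdf hdg hf hg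
    (1 / (8 * ((d:ℝ) + 1) ^ 4)) hθ
    (fun i => by rw [← hθ2]; exact hif i) (fun i => by rw [← hθ2]; exact hig i) hab
  have hD : (((d ^ 2 * (d * (d + 1)) : ℕ)) : ℝ) ≤ ((d:ℝ) + 1) ^ 4 := by
    push_cast
    have h0 : (0:ℝ) ≤ (d:ℝ) := Nat.cast_nonneg d
    have h1 : (d:ℝ) ≤ (d:ℝ) + 1 := by linarith
    calc (d:ℝ) ^ 2 * ((d:ℝ) * ((d:ℝ) + 1)) = (d:ℝ) ^ 3 * ((d:ℝ) + 1) := by ring
      _ ≤ ((d:ℝ) + 1) ^ 3 * ((d:ℝ) + 1) := by gcongr
      _ = ((d:ℝ) + 1) ^ 4 := by ring
  have h2 : 4 * (((d ^ 2 * (d * (d + 1)) : ℕ)) : ℝ) * (1 / (8 * ((d:ℝ) + 1) ^ 4)) ≤ 1 / 2 := by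
    calc 4 * (((d ^ 2 * (d * (d + 1)) : ℕ)) : ℝ) * (1 / (8 * ((d:ℝ) + 1) ^ 4))
        ≤ 4 * ((d:ℝ) + 1) ^ 4 * (1 / (8 * ((d:ℝ) + 1) ^ 4)) := by gcongr
      _ = 1 / 2 := by field_simp; norm_num
  linarith

end Pool.Agent.S11709
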