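import Pool.Statements.S11863
import Pool.Agent.H52.CD.All

set_option autoImplicit false
open Classical
open Pool Pool.MP_dcf703_co

namespace Pool.Agent.S11863

/-- For every Coxeter system, every reflection ordering and all u, v, the sum over Bruhat-graph paths from u to v of the ascent/descent monomials in a, b equals some polynomial in c = a+b, d = ab+ba with nonnegative integer coefficients. -/
theorem result :
  ∀ (B : Type) (M : CoxeterMatrix B) (W : Type) [Group W] (cs : CoxeterSystem M W)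
    (lt : W → W → Prop),
    (∀ x, ¬ lt x x) → (∀ x y z, lt x y → lt y z → lt x z) →
    (∀ x y, lt x y ∨ x = y ∨ lt y x) →
    (∀ α β : W, cs.IsReflection α → cs.IsReflection β → α ≠ β →
      (∀ t ∈ Subgroup.closure ({α, β} : Set W), cs.IsReflection t →
          cs.length (t * α) < cs.length α → t = α) →
      (∀ t ∈ Subgroup.closure ({α, β} : Set W), cs.IsReflection t →
          cs.length (t * β) < cs.length β → t = β) →
      lt α β →
      (orderOf (α * β) ≠ 0 → ∀ i j : ℕ, i < j → j < orderOf (α * β) →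
          lt ((α * β) ^ i * α) ((α * β) ^ j * α)) ∧
      (orderOf (α * β) = 0 →
        (∀ i j : ℕ, i < j → lt ((α * β) ^ i * α) ((α * β) ^ j * α)) ∧
        (∀ i j : ℕ, i < j → lt ((β * α) ^ j * β) ((β * α) ^ i * β)) ∧
        (∀ i j : ℕ, lt ((α * β) ^ i * α) ((β * α) ^ j * β)))) →
    ∀ u v : W, ∃ Φ : FreeAlgebra ℕ (Fin 2),
      (FreeAlgebra.lift ℕ (fun c : Fin 2 => if c = 0
          then FreeAlgebra.ι ℕ (0 : Fin 2) + FreeAlgebra.ι ℕ (1 : Fin 2)
          else FreeAlgebra.ι ℕ (0 : Fin 2) * FreeAlgebra.ι ℕ (1 : Fin 2)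
            + FreeAlgebra.ι ℕ (1 : Fin 2) * FreeAlgebra.ι ℕ (0 : Fin 2))) Φ =
      ∑ k ∈ Finset.range (cs.length v),
        ∑ᶠ (x : Fin (k + 2) → W) (_ : x 0 = u ∧ x (Fin.last (k + 1)) = v ∧
            ∀ i : Fin (k + 1), cs.IsReflection ((x i.castSucc)⁻¹ * x i.succ) ∧
              cs.length (x i.castSucc) < cs.length (x i.succ)),
          (List.ofFn (fun i : Fin k =>
            if lt ((x i.castSucc.castSucc)⁻¹ * x i.castSucc.succ)
                  ((x i.succ.castSucc)⁻¹ * x i.succ.succ)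
            then FreeAlgebra.ι ℕ (0 : Fin 2) else FreeAlgebra.ι ℕ (1 : Fin 2))).prod := by
  exact Pool.Agent.H52.CD.frozen Pool.Agent.H52.CD.cd_geom Pool.Agent.H52.CD.root Pool.Agent.H52.CD.modl
    Pool.Agent.H52.CD.dihg Pool.Agent.H52.CD.cd_froz Pool.Agent.H52.CD.symm Pool.Agent.H52.CD.cd_genx
    Pool.Agent.H52.CD.cd_lowt Pool.Agent.H52.CD.posi Pool.Agent.H52.CD.abcd Pool.Agent.H52.CD.cd_abmap
    Pool.Agent.H52.CD.cd_fral

end Pool.Agent.S11863
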