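import Pool.Statements.S12077
import Pool.Agent.H58.NRThread
import Pool.Agent.H53.NRGraph

set_option autoImplicit false
open Pool Pool.MP_e45a60_co

namespace Pool.Agent.S12077

/-- Every finite graph G has a subdivision, realised inside a finite graph H, such that H is nonrepetitively 4-choosable. That is, from any lists of at least 4 colours one can colour H so that no path on 2t vertices has its first half coloured identically to its second half. -/
theorem result :
    ∀ (V : Type) [Fintype V] (G : SimpleGraph V),
      ∃ (W : Type) (_ : Fintype W) (H : SimpleGraph W) (f : V → W)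
        (P : ∀ u v : V, G.Adj u v → H.Walk (f u) (f v)),
        Function.Injective f ∧
        (∀ (u v : V) (h : G.Adj u v), (P u v h).IsPath) ∧
        (∀ (u v : V) (h : G.Adj u v) (x : V),
            f x ∈ (P u v h).support → x = u ∨ x = v) ∧
        (∀ (u v : V) (h : G.Adj u v) (u' v' : V) (h' : G.Adj u' v') (w : W),
            w ∈ (P u v h).support → w ∈ (P u' v' h').support →
              (∃ x, f x = w) ∨ (u = u' ∧ v = v') ∨ (u = v' ∧ v = u')) ∧
        (∀ L : W → Finset ℕ, (∀ w, 4 ≤ (L w).card) →
          ∃ c : W → ℕ, (∀ w, c w ∈ L w) ∧
            ∀ (a b : W) (p : H.Walk a b) (t : ℕ), p.IsPath → 0 < t →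
              p.length = 2 * t - 1 →
                ∃ i < t, c (p.getVert i) ≠ c (p.getVert (i + t))) := by
  exact Pool.Agent.H53.NR.assembly Pool.Agent.H58.NR.threadThm

end Pool.Agent.S12077
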