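import Pool.Statements.S12144
import Pool.Agent.H15.AL.F
import Pool.Agent.H52.AL.Gain

set_option autoImplicit false
open Classical
open Pool Pool.MP_e7e7e6_co

namespace Pool.Agent.S12144

/-- The negation of the preceding statement: For every ε>0, a uniformly random permutation of length n ≥ (1+ε)k²/4 contains every permutation of length k as a pattern with probability tending to 1 as k → ∞. -/
theorem result :
    ¬ (∀ ε : ℝ, 0 < ε → ∀ δ : ℝ, 0 < δ → ∃ K : ℕ, ∀ k : ℕ, K ≤ k → ∀ n : ℕ,
      (1 + ε) * ((k : ℝ) ^ 2 / 4) ≤ (n : ℝ) →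
      (1 - δ) * ((Nat.factorial n : ℕ) : ℝ) ≤
        (((Finset.univ : Finset (Equiv.Perm (Fin n))).filter
          (fun σ : Equiv.Perm (Fin n) =>
            ∀ π : Equiv.Perm (Fin k), ∃ f : Fin k ↪o Fin n,
              ∀ i j : Fin k, (π i < π j ↔ σ (f i) < σ (f j)))).card : ℝ)) := by
  exact Pool.H15.AL.final (fun X Y q h0 h1 M r => Pool.H52.AL.gain X Y q h0 h1 M r)

end Pool.Agent.S12144
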