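import Pool.Statements.S12266

set_option autoImplicit false
open Pool Pool.MP_ed2cb0_co

namespace Pool.Agent.S12266

/-- Adjacency masks of the witness graph on nine vertices. -/
def mask : Fin 9 → ℕ := ![480, 472, 440, 214, 302, 341, 171, 79, 55]

/-- The witness graph on nine vertices. -/
def W : SimpleGraph (Fin 9) where
  Adj i j := Nat.testBit (mask i) j.val = true
  symm := ⟨by decide⟩
  loopless := ⟨by decide⟩

instance : DecidableRel W.Adj := fun i j => inferInstanceAs (Decidable (Nat.testBit (mask i) j.val = true))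

/-- Irredundance, verbatim as in the frozen statement. -/
abbrev Irr (D : Finset (Fin 9)) : Prop :=
  ∀ v ∈ D, ∃ w : Fin 9, (w = v ∨ W.Adj v w) ∧ ∀ u ∈ D, u ≠ v → ¬ (w = u ∨ W.Adj u w)

/-- The seven IR-sets, listed along the path. -/
def sets : Fin 7 → Finset (Fin 9) :=
  ![{1,3,6}, {1,6,7}, {0,1,7}, {0,1,2}, {0,2,8}, {2,5,8}, {2,4,5}]

set_option maxRecDepth 100000 in
theorem irr_card : ∀ F : Finset (Fin 9), Irr F → F.card ≤ 3 := by decide +kernel

set_option maxRecDepth 100000 in
theorem irr_sets : ∀ F : Finset (Fin 9), Irr F → F.card = 3 → ∃ i, sets i = F := by decide +kernel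

theorem sets_irr : ∀ i, Irr (sets i) := by decide +kernel

theorem sets_card : ∀ i, (sets i).card = 3 := by decide +kernel

theorem sets_inj : Function.Injective sets := by unfold Function.Injective; decide +kernel

theorem sets_adj : ∀ i j : Fin 7,
    ((∃ u v : Fin 9, sets i \ sets j = {u} ∧ sets j \ sets i = {v} ∧ W.Adj u v) ∨
     (∃ u v : Fin 9, sets j \ sets i = {u} ∧ sets i \ sets j = {v} ∧ W.Adj u v)) ↔
    (i.val + 1 = j.val ∨ j.val + 1 = i.val) := by decide +kernel

/-- The negation of the preceding statement: Every finite connected claw-free graph isomorphic to the slide IR-graph of some finite graph G is isomorphic to a complete graph or to K_m □ K_k with m, k ≥ 2. -/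
theorem result :
    ¬ (∀ (n : ℕ) (H : SimpleGraph (Fin n)), H.Connected →
    (∀ a b c d : Fin n, H.Adj a b → H.Adj a c → H.Adj a d → b ≠ c → b ≠ d → c ≠ d →
        H.Adj b c ∨ H.Adj b d ∨ H.Adj c d) →
    (∃ (p : ℕ) (G : SimpleGraph (Fin p)),
      Nonempty (H ≃g SimpleGraph.fromRel
        (fun (D E : {D : Finset (Fin p) //
            (∀ v ∈ D, ∃ w : Fin p, (w = v ∨ G.Adj v w) ∧
                ∀ u ∈ D, u ≠ v → ¬ (w = u ∨ G.Adj u w)) ∧
            ∀ F : Finset (Fin p),
              (∀ v ∈ F, ∃ w : Fin p, (w = v ∨ G.Adj v w) ∧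
                  ∀ u ∈ F, u ≠ v → ¬ (w = u ∨ G.Adj u w)) →
              F.card ≤ D.card}) =>
          ∃ u v : Fin p, D.1 \ E.1 = {u} ∧ E.1 \ D.1 = {v} ∧ G.Adj u v))) →
    (∃ k : ℕ, Nonempty (H ≃g (⊤ : SimpleGraph (Fin k)))) ∨
    (∃ m k : ℕ, 2 ≤ m ∧ 2 ≤ k ∧
      Nonempty (H ≃g SimpleGraph.boxProd (⊤ : SimpleGraph (Fin m)) (⊤ : SimpleGraph (Fin k))))) := by
  intro h
  have key := h 7 (SimpleGraph.pathGraph 7) (SimpleGraph.pathGraph_connected 6) ?_ ?_
  · rcases key with ⟨k, ⟨e⟩⟩ | ⟨m, k, hm, hk, ⟨e⟩⟩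
    · have h02 : (SimpleGraph.pathGraph 7).Adj 0 2 := by
        rw [← e.map_adj_iff]
        simp only [SimpleGraph.top_adj, ne_eq, EmbeddingLike.apply_eq_iff_eq]
        decide
      rw [SimpleGraph.pathGraph_adj] at h02
      revert h02
      decide
    · have hc := Fintype.card_congr e.toEquiv
      simp only [Fintype.card_fin, Fintype.card_prod] at hc
      have hp : Nat.Prime 7 := by norm_num
      rw [hc] at hp
      exact Nat.not_prime_mul (by omega) (by omega) hp
  · intro a b c d hab hac had hbc hbd hcd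
    rw [SimpleGraph.pathGraph_adj] at hab hac had
    exfalso
    have h1 : b.val ≠ c.val := fun h => hbc (Fin.ext h)
    have h2 : b.val ≠ d.val := fun h => hbd (Fin.ext h)
    have h3 : c.val ≠ d.val := fun h => hcd (Fin.ext h)
    omega
  · refine ⟨9, W, ⟨?_⟩⟩
    have hmax : ∀ i : Fin 7, ∀ F : Finset (Fin 9), Irr F → F.card ≤ (sets i).card := by
      intro i F hF
      rw [sets_card i]
      exact irr_card F hF
    refine ⟨Equiv.ofBijective (fun i => ⟨sets i, sets_irr i, hmax i⟩) ⟨?_, ?_⟩, ?_⟩
    · intro i j hij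
      exact sets_inj (Subtype.ext_iff.mp hij)
    · rintro ⟨D, hD, hDmax⟩
      have h3 : D.card = 3 := by
        apply le_antisymm (irr_card D hD)
        have := hDmax (sets 0) (sets_irr 0)
        rw [sets_card 0] at this
        exact this
      obtain ⟨i, hi⟩ := irr_sets D hD h3
      exact ⟨i, Subtype.ext hi⟩
    · intro i j
      rw [SimpleGraph.fromRel_adj, SimpleGraph.pathGraph_adj]
      constructor
      · rintro ⟨_, h⟩
        exact (sets_adj i j).mp h
      · intro h
        refine ⟨?_, (sets_adj i j).mpr h⟩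
        intro he
        have h2 : i = j := sets_inj (Subtype.ext_iff.mp he)
        subst h2
        omega

end Pool.Agent.S12266
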