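import Pool.Statements.S12273
import Pool.Agent.H59.KM15

set_option autoImplicit false
open Pool Pool.MP_eddea8_co

namespace Pool.Agent.S12273

lemma exists_mu (k l : ℕ) (hk : 0 < k) (G : Type) [AddCommGroup G] [Fintype G]
    [DecidableEq G] : ∃ A : Finset G, Pool.Agent.H59.KL.SF k l A ∧
      (Finset.univ.filter (fun A : Finset G =>
        Disjoint ((Fintype.piFinset (fun _ : Fin k => A)).image (fun f : Fin k → G => ∑ i, f i))
          ((Fintype.piFinset (fun _ : Fin l => A)).image (fun f : Fin l → G => ∑ i, f i)))).sup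
        Finset.card = A.card := by
  obtain ⟨A, hA, hAc⟩ := Finset.exists_mem_eq_sup (Finset.univ.filter (fun A : Finset G =>
    Disjoint ((Fintype.piFinset (fun _ : Fin k => A)).image (fun f : Fin k → G => ∑ i, f i))
      ((Fintype.piFinset (fun _ : Fin l => A)).image (fun f : Fin l → G => ∑ i, f i))))
    (by
      refine ⟨∅, ?_⟩
      rw [Finset.mem_filter, Pool.Agent.H59.KL.sf_iff]
      exact ⟨Finset.mem_univ _, Pool.Agent.H59.KG.sf_empty k l hk⟩) Finset.card
  rw [Finset.mem_filter, Pool.Agent.H59.KL.sf_iff] at hA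
  exact ⟨A, hA.2, hAc⟩

lemma le_mu (k l : ℕ) (G : Type) [AddCommGroup G] [Fintype G] [DecidableEq G] (A : Finset G)
    (hA : Pool.Agent.H59.KL.SF k l A) : A.card ≤
      (Finset.univ.filter (fun A : Finset G =>
        Disjoint ((Fintype.piFinset (fun _ : Fin k => A)).image (fun f : Fin k → G => ∑ i, f i))
          ((Fintype.piFinset (fun _ : Fin l => A)).image (fun f : Fin l → G => ∑ i, f i)))).sup
        Finset.card := by
  apply Finset.le_sup (f := Finset.card)
  rw [Finset.mem_filter, Pool.Agent.H59.KL.sf_iff]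
  exact ⟨Finset.mem_univ _, hA⟩

/-- For every finite abelian group G of exponent κ and all k>l≥1, the max size of A⊆G with k-fold and l-fold sumsets disjoint, times κ, equals the same max in Z_κ times ∣G∣. -/
theorem result :
    ∀ (G : Type) [AddCommGroup G] [Fintype G] [DecidableEq G] (κ : ℕ) [NeZero κ],
      AddMonoid.exponent G = κ →
      ∀ k l : ℕ, 0 < l → l < k →
        ((Finset.univ.filter (fun A : Finset G =>
            Disjoint ((Fintype.piFinset (fun _ : Fin k => A)).image (fun f : Fin k → G => ∑ i, f i))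
                     ((Fintype.piFinset (fun _ : Fin l => A)).image (fun f : Fin l → G => ∑ i, f i)))).sup
            Finset.card) * κ
        = ((Finset.univ.filter (fun A : Finset (ZMod κ) =>
            Disjoint ((Fintype.piFinset (fun _ : Fin k => A)).image (fun f : Fin k → ZMod κ => ∑ i, f i))
                     ((Fintype.piFinset (fun _ : Fin l => A)).image (fun f : Fin l → ZMod κ => ∑ i, f i)))).sup
            Finset.card) * Fintype.card G := by
  intro G _ _ _ κ _ hexp k l hl hlk
  apply le_antisymm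
  · obtain ⟨A, hA, hAc⟩ := exists_mu k l (by omega) G
    have h1 := Pool.Agent.H59.KM.upper_all G κ (NeZero.ne κ) (by
      intro x; rw [← hexp]; exact AddMonoid.exponent_nsmul_eq_zero x) k l hl hlk A hA
    obtain ⟨B, hB, hBc⟩ := Pool.Agent.H59.KM.exists_mz k l (by omega) κ (NeZero.ne κ)
    rw [hAc]
    refine h1.trans ?_
    rw [← hBc]
    exact Nat.mul_le_mul_right _ (le_mu k l (ZMod κ) B hB)
  · obtain ⟨B, hB, hBc⟩ := exists_mu k l (by omega) (ZMod κ)
    obtain ⟨f, hf⟩ := Pool.Agent.H59.KG.exists_surj G κ hexp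
    obtain ⟨A, hA, hAc⟩ := Pool.Agent.H59.KG.pull f hf k l B hB
    rw [ZMod.card] at hAc
    rw [hBc, ← hAc]
    exact Nat.mul_le_mul_right _ (le_mu k l G A hA)

end Pool.Agent.S12273
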