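import Pool.Statements.S12549
import Pool.Agent.H61.Gom.Main

set_option autoImplicit false
open Pool Pool.MP_fad43c_co

namespace Pool.Agent.S12549

/-- There is a first-player strategy on the infinite grid that always moves to free squares and, against any legal opponent, at some move completes 5 in a row (row, column or diagonal) before the opponent has completed one. -/
theorem result :
    ∃ σ : List (ℤ × ℤ) → ℤ × ℤ,
      ∀ p : ℕ → ℤ × ℤ,
        (∀ m : ℕ, p (2 * m) = σ (List.ofFn (fun i : Fin (2 * m) => p i))) →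
        (∀ m i : ℕ, i < 2 * m + 1 → p i ≠ p (2 * m + 1)) →
        (∀ m i : ℕ, i < 2 * m → p i ≠ p (2 * m)) ∧
        ∃ n : ℕ,
          (∃ a d : ℤ × ℤ,
              d ∈ ({((1 : ℤ), (0 : ℤ)), ((0 : ℤ), (1 : ℤ)), ((1 : ℤ), (1 : ℤ)),
                    ((1 : ℤ), (-1 : ℤ))} : Finset (ℤ × ℤ)) ∧
              ∀ k : ℕ, k < 5 → ∃ i : ℕ, i ≤ n ∧ p (2 * i) = a + (k : ℤ) • d) ∧
          ¬ (∃ b e : ℤ × ℤ,
              e ∈ ({((1 : ℤ), (0 : ℤ)), ((0 : ℤ), (1 : ℤ)), ((1 : ℤ), (1 : ℤ)),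
                    ((1 : ℤ), (-1 : ℤ))} : Finset (ℤ × ℤ)) ∧
              ∀ k : ℕ, k < 5 → ∃ i : ℕ, i < n ∧ p (2 * i + 1) = b + (k : ℤ) • e) := by
  obtain ⟨N, h⟩ := Pool.Agent.H61.Gom.win_start
  exact Pool.Agent.H61.Gom.final h

end Pool.Agent.S12549
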