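import Pool.Statements.S14050
import Pool.Agent.H72.Main

set_option autoImplicit false
open Pool Pool.MP_da03b0_gt

namespace Pool.Agent.S14050

/-- The negation of the preceding statement: For n ≥ 2 and any A in ℝⁿ of covering dimension at most n−2, any two distinct points outside A lie in a compact connected set avoiding A whose covering dimension is exactly 1. -/
theorem result :
    ¬ (∀ n : ℕ, 2 ≤ n → ∀ A : Set (EuclideanSpace ℝ (Fin n)),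
      (∀ 𝒰 : Finset (Set (EuclideanSpace ℝ (Fin n))), (∀ U ∈ 𝒰, IsOpen U) → A ⊆ ⋃₀ (↑𝒰 : Set (Set (EuclideanSpace ℝ (Fin n)))) →
        ∃ 𝒱 : Finset (Set (EuclideanSpace ℝ (Fin n))),
          (∀ V ∈ 𝒱, IsOpen V ∧ ∃ U ∈ 𝒰, V ∩ A ⊆ U) ∧
          A ⊆ ⋃₀ (↑𝒱 : Set (Set (EuclideanSpace ℝ (Fin n)))) ∧
          ∀ z ∈ A, {V | V ∈ 𝒱 ∧ z ∈ V}.ncard ≤ (n - 2) + 1) →
      ∀ x y : EuclideanSpace ℝ (Fin n), x ∉ A → y ∉ A → x ≠ y →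
        ∃ C : Set (EuclideanSpace ℝ (Fin n)),
          IsCompact C ∧ IsConnected C ∧ x ∈ C ∧ y ∈ C ∧ C ⊆ Aᶜ ∧
          (∀ 𝒰 : Finset (Set (EuclideanSpace ℝ (Fin n))), (∀ U ∈ 𝒰, IsOpen U) → C ⊆ ⋃₀ (↑𝒰 : Set (Set (EuclideanSpace ℝ (Fin n)))) →
            ∃ 𝒱 : Finset (Set (EuclideanSpace ℝ (Fin n))),
              (∀ V ∈ 𝒱, IsOpen V ∧ ∃ U ∈ 𝒰, V ∩ C ⊆ U) ∧
              C ⊆ ⋃₀ (↑𝒱 : Set (Set (EuclideanSpace ℝ (Fin n)))) ∧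
              ∀ z ∈ C, {V | V ∈ 𝒱 ∧ z ∈ V}.ncard ≤ 1 + 1) ∧
          ¬ (∀ 𝒰 : Finset (Set (EuclideanSpace ℝ (Fin n))), (∀ U ∈ 𝒰, IsOpen U) → C ⊆ ⋃₀ (↑𝒰 : Set (Set (EuclideanSpace ℝ (Fin n)))) →
            ∃ 𝒱 : Finset (Set (EuclideanSpace ℝ (Fin n))),
              (∀ V ∈ 𝒱, IsOpen V ∧ ∃ U ∈ 𝒰, V ∩ C ⊆ U) ∧
              C ⊆ ⋃₀ (↑𝒱 : Set (Set (EuclideanSpace ℝ (Fin n)))) ∧
              ∀ z ∈ C, {V | V ∈ 𝒱 ∧ z ∈ V}.ncard ≤ 0 + 1)) := by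
  intro hmain
  have e0 : EuclideanSpace ℝ (Fin 3) ≃L[ℝ] ℂ × ℝ :=
    ContinuousLinearEquiv.ofFinrankEq (by simp)
  let e : EuclideanSpace ℝ (Fin 3) ≃ₜ ℂ × ℝ := e0.toHomeomorph
  have hdim : Pool.Agent.H72.DimLe (e ⁻¹' Pool.Agent.H72.AA) 1 :=
    Pool.Agent.H72.DimLe.transfer Pool.Agent.H72.dimLe_AA e e.continuous (fun x hx => hx)
      e.symm e.symm.continuous.continuousOn
      (fun y hy => by
        change e (e.symm y) ∈ Pool.Agent.H72.AA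
        rw [e.apply_symm_apply]
        exact hy)
      (fun x _ => e.symm_apply_apply x)
  have hx : e.symm ((0 : ℂ), (5 : ℝ)) ∉ e ⁻¹' Pool.Agent.H72.AA := by
    intro h
    have h1 : e (e.symm ((0 : ℂ), (5 : ℝ))) ∈ Pool.Agent.H72.AA := h
    rw [e.apply_symm_apply] at h1
    have h2 : Pool.Agent.H72.phi (Pool.Agent.H72.prox 0 5) = 5 := h1.1
    have h3 := Pool.Agent.H72.phi_le (Pool.Agent.H72.prox 0 5)
    linarith
  have hy : e.symm ((0 : ℂ), (-1 : ℝ)) ∉ e ⁻¹' Pool.Agent.H72.AA := by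
    intro h
    have h1 : e (e.symm ((0 : ℂ), (-1 : ℝ))) ∈ Pool.Agent.H72.AA := h
    rw [e.apply_symm_apply] at h1
    have h2 : Pool.Agent.H72.phi (Pool.Agent.H72.prox 0 (-1)) = -1 := h1.1
    have h3 := Pool.Agent.H72.phi_nonneg (Pool.Agent.H72.prox 0 (-1))
    linarith
  have hne : e.symm ((0 : ℂ), (5 : ℝ)) ≠ e.symm ((0 : ℂ), (-1 : ℝ)) := by
    intro h
    have h1 := congrArg Prod.snd (e.symm.injective h)
    norm_num at h1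
  obtain ⟨C, hCc, hCconn, hxC, hyC, hCA, hC1, _⟩ := hmain 3 (by norm_num)
    (e ⁻¹' Pool.Agent.H72.AA) hdim _ _ hx hy hne
  exact Pool.Agent.H72.not_dimLe_of_continuum e C hCc hCconn.isPreconnected
    (fun p hp hpA => hCA hp hpA) hxC hyC hC1

end Pool.Agent.S14050
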