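-- Proof of the frozen statement S14073: the KLS hyperplane conjecture for symmetric convex bodies.
import Pool.Statements.S14073
import Pool.Agent.H20.KF.Full

set_option autoImplicit false
open MeasureTheory
open scoped ENNReal NNReal
open Pool Pool.MP_dc1397_gt

namespace Pool.Agent.S14073

/-- There is a constant C such that for every open bounded convex origin-symmetric domain in R^n, any half-volume set minimizing boundary area inside it has boundary area at least 1/C times the smallest central hyperplane section area. -/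
theorem result :
    ∃ C : ℝ≥0, ∀ (n : ℕ) (Ω E : Set (EuclideanSpace ℝ (Fin n))),
      IsOpen Ω → Convex ℝ Ω → Bornology.IsBounded Ω →
      (∀ x ∈ Ω, -x ∈ Ω) → 0 < volume Ω →
      MeasurableSet E → E ⊆ Ω → volume E = volume Ω / 2 →
      (∀ F : Set (EuclideanSpace ℝ (Fin n)), MeasurableSet F → F ⊆ Ω →
          volume F = volume Ω / 2 →
          μH[(n : ℝ) - 1] (Ω ∩ frontier E) ≤ μH[(n : ℝ) - 1] (Ω ∩ frontier F)) →
      ∃ a : EuclideanSpace ℝ (Fin n), a ≠ 0 ∧
        μH[(n : ℝ) - 1] {x | x ∈ Ω ∧ inner ℝ a x = (0 : ℝ)}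
          ≤ (C : ℝ≥0∞) * μH[(n : ℝ) - 1] (Ω ∩ frontier E) := by
  exact Pool.Agent.H20.KF.frozen_of Pool.Agent.H20.KF.kls_all

end Pool.Agent.S14073
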