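import Pool.Statements.S14417

/-!
ZFC proof that the family of positivity sets has cardinality `2 ^ continuum`.

For `X` a set of naturals, `PP X` is the Cantor-type set of all reals `∑ d_j * eps (j+1)` with
digits `0 ≤ d_j < M j` for `j ∈ X` and `d_j = 0` for `j ∉ X`, where `eps j = 2 ^ (-4 ^ j)` and
`M j = 2 ^ (4 ^ j + j)`.  The gauge `gf X` is (a concave version of) the natural gauge of `PP X`, so
`PP X` has positive `gf X`-measure by the mass distribution principle.  If `X \ Y` is infinite, every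
point of `PP Y` has vanishing `j`-th digit for infinitely many `j ∈ X`, and the set `GG X` of all
such points is `gf X`-null.  Taking an almost disjoint family `XX a` (`a : ℕ → Bool`), the union of
the sets `PP (XX b)`, `b ∈ S`, has positive `gf (XX a)`-measure iff `a ∈ S`.
-/

set_option autoImplicit false
open scoped NNReal ENNReal
open Pool Pool.MP_173f50_lc
open MeasureTheory Set Filter

namespace Pool.Agent.S14417

/-- spatial scale -/
noncomputable def eps (n : ℕ) : ℝ := (1/2 : ℝ) ^ (4 ^ n)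

/-- number of digits -/
def M (n : ℕ) : ℕ := 2 ^ (4 ^ n + n)

/-- `M n * eps (n+1)` -/
noncomputable def tt (n : ℕ) : ℝ := (M n : ℝ) * eps (n + 1)

lemma eps_pos (n : ℕ) : 0 < eps n := by unfold eps; positivity
lemma M_pos (n : ℕ) : 0 < M n := by unfold M; positivity
lemma tt_pos (n : ℕ) : 0 < tt n := by
  unfold tt
  have := M_pos n
  have := eps_pos (n+1)
  positivity

lemma eps_anti {m n : ℕ} (h : m ≤ n) : eps n ≤ eps m := by
  unfold eps
  apply pow_le_pow_of_le_one (by norm_num) (by norm_num)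
  exact Nat.pow_le_pow_right (by norm_num) h

lemma eps_zero_le : eps 0 = 1/2 := by unfold eps; norm_num

lemma lt_four_pow (n : ℕ) : n + 1 ≤ 4 ^ n := by
  have := Nat.lt_pow_self (n := n) (show 1 < 4 by norm_num)
  omega

lemma two_mul_lt (n : ℕ) : n + 2 ≤ 2 * 4 ^ n := by
  have := lt_four_pow n
  omega

/-- key estimate: `4 * tt n ≤ eps n`. -/
lemma tt_le_eps (n : ℕ) : 4 * tt n ≤ eps n := by
  have h1 := two_mul_lt n
  unfold tt eps M
  have h4 : 4 ^ (n+1) = (4 ^ n + (n + 2 + 4 ^n )) + (2 * 4 ^ n - (n + 2)) := by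
    rw [pow_succ]; omega
  rw [h4, pow_add (1/2 : ℝ) (4 ^ n + _), pow_add (1/2:ℝ) (4^n)]
  have h5 : (1/2:ℝ) ^ (2 * 4 ^ n - (n + 2)) ≤ 1 := pow_le_one₀ (by norm_num) (by norm_num)
  have h6 : (4:ℝ) * ((2 ^ (4 ^ n + n) : ℕ) : ℝ) * (1/2 : ℝ) ^ (n + 2 + 4 ^ n) = 1 := by
    push_cast
    have : (4:ℝ) * 2 ^ (4 ^ n + n) = 2 ^ (n + 2 + 4 ^ n) := by
      rw [show n + 2 + 4 ^ n = 2 + (4 ^ n + n) by ring, pow_add (2:ℝ) 2]; norm_num
    rw [this, ← mul_pow]; norm_num
  have h7 : 0 < (1/2 : ℝ) ^ 4 ^ n := by positivity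
  calc 4 * (((2 ^ (4 ^ n + n) : ℕ) : ℝ) * ((1 / 2 : ℝ) ^ 4 ^ n * (1 / 2) ^ (n + 2 + 4 ^ n) * (1 / 2) ^ (2 * 4 ^ n - (n + 2))))
      = (4:ℝ) * ((2 ^ (4 ^ n + n) : ℕ) : ℝ) * (1/2 : ℝ) ^ (n + 2 + 4 ^ n) * ((1/2 : ℝ) ^ 4 ^ n) * (1 / 2) ^ (2 * 4 ^ n - (n + 2)) := by ring
    _ ≤ (1/2:ℝ) ^ 4 ^ n := by
        rw [h6]; nlinarith

lemma tt_half (n : ℕ) : tt (n+1) ≤ tt n / 2 := by
  have h1 := tt_le_eps (n+1)
  have h2 : eps (n+1) ≤ tt n := by
    unfold tt
    have : (1:ℝ) ≤ M n := by exact_mod_cast M_pos n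
    nlinarith [eps_pos (n+1)]
  have := tt_pos n
  linarith

lemma tt_geom (n i : ℕ) : tt (i + n) ≤ tt n * (1/2)^i := by
  induction i with
  | zero => simp
  | succ i ih =>
    have := tt_half (i + n)
    rw [show i + 1 + n = (i + n) + 1 by ring, pow_succ]
    linarith

lemma summable_geom (n : ℕ) : Summable (fun i : ℕ => tt n * (1/2 : ℝ)^i) :=
  (summable_geometric_of_lt_one (by norm_num) (by norm_num)).mul_left _

lemma summable_tt (n : ℕ) : Summable (fun i => tt (i + n)) :=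
  Summable.of_nonneg_of_le (fun i => (tt_pos _).le) (fun i => tt_geom n i) (summable_geom n)

lemma tsum_tt (n : ℕ) : ∑' i, tt (i + n) ≤ 2 * tt n := by
  calc ∑' i, tt (i + n) ≤ ∑' i : ℕ, tt n * (1/2 : ℝ)^i :=
        (summable_tt n).tsum_le_tsum (fun i => tt_geom n i) (summable_geom n)
    _ = 2 * tt n := by
        rw [tsum_mul_left, tsum_geometric_of_lt_one (by norm_num) (by norm_num)]; ring

variable (X : Set ℕ)

open Classical in
/-- radix -/
noncomputable def R (j : ℕ) : ℕ := if j ∈ X then M j else 1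

lemma R_pos (j : ℕ) : 0 < R X j := by
  unfold R; split_ifs
  · exact M_pos j
  · norm_num

lemma R_le (j : ℕ) : R X j ≤ M j := by
  unfold R; split_ifs
  · exact le_rfl
  · exact M_pos j

/-- products of the radices -/
noncomputable def D (n : ℕ) : ℕ := ∏ j ∈ Finset.range n, R X j

lemma D_succ (n : ℕ) : D X (n+1) = D X n * R X n := by
  unfold D; rw [Finset.prod_range_succ]

lemma D_zero : D X 0 = 1 := by simp [D]

lemma D_pos (n : ℕ) : 0 < D X n := Finset.prod_pos (fun j _ => R_pos X j)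

lemma D_mono {m n : ℕ} (h : m ≤ n) : D X m ≤ D X n := by
  induction n, h using Nat.le_induction with
  | base => exact le_rfl
  | succ n _ ih =>
    rw [D_succ]
    exact ih.trans (Nat.le_mul_of_pos_right _ (R_pos X n))

/-- digits -/
noncomputable def dig (y : ℝ) (j : ℕ) : ℕ := ⌊y * D X (j+1)⌋₊ % R X j

lemma dig_lt (y : ℝ) (j : ℕ) : dig X y j < R X j := Nat.mod_lt _ (R_pos X j)

lemma dig_eq_zero (y : ℝ) {j : ℕ} (h : j ∉ X) : dig X y j = 0 := by
  have := dig_lt X y j
  unfold R at this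
  rw [if_neg h] at this
  omega

/-- the point with these digits -/
noncomputable def hh (y : ℝ) : ℝ := ∑' j, (dig X y j : ℝ) * eps (j + 1)

lemma dig_term_le (y : ℝ) (j : ℕ) : (dig X y j : ℝ) * eps (j + 1) ≤ tt j := by
  unfold tt
  have h1 : dig X y j ≤ M j := (dig_lt X y j).le.trans (R_le X j)
  have h2 : (dig X y j : ℝ) ≤ M j := by exact_mod_cast h1
  exact mul_le_mul_of_nonneg_right h2 (eps_pos _).le

lemma dig_term_nonneg (y : ℝ) (j : ℕ) : 0 ≤ (dig X y j : ℝ) * eps (j + 1) :=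
  mul_nonneg (Nat.cast_nonneg _) (eps_pos _).le

lemma summable_dig (y : ℝ) : Summable (fun j => (dig X y j : ℝ) * eps (j + 1)) :=
  Summable.of_nonneg_of_le (dig_term_nonneg X y) (dig_term_le X y) (by simpa using summable_tt 0)

/-- floors determined by the digits -/
lemma floor_eq (y z : ℝ) (h0 : ⌊y⌋₊ = ⌊z⌋₊) (n : ℕ) (h : ∀ j < n, dig X y j = dig X z j) :
    ⌊y * D X n⌋₊ = ⌊z * D X n⌋₊ := by
  induction n with
  | zero => simpa [D_zero] using h0
  | succ n ih =>
    have ih' := ih (fun j hj => h j (by omega))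
    have hn := h n (by omega)
    have key : ∀ x : ℝ, ⌊x * D X (n+1)⌋₊ = R X n * ⌊x * D X n⌋₊ + dig X x n := by
      intro x
      have h1 : ⌊x * D X (n+1)⌋₊ / R X n = ⌊x * D X n⌋₊ := by
        rw [← Nat.floor_div_natCast, D_succ]
        congr 1
        have : (R X n : ℝ) ≠ 0 := by exact_mod_cast (R_pos X n).ne'
        push_cast
        field_simp
      rw [← h1]
      unfold dig
      exact (Nat.div_add_mod _ _).symm
    rw [key y, key z, ih', hn]

lemma abs_tail_le (y z : ℝ) (j : ℕ) :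
    |∑' i, (((dig X y (i + (j+1)) : ℝ) - dig X z (i + (j+1))) * eps (i + (j+1) + 1))| ≤ eps (j+1) / 2 := by
  have hb : ∀ i, |((dig X y (i + (j+1)) : ℝ) - dig X z (i + (j+1))) * eps (i + (j+1) + 1)|
      ≤ tt (i + (j+1)) := by
    intro i
    have h1 := dig_term_le X y (i + (j+1))
    have h2 := dig_term_nonneg X y (i + (j+1))
    have h3 := dig_term_le X z (i + (j+1))
    have h4 := dig_term_nonneg X z (i + (j+1))
    rw [sub_mul, abs_le]
    constructor <;> linarith
  have hs : Summable (fun i => |((dig X y (i + (j+1)) : ℝ) - dig X z (i + (j+1))) * eps (i + (j+1) + 1)|) :=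
    Summable.of_nonneg_of_le (fun i => abs_nonneg _) hb (summable_tt (j+1))
  calc |∑' i, (((dig X y (i + (j+1)) : ℝ) - dig X z (i + (j+1))) * eps (i + (j+1) + 1))|
      ≤ ∑' i, |((dig X y (i + (j+1)) : ℝ) - dig X z (i + (j+1))) * eps (i + (j+1) + 1)| := by
        have := norm_tsum_le_tsum_norm (f := fun i => (((dig X y (i + (j+1)) : ℝ) - dig X z (i + (j+1))) * eps (i + (j+1) + 1))) hs
        simpa using this
    _ ≤ ∑' i, tt (i + (j+1)) := hs.tsum_le_tsum hb (summable_tt (j+1))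
    _ ≤ 2 * tt (j+1) := tsum_tt (j+1)
    _ ≤ eps (j+1) / 2 := by have := tt_le_eps (j+1); linarith

lemma dig_eq_of_close (y z : ℝ) (n : ℕ) (hyz : |hh X y - hh X z| < eps n / 2) :
    ∀ j < n, dig X y j = dig X z j := by
  intro j
  induction j using Nat.strong_induction_on with
  | _ j ih =>
    intro hj
    by_contra hne
    set c : ℕ → ℝ := fun i => ((dig X y i : ℝ) - dig X z i) * eps (i + 1) with hc
    have hsc : Summable c := by
      have := (summable_dig X y).sub (summable_dig X z)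
      refine this.congr ?_
      intro i
      simp only [hc]; ring
    have h1 : hh X y - hh X z = ∑' i, c i := by
      unfold hh
      rw [← (summable_dig X y).tsum_sub (summable_dig X z)]
      congr 1
      ext i
      simp only [hc]; ring
    have h2 := hsc.sum_add_tsum_nat_add (j+1)
    have h3 : ∑ i ∈ Finset.range (j+1), c i = c j := by
      rw [Finset.sum_range_succ, Finset.sum_eq_zero, zero_add]
      intro i hi
      have hi' := Finset.mem_range.1 hi
      have := ih i hi' (by omega)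
      simp only [hc, this]; ring
    have h4 : |∑' i, c (i + (j+1))| ≤ eps (j+1) / 2 := abs_tail_le X y z j
    have h5 : eps (j+1) ≤ |c j| := by
      simp only [hc]
      rw [abs_mul, abs_of_pos (eps_pos (j+1))]
      have : (1:ℝ) ≤ |(dig X y j : ℝ) - dig X z j| := by
        have h6 : ((dig X y j : ℤ) - dig X z j) ≠ 0 := by
          intro h
          apply hne
          omega
        have h7 := Int.one_le_abs h6
        exact_mod_cast h7
      nlinarith [eps_pos (j+1)]
    have h8 : |c j| ≤ |hh X y - hh X z| + |∑' i, c (i + (j+1))| := by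
      rw [h1, ← h2, h3]
      calc |c j| = |(c j + ∑' i, c (i + (j+1))) - ∑' i, c (i + (j+1))| := by rw [add_sub_cancel_right]
        _ ≤ _ := abs_sub _ _
    have h9 : eps n ≤ eps (j+1) := eps_anti (by omega)
    linarith



/-- coefficient of the linear term in the gauge -/
noncomputable def cc (n : ℕ) : ℝ≥0 := 2 * 2 ^ (4 ^ n)

lemma cc_eps (n : ℕ) : (cc n : ℝ) * (eps n / 2) = 1 := by
  unfold cc eps
  push_cast
  have : (2:ℝ) ^ 4 ^ n * (1/2) ^ 4 ^ n = 1 := by rw [← mul_pow]; norm_num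
  linarith

/-- the gauge function attached to `X` -/
noncomputable def gf (r : ℝ≥0) : ℝ≥0 := ⨅ n : ℕ, ((D X n : ℝ≥0)⁻¹ + r * cc n)

lemma gf_le (r : ℝ≥0) (n : ℕ) : gf X r ≤ (D X n : ℝ≥0)⁻¹ + r * cc n :=
  ciInf_le (OrderBot.bddBelow _) n

lemma gf_mono : Monotone (gf X) := by
  intro r s hrs
  unfold gf
  exact ciInf_mono (OrderBot.bddBelow _) (fun n => by gcongr)

lemma le_D_of_mem {n : ℕ} (h : n ∈ X) : M n ≤ D X (n+1) := by
  rw [D_succ]
  have h1 : R X n = M n := by unfold R; rw [if_pos h]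
  rw [h1]
  exact Nat.le_mul_of_pos_left _ (D_pos X n)

lemma pow_le_M (n : ℕ) : 2 ^ n ≤ M n := Nat.pow_le_pow_right (by norm_num) (Nat.le_add_left n _)

lemma gf_zero (hX : X.Infinite) : gf X 0 = 0 := by
  apply le_antisymm _ zero_le
  apply le_of_forall_pos_le_add
  intro ε hε
  rw [zero_add]
  obtain ⟨N, hN⟩ := exists_pow_lt_of_lt_one hε (show (1/2 : ℝ≥0) < 1 by
    rw [← NNReal.coe_lt_coe]; push_cast; norm_num)
  obtain ⟨n, hn, hNn⟩ := hX.exists_gt N
  have h1 := gf_le X 0 (n+1)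
  rw [zero_mul, add_zero] at h1
  have h2 : (D X (n+1) : ℝ≥0)⁻¹ ≤ (1/2)^N := by
    rw [one_div, inv_pow]
    apply inv_anti₀ (by positivity)
    have h3 : 2 ^ N ≤ D X (n+1) :=
      (Nat.pow_le_pow_right (by norm_num) hNn.le).trans ((pow_le_M n).trans (le_D_of_mem X hn))
    exact_mod_cast h3
  exact (h1.trans h2).trans hN.le

lemma gf_pos (r : ℝ≥0) (hr : 0 < r) : 0 < gf X r := by
  obtain ⟨N, hN⟩ := exists_nat_gt (r⁻¹)
  have h1 : ∀ n, N ≤ n → 1 ≤ r * cc n := by
    intro n hn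
    have h2 : (N : ℝ≥0) ≤ cc n := by
      have h3 : N ≤ 2 * 2 ^ (4 ^ n) := by
        have h4 : n < 2 ^ n := Nat.lt_two_pow_self
        have h5 : 2 ^ n ≤ 2 ^ (4 ^ n) := Nat.pow_le_pow_right (by norm_num) (by have := lt_four_pow n; omega)
        omega
      unfold cc
      exact_mod_cast h3
    have h3 : r⁻¹ ≤ cc n := hN.le.trans h2
    calc 1 = r * r⁻¹ := by rw [mul_inv_cancel₀ hr.ne']
      _ ≤ r * cc n := by gcongr
  have h2 : min ((D X N : ℝ≥0)⁻¹) 1 ≤ gf X r := by
    apply le_ciInf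
    intro n
    rcases le_total N n with h | h
    · exact (min_le_right _ _).trans ((h1 n h).trans (le_add_of_nonneg_left zero_le))
    · refine (min_le_left _ _).trans (le_trans ?_ (le_add_of_nonneg_right zero_le))
      apply inv_anti₀
      · exact_mod_cast D_pos X n
      · exact_mod_cast D_mono X h
  refine lt_of_lt_of_le ?_ h2
  apply lt_min
  · have : (0:ℝ≥0) < D X N := by exact_mod_cast D_pos X N
    positivity
  · exact one_pos

lemma gf_cont (x : ℝ≥0) : ContinuousWithinAt (gf X) (Set.Ici x) x := by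
  unfold ContinuousWithinAt
  rw [tendsto_order]
  constructor
  · intro a ha
    filter_upwards [self_mem_nhdsWithin] with y hy
    exact lt_of_lt_of_le ha (gf_mono X hy)
  · intro a ha
    obtain ⟨n, hn⟩ := exists_lt_of_ciInf_lt ha
    have hc : Continuous (fun y : ℝ≥0 => (D X n : ℝ≥0)⁻¹ + y * cc n) := by fun_prop
    have h1 : ∀ᶠ y in nhds x, (D X n : ℝ≥0)⁻¹ + y * cc n < a :=
      (hc.tendsto x).eventually (gt_mem_nhds hn)
    filter_upwards [mem_nhdsWithin_of_mem_nhds h1] with y hy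
    exact lt_of_le_of_lt (gf_le X y n) hy

/-- the set -/
noncomputable def PP : Set ℝ := hh X '' Set.Ico 0 1

/-- the pushforward outer measure -/
noncomputable def mu : OuterMeasure ℝ :=
  OuterMeasure.map (hh X) (OuterMeasure.restrict (Set.Ico 0 1) (volume : Measure ℝ).toOuterMeasure)

lemma mu_apply (s : Set ℝ) : mu X s = volume (hh X ⁻¹' s ∩ Set.Ico 0 1) := by
  unfold mu
  rw [OuterMeasure.map_apply, OuterMeasure.restrict_apply]
  rfl

lemma mu_le_one (s : Set ℝ) : mu X s ≤ 1 := by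
  rw [mu_apply]
  calc volume (hh X ⁻¹' s ∩ Set.Ico 0 1) ≤ volume (Set.Ico (0:ℝ) 1) := measure_mono Set.inter_subset_right
    _ = 1 := by simp

lemma mu_le_of_small (s : Set ℝ) (n : ℕ) (hs : Metric.ediam s < ENNReal.ofReal (eps n / 2)) :
    mu X s ≤ ((D X n : ℝ≥0)⁻¹ : ℝ≥0) := by
  rw [mu_apply]
  refine (Real.volume_le_diam _).trans ?_
  apply Metric.ediam_le
  intro y hy z hz
  have hD : (0:ℝ) < D X n := by exact_mod_cast D_pos X n
  have h1 : edist (hh X y) (hh X z) < ENNReal.ofReal (eps n / 2) :=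
    lt_of_le_of_lt (Metric.edist_le_ediam_of_mem hy.1 hz.1) hs
  rw [edist_dist, Real.dist_eq, ENNReal.ofReal_lt_ofReal_iff (by have := eps_pos n; positivity)] at h1
  have h2 := dig_eq_of_close X y z n h1
  have h0 : ⌊y⌋₊ = ⌊z⌋₊ := by
    rw [Nat.floor_eq_zero.2 hy.2.2, Nat.floor_eq_zero.2 hz.2.2]
  have h3 := floor_eq X y z h0 n h2
  have hy0 : 0 ≤ y * D X n := mul_nonneg hy.2.1 hD.le
  have hz0 : 0 ≤ z * D X n := mul_nonneg hz.2.1 hD.le
  have h4 : |y * D X n - z * D X n| ≤ 1 := by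
    have a1 := Nat.floor_le hy0
    have a2 := Nat.lt_floor_add_one (y * D X n)
    have b1 := Nat.floor_le hz0
    have b2 := Nat.lt_floor_add_one (z * D X n)
    rw [h3] at a1 a2
    rw [abs_le]; constructor <;> linarith
  rw [edist_dist, Real.dist_eq]
  have h5 : |y - z| ≤ (D X n : ℝ)⁻¹ := by
    rw [← sub_mul, abs_mul, abs_of_pos hD] at h4
    rw [← one_div, le_div_iff₀ hD]
    exact h4
  calc ENNReal.ofReal |y - z| ≤ ENNReal.ofReal ((D X n : ℝ)⁻¹) := ENNReal.ofReal_le_ofReal h5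
    _ = _ := by
      rw [← ENNReal.ofReal_coe_nnreal]
      push_cast
      rfl

lemma mu_le_mkMetric : mu X ≤ OuterMeasure.mkMetric (fun r : ℝ≥0∞ => ((gf X r.toNNReal : ℝ≥0) : ℝ≥0∞)) := by
  apply OuterMeasure.le_mkMetric _ _ 1 (by norm_num)
  intro s hs
  have hfin : Metric.ediam s ≠ ⊤ := ne_top_of_le_ne_top (by norm_num) hs
  show mu X s ≤ ((gf X (Metric.ediam s).toNNReal : ℝ≥0) : ℝ≥0∞)
  unfold gf
  rw [ENNReal.coe_iInf]
  apply le_iInf
  intro n
  by_cases h : Metric.ediam s < ENNReal.ofReal (eps n / 2)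
  · refine (mu_le_of_small X s n h).trans ?_
    exact_mod_cast le_add_of_nonneg_right zero_le
  · push Not at h
    refine (mu_le_one X s).trans ?_
    have h1 : (eps n / 2).toNNReal ≤ (Metric.ediam s).toNNReal := by
      rw [← ENNReal.coe_le_coe, ENNReal.coe_toNNReal hfin]
      exact h
    have h2 : 1 ≤ (Metric.ediam s).toNNReal * cc n := by
      calc 1 = (eps n / 2).toNNReal * cc n := by
            rw [← NNReal.coe_inj]
            push_cast
            rw [Real.coe_toNNReal _ (by have := eps_pos n; positivity), mul_comm, cc_eps]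
        _ ≤ _ := by gcongr
    have h3 : 1 ≤ (D X n : ℝ≥0)⁻¹ + (Metric.ediam s).toNNReal * cc n :=
      h2.trans (le_add_of_nonneg_left zero_le)
    exact_mod_cast h3

lemma mkMetric_PP_pos :
    1 ≤ (OuterMeasure.mkMetric (fun r : ℝ≥0∞ => ((gf X r.toNNReal : ℝ≥0) : ℝ≥0∞)) : OuterMeasure ℝ) (PP X) := by
  refine le_trans ?_ (mu_le_mkMetric X (PP X))
  rw [mu_apply]
  have : hh X ⁻¹' (PP X) ∩ Set.Ico 0 1 = Set.Ico 0 1 := by
    ext y
    constructor
    · exact fun h => h.2
    · exact fun h => ⟨⟨y, h, rfl⟩, h⟩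
  rw [this]; simp


/-- number of cells of level `n` -/
def KK (n : ℕ) : ℕ := 2 ^ (4 ^ n)

lemma KK_eps (n : ℕ) : (KK n : ℝ) * eps n = 1 := by
  unfold KK eps
  push_cast
  rw [← mul_pow]; norm_num

/-- length of the covering intervals -/
noncomputable def tau (n : ℕ) : ℝ := 2 * tt (n + 1)

lemma tau_pos (n : ℕ) : 0 < tau n := by unfold tau; have := tt_pos (n+1); positivity

lemma tau_le (n : ℕ) : tau n ≤ (1/2)^n := by
  unfold tau
  have h1 := tt_le_eps (n+1)
  have h2 : eps (n+1) ≤ (1/2)^n := by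
    unfold eps
    apply pow_le_pow_of_le_one (by norm_num) (by norm_num)
    have := lt_four_pow (n+1)
    omega
  have := tt_pos (n+1)
  linarith

lemma hh_nonneg (y : ℝ) : 0 ≤ hh X y := tsum_nonneg (dig_term_nonneg X y)

lemma hh_lt_one (y : ℝ) : hh X y < 1 := by
  have h1 : hh X y ≤ ∑' i, tt (i + 0) := by
    unfold hh
    exact (summable_dig X y).tsum_le_tsum (dig_term_le X y) (summable_tt 0)
  have h2 := tsum_tt 0
  have h3 := tt_le_eps 0
  rw [eps_zero_le] at h3
  linarith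

/-- a point whose `n`-th digit vanishes lies in a short interval over the grid of mesh `eps n` -/
lemma exists_cell (y : ℝ) (n : ℕ) (h : dig X y n = 0) :
    ∃ k : Fin (KK n), hh X y ∈ Set.Icc ((k : ℕ) * eps n) ((k : ℕ) * eps n + tau n) := by
  set k : ℕ := ∑ i ∈ Finset.range n, dig X y i * 2 ^ (4 ^ n - 4 ^ (i+1)) with hk
  have h1 : ∑ i ∈ Finset.range n, (dig X y i : ℝ) * eps (i+1) = k * eps n := by
    rw [hk]
    push_cast
    rw [Finset.sum_mul]
    apply Finset.sum_congr rfl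
    intro i hi
    have hi' := Finset.mem_range.1 hi
    have h4 : 4 ^ (i+1) ≤ 4 ^ n := Nat.pow_le_pow_right (by norm_num) hi'
    have h5 : (2:ℝ) ^ (4 ^ n - 4 ^ (i+1)) * eps n = eps (i+1) := by
      unfold eps
      obtain ⟨e, he⟩ := Nat.exists_eq_add_of_le h4
      rw [he, Nat.add_sub_cancel_left, pow_add, mul_left_comm, ← mul_pow]
      norm_num
    rw [mul_assoc, h5]
  have h2 := (summable_dig X y).sum_add_tsum_nat_add (n+1)
  rw [Finset.sum_range_succ, h1, h, Nat.cast_zero, zero_mul, add_zero] at h2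
  have h3 : ∑' i, ((dig X y (i + (n+1)) : ℝ) * eps (i + (n+1) + 1)) ≤ tau n := by
    calc ∑' i, ((dig X y (i + (n+1)) : ℝ) * eps (i + (n+1) + 1))
        ≤ ∑' i, tt (i + (n+1)) := by
          apply Summable.tsum_le_tsum _ _ (summable_tt (n+1))
          · intro i; exact dig_term_le X y _
          · exact (summable_nat_add_iff (f := fun j => (dig X y j : ℝ) * eps (j + 1)) (n+1)).2 (summable_dig X y)
      _ ≤ tau n := tsum_tt (n+1)
  have h4 : 0 ≤ ∑' i, ((dig X y (i + (n+1)) : ℝ) * eps (i + (n+1) + 1)) :=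
    tsum_nonneg (fun i => dig_term_nonneg X y _)
  have h5 : hh X y = k * eps n + ∑' i, ((dig X y (i + (n+1)) : ℝ) * eps (i + (n+1) + 1)) := by
    unfold hh; exact h2.symm
  have h6 : k < KK n := by
    have h7 : (k : ℝ) * eps n < KK n * eps n := by
      rw [KK_eps]
      have := hh_lt_one X y
      linarith
    have := lt_of_mul_lt_mul_right h7 (eps_pos n).le
    exact_mod_cast this
  refine ⟨⟨k, h6⟩, ?_, ?_⟩
  · show (k:ℝ) * eps n ≤ _
    linarith
  · show _ ≤ (k:ℝ) * eps n + tau n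
    linarith

/-- total gauge cost of the cells of level `n ∈ X` -/
lemma cost_le (n : ℕ) (h : n ∈ X) : (KK n : ℝ≥0) * gf X (tau n).toNNReal ≤ 2 * (1/2)^n := by
  have h1 := gf_le X (tau n).toNNReal (n+1)
  have h2 : (D X (n+1) : ℝ≥0)⁻¹ ≤ (M n : ℝ≥0)⁻¹ := by
    apply inv_anti₀
    · exact_mod_cast M_pos n
    · exact_mod_cast le_D_of_mem X h
  have h3 : (KK n : ℝ≥0) * (M n : ℝ≥0)⁻¹ = (1/2)^n := by
    unfold KK M
    push_cast
    rw [pow_add, mul_inv, ← mul_assoc, mul_inv_cancel₀ (by positivity), one_mul, one_div, inv_pow]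
  have h4 : (KK n : ℝ≥0) * ((tau n).toNNReal * cc (n+1)) ≤ (1/2)^n := by
    rw [← NNReal.coe_le_coe]
    push_cast
    rw [Real.coe_toNNReal _ (tau_pos n).le]
    unfold tau tt KK M cc eps
    push_cast
    have h5 : 4 ^ (n+1) = 4 ^ n + (n + 2) + (2 * 4 ^ n - (n + 2)) + 4 ^n := by
      have := two_mul_lt n
      rw [pow_succ]; omega
    have h6 : 4 ^ (n+1+1) = 4 ^ (n+1) + 4 ^ (n+1) + (n+1) + (4 ^ n + (n + 2)) + (7 * 4 ^ n - (2 * n + 3)) := by
      have := lt_four_pow n
      rw [pow_succ, pow_succ]; omega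
    rw [h6]
    set A := 4 ^ (n+1) with hA
    set B := 4 ^ n with hB
    have h7 : (1/2:ℝ) ^ (7 * B - (2 * n + 3)) ≤ 1 := pow_le_one₀ (by norm_num) (by norm_num)
    have key : (2:ℝ) ^ B * (2 * (2 ^ (A + (n+1)) * (1/2) ^ (A + A + (n + 1) + (B + (n+2)) + (7 * B - (2 * n + 3)))) * (2 * 2 ^ A))
      = (1/2:ℝ)^n * (1/2:ℝ) ^ (7 * B - (2 * n + 3)) := by
      have e1 : (2:ℝ) ^ B * (1/2)^ B = 1 := by rw [← mul_pow]; norm_num
      have e2 : (2:ℝ) ^ A * (1/2)^ A = 1 := by rw [← mul_pow]; norm_num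
      have e3 : (2:ℝ) ^ (n+1) * (1/2)^ (n+1) = 1 := by rw [← mul_pow]; norm_num
      rw [pow_add _ (A + A + (n + 1) + (B + (n+2))), pow_add _ (A + A + (n + 1)), pow_add _ (A + A), pow_add _ A A,
        pow_add _ A (n+1), pow_add (1/2:ℝ) B, pow_add (1/2:ℝ) n 2]
      calc _ = ((2:ℝ) ^ B * (1/2)^ B) * ((2:ℝ) ^ A * (1/2)^ A) * ((2:ℝ) ^ A * (1/2)^ A) * ((2:ℝ) ^ (n+1) * (1/2)^ (n+1))
            * ((1/2:ℝ)^n * (1/2:ℝ) ^ (7 * B - (2 * n + 3))) := by ring
        _ = _ := by rw [e1, e2, e3]; ring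
    rw [key]
    have : 0 < (1/2:ℝ)^n := by positivity
    nlinarith
  calc (KK n : ℝ≥0) * gf X (tau n).toNNReal
      ≤ (KK n : ℝ≥0) * ((D X (n+1) : ℝ≥0)⁻¹ + (tau n).toNNReal * cc (n+1)) := by gcongr
    _ ≤ (KK n : ℝ≥0) * ((M n : ℝ≥0)⁻¹ + (tau n).toNNReal * cc (n+1)) := by gcongr
    _ = (KK n : ℝ≥0) * (M n : ℝ≥0)⁻¹ + (KK n : ℝ≥0) * ((tau n).toNNReal * cc (n+1)) := by ring
    _ ≤ (1/2)^n + (1/2)^n := add_le_add h3.le h4
    _ = 2 * (1/2)^n := by ring

open Classical in
/-- the covering sets -/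
noncomputable def cov (N : ℕ) (p : Σ n : ℕ, Fin (KK (N + n))) : Set ℝ :=
  if N + p.1 ∈ X then Set.Icc ((p.2 : ℕ) * eps (N + p.1)) ((p.2 : ℕ) * eps (N + p.1) + tau (N + p.1)) else ∅

/-- points some digit of which vanishes at infinitely many places of `X` -/
def GG : Set ℝ := {x | ∀ N : ℕ, ∃ n : ℕ, N + n ∈ X ∧
  ∃ k : Fin (KK (N + n)), x ∈ Set.Icc ((k : ℕ) * eps (N + n)) ((k : ℕ) * eps (N + n) + tau (N + n))}

lemma mkMetric_GG (hX : X.Infinite) :
    (OuterMeasure.mkMetric (fun r : ℝ≥0∞ => ((gf X r.toNNReal : ℝ≥0) : ℝ≥0∞)) : OuterMeasure ℝ) (GG X) = 0 := by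
  rw [OuterMeasure.coe_mkMetric]
  apply le_antisymm _ zero_le
  have h1 := Measure.mkMetric_le_liminf_tsum (GG X) (l := atTop) (fun N : ℕ => ENNReal.ofReal ((1/2)^N))
    (by
      rw [← ENNReal.ofReal_zero]
      exact ENNReal.tendsto_ofReal (tendsto_pow_atTop_nhds_zero_of_lt_one (by norm_num) (by norm_num)))
    (cov X)
    (Eventually.of_forall (by
      intro N p
      unfold cov
      split_ifs
      · rw [Real.ediam_Icc]
        apply ENNReal.ofReal_le_ofReal
        rw [add_sub_cancel_left]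
        refine (tau_le _).trans ?_
        apply pow_le_pow_of_le_one (by norm_num) (by norm_num)
        omega
      · simp))
    (Eventually.of_forall (by
      intro N x hx
      obtain ⟨n, hn, k, hk⟩ := hx N
      rw [Set.mem_iUnion]
      refine ⟨⟨n, k⟩, ?_⟩
      unfold cov
      rw [if_pos hn]
      exact hk))
    (fun r : ℝ≥0∞ => ((gf X r.toNNReal : ℝ≥0) : ℝ≥0∞))
  refine h1.trans ?_
  have h2 : ∀ N : ℕ, ∑' p : (Σ n : ℕ, Fin (KK (N + n))), ((gf X (Metric.ediam (cov X N p)).toNNReal : ℝ≥0) : ℝ≥0∞)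
      ≤ 4 * (1/2)^N := by
    intro N
    rw [ENNReal.tsum_sigma']
    calc ∑' (n : ℕ) (k : Fin (KK (N + n))), ((gf X (Metric.ediam (cov X N ⟨n, k⟩)).toNNReal : ℝ≥0) : ℝ≥0∞)
        ≤ ∑' n : ℕ, (2 * (1/2)^N) * (1/2)^n := by
          apply ENNReal.tsum_le_tsum
          intro n
          by_cases hn : N + n ∈ X
          · have h3 : ∀ k : Fin (KK (N + n)), (gf X (Metric.ediam (cov X N ⟨n, k⟩)).toNNReal) = gf X (tau (N + n)).toNNReal := by
              intro k
              unfold cov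
              rw [if_pos hn]
              rw [Real.ediam_Icc, add_sub_cancel_left]
              rfl
            simp only [h3]
            rw [tsum_fintype, Finset.sum_const, Finset.card_univ, Fintype.card_fin, nsmul_eq_mul]
            have h4 := cost_le X (N + n) hn
            have h5 : ((KK (N + n) : ℝ≥0) : ℝ≥0∞) * ((gf X (tau (N + n)).toNNReal : ℝ≥0) : ℝ≥0∞) ≤ ((2 * (1/2)^(N + n) : ℝ≥0) : ℝ≥0∞) := by
              exact_mod_cast h4
            refine le_trans (le_of_eq (by simp)) (h5.trans (le_of_eq ?_))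
            rw [pow_add]
            push_cast
            rw [mul_assoc]
          · have h3 : ∀ k : Fin (KK (N + n)), (gf X (Metric.ediam (cov X N ⟨n, k⟩)).toNNReal) = 0 := by
              intro k
              unfold cov
              rw [if_neg hn]
              simp [gf_zero X hX]
            simp only [h3]
            simp
      _ = 4 * (1/2)^N := by
          rw [ENNReal.tsum_mul_left]
          have : ∑' n : ℕ, (1/2 : ℝ≥0∞)^n = 2 := by
            rw [ENNReal.tsum_geometric]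
            rw [one_div, ENNReal.one_sub_inv_two, inv_inv]
          rw [this]
          ring
  have h3 : Tendsto (fun N : ℕ => (4 : ℝ≥0∞) * (1/2)^N) atTop (nhds 0) := by
    have := ENNReal.Tendsto.const_mul (a := (4:ℝ≥0∞)) (ENNReal.tendsto_pow_atTop_nhds_zero_of_lt_one (r := 1/2) (by
      rw [one_div]; exact ENNReal.inv_lt_one.2 (by norm_num))) (Or.inr (by norm_num))
    simpa using this
  calc liminf (fun N => ∑' p : (Σ n : ℕ, Fin (KK (N + n))), ((gf X (Metric.ediam (cov X N p)).toNNReal : ℝ≥0) : ℝ≥0∞)) atTop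
      ≤ liminf (fun N : ℕ => (4 : ℝ≥0∞) * (1/2)^N) atTop := liminf_le_liminf (Eventually.of_forall h2)
    _ = 0 := h3.liminf_eq

/-- almost disjoint family -/
def XX (a : ℕ → Bool) : Set ℕ := Set.range (fun n : ℕ => Encodable.encode ((List.range n).map a))

lemma XX_code_inj {a b : ℕ → Bool} {m n : ℕ}
    (h : Encodable.encode ((List.range n).map a) = Encodable.encode ((List.range m).map b)) :
    n = m ∧ ∀ i < n, a i = b i := by
  have h1 := Encodable.encode_injective h
  have h2 : n = m := by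
    have := congrArg List.length h1
    simpa using this
  subst h2
  refine ⟨rfl, ?_⟩
  intro i hi
  have := congrArg (fun l => l[i]?) h1
  simpa [hi] using this

lemma XX_infinite (a : ℕ → Bool) : (XX a).Infinite := by
  apply Set.infinite_range_of_injective
  intro m n h
  exact (XX_code_inj h).1

lemma XX_diff {a b : ℕ → Bool} (hab : a ≠ b) : (XX b \ XX a).Infinite := by
  obtain ⟨m, hm⟩ := Function.ne_iff.1 hab
  have h1 : Set.InjOn (fun n : ℕ => Encodable.encode ((List.range n).map b)) (Set.Ioi m) := by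
    intro x _ y _ h
    exact (XX_code_inj h).1
  have h2 := (Set.infinite_image_iff h1).2 (Set.Ioi_infinite m)
  apply h2.mono
  rintro _ ⟨n, hn, rfl⟩
  refine ⟨⟨n, rfl⟩, ?_⟩
  rintro ⟨n', hn'⟩
  obtain ⟨h3, h4⟩ := XX_code_inj hn'
  apply hm
  apply h4
  rw [h3]; exact hn

lemma PP_subset_GG {a b : ℕ → Bool} (hab : a ≠ b) : PP (XX a) ⊆ GG (XX b) := by
  rintro _ ⟨y, _, rfl⟩ N
  obtain ⟨n, ⟨hn1, hn2⟩, hn3⟩ := (XX_diff hab).exists_gt N
  obtain ⟨e, rfl⟩ := Nat.exists_eq_add_of_lt hn3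
  refine ⟨e + 1, hn1, ?_⟩
  exact exists_cell (XX a) y (N + (e + 1)) (dig_eq_zero _ y hn2)

/-- The family of sets {gauge functions f (nondecreasing, right-continuous, f(0)=0, positive off 0) with positive f-Hausdorff measure on A}, as A ranges over subsets of the reals, has cardinality 2 to the continuum. -/
theorem result :
    Cardinal.mk
      (Set.range (fun A : Set ℝ =>
        {f : ℝ≥0 → ℝ≥0 |
          Monotone f ∧ f 0 = 0 ∧ (∀ r : ℝ≥0, 0 < r → 0 < f r) ∧
          (∀ x : ℝ≥0, ContinuousWithinAt f (Set.Ici x) x) ∧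
          0 < (MeasureTheory.OuterMeasure.mkMetric
                (fun r : ℝ≥0∞ => ((f r.toNNReal : ℝ≥0) : ℝ≥0∞)) :
                MeasureTheory.OuterMeasure ℝ) A}))
      = 2 ^ Cardinal.continuum := by
  apply le_antisymm
  · refine Cardinal.mk_range_le.trans (le_of_eq ?_)
    rw [Cardinal.mk_set, Cardinal.mk_real]
  · set I := (fun A : Set ℝ =>
        {f : ℝ≥0 → ℝ≥0 |
          Monotone f ∧ f 0 = 0 ∧ (∀ r : ℝ≥0, 0 < r → 0 < f r) ∧
          (∀ x : ℝ≥0, ContinuousWithinAt f (Set.Ici x) x) ∧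
          0 < (MeasureTheory.OuterMeasure.mkMetric
                (fun r : ℝ≥0∞ => ((f r.toNNReal : ℝ≥0) : ℝ≥0∞)) :
                MeasureTheory.OuterMeasure ℝ) A}) with hI
    have key : ∀ (S : Set (ℕ → Bool)) (a : ℕ → Bool),
        gf (XX a) ∈ I (⋃ b ∈ S, PP (XX b)) ↔ a ∈ S := by
      intro S a
      constructor
      · intro h
        by_contra ha
        have h1 : 0 < (MeasureTheory.OuterMeasure.mkMetric
                (fun r : ℝ≥0∞ => ((gf (XX a) r.toNNReal : ℝ≥0) : ℝ≥0∞)) :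
                MeasureTheory.OuterMeasure ℝ) (⋃ b ∈ S, PP (XX b)) := h.2.2.2.2
        have h2 : (⋃ b ∈ S, PP (XX b)) ⊆ GG (XX a) := by
          apply Set.iUnion₂_subset
          intro b hb
          apply PP_subset_GG
          rintro rfl
          exact ha hb
        have h3 := (measure_mono h2).trans (mkMetric_GG (XX a) (XX_infinite a)).le
        exact absurd h1 (not_lt.2 h3)
      · intro ha
        refine ⟨gf_mono _, gf_zero _ (XX_infinite a), gf_pos _, gf_cont _, ?_⟩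
        have h1 := mkMetric_PP_pos (XX a)
        have h2 : PP (XX a) ⊆ ⋃ b ∈ S, PP (XX b) := Set.subset_biUnion_of_mem (u := fun b => PP (XX b)) ha
        exact lt_of_lt_of_le one_pos (h1.trans (measure_mono h2))
    have inj : Function.Injective (fun S : Set (ℕ → Bool) =>
        (⟨I (⋃ b ∈ S, PP (XX b)), Set.mem_range_self _⟩ : Set.range I)) := by
      intro S T h
      have h1 : I (⋃ b ∈ S, PP (XX b)) = I (⋃ b ∈ T, PP (XX b)) := congrArg Subtype.val h
      ext a
      rw [← key S a, ← key T a, h1]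
    have h1 := Cardinal.mk_le_of_injective inj
    refine le_trans (le_of_eq ?_) h1
    rw [Cardinal.mk_set]
    simp

end Pool.Agent.S14417
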