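import Pool.Statements.S15225

set_option autoImplicit false
open Pool Pool.MP_af8240_lc

namespace Pool.Agent.S15225

open Filter Set

/-- Pointwise convergence of a sequence of sets of naturals. -/
def Conv (X : ℕ → Set ℕ) (Y : Set ℕ) : Prop :=
  ∀ m : ℕ, ∀ᶠ n in Filter.atTop, (m ∈ X n ↔ m ∈ Y)

theorem Conv.agree {X : ℕ → Set ℕ} {Y : Set ℕ} (h : Conv X Y) (M : ℕ) :
    ∀ᶠ n in Filter.atTop, ∀ m ≤ M, (m ∈ X n ↔ m ∈ Y) := by
  have h1 : ∀ᶠ n in Filter.atTop, ∀ m ∈ Set.Iic M, (m ∈ X n ↔ m ∈ Y) :=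
    (Filter.eventually_all_finite (Set.finite_Iic M)).2 (fun m _ => h m)
  exact h1

theorem sInf_agree {S T : Set ℕ} (hS : S.Nonempty) (h : ∀ m ≤ sInf S, (m ∈ T ↔ m ∈ S)) :
    sInf T = sInf S := by
  have h1 : sInf S ∈ T := (h _ le_rfl).2 (Nat.sInf_mem hS)
  have h2 : sInf T ≤ sInf S := Nat.sInf_le h1
  have h3 : sInf T ∈ T := Nat.sInf_mem ⟨_, h1⟩
  have h4 : sInf T ∈ S := (h _ h2).1 h3
  exact le_antisymm h2 (Nat.sInf_le h4)

/-- The sequence of first elements of successively higher blocks of `D`. -/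
noncomputable def rho (p : ℕ → ℕ) (D : Set ℕ) : ℕ → ℕ
  | 0 => sInf D
  | (j+1) => sInf {x | x ∈ D ∧ p (rho p D j) < p x}

/-- The coded real. -/
def bit (p : ℕ → ℕ) (D : Set ℕ) (j : ℕ) : Prop :=
  ∃ x ∈ D, rho p D j < x ∧ x < rho p D (j+1) ∧ p x = p (rho p D j)

theorem rho_conv {p : ℕ → ℕ} {X : ℕ → Set ℕ} {D : Set ℕ} (h : Conv X D) (hD : D.Nonempty)
    (hD' : ∀ j, {x | x ∈ D ∧ p (rho p D j) < p x}.Nonempty) :
    ∀ j, ∀ᶠ k in Filter.atTop, rho p (X k) j = rho p D j := by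
  intro j
  induction j with
  | zero =>
    filter_upwards [h.agree (sInf D)] with k hk
    exact sInf_agree hD hk
  | succ j ih =>
    filter_upwards [ih, h.agree (rho p D (j+1))] with k hk1 hk2
    have : rho p (X k) (j+1) = sInf {x | x ∈ X k ∧ p (rho p D j) < p x} := by
      rw [← hk1]; rfl
    rw [this]
    apply sInf_agree (hD' j)
    intro m hm
    have := hk2 m hm
    simp only [Set.mem_setOf_eq, this]

theorem bit_conv {p : ℕ → ℕ} {X : ℕ → Set ℕ} {D : Set ℕ} (h : Conv X D) (hD : D.Nonempty)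
    (hD' : ∀ j, {x | x ∈ D ∧ p (rho p D j) < p x}.Nonempty) :
    ∀ j, ∀ᶠ k in Filter.atTop, (bit p (X k) j ↔ bit p D j) := by
  intro j
  filter_upwards [rho_conv h hD hD' j, rho_conv h hD hD' (j+1), h.agree (rho p D (j+1))]
    with k h1 h2 h3
  unfold bit
  rw [h1, h2]
  constructor
  · rintro ⟨x, hx, hx1, hx2, hx3⟩
    exact ⟨x, (h3 x hx2.le).1 hx, hx1, hx2, hx3⟩
  · rintro ⟨x, hx, hx1, hx2, hx3⟩
    exact ⟨x, (h3 x hx2.le).2 hx, hx1, hx2, hx3⟩

/-- Coding: each member `C` of `V` contains a member `C'` of `V` such that, for every real `y`,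
some set between `C'` and `C` codes `y`. -/
theorem encode (V : Ultrafilter ℕ) (p : ℕ → ℕ) (h1 : ∀ n, {x | p x = n} ∉ V)
    (h2 : ∀ C ∈ V, ∃ n, (C ∩ {x | p x = n}).Infinite) (C : Set ℕ) (hC : C ∈ V) :
    ∃ C' ⊆ C, C' ∈ V ∧ ∀ y : Set ℕ, ∃ D : Set ℕ, C' ⊆ D ∧ D ⊆ C ∧ D.Nonempty ∧
      (∀ j, {x | x ∈ D ∧ p (rho p D j) < p x}.Nonempty) ∧ ∀ j, (bit p D j ↔ j ∈ y) := by
  classical
  -- the set of infinite sections
  set N : Set ℕ := {n | (C ∩ {x | p x = n}).Infinite} with hN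
  -- a subset of `C` with finite sections is not in `V`
  have hfin : ∀ S : Set ℕ, (∀ n, (S ∩ {x | p x = n}).Finite) → S ∉ V := by
    intro S hS hSV
    obtain ⟨n, hn⟩ := h2 S hSV
    exact hn (hS n)
  have hNinf : N.Infinite := by
    intro hNfin
    -- C = (C ∩ p⁻¹ N) ∪ (C \ p⁻¹ N)
    have hA : {x | x ∈ C ∧ p x ∉ N} ∉ V := by
      apply hfin
      intro n
      by_cases hn : n ∈ N
      · convert Set.finite_empty (α := ℕ)
        ext x
        simp only [Set.mem_inter_iff, Set.mem_setOf_eq, Set.mem_empty_iff_false, iff_false]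
        rintro ⟨⟨_, h⟩, rfl⟩
        exact h hn
      · have : (C ∩ {x | p x = n}).Finite := Set.not_infinite.1 hn
        apply this.subset
        rintro x ⟨⟨hx, _⟩, hx'⟩
        exact ⟨hx, hx'⟩
    have hB : {x | p x ∈ N} ∉ V := by
      have : {x | p x ∈ N} = ⋃ n ∈ N, {x | p x = n} := by
        ext x; simp
      rw [this]
      intro hmem
      rw [Ultrafilter.finite_biUnion_mem_iff hNfin] at hmem
      obtain ⟨n, _, hn⟩ := hmem
      exact h1 n hn
    have hU : {x | x ∈ C ∧ p x ∉ N} ∪ {x | p x ∈ N} ∈ V := by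
      apply Filter.mem_of_superset hC
      intro x hx
      by_cases h : p x ∈ N
      · exact Or.inr h
      · exact Or.inl ⟨hx, h⟩
    rcases Ultrafilter.union_mem_iff.1 hU with h | h
    · exact hA h
    · exact hB h
  -- enumeration of N
  set e : ℕ → ℕ := Nat.nth (· ∈ N) with he
  have heN : ∀ j, e j ∈ N := fun j => Nat.nth_mem_of_infinite hNinf j
  have hemono : StrictMono e := Nat.nth_strictMono hNinf
  have hesurj : ∀ n ∈ N, ∃ j, e j = n := by
    intro n hn
    exact ⟨_, Nat.nth_count hn⟩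
  -- the increasing sequence t
  have hfreq : ∀ n, ∃ᶠ k in Filter.atTop, (k ∈ C ∧ p k = e (n / 2)) := by
    intro n
    have : {k | k ∈ C ∧ p k = e (n / 2)}.Infinite := heN (n/2)
    exact Nat.frequently_atTop_iff_infinite.2 this
  obtain ⟨t, htmono, ht⟩ := Filter.extraction_forall_of_frequently hfreq
  have ht0 : ∀ j, p (t (2*j)) = e j := by
    intro j
    have := (ht (2*j)).2
    rwa [Nat.mul_div_cancel_left j (by norm_num)] at this
  have ht1 : ∀ j, p (t (2*j+1)) = e j := by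
    intro j
    have := (ht (2*j+1)).2
    have h3 : (2*j+1)/2 = j := by omega
    rwa [h3] at this
  have htC : ∀ n, t n ∈ C := fun n => (ht n).1
  set C' : Set ℕ := {x | x ∈ C ∧ ∃ j, p x = e j ∧ t (2*j+2) < x} with hC'
  refine ⟨C', fun x hx => hx.1, ?_, ?_⟩
  · -- C' ∈ V
    have hdiff : C \ C' ∉ V := by
      apply hfin
      intro n
      by_cases hn : n ∈ N
      · obtain ⟨j, rfl⟩ := hesurj n hn
        apply (Set.finite_Iic (t (2*j+2))).subset
        rintro x ⟨⟨hx, hx'⟩, hx''⟩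
        simp only [Set.mem_Iic]
        by_contra hlt
        push Not at hlt
        exact hx' ⟨hx, j, hx'', hlt⟩
      · have : (C ∩ {x | p x = n}).Finite := Set.not_infinite.1 hn
        apply this.subset
        rintro x ⟨⟨hx, _⟩, hx'⟩
        exact ⟨hx, hx'⟩
    have hU : C' ∪ (C \ C') ∈ V := by
      apply Filter.mem_of_superset hC
      intro x hx
      by_cases h : x ∈ C'
      · exact Or.inl h
      · exact Or.inr ⟨hx, h⟩
    rcases Ultrafilter.union_mem_iff.1 hU with h | h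
    · exact h
    · exact absurd h hdiff
  · intro y
    set D : Set ℕ := {x | x ∈ C' ∨ (∃ j, x = t (2*j)) ∨ (∃ j, j ∈ y ∧ x = t (2*j+1))} with hD
    -- characterisation of elements of D
    have hrho : ∀ j, rho p D j = t (2*j) := by
      intro j
      induction j with
      | zero =>
        have hmem : t 0 ∈ D := Or.inr (Or.inl ⟨0, rfl⟩)
        have hge : ∀ x ∈ D, t 0 ≤ x := by
          rintro x (hx | ⟨j, rfl⟩ | ⟨j, _, rfl⟩)
          · obtain ⟨_, j, _, hj⟩ := hx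
            exact (htmono.monotone (Nat.zero_le _)).trans hj.le
          · exact htmono.monotone (Nat.zero_le _)
          · exact htmono.monotone (Nat.zero_le _)
        exact le_antisymm (Nat.sInf_le hmem) (hge _ (Nat.sInf_mem ⟨_, hmem⟩))
      | succ j ih =>
        have hmem : t (2*(j+1)) ∈ {x | x ∈ D ∧ p (rho p D j) < p x} := by
          refine ⟨Or.inr (Or.inl ⟨j+1, rfl⟩), ?_⟩
          rw [ih, ht0, ht0]
          exact hemono (Nat.lt_succ_self j)
        have hge : ∀ x ∈ {x | x ∈ D ∧ p (rho p D j) < p x}, t (2*(j+1)) ≤ x := by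
          rintro x ⟨hx, hx2⟩
          rw [ih, ht0] at hx2
          rcases hx with (hx | ⟨i, rfl⟩ | ⟨i, _, rfl⟩)
          · obtain ⟨_, i, hi, hi2⟩ := hx
            rw [hi] at hx2
            have : j < i := hemono.lt_iff_lt.1 hx2
            refine le_trans (htmono.monotone ?_) hi2.le
            omega
          · rw [ht0] at hx2
            have : j < i := hemono.lt_iff_lt.1 hx2
            apply htmono.monotone
            omega
          · rw [ht1] at hx2
            have : j < i := hemono.lt_iff_lt.1 hx2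
            apply htmono.monotone
            omega
        exact le_antisymm (Nat.sInf_le hmem) (hge _ (Nat.sInf_mem ⟨_, hmem⟩))
    refine ⟨D, fun x hx => Or.inl hx, ?_, ⟨t 0, Or.inr (Or.inl ⟨0, rfl⟩)⟩, ?_, ?_⟩
    · rintro x (hx | ⟨j, rfl⟩ | ⟨j, _, rfl⟩)
      · exact hx.1
      · exact htC _
      · exact htC _
    · intro j
      refine ⟨t (2*(j+1)), Or.inr (Or.inl ⟨j+1, rfl⟩), ?_⟩
      rw [hrho, ht0, ht0]
      exact hemono (Nat.lt_succ_self j)
    · intro j
      unfold bit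
      rw [hrho, hrho, ht0]
      constructor
      · rintro ⟨x, hx, hx1, hx2, hx3⟩
        rcases hx with (hx | ⟨i, rfl⟩ | ⟨i, hi, rfl⟩)
        · obtain ⟨_, i, hi, hi2⟩ := hx
          rw [hi] at hx3
          have : i = j := hemono.injective hx3
          subst this
          have h5 : 2 * (i+1) = 2*i+2 := by ring
          rw [h5] at hx2
          exact absurd hx2 (not_lt.2 hi2.le)
        · have h5 := htmono.lt_iff_lt.1 hx1
          have h6 := htmono.lt_iff_lt.1 hx2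
          omega
        · have h5 := htmono.lt_iff_lt.1 hx1
          have h6 := htmono.lt_iff_lt.1 hx2
          have : i = j := by omega
          subst this
          exact hi
      · intro hj
        refine ⟨t (2*j+1), Or.inr (Or.inr ⟨j, hj, rfl⟩), htmono (by omega), htmono (by omega), ht1 j⟩

/-- A p-point (or principal ultrafilter) is basically generated, with base all of `V`. -/
theorem ppoint_case (V : Ultrafilter ℕ)
    (hV : ∀ A : ℕ → Set ℕ, (∀ n, A n ∈ V) → ∃ B ∈ V, ∀ n, (B \ A n).Finite)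
    (X : ℕ → Set ℕ) (Y : Set ℕ) (hX : ∀ n, X n ∈ V) (hY : Y ∈ V) (hconv : Conv X Y) :
    ∃ φ : ℕ → ℕ, StrictMono φ ∧ (⋂ k, X (φ k)) ∈ V := by
  classical
  obtain ⟨B, hB, hBX⟩ := hV X hX
  -- WLOG B ⊆ Y
  set A : Set ℕ := B ∩ Y with hA
  have hAV : A ∈ V := Filter.inter_mem hB hY
  have hg : ∀ n, ∃ g : ℕ, ∀ x ∈ A, x ∉ X n → x < g := by
    intro n
    obtain ⟨g, hg⟩ := (hBX n).bddAbove
    refine ⟨g+1, fun x hx hx' => Nat.lt_succ_of_le (hg ⟨hx.1, hx'⟩)⟩
  choose g hg using hg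
  have hN : ∀ M, ∃ N, ∀ n ≥ N, ∀ m ≤ M, (m ∈ X n ↔ m ∈ Y) := by
    intro M
    exact Filter.eventually_atTop.1 (hconv.agree M)
  choose N hN using hN
  -- construct the sequence of pairs (n_k, m_k)
  let F : ℕ × ℕ → ℕ × ℕ := fun q =>
    (max (q.1 + 1) (N (max (q.2+1) (g q.1))), max (q.2 + 1) (g q.1))
  let s : ℕ → ℕ × ℕ := fun k => F^[k] (N 0, 0)
  have hs : ∀ k, s (k+1) = F (s k) := fun k => Function.iterate_succ_apply' F k _
  have hs1 : ∀ k, (s k).1 < (s (k+1)).1 := by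
    intro k; rw [hs]
    exact lt_of_lt_of_le (Nat.lt_succ_self _) (le_max_left _ _)
  have hs2 : ∀ k, (s k).2 < (s (k+1)).2 := by
    intro k; rw [hs]
    exact lt_of_lt_of_le (Nat.lt_succ_self _) (le_max_left _ _)
  have hs3 : ∀ k, g (s k).1 ≤ (s (k+1)).2 := by
    intro k; rw [hs]
    exact le_max_right _ _
  have hs4 : ∀ k, N (s k).2 ≤ (s k).1 := by
    intro k
    cases k with
    | zero => exact le_rfl
    | succ k => rw [hs]; exact le_max_right _ _
  have hm1 : StrictMono (fun k => (s k).1) := strictMono_nat_of_lt_succ hs1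
  have hm2 : StrictMono (fun k => (s k).2) := strictMono_nat_of_lt_succ hs2
  -- for x ∈ A, x ∉ X (n_k) → m_k < x < m_{k+1}
  have key : ∀ k x, x ∈ A → x ∉ X (s k).1 → (s k).2 < x ∧ x < (s (k+1)).2 := by
    intro k x hx hx'
    constructor
    · by_contra hle
      push Not at hle
      exact hx' ((hN (s k).2 (s k).1 (hs4 k) x hle).2 hx.2)
    · exact lt_of_lt_of_le (hg _ x hx hx') (hs3 k)
  set E : Set ℕ := {x | ∃ k, (s (2*k)).2 < x ∧ x < (s (2*k+1)).2} with hE
  by_cases hcase : E ∈ V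
  · refine ⟨fun k => (s (2*k+1)).1, ?_, ?_⟩
    · intro a b hab
      exact hm1 (by omega)
    · apply Filter.mem_of_superset (Filter.inter_mem hAV hcase)
      rintro x ⟨hx, ⟨k, hk1, hk2⟩⟩
      rw [Set.mem_iInter]
      intro j
      by_contra hx'
      obtain ⟨h1, h2⟩ := key _ x hx hx'
      have h3 : (s (2*k)).2 < (s (2*j+1+1)).2 := hk1.trans h2
      have h4 : (s (2*j+1)).2 < (s (2*k+1)).2 := h1.trans hk2
      have h5 := hm2.lt_iff_lt.1 h3
      have h6 := hm2.lt_iff_lt.1 h4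
      omega
  · have hcase' : Eᶜ ∈ V := Ultrafilter.compl_mem_iff_notMem.2 hcase
    refine ⟨fun k => (s (2*k)).1, ?_, ?_⟩
    · intro a b hab
      exact hm1 (by omega)
    · apply Filter.mem_of_superset (Filter.inter_mem hAV hcase')
      rintro x ⟨hx, hk⟩
      rw [Set.mem_iInter]
      intro j
      by_contra hx'
      obtain ⟨h1, h2⟩ := key _ x hx hx'
      exact hk ⟨j, h1, h2⟩

/-- For ultrafilters U, V on ℕ: if V is Tukey reducible to U and U has a base in which every sequence converging to a base member has an infinite subsequence with intersection in U, then V has such a base too. -/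
theorem result :
    ∀ U V : Ultrafilter ℕ,
      (∃ f : Set ℕ → Set ℕ, (∀ A : Set ℕ, A ∈ U → f A ∈ V) ∧
        ∀ C : Set (Set ℕ), ((∀ X ∈ C, X ∈ U) ∧ ∀ A : Set ℕ, A ∈ U → ∃ X ∈ C, X ⊆ A) →
          ∀ B : Set ℕ, B ∈ V → ∃ X ∈ C, f X ⊆ B) →
      (∃ 𝓑 : Set (Set ℕ), (∀ X ∈ 𝓑, X ∈ U) ∧ (∀ A : Set ℕ, A ∈ U → ∃ X ∈ 𝓑, X ⊆ A) ∧
        ∀ (X : ℕ → Set ℕ) (Y : Set ℕ), (∀ n, X n ∈ 𝓑) → Y ∈ 𝓑 →
          (∀ m : ℕ, ∀ᶠ n in Filter.atTop, (m ∈ X n ↔ m ∈ Y)) →
          ∃ φ : ℕ → ℕ, StrictMono φ ∧ (⋂ k, X (φ k)) ∈ U) →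
      (∃ 𝓑 : Set (Set ℕ), (∀ X ∈ 𝓑, X ∈ V) ∧ (∀ A : Set ℕ, A ∈ V → ∃ X ∈ 𝓑, X ⊆ A) ∧
        ∀ (X : ℕ → Set ℕ) (Y : Set ℕ), (∀ n, X n ∈ 𝓑) → Y ∈ 𝓑 →
          (∀ m : ℕ, ∀ᶠ n in Filter.atTop, (m ∈ X n ↔ m ∈ Y)) →
          ∃ φ : ℕ → ℕ, StrictMono φ ∧ (⋂ k, X (φ k)) ∈ V) := by
  classical
  intro U V hTukey hBG
  obtain ⟨f, hfV, hfcof⟩ := hTukey
  obtain ⟨𝓑, h𝓑U, h𝓑base, h𝓑conv⟩ := hBG
  by_cases hP : ∀ A : ℕ → Set ℕ, (∀ n, A n ∈ V) → ∃ B ∈ V, ∀ n, (B \ A n).Finite
  · -- V is a p-point (or principal)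
    refine ⟨{X | X ∈ V}, fun X hX => hX, fun A hA => ⟨A, hA, subset_rfl⟩, ?_⟩
    intro X Y hX hY hconv
    exact ppoint_case V hP X Y hX hY hconv
  · push Not at hP
    obtain ⟨A, hAV, hA⟩ := hP
    -- the block map
    set p : ℕ → ℕ := fun x => sInf {n | x ∉ A n} with hp
    -- the intersection of the A n is not in V
    have hinter : {x | ∀ n, x ∈ A n} ∉ V := by
      intro hmem
      obtain ⟨n, hn⟩ := hA _ hmem
      apply hn
      convert Set.finite_empty (α := ℕ)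
      ext x
      simp only [Set.mem_diff, Set.mem_setOf_eq, Set.mem_empty_iff_false, iff_false, not_and,
        not_not]
      intro h
      exact h n
    have h1 : ∀ n, {x | p x = n} ∉ V := by
      intro n hmem
      have hsub : {x | p x = n} ⊆ {x | ∀ n, x ∈ A n} ∪ (A n)ᶜ := by
        intro x hx
        by_cases hall : ∀ n, x ∈ A n
        · exact Or.inl hall
        · right
          push Not at hall
          have : sInf {n | x ∉ A n} ∈ {n | x ∉ A n} := Nat.sInf_mem hall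
          have hx' : sInf {n | x ∉ A n} = n := hx
          rw [hx'] at this
          exact this
      have hU : {x | ∀ n, x ∈ A n} ∪ (A n)ᶜ ∈ V := Filter.mem_of_superset hmem hsub
      rcases Ultrafilter.union_mem_iff.1 hU with h | h
      · exact hinter h
      · exact Ultrafilter.compl_notMem_iff.2 (hAV n) h
    have h2 : ∀ C ∈ V, ∃ n, (C ∩ {x | p x = n}).Infinite := by
      intro C hC
      by_contra hcon
      push Not at hcon
      have hcompl : {x | ∀ n, x ∈ A n}ᶜ ∈ V := Ultrafilter.compl_mem_iff_notMem.2 hinter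
      obtain ⟨n, hn⟩ := hA (C ∩ {x | ∀ n, x ∈ A n}ᶜ) (Filter.inter_mem hC hcompl)
      apply hn
      have hfin : (⋃ m ∈ Set.Iic n, (C ∩ {x | p x = m})).Finite := by
        apply Set.Finite.biUnion (Set.finite_Iic n)
        intro m _
        exact hcon m
      apply hfin.subset
      rintro x ⟨⟨hxC, _⟩, hxn⟩
      simp only [Set.mem_iUnion]
      refine ⟨p x, ?_, hxC, rfl⟩
      exact Nat.sInf_le hxn
    -- the Tukey map
    have hg : ∀ B ∈ V, ∃ Y ∈ 𝓑, ∀ X ∈ U, X ⊆ Y → f X ⊆ B := by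
      intro B hB
      by_contra hcon
      push Not at hcon
      -- for each Y ∈ 𝓑 choose a bad X
      choose! bad hbad1 hbad2 hbad3 using hcon
      have := hfcof (bad '' 𝓑) ⟨?_, ?_⟩ B hB
      · obtain ⟨X, ⟨Y, hY, rfl⟩, hX⟩ := this
        exact hbad3 Y hY hX
      · rintro X ⟨Y, hY, rfl⟩
        exact hbad1 Y hY
      · intro A' hA'
        obtain ⟨Y, hY, hYA⟩ := h𝓑base A' hA'
        exact ⟨bad Y, ⟨Y, hY, rfl⟩, (hbad2 Y hY).trans hYA⟩
    choose! g hg1 hg2 using hg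
    have henc := encode V p h1 h2
    choose! C' hC'sub hC'V D hC'D hDC hDne hDne' hDbit using henc
    refine ⟨{E | ∃ C ∈ V, E = D C (g (C' C))}, ?_, ?_, ?_⟩
    · rintro E ⟨C, hC, rfl⟩
      exact Filter.mem_of_superset (hC'V C hC) (hC'D C hC _)
    · intro C hC
      exact ⟨_, ⟨C, hC, rfl⟩, hDC C hC _⟩
    · intro X Y hX hY hconv
      choose Cs hCs hCsX using hX
      obtain ⟨C, hC, rfl⟩ := hY
      have hb := bit_conv (p := p) hconv (hDne C hC _) (hDne' C hC _)
      have hconv2 : ∀ m : ℕ, ∀ᶠ n in Filter.atTop, (m ∈ g (C' (Cs n)) ↔ m ∈ g (C' C)) := by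
        intro m
        filter_upwards [hb m] with n hn
        rw [← hDbit C hC (g (C' C)) m, ← hn, hCsX n, hDbit (Cs n) (hCs n) (g (C' (Cs n))) m]
      obtain ⟨φ, hφ, hφU⟩ := h𝓑conv (fun n => g (C' (Cs n))) (g (C' C))
        (fun n => hg1 _ (hC'V _ (hCs n))) (hg1 _ (hC'V _ hC)) hconv2
      refine ⟨φ, hφ, ?_⟩
      apply Filter.mem_of_superset (hfV _ hφU)
      intro x hx
      rw [Set.mem_iInter]
      intro k
      rw [hCsX]
      apply hC'D _ (hCs _)
      exact hg2 _ (hC'V _ (hCs (φ k))) _ hφU (Set.iInter_subset _ k) hx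

end Pool.Agent.S15225
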