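import Pool.Statements.S15391
import Pool.Agent.H76.HMS.Final

set_option autoImplicit false
open Pool Pool.MP_d1eab9_lc

namespace Pool.Agent.S15391

/-- Some computable f, constant c and multi-stack machine decide, in f(k)·n^c steps on the binary-encoded input of length n, whether jobs with given times and multiplicities fit on m machines with makespan at most T, where k is the number of distinct times. -/
theorem result :
    ∃ f : ℕ → ℕ, Computable f ∧ ∃ c : ℕ, ∃ tm : Turing.FinTM2,
      ∃ ei : tm.Γ tm.k₀ ≃ Option Bool, ∃ eo : tm.Γ tm.k₁ ≃ Bool,
      ∀ (m T : ℕ) (l : List (ℕ × ℕ)),
        ((∃ x : Fin l.length → Fin m → ℕ,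
            (∀ i, ∑ j, x i j = (l.get i).2) ∧ ∀ j, ∑ i, x i j * (l.get i).1 ≤ T) →
          Nonempty (Turing.TM2OutputsInTime tm
            ((List.map some (Nat.bits m) ++ ([none] : List (Option Bool)) ++
              List.map some (Nat.bits T) ++ ([none] : List (Option Bool)) ++
              l.flatMap (fun q : ℕ × ℕ => List.map some (Nat.bits q.1) ++
                ([none] : List (Option Bool)) ++ List.map some (Nat.bits q.2) ++
                ([none] : List (Option Bool)))).map ei.symm)
            (some [eo.symm true])
            (f (l.map Prod.fst).toFinset.card *
              (List.map some (Nat.bits m) ++ ([none] : List (Option Bool)) ++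
                List.map some (Nat.bits T) ++ ([none] : List (Option Bool)) ++
                l.flatMap (fun q : ℕ × ℕ => List.map some (Nat.bits q.1) ++
                  ([none] : List (Option Bool)) ++ List.map some (Nat.bits q.2) ++
                  ([none] : List (Option Bool)))).length ^ c))) ∧
        ((¬ ∃ x : Fin l.length → Fin m → ℕ,
            (∀ i, ∑ j, x i j = (l.get i).2) ∧ ∀ j, ∑ i, x i j * (l.get i).1 ≤ T) →
          Nonempty (Turing.TM2OutputsInTime tm
            ((List.map some (Nat.bits m) ++ ([none] : List (Option Bool)) ++
              List.map some (Nat.bits T) ++ ([none] : List (Option Bool)) ++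
              l.flatMap (fun q : ℕ × ℕ => List.map some (Nat.bits q.1) ++
                ([none] : List (Option Bool)) ++ List.map some (Nat.bits q.2) ++
                ([none] : List (Option Bool)))).map ei.symm)
            (some [eo.symm false])
            (f (l.map Prod.fst).toFinset.card *
              (List.map some (Nat.bits m) ++ ([none] : List (Option Bool)) ++
                List.map some (Nat.bits T) ++ ([none] : List (Option Bool)) ++
                l.flatMap (fun q : ℕ × ℕ => List.map some (Nat.bits q.1) ++
                  ([none] : List (Option Bool)) ++ List.map some (Nat.bits q.2) ++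
                  ([none] : List (Option Bool)))).length ^ c))) := by
  exact Pool.HMS.final

end Pool.Agent.S15391
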