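import Pool.Statements.S15492
import Pool.Agent.H51.ERA.Full

set_option autoImplicit false
open Pool Pool.MP_e0047e_lc

namespace Pool.Agent.S15492

/-- The negation of the preceding statement: Every regular-controlled context-free grammar (finite control automaton over rule labels, no appearance checking) has a regular-controlled grammar with no erasing rules generating the same language minus the empty word. -/
theorem result :
    ¬ (∀ (T : Type) [Fintype T] (N : Type) [Fintype N] (S : N) (Λ : Type) [Fintype Λ]
      (lab : Λ → ContextFreeRule T N) (σ : Type) [Fintype σ] (M : DFA Λ σ),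
    ∃ (N' : Type) (_ : Fintype N') (S' : N') (Λ' : Type) (_ : Fintype Λ')
      (lab' : Λ' → ContextFreeRule T N') (σ' : Type) (_ : Fintype σ') (M' : DFA Λ' σ'),
      (∀ l : Λ', (lab' l).output ≠ []) ∧
      ∀ w : List T,
        ((∃ rs : List Λ', rs ∈ M'.accepts ∧
            ∃ f : Fin (rs.length + 1) → List (Symbol T N'),
              f 0 = [Symbol.nonterminal S'] ∧
              f (Fin.last rs.length) = w.map Symbol.terminal ∧
              ∀ i : Fin rs.length, (lab' (rs.get i)).Rewrites (f i.castSucc) (f i.succ)) ↔
          ((∃ rs : List Λ, rs ∈ M.accepts ∧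
              ∃ f : Fin (rs.length + 1) → List (Symbol T N),
                f 0 = [Symbol.nonterminal S] ∧
                f (Fin.last rs.length) = w.map Symbol.terminal ∧
                ∀ i : Fin rs.length, (lab (rs.get i)).Rewrites (f i.castSucc) (f i.succ)) ∧
            w ≠ []))) := by
  exact Pool.Agent.H51.ERA.main Pool.Agent.H51.ERA.FIN_f Pool.Agent.H51.ERA.CSY_f Pool.Agent.H51.ERA.SND_f
    Pool.Agent.H51.ERA.CMP_f Pool.Agent.H51.ERA.CMW_f Pool.Agent.H51.ERA.DFF_thm

end Pool.Agent.S15492
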