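import Pool.Statements.S15931
-- import your own Pool.Agent.* helpers here
import Pool.Agent.H18.SAP.All

set_option autoImplicit false
open N36a859e3
open Nat Filter
open scoped Topology Asymptotics
open Pool Pool.MP_078383_nt

namespace Pool.Agent.S15931

/-- The set of primes q such that for all n ∈ ℕ, (least positive k with n ∣ φ(k)) = q iff n = q-1, is infinite. -/
theorem result :
    { q | q.Prime ∧ ∀ n, m n = q ↔ n = q - 1 }.Infinite := by
  rw [Set.infinite_iff_exists_gt]
  intro N
  obtain ⟨p, hpN, hp, hp3, h⟩ := SAP.all_FIN (N + 1)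
  exact ⟨p, ⟨hp, fun n => SAP.all_CRI p hp hp3 h n⟩, by omega⟩

end Pool.Agent.S15931
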