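import Pool.Statements.S19518
import Pool.Agent.H96.KacJ

set_option autoImplicit false
open MeasureTheory ProbabilityTheory Filter Topology
open Pool Pool.MP_9bdf03_pr

namespace Pool.Agent.S19518

/-- The negation of the preceding statement: For an iid standard normal sequence ξ_i, almost surely the number of real roots of ξ_0 + ξ_1 x + … + ξ_n x^n, divided by log n, tends to 2/π as n → ∞. -/
theorem result :
    ¬ (∀ (Ω : Type) [MeasureSpace Ω] [IsProbabilityMeasure (volume : Measure Ω)]
      (ξ : ℕ → Ω → ℝ),
      (∀ i, Measurable (ξ i)) →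
      iIndepFun ξ (volume : Measure Ω) →
      (∀ i, Measure.map (ξ i) (volume : Measure Ω) = gaussianReal 0 1) →
      ∀ᵐ ω ∂(volume : Measure Ω),
        Tendsto
          (fun n : ℕ =>
            ((∑ i ∈ Finset.range (n + 1),
                Polynomial.C (ξ i ω) * Polynomial.X ^ i).roots.card : ℝ)
              / Real.log n)
          atTop (𝓝 (2 / Real.pi))) := by
  intro h
  letI : MeasureSpace (ℕ → ℝ) := ⟨Pool.Agent.H96.Kac.P⟩
  have hP : IsProbabilityMeasure (volume : Measure (ℕ → ℝ)) :=
    inferInstanceAs (IsProbabilityMeasure Pool.Agent.H96.Kac.P)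
  exact Pool.Agent.H96.Kac.no_convergence (h (ℕ → ℝ) (fun i ω => ω i) (fun i => measurable_pi_apply i)
    Pool.Agent.H96.Kac.P_indep (fun i => Pool.Agent.H96.Kac.P_eval i))

end Pool.Agent.S19518
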